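import Mathlib

/-!
# The sign of the quadratic Gauss sum for `p = 3 mod 4` (Gauss' original argument)
-/

set_option autoImplicit false

open Finset

namespace Pool.Agent.H76

noncomputable section

/-- Gaussian binomial coefficients evaluated at `q` -/
def gb (q : ℂ) : ℕ → ℕ → ℂ
  | _, 0 => 1
  | 0, _ + 1 => 0
  | m + 1, k + 1 => gb q m (k + 1) + q ^ (m - k) * gb q m k

@[simp] lemma gb_zero_right (q : ℂ) (m : ℕ) : gb q m 0 = 1 := by cases m <;> rfl
@[simp] lemma gb_zero_succ (q : ℂ) (k : ℕ) : gb q 0 (k + 1) = 0 := rfl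
lemma gb_succ_succ (q : ℂ) (m k : ℕ) :
    gb q (m + 1) (k + 1) = gb q m (k + 1) + q ^ (m - k) * gb q m k := rfl

lemma gb_eq_zero (q : ℂ) : ∀ m k : ℕ, m < k → gb q m k = 0
  | 0, 0, h => absurd h (lt_irrefl _)
  | 0, k + 1, _ => rfl
  | m + 1, 0, h => absurd h (Nat.not_lt_zero _)
  | m + 1, k + 1, h => by
    rw [gb_succ_succ, gb_eq_zero q m (k + 1) (by omega), gb_eq_zero q m k (by omega)]
    ring

lemma gb_self (q : ℂ) : ∀ m : ℕ, gb q m m = 1
  | 0 => rfl
  | m + 1 => by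
    rw [gb_succ_succ, gb_eq_zero q m (m + 1) (by omega), gb_self q m]
    simp

/-- both mixed identities at once -/
lemma gb_ids (q : ℂ) (m : ℕ) :
    (∀ k, k ≤ m → gb q m (k + 1) * (1 - q ^ (k + 1)) = gb q m k * (1 - q ^ (m - k))) ∧
    (∀ k, k ≤ m → gb q (m + 1) k * (1 - q ^ (m + 1 - k)) = (1 - q ^ (m + 1)) * gb q m k) := by
  induction m with
  | zero =>
    constructor
    · intro k hk
      obtain rfl : k = 0 := by omega
      simp
    · intro k hk
      obtain rfl : k = 0 := by omega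
      simp
  | succ m ih =>
    obtain ⟨ih1, ih2⟩ := ih
    have h1 : ∀ k, k ≤ m + 1 →
        gb q (m + 1) (k + 1) * (1 - q ^ (k + 1)) = gb q (m + 1) k * (1 - q ^ (m + 1 - k)) := by
      intro k hk
      rcases Nat.lt_or_ge m k with h | h
      · obtain rfl : k = m + 1 := by omega
        rw [gb_eq_zero q (m + 1) (m + 1 + 1) (by omega)]
        simp
      · rw [ih2 k h, gb_succ_succ, add_mul, ih1 k h]
        have e : q ^ (m + 1) = q ^ (m - k) * q ^ (k + 1) := by
          rw [← pow_add]; congr 1; omega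
        rw [e]; ring
    refine ⟨h1, ?_⟩
    intro k hk
    cases k with
    | zero => simp
    | succ k =>
      have hkm : k ≤ m := by omega
      rw [gb_succ_succ]
      have e1 : m + 1 + 1 - (k + 1) = m + 1 - k := by omega
      rw [e1]
      have e2 := h1 k (by omega)
      have e3 : q ^ (m + 2) = q ^ (m + 1 - k) * q ^ (k + 1) := by
        rw [← pow_add]; congr 1; omega
      have e4 : m + 1 + 1 = m + 2 := rfl
      rw [e4, e3]
      linear_combination (-(q ^ (m + 1 - k))) * e2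
  
/-- alternating sums -/
def gf (q : ℂ) (m : ℕ) : ℂ := ∑ k ∈ range (m + 1), (-1) ^ k * gb q m k

lemma gf_rec (q : ℂ) (m : ℕ) : gf q (m + 2) = (1 - q ^ (m + 1)) * gf q m := by
  unfold gf
  have h1 : ∑ k ∈ range (m + 2 + 1), (-1 : ℂ) ^ k * gb q (m + 2) k =
      ∑ k ∈ range (m + 2), (-1 : ℂ) ^ k * (gb q (m + 1) k * (1 - q ^ (m + 1 - k))) := by
    rw [sum_range_succ']
    have h2 : ∀ k ∈ range (m + 2), (-1 : ℂ) ^ (k + 1) * gb q (m + 2) (k + 1) =
        (-1) ^ (k + 1) * gb q (m + 1) (k + 1) -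
          (-1) ^ k * (gb q (m + 1) k * q ^ (m + 1 - k)) := by
      intro k _
      rw [gb_succ_succ]; ring
    rw [sum_congr rfl h2, sum_sub_distrib]
    have h3 : ∑ k ∈ range (m + 2), (-1 : ℂ) ^ (k + 1) * gb q (m + 1) (k + 1) +
        (-1) ^ 0 * gb q (m + 2) 0 = ∑ k ∈ range (m + 2), (-1 : ℂ) ^ k * gb q (m + 1) k := by
      rw [sum_range_succ, gb_eq_zero q (m + 1) (m + 1 + 1) (by omega), mul_zero, add_zero,
        sum_range_succ' _ (m + 1)]
      simp
    have h4 : ∀ k ∈ range (m + 2), (-1 : ℂ) ^ k * (gb q (m + 1) k * (1 - q ^ (m + 1 - k))) =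
        (-1) ^ k * gb q (m + 1) k - (-1) ^ k * (gb q (m + 1) k * q ^ (m + 1 - k)) := by
      intro k _; ring
    rw [sum_congr rfl h4, sum_sub_distrib, ← h3]
    ring
  rw [h1, sum_range_succ, Nat.sub_self, pow_zero, sub_self, mul_zero, mul_zero, add_zero,
    mul_sum]
  refine sum_congr rfl fun k hk => ?_
  rw [(gb_ids q m).2 k (by rw [mem_range] at hk; omega)]
  ring

lemma gf_even (q : ℂ) (n : ℕ) : gf q (2 * n) = ∏ i ∈ range n, (1 - q ^ (2 * i + 1)) := by
  induction n with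
  | zero => simp [gf]
  | succ n ih =>
    rw [show 2 * (n + 1) = 2 * n + 2 by ring, gf_rec, ih, prod_range_succ]
    ring

open ZMod

variable (p : ℕ) [hp : Fact p.Prime]

lemma gb_root {q : ℂ} (hq : q ^ p = 1) (hne : ∀ j, 0 < j → j < p → q ^ j ≠ 1) (k : ℕ)
    (hk : k < p) : gb q (p - 1) k * q ^ (k * (k + 1) / 2) = (-1) ^ k := by
  induction k with
  | zero => simp
  | succ k ih =>
    have ih := ih (by omega)
    have h1 := (gb_ids q (p - 1)).1 k (by omega)
    have h2 : q ^ (k + 1) * q ^ (p - 1 - k) = 1 := by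
      rw [← pow_add, show k + 1 + (p - 1 - k) = p by omega, hq]
    have h3 : gb q (p - 1) (k + 1) * q ^ (k + 1) = - gb q (p - 1) k := by
      have h4 : (1 - q ^ (k + 1)) ≠ 0 := sub_ne_zero.mpr (hne (k + 1) (by omega) hk).symm
      apply mul_right_cancel₀ h4
      linear_combination q ^ (k + 1) * h1 - gb q (p - 1) k * h2
    have h5 : (k + 1) * (k + 1 + 1) / 2 = k * (k + 1) / 2 + (k + 1) := by
      rw [show (k + 1) * (k + 1 + 1) = k * (k + 1) + (k + 1) * 2 by ring,
        Nat.add_mul_div_right _ _ (by norm_num)]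
    rw [h5, pow_add]
    calc gb q (p - 1) (k + 1) * (q ^ (k * (k + 1) / 2) * q ^ (k + 1))
        = (gb q (p - 1) (k + 1) * q ^ (k + 1)) * q ^ (k * (k + 1) / 2) := by ring
      _ = -(gb q (p - 1) k * q ^ (k * (k + 1) / 2)) := by rw [h3]; ring
      _ = (-1) ^ (k + 1) := by rw [ih]; ring

lemma std_pow (x : ZMod p) (j : ℕ) : (stdAddChar x) ^ j = stdAddChar ((j : ZMod p) * x) := by
  rw [← AddChar.map_nsmul_eq_pow, nsmul_eq_mul]

lemma two_ne (hp2 : p ≠ 2) : (2 : ZMod p) ≠ 0 := by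
  intro h
  have h2 : ((2 : ℕ) : ZMod p) = 0 := by exact_mod_cast h
  rw [ZMod.natCast_eq_zero_iff] at h2
  exact hp2 ((Nat.prime_dvd_prime_iff_eq hp.out Nat.prime_two).mp h2)

lemma q_ne (hp2 : p ≠ 2) (j : ℕ) (h0 : 0 < j) (h1 : j < p) :
    (stdAddChar (-2 : ZMod p)) ^ j ≠ 1 := by
  rw [std_pow]
  intro h
  rw [← AddChar.map_zero_eq_one (stdAddChar (N := p))] at h
  have h2 := ZMod.injective_stdAddChar h
  rw [mul_neg, neg_eq_zero, mul_eq_zero] at h2
  rcases h2 with h2 | h2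
  · rw [ZMod.natCast_eq_zero_iff] at h2
    exact absurd (Nat.le_of_dvd h0 h2) (by omega)
  · exact two_ne p hp2 h2

/-- Gauss' product formula. -/
lemma sum_tri (hp2 : p ≠ 2) :
    ∑ k ∈ range p, stdAddChar (((k * (k + 1) : ℕ) : ZMod p)) =
      ∏ i ∈ range ((p - 1) / 2), (1 - (stdAddChar (-2 : ZMod p)) ^ (2 * i + 1)) := by
  have hodd : Odd p := hp.out.odd_of_ne_two hp2
  obtain ⟨m, hm⟩ := hodd
  have h1 := gf_even (stdAddChar (-2 : ZMod p)) m
  have hm1 : (p - 1) / 2 = m := by omega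
  rw [hm1, ← h1, gf]
  have hm2 : 2 * m + 1 = p := by omega
  rw [hm2]
  refine sum_congr rfl fun k hk => ?_
  have hk := mem_range.mp hk
  have hq : (stdAddChar (-2 : ZMod p)) ^ p = 1 := by
    rw [std_pow]; simp
  have h2 := gb_root p hq (q_ne p hp2) k hk
  rw [show p - 1 = 2 * m by omega] at h2
  have h3 : stdAddChar (((k * (k + 1) : ℕ) : ZMod p)) *
      (stdAddChar (-2 : ZMod p)) ^ (k * (k + 1) / 2) = 1 := by
    rw [std_pow, ← AddChar.map_add_eq_mul]
    have h4 : ((k * (k + 1) : ℕ) : ZMod p) = ((k * (k + 1) / 2 : ℕ) : ZMod p) * 2 := by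
      have : k * (k + 1) / 2 * 2 = k * (k + 1) :=
        Nat.div_mul_cancel (Nat.even_mul_succ_self k).two_dvd
      conv_lhs => rw [← this]
      push_cast; ring
    rw [h4]
    simp
  have hne : (stdAddChar (-2 : ZMod p)) ^ (k * (k + 1) / 2) ≠ 0 := by
    intro h; rw [h, mul_zero] at h3; exact zero_ne_one h3
  apply mul_right_cancel₀ hne
  rw [h3, mul_assoc, h2, ← mul_pow]
  simp

/-- the quadratic character with complex values -/
def qchi : DirichletCharacter ℂ p := (quadraticChar (ZMod p)).ringHomComp (Int.castRingHom ℂ)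

lemma qchi_apply (a : ZMod p) : qchi p a = ((quadraticChar (ZMod p) a : ℤ) : ℂ) := rfl

lemma ringChar_ne (hp2 : p ≠ 2) : ringChar (ZMod p) ≠ 2 := by
  rw [ZMod.ringChar_zmod_n]; exact hp2

lemma qchi_ne_one (hp2 : p ≠ 2) : qchi p ≠ 1 := by
  intro h
  obtain ⟨a, ha⟩ := quadraticChar_exists_neg_one (ringChar_ne p hp2)
  have ha0 : a ≠ 0 := by
    rintro rfl
    simp at ha
  have h2 := congrArg (fun χ : DirichletCharacter ℂ p => χ a) h
  simp only [qchi_apply, ha] at h2
  rw [MulChar.one_apply (isUnit_iff_ne_zero.mpr ha0)] at h2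
  norm_num at h2

lemma qchi_quadratic : (qchi p).IsQuadratic := (quadraticChar_isQuadratic _).comp _

lemma sum_sq_eq (hp2 : p ≠ 2) :
    ∑ x : ZMod p, stdAddChar (x ^ 2) = gaussSum (qchi p) stdAddChar := by
  classical
  have h1 : ∑ x : ZMod p, stdAddChar (x ^ 2) =
      ∑ a : ZMod p, ∑ x ∈ univ.filter (fun x : ZMod p => x ^ 2 = a), stdAddChar (x ^ 2) :=
    (sum_fiberwise univ (fun x : ZMod p => x ^ 2) (fun x => stdAddChar (x ^ 2))).symm
  rw [h1, gaussSum]
  have h2 : ∀ a : ZMod p, ∑ x ∈ univ.filter (fun x : ZMod p => x ^ 2 = a), stdAddChar (x ^ 2) =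
      (qchi p a + 1) * stdAddChar a := by
    intro a
    have h3 : ∑ x ∈ univ.filter (fun x : ZMod p => x ^ 2 = a), stdAddChar (x ^ 2) =
        ∑ x ∈ univ.filter (fun x : ZMod p => x ^ 2 = a), stdAddChar a :=
      sum_congr rfl fun x hx => by rw [(mem_filter.mp hx).2]
    rw [h3, sum_const, nsmul_eq_mul, qchi_apply]
    have h4 := quadraticChar_card_sqrts (ringChar_ne p hp2) a
    have h5 : ({x : ZMod p | x ^ 2 = a} : Set (ZMod p)).toFinset =
        univ.filter (fun x : ZMod p => x ^ 2 = a) := by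
      ext x; simp
    rw [h5] at h4
    have h6 : (((univ.filter (fun x : ZMod p => x ^ 2 = a)).card : ℤ) : ℂ) =
      ((quadraticChar (ZMod p) a + 1 : ℤ) : ℂ) := by rw [h4]
    push_cast at h6
    rw [h6]
  rw [sum_congr rfl fun a _ => h2 a]
  simp_rw [add_mul, one_mul]
  rw [sum_add_distrib]
  have h3 : ∑ a : ZMod p, stdAddChar a = 0 := by
    apply AddChar.sum_eq_zero_of_ne_one
    intro h
    have h4 : (stdAddChar (1 : ZMod p) : ℂ) = stdAddChar (0 : ZMod p) := by rw [h]; simp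
    exact one_ne_zero (ZMod.injective_stdAddChar h4)
  rw [h3, add_zero]

lemma sum_range_zmod (f : ZMod p → ℂ) : ∑ k ∈ range p, f (k : ZMod p) = ∑ x : ZMod p, f x := by
  have h := ZMod.natCast_zmod_surjective (n := p)
  refine sum_bij (fun k _ => (k : ZMod p)) (fun _ _ => mem_univ _) ?_ ?_ (fun _ _ => rfl)
  · intro a ha b hb hab
    have ha := mem_range.mp ha
    have hb := mem_range.mp hb
    have h2 := congrArg ZMod.val hab
    rwa [ZMod.val_cast_of_lt ha, ZMod.val_cast_of_lt hb] at h2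
  · intro x _
    exact ⟨x.val, mem_range.mpr (ZMod.val_lt x), ZMod.natCast_zmod_val x⟩

lemma gauss_prod {m : ℕ} (hm : p = 2 * m + 1) :
    gaussSum (qchi p) stdAddChar =
      ∏ i ∈ range m, (stdAddChar ((2 * i + 1 : ℕ) : ZMod p) -
        stdAddChar (-((2 * i + 1 : ℕ) : ZMod p)) : ℂ) := by
  have hp2 : p ≠ 2 := by omega
  rw [← sum_sq_eq p hp2]
  have hpz : ((2 * m + 1 : ℕ) : ZMod p) = 0 := by rw [← hm]; simp
  push_cast at hpz
  have h1 : ∑ x : ZMod p, (stdAddChar (x ^ 2) : ℂ) =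
      ∑ x : ZMod p, stdAddChar ((x - (m : ZMod p)) ^ 2) :=
    (Fintype.sum_equiv (Equiv.subRight (m : ZMod p)) _ _ (fun x => rfl)).symm
  have h2 : ∀ x : ZMod p, (x - (m : ZMod p)) ^ 2 = x * (x + 1) + ((m ^ 2 : ℕ) : ZMod p) := by
    intro x
    push_cast
    linear_combination (-x) * hpz
  rw [h1]
  simp_rw [h2, AddChar.map_add_eq_mul]
  rw [← sum_mul, ← sum_range_zmod p (fun x => (stdAddChar (x * (x + 1)) : ℂ))]
  have h3 := sum_tri p hp2
  push_cast at h3
  rw [h3, show (p - 1) / 2 = m by omega]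
  have h4 : (stdAddChar ((m ^ 2 : ℕ) : ZMod p) : ℂ) =
      ∏ i ∈ range m, stdAddChar ((2 * i + 1 : ℕ) : ZMod p) := by
    have h5 : ∀ n : ℕ, (stdAddChar ((n ^ 2 : ℕ) : ZMod p) : ℂ) =
        ∏ i ∈ range n, stdAddChar ((2 * i + 1 : ℕ) : ZMod p) := by
      intro n
      induction n with
      | zero => simp
      | succ n ih =>
        rw [prod_range_succ, ← ih, ← AddChar.map_add_eq_mul]
        congr 1
        push_cast; ring
    exact h5 m
  rw [h4, ← prod_mul_distrib]
  refine prod_congr rfl fun i _ => ?_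
  rw [std_pow, sub_mul, one_mul, ← AddChar.map_add_eq_mul]
  congr 2
  push_cast; ring

lemma std_sub (j : ℕ) : (stdAddChar (j : ZMod p) - stdAddChar (-(j : ZMod p)) : ℂ) =
    Complex.I * ((2 * Real.sin (2 * Real.pi * j / p) : ℝ) : ℂ) := by
  have h1 : (stdAddChar (j : ZMod p) : ℂ) =
      Complex.exp (((2 * Real.pi * j / p : ℝ) : ℂ) * Complex.I) := by
    have := stdAddChar_coe (N := p) (j : ℤ)
    push_cast at this
    rw [this]
    congr 1
    push_cast; ring
  have h2 : (stdAddChar (-(j : ZMod p)) : ℂ) =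
      Complex.exp (-((2 * Real.pi * j / p : ℝ) : ℂ) * Complex.I) := by
    have := stdAddChar_coe (N := p) (-(j : ℤ))
    push_cast at this
    rw [this]
    congr 1
    push_cast; ring
  rw [h1, h2, Complex.ofReal_mul, Complex.ofReal_sin, Complex.sin]
  generalize ((2 * Real.pi * j / p : ℝ) : ℂ) = t
  push_cast
  linear_combination (Complex.exp (t * Complex.I) - Complex.exp (-t * Complex.I)) *
    Complex.I_sq

/-- The sign of the quadratic Gauss sum for `p = 3 mod 4`. -/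
theorem gaussSum_three_mod_four (h4 : p % 4 = 3) :
    gaussSum (qchi p) stdAddChar = Complex.I * ((Real.sqrt p : ℝ) : ℂ) := by
  obtain ⟨r, hr⟩ : ∃ r, p = 4 * r + 3 := ⟨p / 4, by omega⟩
  have hp2 : p ≠ 2 := by omega
  have hp0 : (0 : ℝ) < p := by exact_mod_cast hp.out.pos
  have h1 := gauss_prod p (m := 2 * r + 1) (by omega)
  simp_rw [std_sub] at h1
  rw [prod_mul_distrib, prod_const, card_range, ← Complex.ofReal_prod] at h1
  set P : ℝ := ∏ i ∈ range (2 * r + 1), (2 * Real.sin (2 * Real.pi * (2 * i + 1 : ℕ) / p))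
    with hP
  have hI : Complex.I ^ (2 * r + 1) = (-1) ^ r * Complex.I := by
    rw [pow_succ, pow_mul, Complex.I_sq]
  rw [hI] at h1
  -- the sign of `P`
  have hsplit : P = (∏ i ∈ range (r + 1), (2 * Real.sin (2 * Real.pi * (2 * i + 1 : ℕ) / p))) *
      ∏ i ∈ range r, (2 * Real.sin (2 * Real.pi * (2 * (r + 1 + i) + 1 : ℕ) / p)) := by
    rw [hP, show 2 * r + 1 = (r + 1) + r by ring, prod_range_add]
  have hpos1 : 0 < ∏ i ∈ range (r + 1), (2 * Real.sin (2 * Real.pi * (2 * i + 1 : ℕ) / p)) := by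
    apply prod_pos
    intro i hi
    have hi := mem_range.mp hi
    apply mul_pos two_pos
    apply Real.sin_pos_of_pos_of_lt_pi
    · positivity
    · rw [div_lt_iff₀ hp0]
      have : ((2 * i + 1 : ℕ) : ℝ) * 2 < p := by
        have : (2 * i + 1) * 2 < p := by omega
        exact_mod_cast this
      nlinarith [Real.pi_pos]
  have hpos2 : 0 < (-1) ^ r *
      ∏ i ∈ range r, (2 * Real.sin (2 * Real.pi * (2 * (r + 1 + i) + 1 : ℕ) / p)) := by
    have : (-1 : ℝ) ^ r = ∏ i ∈ range r, (-1 : ℝ) := by simp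
    rw [this, ← prod_mul_distrib]
    apply prod_pos
    intro i hi
    have hi := mem_range.mp hi
    have hs : Real.sin (2 * Real.pi * (2 * (r + 1 + i) + 1 : ℕ) / p) < 0 := by
      have h2 : Real.sin (2 * Real.pi * (2 * (r + 1 + i) + 1 : ℕ) / p) =
          Real.sin (2 * Real.pi * (2 * (r + 1 + i) + 1 : ℕ) / p - 2 * Real.pi) := by
        rw [Real.sin_sub_two_pi]
      rw [h2]
      apply Real.sin_neg_of_neg_of_neg_pi_lt
      · rw [sub_neg, div_lt_iff₀ hp0]
        have : ((2 * (r + 1 + i) + 1 : ℕ) : ℝ) < p := by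
          have : (2 * (r + 1 + i) + 1) < p := by omega
          exact_mod_cast this
        nlinarith [Real.pi_pos]
      · rw [lt_sub_iff_add_lt, lt_div_iff₀ hp0]
        have : (p : ℝ) < ((2 * (r + 1 + i) + 1 : ℕ) : ℝ) * 2 := by
          have : p < (2 * (r + 1 + i) + 1) * 2 := by omega
          exact_mod_cast this
        nlinarith [Real.pi_pos]
    linarith
  have hQ : 0 < (-1) ^ r * P := by
    rw [hsplit]
    have := mul_pos hpos1 hpos2
    calc (0 : ℝ) < _ := this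
      _ = _ := by ring
  set Q : ℝ := (-1) ^ r * P with hQd
  have h2 : gaussSum (qchi p) stdAddChar = Complex.I * (Q : ℂ) := by
    rw [h1, hQd]; push_cast; ring
  -- the absolute value
  have h3 := gaussSum_sq (qchi_ne_one p hp2) (qchi_quadratic p)
    (ZMod.isPrimitive_stdAddChar p)
  rw [h2, ZMod.card] at h3
  have h5 : qchi p (-1) = -1 := by
    rw [qchi_apply, quadraticChar_neg_one (ringChar_ne p hp2), ZMod.card]
    rw [ZMod.χ₄_nat_three_mod_four h4]
    simp
  rw [h5, mul_pow, Complex.I_sq] at h3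
  have h6 : ((Q ^ 2 : ℝ) : ℂ) = ((p : ℝ) : ℂ) := by
    push_cast
    linear_combination -h3
  have h7 : Q ^ 2 = p := by exact_mod_cast h6
  have h8 : Real.sqrt p = Q := by
    rw [← h7, Real.sqrt_sq hQ.le]
  rw [h2, h8]

end

end Pool.Agent.H76
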