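import Pool.Agent.H76.SinZeta
import Pool.Agent.H76.GaussSign

/-!
# The value at `s = 1` of odd Dirichlet `L`-functions
-/

set_option autoImplicit false

open Finset

namespace Pool.Agent.H76

noncomputable section

open ZMod HurwitzZeta

/-- explicit value at `s = 1` of the `L`-function of the Fourier transform of an odd function -/
theorem LFunction_dft_one {N : ℕ} [NeZero N] (Φ : ZMod N → ℂ) (hΦ : Φ.Odd) :
    ZMod.LFunction (ZMod.dft Φ) 1 =
      Complex.I * Real.pi / N * ∑ j : ZMod N, (j.val : ℂ) * Φ j := by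
  have hΦ0 : Φ 0 = 0 := by
    have h := hΦ 0
    rw [neg_zero] at h
    linear_combination (1 / 2 : ℂ) * h
  rw [LFunction_dft Φ (Or.inl hΦ0)]
  have hsum : ∑ j : ZMod N, Φ j = 0 := by
    have h := Equiv.sum_comp (Equiv.neg (ZMod N)) Φ
    simp only [Equiv.neg_apply] at h
    simp_rw [hΦ _] at h
    rw [sum_neg_distrib] at h
    linear_combination (-1 / 2 : ℂ) * h
  have hcos : ∑ j : ZMod N, Φ j * cosZeta (toAddCircle (-j)) 1 = 0 := by
    have h := Equiv.sum_comp (Equiv.neg (ZMod N)) (fun j => Φ j * cosZeta (toAddCircle (-j)) 1)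
    simp only [Equiv.neg_apply] at h
    have h2 : ∀ j : ZMod N, Φ (-j) * cosZeta (toAddCircle (- -j)) 1 =
        -(Φ j * cosZeta (toAddCircle (-j)) 1) := by
      intro j
      rw [hΦ j, neg_neg, map_neg, cosZeta_neg]
      ring
    simp_rw [h2] at h
    rw [sum_neg_distrib] at h
    linear_combination (-1 / 2 : ℂ) * h
  have hsin : ∀ j : ZMod N, Φ j * sinZeta (toAddCircle (-j)) 1 =
      Φ j * ((j.val : ℂ) * (Real.pi / N)) - Φ j * (Real.pi / 2) := by
    intro j
    by_cases hj : j = 0
    · subst hj; simp [hΦ0]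
    have hN : (0 : ℝ) < N := by exact_mod_cast NeZero.pos N
    rw [map_neg, sinZeta_neg, toAddCircle_apply]
    have h0 : 0 < (j.val : ℝ) / N := by
      apply div_pos _ hN
      have : j.val ≠ 0 := by rwa [Ne, ZMod.val_eq_zero]
      exact_mod_cast Nat.pos_of_ne_zero this
    have h1 : (j.val : ℝ) / N < 1 := by
      rw [div_lt_one hN]
      exact_mod_cast ZMod.val_lt j
    rw [sinZeta_one h0 h1]
    push_cast
    ring
  simp_rw [expZeta, mul_add]
  rw [sum_add_distrib, hcos, zero_add]
  have h3 : ∀ j : ZMod N, Φ j * (Complex.I * sinZeta (toAddCircle (-j)) 1) =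
      Complex.I * (Real.pi / N) * ((j.val : ℂ) * Φ j) - Complex.I * (Real.pi / 2) * Φ j := by
    intro j
    calc Φ j * (Complex.I * sinZeta (toAddCircle (-j)) 1)
        = Complex.I * (Φ j * sinZeta (toAddCircle (-j)) 1) := by ring
      _ = _ := by rw [hsin j]; ring
  simp_rw [h3]
  rw [sum_sub_distrib, ← mul_sum, ← mul_sum, hsum]
  ring

lemma dft_quadratic {N : ℕ} [NeZero N] (χ : DirichletCharacter ℂ N)
    (hodd : χ.Odd) (hprim : χ.IsPrimitive) (hq : χ.IsQuadratic) :
    ZMod.dft (χ ·) = fun k => (-gaussSum χ stdAddChar) * χ k := by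
  funext k
  have h := hprim.fourierTransform_eq_inv_mul_gaussSum k
  rw [hq.inv, hodd.eval_neg] at h
  rw [h]
  ring

theorem L_one_quadratic {N : ℕ} [NeZero N] (χ : DirichletCharacter ℂ N)
    (hodd : χ.Odd) (hprim : χ.IsPrimitive) (hq : χ.IsQuadratic) :
    gaussSum χ stdAddChar * χ.LFunction 1 =
      - (Complex.I * Real.pi / N) * ∑ j : ZMod N, (j.val : ℂ) * χ j := by
  have hΦ : Function.Odd (fun k => χ k) := fun x => hodd.eval_neg _ x
  have h1 := LFunction_dft_one (fun k => χ k) hΦ
  rw [dft_quadratic χ hodd hprim hq] at h1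
  have h2 : ZMod.LFunction (fun k => (-gaussSum χ stdAddChar) * χ k) 1 =
      (-gaussSum χ stdAddChar) * χ.LFunction 1 := by
    unfold DirichletCharacter.LFunction ZMod.LFunction
    simp only [mul_sum]
    refine sum_congr rfl fun j _ => ?_
    ring
  rw [h2] at h1
  linear_combination -h1

theorem gaussSum_sq_odd {N : ℕ} [NeZero N] (χ : DirichletCharacter ℂ N)
    (hodd : χ.Odd) (hprim : χ.IsPrimitive) (hq : χ.IsQuadratic) :
    gaussSum χ stdAddChar ^ 2 = -N := by
  have h1 := ZMod.dft_dft (fun k => χ k)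
  rw [dft_quadratic χ hodd hprim hq] at h1
  have h2 : ZMod.dft (fun k => (-gaussSum χ stdAddChar) * χ k) =
      fun k => (-gaussSum χ stdAddChar) * ((-gaussSum χ stdAddChar) * χ k) := by
    have h3 : (fun k => (-gaussSum χ stdAddChar) * χ k) =
        (-gaussSum χ stdAddChar) • (fun k => χ k) := rfl
    have h4 : ZMod.dft ((-gaussSum χ stdAddChar) • (fun k => χ k)) =
        (-gaussSum χ stdAddChar) • ZMod.dft (fun k => χ k) := by
      exact map_smul _ _ _
    rw [h3, h4, dft_quadratic χ hodd hprim hq]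
    rfl
  rw [h2] at h1
  have h5 := congrFun h1 1
  simp only [map_one, smul_eq_mul] at h5
  have h6 := hodd.eval_neg χ 1
  rw [map_one] at h6
  rw [h6] at h5
  linear_combination h5

end

end Pool.Agent.H76
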