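import Mathlib

/-!
# The space of `d`-dimensional shifts and its Cantor-Bendixson rank

Definitions and general facts.
-/

namespace H76.CB

open Topology Filter TopologicalSpace CantorBendixson

/-- Configurations `x : ℤ^d → ℤ`. -/
def Config (d : ℕ) : Type := (Fin d → ℤ) → ℤ

/-- The sup norm `‖n‖_∞` on `ℤ^d`, as a natural number. -/
def supNorm {d : ℕ} (n : Fin d → ℤ) : ℕ := Finset.univ.sup (fun k => (n k).natAbs)

open Classical in
/-- The distance `δ(x,y) = 2^{-inf{‖n‖_∞ : x_n ≠ y_n}}`, `δ(x,x) = 0`. -/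
noncomputable def delta {d : ℕ} (x y : Config d) : ℝ :=
  if x = y then 0 else (1 / 2 : ℝ) ^ (sInf {r : ℕ | ∃ n : Fin d → ℤ, supNorm n = r ∧ x n ≠ y n})

/-- agreement on the box of radius `R` -/
def agreeC {d : ℕ} (R : ℕ) (x y : Config d) : Prop := ∀ n : Fin d → ℤ, supNorm n ≤ R → x n = y n

lemma Config.ext {d : ℕ} {x y : Config d} (h : ∀ n, x n = y n) : x = y := funext h

lemma exists_ne_of_ne {d : ℕ} {x y : Config d} (h : x ≠ y) :
    {r : ℕ | ∃ n : Fin d → ℤ, supNorm n = r ∧ x n ≠ y n}.Nonempty := by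
  by_contra hcon
  apply h
  refine Config.ext fun n => ?_
  by_contra hn
  exact hcon ⟨supNorm n, n, rfl, hn⟩

lemma delta_lt_iff {d : ℕ} (R : ℕ) (x y : Config d) :
    delta x y < (1 / 2 : ℝ) ^ R ↔ agreeC R x y := by
  unfold delta
  by_cases h : x = y
  · subst h
    simp only [if_true]
    exact ⟨fun _ n _ => rfl, fun _ => by positivity⟩
  · rw [if_neg h]
    rw [pow_lt_pow_iff_right_of_lt_one₀ (by norm_num) (by norm_num)]
    constructor
    · intro hlt n hn
      by_contra hne
      have := Nat.sInf_le (s := {r : ℕ | ∃ n : Fin d → ℤ, supNorm n = r ∧ x n ≠ y n})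
        ⟨n, rfl, hne⟩
      omega
    · intro hag
      obtain ⟨n, hn, hne⟩ := Nat.sInf_mem (exists_ne_of_ne h)
      by_contra hcon
      push Not at hcon
      exact hne (hag n (by omega))

lemma delta_le_iff {d : ℕ} (R : ℕ) (x y : Config d) :
    delta x y ≤ (1 / 2 : ℝ) ^ (R + 1) ↔ agreeC R x y := by
  constructor
  · intro h
    rw [← delta_lt_iff]
    refine lt_of_le_of_lt h ?_
    exact pow_lt_pow_right_of_lt_one₀ (by norm_num) (by norm_num) (Nat.lt_succ_self R)
  · intro h
    unfold delta
    by_cases hxy : x = y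
    · rw [if_pos hxy]; positivity
    · rw [if_neg hxy]
      apply pow_le_pow_of_le_one (by norm_num) (by norm_num)
      obtain ⟨n, hn, hne⟩ := Nat.sInf_mem (exists_ne_of_ne hxy)
      by_contra hcon
      push Not at hcon
      exact hne (h n (by omega))

lemma delta_nonneg {d : ℕ} (x y : Config d) : 0 ≤ delta x y := by
  unfold delta; split_ifs <;> positivity

lemma delta_self {d : ℕ} (x : Config d) : delta x x = 0 := by simp [delta]

lemma delta_comm {d : ℕ} (x y : Config d) : delta x y = delta y x := by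
  unfold delta
  by_cases h : x = y
  · rw [if_pos h, if_pos h.symm]
  · rw [if_neg h, if_neg (fun e => h e.symm)]
    congr 2
    ext r
    constructor
    · rintro ⟨n, h1, h2⟩; exact ⟨n, h1, fun e => h2 e.symm⟩
    · rintro ⟨n, h1, h2⟩; exact ⟨n, h1, fun e => h2 e.symm⟩

lemma delta_ultra {d : ℕ} (x y z : Config d) : delta x z ≤ max (delta x y) (delta y z) := by
  by_cases h : x = z
  · subst h
    rw [delta_self]
    exact le_trans (delta_nonneg x y) (le_max_left _ _)
  · by_contra hcon
    push Not at hcon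
    obtain ⟨h1, h2⟩ := max_lt_iff.1 hcon
    have hxz : delta x z
        = (1 / 2 : ℝ) ^ (sInf {r : ℕ | ∃ n : Fin d → ℤ, supNorm n = r ∧ x n ≠ z n}) := by
      unfold delta; rw [if_neg h]
    rw [hxz, delta_lt_iff] at h1 h2
    obtain ⟨n, hn, hne⟩ := Nat.sInf_mem (exists_ne_of_ne h)
    exact hne ((h1 n hn.le).trans (h2 n hn.le))

lemma eq_of_delta {d : ℕ} {x y : Config d} (h : delta x y = 0) : x = y := by
  by_contra hne
  unfold delta at h
  rw [if_neg hne] at h
  exact absurd h (by positivity)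

/-- The metric space of configurations, with the distance `δ`. -/
noncomputable instance (d : ℕ) : MetricSpace (Config d) where
  dist := delta
  dist_self := delta_self
  dist_comm := delta_comm
  dist_triangle x y z := by
    refine le_trans (delta_ultra x y z) ?_
    exact max_le_add_of_nonneg (delta_nonneg x y) (delta_nonneg y z)
  eq_of_dist_eq_zero := eq_of_delta

lemma dist_lt_iff {d : ℕ} (R : ℕ) (x y : Config d) :
    dist x y < (1 / 2 : ℝ) ^ R ↔ agreeC R x y := delta_lt_iff R x y

lemma dist_le_iff {d : ℕ} (R : ℕ) (x y : Config d) :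
    dist x y ≤ (1 / 2 : ℝ) ^ (R + 1) ↔ agreeC R x y := delta_le_iff R x y

/-- The translation `(σ^u x)_v = x_{u+v}`. -/
def shift {d : ℕ} (u : Fin d → ℤ) (x : Config d) : Config d := fun v => x (u + v)

instance (d : ℕ) : CompleteSpace (Config d) := by
  refine Metric.complete_of_cauchySeq_tendsto fun u hu => ?_
  rw [Metric.cauchySeq_iff] at hu
  have h : ∀ R : ℕ, ∃ N, ∀ m ≥ N, ∀ n ≥ N, agreeC R (u m) (u n) := by
    intro R
    obtain ⟨N, hN⟩ := hu ((1 / 2 : ℝ) ^ R) (by positivity)
    exact ⟨N, fun m hm n hn => (dist_lt_iff R _ _).1 (hN m hm n hn)⟩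
  choose N hN using h
  refine ⟨(fun n => u (N (supNorm n)) n : (Fin d → ℤ) → ℤ), Metric.tendsto_atTop.2 ?_⟩
  intro ε hε
  obtain ⟨R, hR⟩ := exists_pow_lt_of_lt_one hε (by norm_num : (1 / 2 : ℝ) < 1)
  -- take the max of `N r` for `r ≤ R`
  set M : ℕ := (Finset.range (R + 1)).sup N with hM
  refine ⟨M, fun k hk => lt_trans ((dist_lt_iff R _ _).2 ?_) hR⟩
  intro n hn
  have h1 : N (supNorm n) ≤ M := Finset.le_sup (f := N) (Finset.mem_range.2 (by omega))
  exact hN (supNorm n) k (le_trans h1 hk) (N (supNorm n)) le_rfl n le_rfl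

/-- `X` is a shift: all the configurations have symbols in a common finite alphabet and `X` is
invariant under all translations (nonemptiness and compactness are part of the type). -/
def IsShift {d : ℕ} (X : NonemptyCompacts (Config d)) : Prop :=
  (∃ A : Finset ℤ, ∀ x ∈ X, ∀ n, x n ∈ A) ∧ ∀ u : Fin d → ℤ, ∀ x ∈ X, shift u x ∈ X

/-- The space `S^d` of all `d`-dimensional shifts, with the Hausdorff distance. -/
def ShiftSpace (d : ℕ) : Type := {X : NonemptyCompacts (Config d) // IsShift X}

noncomputable instance (d : ℕ) : MetricSpace (ShiftSpace d) :=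
  inferInstanceAs (MetricSpace {X : NonemptyCompacts (Config d) // IsShift X})

/-- The Cantor-Bendixson rank of a topological space: the least ordinal `α` such that the
derivatives of orders `α + 1` and `α` coincide. -/
noncomputable def cbRank (Y : Type) [TopologicalSpace Y] : Ordinal.{0} :=
  sInf {α : Ordinal.{0} |
    iteratedDerivedSet (Set.univ : Set Y) (α + 1) = iteratedDerivedSet (Set.univ : Set Y) α}

/-! ### General facts on the Cantor-Bendixson derivatives -/

section general

variable {Y : Type} [MetricSpace Y]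

lemma lt_cbRank [CompleteSpace Y] {L : Set Y} (hLo : IsOpen L) (hLc : IsClosed L)
    (hL : L.Countable) {x : Y} (hx : x ∈ L) {β : Ordinal.{0}}
    (hβ : x ∈ iteratedDerivedSet (Set.univ : Set Y) β) : β < cbRank Y := by
  set ρ := cbRank Y with hρ
  have hne : {α : Ordinal.{0} | iteratedDerivedSet (Set.univ : Set Y) (α + 1)
      = iteratedDerivedSet (Set.univ : Set Y) α}.Nonempty := by
    obtain ⟨a, ha⟩ := iteratedDerivedSet_mem_fixedPoints (Set.univ : Set Y)
    refine ⟨a, ?_⟩
    rw [Function.mem_fixedPoints_iff] at ha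
    show _ = _
    rw [iteratedDerivedSet_succ, ha]
  have hmem := csInf_mem hne
  have hfix := mem_fixedPoints_of_iteratedDerivedSet_succ_eq hmem
  by_contra hcon
  push Not at hcon
  have hker : perfectKernel (Set.univ : Set Y) = iteratedDerivedSet (Set.univ : Set Y) ρ :=
    perfectKernel_eq_iteratedDerivedSet_of_mem_fixedPoints hfix
  have hperf : Perfect (perfectKernel (Set.univ : Set Y)) := perfect_perfectKernel isClosed_univ
  have hP : Perfect (L ∩ perfectKernel (Set.univ : Set Y)) := by
    constructor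
    · exact hLc.inter hperf.closed
    · exact hperf.acc.open_inter hLo
  have hxP : x ∈ L ∩ perfectKernel (Set.univ : Set Y) := by
    refine ⟨hx, ?_⟩
    rw [hker]
    exact iteratedDerivedSet_antitone _ hcon hβ
  obtain ⟨f, hf1, -, hf2⟩ := hP.exists_nat_bool_injection ⟨x, hxP⟩
  have hcount : (Set.range f).Countable := hL.mono (hf1.trans Set.inter_subset_left)
  have h1 : Countable (ℕ → Bool) := by
    have := hcount.to_subtype
    exact (Equiv.ofInjective f hf2).injective.countable
  obtain ⟨e, he⟩ := exists_surjective_nat (ℕ → Bool)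
  obtain ⟨n, hn⟩ := he (fun n => !(e n n))
  have := congrFun hn n
  simp at this

/-- successor step -/
lemma mem_succ {x : Y} {α : Ordinal.{0}} (hx : x ∈ iteratedDerivedSet (Set.univ : Set Y) α)
    (h : ∀ ε : ℝ, 0 < ε → ∃ y ∈ iteratedDerivedSet (Set.univ : Set Y) α, y ≠ x ∧ dist y x < ε) :
    x ∈ iteratedDerivedSet (Set.univ : Set Y) (α + 1) := by
  rw [iteratedDerivedSet_succ]
  refine ⟨?_, hx⟩
  rw [mem_derivedSet, accPt_iff_nhds]
  intro U hU
  obtain ⟨ε, hε, hb⟩ := Metric.mem_nhds_iff.1 hU
  obtain ⟨y, hy, hyx, hd⟩ := h ε hε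
  exact ⟨y, ⟨hb hd, hy⟩, hyx⟩

lemma exists_of_mem_succ {x : Y} {α : Ordinal.{0}}
    (hx : x ∈ iteratedDerivedSet (Set.univ : Set Y) (α + 1)) {ε : ℝ} (hε : 0 < ε) :
    ∃ y ∈ iteratedDerivedSet (Set.univ : Set Y) α, y ≠ x ∧ dist y x < ε := by
  rw [iteratedDerivedSet_succ] at hx
  have h1 := hx.1
  rw [mem_derivedSet, accPt_iff_nhds] at h1
  obtain ⟨y, ⟨hy1, hy2⟩, hne⟩ := h1 _ (Metric.ball_mem_nhds x hε)
  exact ⟨y, hy2, hne, hy1⟩

/-- membership in a derivative is detected by the successor ordinals below -/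
lemma mem_of_forall_lt {x : Y} (α : Ordinal.{0})
    (h : ∀ γ < α, x ∈ iteratedDerivedSet (Set.univ : Set Y) (γ + 1)) :
    x ∈ iteratedDerivedSet (Set.univ : Set Y) α := by
  induction α using Ordinal.limitRecOn with
  | zero => simp
  | add_one a _ => exact h a (lt_add_one a)
  | limit a ha _ =>
    rw [iteratedDerivedSet_limit ha, Set.mem_iInter]
    rintro ⟨b, hb⟩
    exact iteratedDerivedSet_antitone _ (le_self_add) (h b hb)

end general

end H76.CB
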