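import Mathlib
import Pool.Agent.H76.CBSpace

/-!
# The space of shifts: completeness, unions and the derivatives
-/

namespace H76.CB

open Topology Filter TopologicalSpace CantorBendixson

variable {d : ℕ}

/-- the underlying set of configurations -/
def carrier (S : ShiftSpace d) : Set (Config d) := (S.1 : Set (Config d))

lemma carrier_injective : Function.Injective (carrier (d := d)) := by
  intro S T h
  apply Subtype.ext
  exact SetLike.coe_injective h

lemma isCompact_carrier (S : ShiftSpace d) : IsCompact (carrier S) := S.1.isCompact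

lemma carrier_nonempty (S : ShiftSpace d) : (carrier S).Nonempty := S.1.nonempty

lemma carrier_shift (S : ShiftSpace d) (u : Fin d → ℤ) {x : Config d} (hx : x ∈ carrier S) :
    shift u x ∈ carrier S := S.2.2 u x hx

/-- the two sets have the same patterns of radius `R` -/
def agreeS (R : ℕ) (X Y : Set (Config d)) : Prop :=
  (∀ x ∈ X, ∃ y ∈ Y, agreeC R x y) ∧ (∀ y ∈ Y, ∃ x ∈ X, agreeC R x y)

lemma agreeC_symm {R : ℕ} {x y : Config d} (h : agreeC R x y) : agreeC R y x :=
  fun n hn => (h n hn).symm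

lemma agreeC_trans {R : ℕ} {x y z : Config d} (h : agreeC R x y) (h' : agreeC R y z) :
    agreeC R x z := fun n hn => (h n hn).trans (h' n hn)

lemma agreeC_mono {R R' : ℕ} (hR : R' ≤ R) {x y : Config d} (h : agreeC R x y) : agreeC R' x y :=
  fun n hn => h n (hn.trans hR)

lemma compacts_dist_lt_iff (R : ℕ) (X Y : NonemptyCompacts (Config d)) :
    dist X Y < (1 / 2 : ℝ) ^ R ↔ agreeS R (X : Set (Config d)) Y := by
  rw [Metric.NonemptyCompacts.dist_eq]
  have hfin : Metric.hausdorffEDist (X : Set (Config d)) (Y : Set (Config d)) ≠ ⊤ :=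
    Metric.hausdorffEDist_ne_top_of_nonempty_of_bounded X.nonempty Y.nonempty
      X.isCompact.isBounded Y.isCompact.isBounded
  constructor
  · intro h
    constructor
    · intro x hx
      obtain ⟨y, hy, hxy⟩ := Metric.exists_dist_lt_of_hausdorffDist_lt hx h hfin
      exact ⟨y, hy, (dist_lt_iff R x y).1 hxy⟩
    · intro y hy
      obtain ⟨x, hx, hxy⟩ := Metric.exists_dist_lt_of_hausdorffDist_lt' hy h hfin
      exact ⟨x, hx, (dist_lt_iff R x y).1 hxy⟩
  · rintro ⟨h1, h2⟩
    have : Metric.hausdorffDist (X : Set (Config d)) (Y : Set (Config d)) ≤ (1 / 2 : ℝ) ^ (R + 1) := by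
      refine Metric.hausdorffDist_le_of_mem_dist (by positivity) ?_ ?_
      · intro x hx
        obtain ⟨y, hy, hxy⟩ := h1 x hx
        exact ⟨y, hy, (dist_le_iff R x y).2 hxy⟩
      · intro y hy
        obtain ⟨x, hx, hxy⟩ := h2 y hy
        refine ⟨x, hx, ?_⟩
        rw [dist_comm]
        exact (dist_le_iff R x y).2 hxy
    refine lt_of_le_of_lt this ?_
    exact pow_lt_pow_right_of_lt_one₀ (by norm_num) (by norm_num) (Nat.lt_succ_self R)

lemma space_dist_lt_iff (R : ℕ) (S T : ShiftSpace d) :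
    dist S T < (1 / 2 : ℝ) ^ R ↔ agreeS R (carrier S) (carrier T) :=
  compacts_dist_lt_iff R S.1 T.1

lemma supNorm_add (u v : Fin d → ℤ) : supNorm (u + v) ≤ supNorm u + supNorm v := by
  unfold supNorm
  refine Finset.sup_le fun k hk => ?_
  have h1 : (u k).natAbs ≤ Finset.univ.sup (fun k => (u k).natAbs) :=
    Finset.le_sup (f := fun k => (u k).natAbs) hk
  have h2 : (v k).natAbs ≤ Finset.univ.sup (fun k => (v k).natAbs) :=
    Finset.le_sup (f := fun k => (v k).natAbs) hk
  have h3 : ((u + v) k).natAbs ≤ (u k).natAbs + (v k).natAbs := Int.natAbs_add_le _ _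
  omega

lemma agreeC_shift {R : ℕ} {u : Fin d → ℤ} {x y : Config d} (h : agreeC (R + supNorm u) x y) :
    agreeC R (shift u x) (shift u y) := by
  intro n hn
  refine h (u + n) ?_
  have := supNorm_add u n
  omega

lemma mem_of_closed_agree {X : Set (Config d)} (hX : IsClosed X) {x : Config d}
    (h : ∀ R : ℕ, ∃ y ∈ X, agreeC R x y) : x ∈ X := by
  rw [← hX.closure_eq, Metric.mem_closure_iff]
  intro ε hε
  obtain ⟨R, hR⟩ := exists_pow_lt_of_lt_one hε (by norm_num : (1 / 2 : ℝ) < 1)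
  obtain ⟨y, hy, hxy⟩ := h R
  exact ⟨y, hy, lt_trans ((dist_lt_iff R x y).2 hxy) hR⟩

lemma isClosed_isShift : IsClosed {X : NonemptyCompacts (Config d) | IsShift X} := by
  rw [← closure_subset_iff_isClosed]
  intro X hX
  rw [Metric.mem_closure_iff] at hX
  have hinv : ∀ u : Fin d → ℤ, ∀ x ∈ X, shift u x ∈ X := by
    intro u x hx
    apply mem_of_closed_agree X.isCompact.isClosed
    intro R
    obtain ⟨Y, hY, hd⟩ := hX ((1 / 2 : ℝ) ^ (R + supNorm u)) (by positivity)
    rw [compacts_dist_lt_iff] at hd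
    obtain ⟨y, hy, hxy⟩ := hd.1 x hx
    have hy' := hY.2 u y hy
    obtain ⟨z, hz, hzy⟩ := hd.2 _ hy'
    refine ⟨z, hz, agreeC_trans (agreeC_shift hxy) ?_⟩
    exact agreeC_symm (agreeC_mono (Nat.le_add_right _ _) hzy)
  refine ⟨?_, hinv⟩
  obtain ⟨Y, hY, hd⟩ := hX ((1 / 2 : ℝ) ^ 0) (by positivity)
  rw [compacts_dist_lt_iff] at hd
  obtain ⟨A, hA⟩ := hY.1
  refine ⟨A, fun x hx n => ?_⟩
  obtain ⟨y, hy, hxy⟩ := hd.1 _ (hinv n x hx)
  have h0 := hxy 0 (by simp [supNorm])
  have : shift n x 0 = x n := by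
    show x (n + 0) = x n
    rw [add_zero]
  rw [← this, h0]
  exact hA y hy 0

instance : CompleteSpace (ShiftSpace d) := by
  have : IsComplete {X : NonemptyCompacts (Config d) | IsShift X} := isClosed_isShift.isComplete
  exact this.completeSpace_coe

/-! ### Unions -/

/-- the union of two shifts -/
noncomputable def uni (S T : ShiftSpace d) : ShiftSpace d :=
  ⟨S.1 ⊔ T.1, by
    obtain ⟨A, hA⟩ := S.2.1
    obtain ⟨B, hB⟩ := T.2.1
    refine ⟨⟨A ∪ B, ?_⟩, ?_⟩
    · intro x hx n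
      rcases hx with hx | hx
      · exact Finset.mem_union_left _ (hA x hx n)
      · exact Finset.mem_union_right _ (hB x hx n)
    · intro u x hx
      rcases hx with hx | hx
      · exact Or.inl (S.2.2 u x hx)
      · exact Or.inr (T.2.2 u x hx)⟩

lemma carrier_uni (S T : ShiftSpace d) : carrier (uni S T) = carrier S ∪ carrier T := by
  unfold carrier uni
  simp

lemma agreeS_union {R : ℕ} {X X' Y : Set (Config d)} (h : agreeS R X' X) :
    agreeS R (X' ∪ Y) (X ∪ Y) := by
  constructor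
  · rintro x (hx | hx)
    · obtain ⟨y, hy, hxy⟩ := h.1 x hx
      exact ⟨y, Or.inl hy, hxy⟩
    · exact ⟨x, Or.inr hx, fun n _ => rfl⟩
  · rintro x (hx | hx)
    · obtain ⟨y, hy, hxy⟩ := h.2 x hx
      exact ⟨y, Or.inl hy, hxy⟩
    · exact ⟨x, Or.inr hx, fun n _ => rfl⟩

lemma exists_level {X Y : Set (Config d)} (hX : IsCompact X) (hY : IsClosed Y)
    (h : Disjoint X Y) : ∃ R : ℕ, ∀ X' : Set (Config d), agreeS R X' X → Disjoint X' Y := by
  obtain ⟨δ, hδ, hdis⟩ := h.exists_thickenings hX hY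
  obtain ⟨R, hR⟩ := exists_pow_lt_of_lt_one hδ (by norm_num : (1 / 2 : ℝ) < 1)
  refine ⟨R, fun X' hX' => ?_⟩
  rw [Set.disjoint_left] at hdis ⊢
  intro x hx hxY
  obtain ⟨y, hy, hxy⟩ := hX'.1 x hx
  apply hdis (a := x)
  · rw [Metric.mem_thickening_iff]
    exact ⟨y, hy, lt_trans ((dist_lt_iff R x y).2 hxy) hR⟩
  · exact Metric.self_subset_thickening hδ _ hxY

/-- The derivative of order `α` of the space of shifts -/
abbrev D (d : ℕ) (α : Ordinal.{0}) : Set (ShiftSpace d) :=
  iteratedDerivedSet (Set.univ : Set (ShiftSpace d)) α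

lemma D_anti {α β : Ordinal.{0}} (h : α ≤ β) : D d β ⊆ D d α := iteratedDerivedSet_antitone _ h

lemma mem_succ' {S : ShiftSpace d} {α : Ordinal.{0}} (hS : S ∈ D d α)
    (h : ∀ R : ℕ, ∃ S' ∈ D d α, S' ≠ S ∧ agreeS R (carrier S') (carrier S)) :
    S ∈ D d (α + 1) := by
  refine mem_succ hS (fun ε hε => ?_)
  obtain ⟨R, hR⟩ := exists_pow_lt_of_lt_one hε (by norm_num : (1 / 2 : ℝ) < 1)
  obtain ⟨S', h1, h2, h3⟩ := h R
  exact ⟨S', h1, h2, lt_trans ((space_dist_lt_iff R _ _).2 h3) hR⟩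

lemma exists_of_mem_succ' {S : ShiftSpace d} {α : Ordinal.{0}} (hS : S ∈ D d (α + 1)) (R : ℕ) :
    ∃ S' ∈ D d α, S' ≠ S ∧ agreeS R (carrier S') (carrier S) := by
  obtain ⟨S', h1, h2, h3⟩ := exists_of_mem_succ hS (by positivity : (0:ℝ) < (1 / 2 : ℝ) ^ R)
  exact ⟨S', h1, h2, (space_dist_lt_iff R _ _).1 h3⟩

lemma uni_ne {S S' T : ShiftSpace d} (h : S' ≠ S) (h1 : Disjoint (carrier S) (carrier T))
    (h2 : Disjoint (carrier S') (carrier T)) : uni S' T ≠ uni S T := by
  intro e
  apply h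
  apply carrier_injective
  have := congrArg carrier e
  rw [carrier_uni, carrier_uni] at this
  ext x
  constructor
  · intro hx
    have hx' : x ∈ carrier S ∪ carrier T := this ▸ Or.inl hx
    rcases hx' with hx' | hx'
    · exact hx'
    · exact absurd hx' (Set.disjoint_left.1 h2 hx)
  · intro hx
    have hx' : x ∈ carrier S' ∪ carrier T := this.symm ▸ Or.inl hx
    rcases hx' with hx' | hx'
    · exact hx'
    · exact absurd hx' (Set.disjoint_left.1 h1 hx)

lemma uni_comm (S T : ShiftSpace d) : uni S T = uni T S := by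
  apply carrier_injective
  rw [carrier_uni, carrier_uni, Set.union_comm]

lemma uni_mem_left (α : Ordinal.{0}) : ∀ S T : ShiftSpace d, S ∈ D d α →
    Disjoint (carrier S) (carrier T) → uni S T ∈ D d α := by
  induction α using WellFoundedLT.induction with
  | ind α ih =>
    intro S T hS hdis
    apply mem_of_forall_lt
    intro γ hγ
    refine mem_succ' (ih γ hγ S T (D_anti hγ.le hS) hdis) (fun R => ?_)
    obtain ⟨R0, hR0⟩ := exists_level (isCompact_carrier S) (isCompact_carrier T).isClosed hdis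
    have hS' : S ∈ D d (γ + 1) := D_anti (Order.add_one_le_of_lt hγ) hS
    obtain ⟨S', h1, h2, h3⟩ := exists_of_mem_succ' hS' (max R R0)
    have h4 : agreeS R (carrier S') (carrier S) :=
      ⟨fun x hx => by
        obtain ⟨y, hy, hxy⟩ := h3.1 x hx
        exact ⟨y, hy, agreeC_mono (le_max_left _ _) hxy⟩, fun x hx => by
        obtain ⟨y, hy, hxy⟩ := h3.2 x hx
        exact ⟨y, hy, agreeC_mono (le_max_left _ _) hxy⟩⟩
    have h5 : agreeS R0 (carrier S') (carrier S) :=
      ⟨fun x hx => by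
        obtain ⟨y, hy, hxy⟩ := h3.1 x hx
        exact ⟨y, hy, agreeC_mono (le_max_right _ _) hxy⟩, fun x hx => by
        obtain ⟨y, hy, hxy⟩ := h3.2 x hx
        exact ⟨y, hy, agreeC_mono (le_max_right _ _) hxy⟩⟩
    have hdis' := hR0 _ h5
    refine ⟨uni S' T, ih γ hγ S' T h1 hdis', uni_ne h2 hdis hdis', ?_⟩
    rw [carrier_uni, carrier_uni]
    exact agreeS_union h4

/-- **Disjoint unions**: the orders of the derivatives add up. -/
lemma uni_mem (α β : Ordinal.{0}) : ∀ S T : ShiftSpace d, S ∈ D d α → T ∈ D d β →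
    Disjoint (carrier S) (carrier T) → uni S T ∈ D d (α + β) := by
  induction β using WellFoundedLT.induction with
  | ind β ih =>
    intro S T hS hT hdis
    apply mem_of_forall_lt
    intro γ hγ
    rcases lt_or_ge γ α with h | h
    · exact D_anti (Order.add_one_le_of_lt h) (uni_mem_left α S T hS hdis)
    · obtain ⟨β', rfl⟩ := exists_add_of_le h
      have hβ' : β' < β := by simpa using hγ
      refine mem_succ' (ih β' hβ' S T hS (D_anti hβ'.le hT) hdis) (fun R => ?_)
      obtain ⟨R0, hR0⟩ := exists_level (isCompact_carrier T) (isCompact_carrier S).isClosed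
        hdis.symm
      have hT' : T ∈ D d (β' + 1) := D_anti (Order.add_one_le_of_lt hβ') hT
      obtain ⟨T', h1, h2, h3⟩ := exists_of_mem_succ' hT' (max R R0)
      have h4 : agreeS R (carrier T') (carrier T) :=
        ⟨fun x hx => by
          obtain ⟨y, hy, hxy⟩ := h3.1 x hx
          exact ⟨y, hy, agreeC_mono (le_max_left _ _) hxy⟩, fun x hx => by
          obtain ⟨y, hy, hxy⟩ := h3.2 x hx
          exact ⟨y, hy, agreeC_mono (le_max_left _ _) hxy⟩⟩
      have h5 : agreeS R0 (carrier T') (carrier T) :=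
        ⟨fun x hx => by
          obtain ⟨y, hy, hxy⟩ := h3.1 x hx
          exact ⟨y, hy, agreeC_mono (le_max_right _ _) hxy⟩, fun x hx => by
          obtain ⟨y, hy, hxy⟩ := h3.2 x hx
          exact ⟨y, hy, agreeC_mono (le_max_right _ _) hxy⟩⟩
      have hdis' := hR0 _ h5
      refine ⟨uni S T', ih β' hβ' S T' hS h1 hdis'.symm, ?_, ?_⟩
      · rw [uni_comm S T', uni_comm S T]
        exact uni_ne h2 hdis.symm hdis'
      · rw [uni_comm S T', uni_comm S T, carrier_uni, carrier_uni]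
        exact agreeS_union h4

/-- the set `X` is a shift in the derivative of order `α` -/
def InCB (α : Ordinal.{0}) (X : Set (Config d)) : Prop := ∃ S : ShiftSpace d, carrier S = X ∧ S ∈ D d α

lemma InCB.union {α β : Ordinal.{0}} {X Y : Set (Config d)} (hX : InCB α X) (hY : InCB β Y)
    (h : Disjoint X Y) : InCB (α + β) (X ∪ Y) := by
  obtain ⟨S, rfl, hS⟩ := hX
  obtain ⟨T, rfl, hT⟩ := hY
  exact ⟨uni S T, carrier_uni S T, uni_mem α β S T hS hT h⟩

lemma InCB.mono {α β : Ordinal.{0}} (h : α ≤ β) {X : Set (Config d)} (hX : InCB β X) :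
    InCB α X := by
  obtain ⟨S, h1, h2⟩ := hX
  exact ⟨S, h1, D_anti h h2⟩

lemma InCB.mem {α : Ordinal.{0}} {S : ShiftSpace d} (h : InCB α (carrier S)) : S ∈ D d α := by
  obtain ⟨T, h1, h2⟩ := h
  rw [← carrier_injective h1]; exact h2

lemma InCB.succ {α : Ordinal.{0}} {X : Set (Config d)} (hX : InCB α X)
    (h : ∀ R : ℕ, ∃ X', InCB α X' ∧ X' ≠ X ∧ agreeS R X' X) : InCB (α + 1) X := by
  obtain ⟨S, rfl, hS⟩ := hX
  refine ⟨S, rfl, mem_succ' hS (fun R => ?_)⟩
  obtain ⟨_, ⟨S', rfl, hS'⟩, h2, h3⟩ := h R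
  exact ⟨S', hS', fun e => h2 (by rw [e]), h3⟩

lemma InCB.of_forall_lt {α : Ordinal.{0}} {S : ShiftSpace d}
    (h : ∀ γ < α, InCB (γ + 1) (carrier S)) : InCB α (carrier S) :=
  ⟨S, rfl, mem_of_forall_lt α (fun γ hγ => (h γ hγ).mem)⟩

end H76.CB
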