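import Mathlib

/-!
# Furstenberg's `×p, ×q` theorem on the circle

A closed infinite subset of `ℝ/ℤ` invariant under multiplication by two multiplicatively
independent integers `p, q ≥ 2` is the whole circle.
-/

namespace H76.Furst

open Filter Topology

/-- multiplicative independence: no nontrivial power of `p` is a power of `q`. -/
def MulIndep (p q : ℕ) : Prop := ∀ a b : ℕ, 0 < a → 0 < b → p ^ a ≠ q ^ b

lemma MulIndep.symm {p q : ℕ} (h : MulIndep p q) : MulIndep q p :=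
  fun a b ha hb e => h b a hb ha e.symm

lemma MulIndep.pow {p q : ℕ} (h : MulIndep p q) {s t : ℕ} (hs : 0 < s) (ht : 0 < t) :
    MulIndep (p ^ s) (q ^ t) := by
  intro a b ha hb e
  rw [← pow_mul, ← pow_mul] at e
  exact h _ _ (Nat.mul_pos hs ha) (Nat.mul_pos ht hb) e

lemma mulIndep_two_three : MulIndep 2 3 := by
  intro a b ha hb e
  have h1 : Even (2 ^ a) := (Nat.even_pow.2 ⟨even_two, ha.ne'⟩)
  have h2 : Odd (3 ^ b) := Odd.pow (by decide)
  rw [e] at h1
  exact (Nat.not_even_iff_odd.2 h2) h1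

/-- Dirichlet: there are powers with ratio close to one. -/
lemma exists_ratio {p q : ℕ} (hp : 2 ≤ p) (hq : 2 ≤ q) (h : MulIndep p q) {ε : ℝ} (hε : 0 < ε) :
    ∃ a b : ℕ, 0 < a ∧ 0 < b ∧
      ((1 < (p:ℝ) ^ a / (q:ℝ) ^ b ∧ (p:ℝ) ^ a / (q:ℝ) ^ b < 1 + ε) ∨
        (1 < (q:ℝ) ^ b / (p:ℝ) ^ a ∧ (q:ℝ) ^ b / (p:ℝ) ^ a < 1 + ε)) := by
  have hp1 : (1:ℝ) < p := by exact_mod_cast (by omega : 1 < p)
  have hq1 : (1:ℝ) < q := by exact_mod_cast (by omega : 1 < q)
  have hlp : 0 < Real.log p := Real.log_pos hp1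
  have hlq : 0 < Real.log q := Real.log_pos hq1
  set ξ := Real.log p / Real.log q with hξ
  have hξ0 : 0 < ξ := div_pos hlp hlq
  have hle : 0 < Real.log (1 + ε) := Real.log_pos (by linarith)
  obtain ⟨n, hn⟩ := exists_nat_gt (max (1 / ξ) (Real.log q / Real.log (1 + ε)))
  have hn1 : 1 / ξ < n := lt_of_le_of_lt (le_max_left _ _) hn
  have hn2 : Real.log q / Real.log (1 + ε) < n := lt_of_le_of_lt (le_max_right _ _) hn
  have hn0 : (0:ℝ) < n := lt_trans (by positivity) hn1
  have hnpos : 0 < n := by exact_mod_cast hn0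
  obtain ⟨k, hk0, -, hk⟩ := Real.exists_nat_abs_mul_sub_round_le ξ hnpos
  set j : ℤ := round ((k:ℝ) * ξ) with hj
  have hn1' : 1 / ((n:ℝ) + 1) < ξ := by
    rw [div_lt_iff₀ (by positivity)]
    rw [div_lt_iff₀ hξ0] at hn1
    nlinarith
  have hjpos : 0 < j := by
    by_contra hcon
    have hj0 : (j:ℝ) ≤ 0 := by exact_mod_cast not_lt.1 hcon
    have hk1 : (1:ℝ) ≤ k := by exact_mod_cast hk0
    have h1 : ξ ≤ (k:ℝ) * ξ := by nlinarith
    have h2 := (abs_le.1 hk).2
    linarith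
  obtain ⟨b, hb⟩ := Int.eq_ofNat_of_zero_le hjpos.le
  have hb0 : 0 < b := by
    have : (0:ℤ) < (b:ℤ) := by rw [← hb]; exact hjpos
    exact_mod_cast this
  refine ⟨k, b, hk0, hb0, ?_⟩
  have hpa : (0:ℝ) < (p:ℝ) ^ k := by positivity
  have hqb : (0:ℝ) < (q:ℝ) ^ b := by positivity
  have hlog : |(k:ℝ) * Real.log p - b * Real.log q| < Real.log (1 + ε) := by
    have e1 : (k:ℝ) * Real.log p - b * Real.log q = ((k:ℝ) * ξ - j) * Real.log q := by
      rw [hξ, hb]; field_simp; push_cast; ring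
    rw [e1, abs_mul, abs_of_pos hlq]
    calc |(k:ℝ) * ξ - j| * Real.log q ≤ 1 / ((n:ℝ) + 1) * Real.log q := by gcongr
      _ < Real.log (1 + ε) := by
        rw [div_lt_iff₀ hle] at hn2
        rw [one_div, inv_mul_lt_iff₀ (by positivity)]
        nlinarith
  have hne : (p:ℝ) ^ k ≠ (q:ℝ) ^ b := by
    intro e
    exact h k b hk0 hb0 (by exact_mod_cast e)
  rcases lt_or_gt_of_ne hne with hlt | hgt
  · right
    refine ⟨(one_lt_div hpa).2 hlt, ?_⟩
    rw [div_lt_iff₀ hpa]
    have h3 : (b:ℝ) * Real.log q - k * Real.log p < Real.log (1 + ε) := by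
      have := (abs_lt.1 hlog).1; linarith
    rw [← Real.log_lt_log_iff hqb (by positivity), Real.log_mul (by positivity) (by positivity),
      Real.log_pow, Real.log_pow]
    linarith
  · left
    refine ⟨(one_lt_div hqb).2 hgt, ?_⟩
    rw [div_lt_iff₀ hqb]
    have h3 : (k:ℝ) * Real.log p - b * Real.log q < Real.log (1 + ε) := (abs_lt.1 hlog).2
    rw [← Real.log_lt_log_iff hpa (by positivity), Real.log_mul (by positivity) (by positivity),
      Real.log_pow, Real.log_pow]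
    linarith

/-- Covering lemma, from one ratio `u = p ^ a / q ^ b ∈ (1, 1 + ε)`. -/
lemma cover_aux {p q : ℕ} (hp : 2 ≤ p) (hq : 2 ≤ q) {ε : ℝ} (hε : 0 < ε) {a b : ℕ}
    (h1 : 1 < (p:ℝ) ^ a / (q:ℝ) ^ b) (h2 : (p:ℝ) ^ a / (q:ℝ) ^ b < 1 + ε) :
    ∃ δ₀ : ℝ, 0 < δ₀ ∧ ∀ δ : ℝ, 0 < δ → δ < δ₀ → ∀ t : ℝ, ε ≤ t → t ≤ 1 →
      ∃ i j : ℕ, |(p:ℝ) ^ i * (q:ℝ) ^ j * δ - t| < ε := by
  set u : ℝ := (p:ℝ) ^ a / (q:ℝ) ^ b with hu
  have hp1 : (1:ℝ) < p := by exact_mod_cast (by omega : 1 < p)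
  have hq1 : (1:ℝ) < q := by exact_mod_cast (by omega : 1 < q)
  have hq0 : (0:ℝ) < q := by linarith
  have hp0 : (0:ℝ) < p := by linarith
  obtain ⟨K, hK⟩ := pow_unbounded_of_one_lt ((p:ℝ) / ε) h1
  refine ⟨ε / (q:ℝ) ^ (b * K), by positivity, fun δ hδ hδ0 t ht1 ht2 => ?_⟩
  set s0 : ℝ := (q:ℝ) ^ (b * K) * δ with hs0
  have hs0pos : 0 < s0 := by positivity
  have hs0lt : s0 < ε := by
    rw [lt_div_iff₀ (by positivity)] at hδ0
    rw [hs0, mul_comm]; exact hδ0
  obtain ⟨c, hc1, hc2⟩ := exists_nat_pow_near (x := ε / s0) (y := (p:ℝ))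
    ((one_le_div hs0pos).2 hs0lt.le) hp1
  set s : ℝ := (p:ℝ) ^ c * s0 with hs
  have hspos : 0 < s := by positivity
  have hsle : s ≤ ε := by rw [le_div_iff₀ hs0pos] at hc1; exact hc1
  have hsge : ε < p * s := by
    rw [div_lt_iff₀ hs0pos, pow_succ] at hc2
    rw [hs]; nlinarith
  obtain ⟨i, hi1, hi2⟩ := exists_nat_pow_near (x := t / s) (y := u)
    ((one_le_div hspos).2 (by linarith)) h1
  have hiK : i ≤ K := by
    by_contra hcon
    push Not at hcon
    have : u ^ K ≤ u ^ i := pow_le_pow_right₀ h1.le hcon.le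
    have h5 : t / s ≤ 1 / s := by gcongr
    have h6 : 1 / s < p / ε := by
      rw [div_lt_div_iff₀ hspos hε]; linarith
    linarith
  refine ⟨c + a * i, b * (K - i), ?_⟩
  have e1 : (p:ℝ) ^ (c + a * i) * (q:ℝ) ^ (b * (K - i)) * δ = u ^ i * s := by
    have e2 : (q:ℝ) ^ (b * K) = (q:ℝ) ^ (b * (K - i)) * ((q:ℝ) ^ b) ^ i := by
      rw [← pow_mul, ← pow_add, ← mul_add, Nat.sub_add_cancel hiK]
    rw [hs, hs0, e2, hu, div_pow, pow_add, pow_mul]
    field_simp
  rw [e1]
  rw [le_div_iff₀ hspos] at hi1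
  rw [div_lt_iff₀ hspos] at hi2
  rw [abs_lt]
  constructor
  · have : t < u * (u ^ i * s) := by rw [pow_succ] at hi2; linarith
    have h7 : u * (u ^ i * s) ≤ u ^ i * s + ε * (u ^ i * s) := by
      have : 0 < u ^ i * s := by positivity
      nlinarith
    have h8 : ε * (u ^ i * s) ≤ ε * 1 := by gcongr; linarith
    linarith
  · linarith

lemma cover {p q : ℕ} (hp : 2 ≤ p) (hq : 2 ≤ q) (h : MulIndep p q) {ε : ℝ} (hε : 0 < ε) :
    ∃ δ₀ : ℝ, 0 < δ₀ ∧ ∀ δ : ℝ, 0 < δ → δ < δ₀ → ∀ t : ℝ, ε ≤ t → t ≤ 1 →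
      ∃ i j : ℕ, |(p:ℝ) ^ i * (q:ℝ) ^ j * δ - t| < ε := by
  obtain ⟨a, b, -, -, h1 | h1⟩ := exists_ratio hp hq h hε
  · exact cover_aux hp hq hε h1.1 h1.2
  · obtain ⟨δ₀, h0, h2⟩ := cover_aux hq hp hε h1.1 h1.2
    refine ⟨δ₀, h0, fun δ hδ hδ0 t ht1 ht2 => ?_⟩
    obtain ⟨i, j, hij⟩ := h2 δ hδ hδ0 t ht1 ht2
    exact ⟨j, i, by rw [mul_comm ((p:ℝ) ^ j)]; exact hij⟩

lemma exists_rep (x : UnitAddCircle) : ∃ r : ℝ, (r : UnitAddCircle) = x ∧ ‖x‖ = |r| := by
  induction x using QuotientAddGroup.induction_on with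
  | H z =>
    refine ⟨z - round z, ?_, ?_⟩
    · have : ((z - round z : ℝ) : UnitAddCircle) = (z : UnitAddCircle) - ((round z : ℤ) : ℝ) := by
        push_cast; rfl
      rw [this]
      have h0 : (((round z : ℤ) : ℝ) : UnitAddCircle) = 0 := by
        rw [AddCircle.coe_eq_zero_iff]
        exact ⟨round z, by simp⟩
      rw [h0, sub_zero]
    · exact UnitAddCircle.norm_eq (x := z)

/-- Closed, invariant under `p` and `q`. -/
def Inv (p q : ℕ) (S : Set UnitAddCircle) : Prop :=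
  (∀ x ∈ S, p • x ∈ S) ∧ (∀ x ∈ S, q • x ∈ S)

lemma Inv.pow_mem {p q : ℕ} {S : Set UnitAddCircle} (h : Inv p q S) {x : UnitAddCircle}
    (hx : x ∈ S) (i j : ℕ) : (p ^ i * q ^ j) • x ∈ S := by
  induction i with
  | zero =>
    induction j with
    | zero => simpa using hx
    | succ j ih =>
      have := h.2 _ ih
      rw [smul_smul] at this
      convert this using 2
      ring
  | succ i ih =>
    have := h.1 _ ih
    rw [smul_smul] at this
    convert this using 2
    ring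

lemma Inv.pow {p q : ℕ} {S : Set UnitAddCircle} (h : Inv p q S) (s : ℕ) :
    Inv (p ^ s) (q ^ s) S := by
  constructor
  · intro x hx
    have := h.pow_mem hx s 0
    simpa using this
  · intro x hx
    have := h.pow_mem hx 0 s
    simpa using this

/-- Step 1: if `0` is an accumulation point of the closed invariant set `S` then `S = 𝕋`. -/
lemma eq_univ_of_acc_zero {p q : ℕ} (hp : 2 ≤ p) (hq : 2 ≤ q) (h : MulIndep p q)
    {S : Set UnitAddCircle} (hS : IsClosed S) (hinv : Inv p q S)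
    (hacc : ∀ δ : ℝ, 0 < δ → ∃ x ∈ S, x ≠ 0 ∧ ‖x‖ < δ) : S = Set.univ := by
  rw [Set.eq_univ_iff_forall]
  intro y
  rw [← hS.closure_eq, Metric.mem_closure_iff]
  intro ε hε
  set ε' : ℝ := min (ε / 4) (1 / 2) with hε'
  have hε'0 : 0 < ε' := by positivity
  have hε'1 : ε' ≤ 1 / 2 := min_le_right _ _
  have hε'2 : ε' ≤ ε / 4 := min_le_left _ _
  obtain ⟨δ₀, hδ₀, hcov⟩ := cover hp hq h hε'0
  obtain ⟨x, hxS, hx0, hxδ⟩ := hacc δ₀ hδ₀
  obtain ⟨r, hr, hrn⟩ := exists_rep x
  have hr0 : r ≠ 0 := by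
    rintro rfl
    exact hx0 (by rw [← hr]; simp)
  obtain ⟨w, hw, hw1⟩ := (AddCircle.coe_image_Icc_eq (1:ℝ) 0).symm ▸ Set.mem_univ y
  · have key : ∀ t : ℝ, 0 ≤ t → t ≤ 1 → ∀ σ : ℝ, (σ = 1 ∨ σ = -1) → r * σ > 0 →
        ∃ b ∈ S, dist ((σ * t : ℝ) : UnitAddCircle) b < ε := by
      intro t ht0 ht1 σ hσ hrσ
      have hσ2 : σ * σ = 1 := by rcases hσ with rfl | rfl <;> norm_num
      have hσa : |σ| = 1 := by rcases hσ with rfl | rfl <;> simp
      have hrabs : |r| = r * σ := by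
        have : |r| = |r * σ| := by rw [abs_mul, hσa, mul_one]
        rw [this, abs_of_pos hrσ]
      obtain ⟨i, j, hij⟩ := hcov (r * σ) hrσ (by rw [← hrabs, ← hrn]; exact hxδ) (max t ε')
        (le_max_right _ _) (max_le ht1 (by linarith))
      refine ⟨(p ^ i * q ^ j) • x, hinv.pow_mem hxS i j, ?_⟩
      have e1 : (p ^ i * q ^ j) • x = (((p:ℝ) ^ i * (q:ℝ) ^ j * r : ℝ) : UnitAddCircle) := by
        rw [← hr, ← AddCircle.coe_nsmul]
        congr 1
        rw [nsmul_eq_mul]; push_cast; ring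
      rw [e1, dist_eq_norm, ← AddCircle.coe_sub]
      have e2 : ‖((σ * t - (p:ℝ) ^ i * (q:ℝ) ^ j * r : ℝ) : UnitAddCircle)‖
          ≤ |σ * t - (p:ℝ) ^ i * (q:ℝ) ^ j * r| := by
        rw [UnitAddCircle.norm_eq]
        simpa using round_le (σ * t - (p:ℝ) ^ i * (q:ℝ) ^ j * r) 0
      refine lt_of_le_of_lt e2 ?_
      have e3 : σ * t - (p:ℝ) ^ i * (q:ℝ) ^ j * r
          = σ * (t - (p:ℝ) ^ i * (q:ℝ) ^ j * (r * σ)) := by
        have : (p:ℝ) ^ i * (q:ℝ) ^ j * r = (σ * σ) * ((p:ℝ) ^ i * (q:ℝ) ^ j * r) := by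
          rw [hσ2, one_mul]
        rw [this]; ring
      rw [e3, abs_mul, hσa, one_mul]
      have e4 : |t - max t ε'| ≤ ε' := by
        rcases le_total t ε' with h' | h'
        · rw [max_eq_right h', abs_le]; constructor <;> linarith
        · rw [max_eq_left h']; simp; linarith
      calc |t - (p:ℝ) ^ i * (q:ℝ) ^ j * (r * σ)|
          = |(t - max t ε') - ((p:ℝ) ^ i * (q:ℝ) ^ j * (r * σ) - max t ε')| := by ring_nf
        _ ≤ |t - max t ε'| + |(p:ℝ) ^ i * (q:ℝ) ^ j * (r * σ) - max t ε'| := abs_sub _ _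
        _ < ε := by linarith
    rcases lt_or_gt_of_ne hr0 with hneg | hpos
    · -- use σ = -1, t = 1 - w
      obtain ⟨b, hb, hb1⟩ := key (1 - w) (by have := hw.2; linarith) (by have := hw.1; linarith)
        (-1) (Or.inr rfl) (by linarith)
      refine ⟨b, hb, ?_⟩
      have : (((-1) * (1 - w) : ℝ) : UnitAddCircle) = y := by
        rw [← hw1]
        have : ((-1) * (1 - w) : ℝ) = w - 1 := by ring
        rw [this, AddCircle.coe_sub]
        have h1 : ((1:ℝ) : UnitAddCircle) = 0 := AddCircle.coe_period 1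
        rw [h1, sub_zero]
      rw [this] at hb1
      exact hb1
    · obtain ⟨b, hb, hb1⟩ := key w hw.1 (by have := hw.2; linarith) 1 (Or.inl rfl) (by linarith)
      refine ⟨b, hb, ?_⟩
      rw [one_mul, hw1] at hb1
      exact hb1

/-- Scaled version of the previous lemma around a point fixed by `p` and `q`. -/
lemma eq_univ_of_acc_fixed {p q : ℕ} (hp : 2 ≤ p) (hq : 2 ≤ q) (h : MulIndep p q)
    {S : Set UnitAddCircle} (hS : IsClosed S) (hinv : Inv p q S) {r : UnitAddCircle}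
    (hpr : p • r = r) (hqr : q • r = r)
    (hacc : ∀ δ : ℝ, 0 < δ → ∃ x ∈ S, x ≠ r ∧ ‖x - r‖ < δ) : S = Set.univ := by
  have h1 : (fun x => x + r) ⁻¹' S = Set.univ := by
    refine eq_univ_of_acc_zero hp hq h (hS.preimage (by fun_prop)) ⟨?_, ?_⟩ ?_
    · intro x hx
      have := hinv.1 _ hx
      simp only [Set.mem_preimage] at hx ⊢
      rwa [smul_add, hpr] at this
    · intro x hx
      have := hinv.2 _ hx
      simp only [Set.mem_preimage] at hx ⊢
      rwa [smul_add, hqr] at this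
    · intro δ hδ
      obtain ⟨x, hx, hne, hn⟩ := hacc δ hδ
      exact ⟨x - r, by simpa using hx, sub_ne_zero.2 hne, hn⟩
  rw [Set.eq_univ_iff_forall] at h1 ⊢
  intro x
  simpa using h1 (x - r)

/-- The set of accumulation points. -/
def acc (S : Set UnitAddCircle) : Set UnitAddCircle :=
  {r | ∀ δ : ℝ, 0 < δ → ∃ x ∈ S, x ≠ r ∧ ‖x - r‖ < δ}

lemma isClosed_acc (S : Set UnitAddCircle) : IsClosed (acc S) := by
  rw [← isOpen_compl_iff, Metric.isOpen_iff]
  intro r hr
  simp only [acc, Set.mem_compl_iff, Set.mem_ofPred_eq, not_forall, not_exists, not_and] at hr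
  obtain ⟨δ, hδ, hr⟩ := hr
  refine ⟨δ / 2, by positivity, fun r' hr' => ?_⟩
  rw [Metric.mem_ball, dist_eq_norm] at hr'
  simp only [acc, Set.mem_compl_iff, Set.mem_ofPred_eq, not_forall, not_exists, not_and]
  by_cases hrr : r' = r
  · subst hrr
    exact ⟨δ, hδ, hr⟩
  · have hpos : 0 < ‖r' - r‖ := norm_pos_iff.2 (sub_ne_zero.2 hrr)
    refine ⟨min (δ / 2) ‖r' - r‖, by positivity, fun x hxS hxne hlt => ?_⟩
    have hxr : x ≠ r := by
      rintro rfl
      have := lt_of_lt_of_le hlt (min_le_right _ _)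
      rw [norm_sub_rev] at this
      exact lt_irrefl _ this
    refine hr x hxS hxr ?_
    calc ‖x - r‖ = ‖(x - r') + (r' - r)‖ := by abel_nf
      _ ≤ ‖x - r'‖ + ‖r' - r‖ := norm_add_le _ _
      _ < δ / 2 + δ / 2 := add_lt_add (lt_of_lt_of_le hlt (min_le_left _ _)) hr'
      _ = δ := by ring

lemma acc_subset {S : Set UnitAddCircle} (hS : IsClosed S) : acc S ⊆ S := by
  intro r hr
  rw [← hS.closure_eq, Metric.mem_closure_iff]
  intro ε hε
  obtain ⟨x, hx, -, hn⟩ := hr ε hε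
  exact ⟨x, hx, by rw [dist_comm, dist_eq_norm]; exact hn⟩

lemma acc_nonempty {S : Set UnitAddCircle} (hS : S.Infinite) : (acc S).Nonempty := by
  obtain ⟨x, hx⟩ := hS.exists_accPt_principal
  refine ⟨x, fun δ hδ => ?_⟩
  rw [accPt_iff_nhds] at hx
  obtain ⟨y, ⟨hy1, hy2⟩, hne⟩ := hx (Metric.ball x δ) (Metric.ball_mem_nhds x hδ)
  exact ⟨y, hy2, hne, by rw [← dist_eq_norm]; exact hy1⟩

/-- multiplication by `n ≥ 1` expands small vectors -/
lemma norm_nsmul_small {n : ℕ} {x : UnitAddCircle} (hx : (n:ℝ) * ‖x‖ < 1 / 2) :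
    ‖n • x‖ = n * ‖x‖ := by
  obtain ⟨r, hr, hrn⟩ := exists_rep x
  rw [← hr, ← AddCircle.coe_nsmul, hr, hrn, nsmul_eq_mul]
  rw [hrn] at hx
  rw [(AddCircle.norm_coe_eq_abs_iff (p := (1:ℝ)) one_ne_zero).2]
  · rw [abs_mul, Nat.abs_cast]
  · rw [abs_mul, Nat.abs_cast, abs_one]; exact hx.le

lemma norm_nsmul_le' (n : ℕ) (x : UnitAddCircle) : ‖n • x‖ ≤ n * ‖x‖ := by
  simpa using norm_nsmul_le (a := x) (n := n)

lemma acc_smul {S : Set UnitAddCircle} {n : ℕ} (hn : 0 < n) (hS : ∀ x ∈ S, n • x ∈ S)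
    {r : UnitAddCircle} (hr : r ∈ acc S) : n • r ∈ acc S := by
  intro δ hδ
  have hn0 : (0:ℝ) < n := by exact_mod_cast hn
  obtain ⟨x, hx, hne, hlt⟩ := hr (min (δ / n) (1 / (4 * n))) (by positivity)
  have h1 : ‖x - r‖ < δ / n := lt_of_lt_of_le hlt (min_le_left _ _)
  have h2 : ‖x - r‖ < 1 / (4 * n) := lt_of_lt_of_le hlt (min_le_right _ _)
  have h3 : (n:ℝ) * ‖x - r‖ < 1 / 2 := by
    rw [lt_div_iff₀ (by positivity)] at h2
    linarith
  have h4 := norm_nsmul_small h3
  refine ⟨n • x, hS x hx, ?_, ?_⟩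
  · intro e
    have : n • (x - r) = 0 := by rw [smul_sub, e, sub_self]
    rw [this, norm_zero] at h4
    have : 0 < (n:ℝ) * ‖x - r‖ := mul_pos hn0 (norm_pos_iff.2 (sub_ne_zero.2 hne))
    linarith
  · rw [← smul_sub, h4]
    rw [lt_div_iff₀ hn0] at h1
    linarith

/-- a torsion point has an image under the semigroup which is fixed by powers of `p` and `q`. -/
lemma exists_fixed {p q : ℕ} {S : Set UnitAddCircle} (hinv : Inv p q S) {r : UnitAddCircle}
    (hr : r ∈ S) {n : ℕ} (hn : 0 < n) (hnr : n • r = 0) :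
    ∃ r' ∈ S, ∃ s : ℕ, 0 < s ∧ p ^ s • r' = r' ∧ q ^ s • r' = r' := by
  have : NeZero n := ⟨hn.ne'⟩
  have key : ∀ m : ℕ, ∃ i l : ℕ, 0 < l ∧ ∀ x : UnitAddCircle, n • x = 0 →
      m ^ l • (m ^ i • x) = m ^ i • x := by
    intro m
    obtain ⟨i, j, hne, hij⟩ := Finite.exists_ne_map_eq_of_infinite (fun i : ℕ => (m : ZMod n) ^ i)
    wlog hlt : i < j generalizing i j
    · exact this j i hne.symm hij.symm (by omega)
    refine ⟨i, j - i, by omega, fun x hx => ?_⟩
    rw [smul_smul, ← pow_add, Nat.sub_add_cancel hlt.le]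
    have h1 : (m ^ i : ℕ) ≡ m ^ j [MOD n] := by
      rw [← ZMod.natCast_eq_natCast_iff]
      push_cast
      exact hij
    have h2 : m ^ i % n = m ^ j % n := h1
    rw [← Nat.div_add_mod (m ^ j) n, ← Nat.div_add_mod (m ^ i) n, ← h2, add_smul, add_smul,
      mul_comm n, mul_comm n, mul_smul, mul_smul, hx, smul_zero, smul_zero]
  obtain ⟨i, l, hl, h1⟩ := key p
  obtain ⟨j, l', hl', h2⟩ := key q
  have htor : ∀ m : ℕ, n • (m • r) = 0 := by
    intro m
    rw [smul_comm, hnr, smul_zero]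
  have fix_pow : ∀ (m : ℕ) (x : UnitAddCircle), m • x = x → ∀ k : ℕ, m ^ k • x = x := by
    intro m x hx k
    induction k with
    | zero => simp
    | succ k ih => rw [pow_succ, mul_smul, hx, ih]
  refine ⟨(p ^ i * q ^ j) • r, hinv.pow_mem hr i j, l * l', Nat.mul_pos hl hl', ?_, ?_⟩
  · rw [pow_mul]
    apply fix_pow
    rw [mul_comm (p ^ i), mul_smul, smul_comm (p ^ l), h1 r hnr]
  · rw [mul_comm l l', pow_mul]
    apply fix_pow
    rw [mul_smul, smul_comm (q ^ l'), h2 r hnr]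

/-- closed nonempty invariant sets without torsion points do not exist -/
lemma no_torsionfree {p q : ℕ} (hp : 2 ≤ p) (hq : 2 ≤ q) (h : MulIndep p q)
    {A : Set UnitAddCircle} (hA : IsClosed A) (hinv : Inv p q A) (hne : A.Nonempty)
    (htf : ∀ x ∈ A, ∀ n : ℕ, 0 < n → n • x ≠ 0) : False := by
  have hdense : A = Set.univ := by
    rw [Set.eq_univ_iff_forall]
    intro y
    rw [← hA.closure_eq, Metric.mem_closure_iff]
    intro ε hε
    obtain ⟨j, hj⟩ := exists_nat_gt (1 / ε)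
    set N : ℕ := p * q * (j + 1) + 1 with hN
    have hNpos : 0 < N := by omega
    have hNj : j ≤ N := by
      have : j ≤ p * q * (j + 1) := by nlinarith [Nat.mul_le_mul hp hq]
      omega
    have hN0 : (0:ℝ) < N := by exact_mod_cast hNpos
    have hNε : 1 / (N:ℝ) < ε := by
      have hj' : (j:ℝ) ≤ N := by exact_mod_cast hNj
      rw [div_lt_iff₀ hN0]
      rw [div_lt_iff₀ hε] at hj
      nlinarith
    have hcp : Nat.Coprime p N := by
      rw [hN, mul_assoc]
      simp
    have hcq : Nat.Coprime q N := by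
      rw [hN, mul_comm p q, mul_assoc]
      simp
    set s : ℕ := Nat.totient N with hs
    have hspos : 0 < s := Nat.totient_pos.2 hNpos
    have hP : p ^ s ≡ 1 [MOD N] := Nat.ModEq.pow_totient hcp
    have hQ : q ^ s ≡ 1 [MOD N] := Nat.ModEq.pow_totient hcq
    set t : UnitAddCircle := ((1 / N : ℝ) : UnitAddCircle) with ht
    have hNt : N • t = 0 := by
      rw [ht, ← AddCircle.coe_nsmul, nsmul_eq_mul, mul_one_div_cancel hN0.ne']
      exact AddCircle.coe_period 1
    have hfix : ∀ m : ℕ, m ≡ 1 [MOD N] → m • t = t := by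
      intro m hm
      have h2 : m % N = 1 % N := hm
      have e1 : m • t = (m % N) • t := by
        conv_lhs => rw [← Nat.div_add_mod m N, add_smul, mul_comm N, mul_smul, hNt, smul_zero,
          zero_add]
      have e2 : 1 • t = (1 % N) • t := by
        conv_lhs => rw [← Nat.div_add_mod 1 N, add_smul, mul_comm N, mul_smul, hNt, smul_zero,
          zero_add]
      rw [e1, h2, ← e2, one_smul]
    have hPt := hfix _ hP
    have hQt := hfix _ hQ
    have hps : 2 ≤ p ^ s := le_trans hp (Nat.le_self_pow hspos.ne' p)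
    have hqs : 2 ≤ q ^ s := le_trans hq (Nat.le_self_pow hspos.ne' q)
    have hI : MulIndep (p ^ s) (q ^ s) := h.pow hspos hspos
    have key : ∀ k : ℕ, ∃ B : Set UnitAddCircle, IsClosed B ∧ B.Nonempty ∧ Inv (p ^ s) (q ^ s) B ∧
        ∀ x ∈ B, ∀ i ≤ k, x + i • t ∈ A := by
      intro k
      induction k with
      | zero =>
        refine ⟨A, hA, hne, hinv.pow s, fun x hx i hi => ?_⟩
        have : i = 0 := by omega
        simpa [this] using hx
      | succ k ih =>
        obtain ⟨B, hB1, hB2, hB3, hB4⟩ := ih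
        have hBA : B ⊆ A := fun x hx => by simpa using hB4 x hx 0 (by omega)
        -- B is infinite
        obtain ⟨b, hb⟩ := hB2
        have hinf : B.Infinite := by
          have hinj : Function.Injective (fun i : ℕ => ((p ^ s) ^ i) • b) := by
            intro i j hij
            by_contra hne'
            wlog hlt : i < j generalizing i j
            · exact this hij.symm (fun e => hne' e.symm) (by omega)
            simp only at hij
            have hlt' : (p ^ s) ^ i < (p ^ s) ^ j := Nat.pow_lt_pow_right (by omega) hlt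
            refine htf b (hBA hb) ((p ^ s) ^ j - (p ^ s) ^ i) (by omega) ?_
            have := hij
            rw [← sub_eq_zero] at this
            have e := congrArg Neg.neg this
            rw [neg_sub, neg_zero] at e
            have e3 : ((p ^ s) ^ j - (p ^ s) ^ i + (p ^ s) ^ i) • b = ((p ^ s) ^ j) • b := by
              rw [Nat.sub_add_cancel hlt'.le]
            rw [add_smul] at e3
            rw [← e3] at e
            simpa using e
          refine Set.infinite_of_injective_forall_mem hinj (fun i => ?_)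
          have := hB3.pow_mem hb i 0
          simpa using this
        -- difference set
        set D : Set UnitAddCircle := (fun z : UnitAddCircle × UnitAddCircle => z.1 - z.2) '' (B ×ˢ B)
          with hD
        have hDc : IsClosed D := by
          have : IsCompact D := (hB1.isCompact.prod hB1.isCompact).image (by fun_prop)
          exact this.isClosed
        have hDinv : Inv (p ^ s) (q ^ s) D := by
          constructor
          · rintro _ ⟨⟨x, y⟩, ⟨hx, hy⟩, rfl⟩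
            exact ⟨((p ^ s) • x, (p ^ s) • y), ⟨hB3.1 x hx, hB3.1 y hy⟩, by simp [smul_sub]⟩
          · rintro _ ⟨⟨x, y⟩, ⟨hx, hy⟩, rfl⟩
            exact ⟨((q ^ s) • x, (q ^ s) • y), ⟨hB3.2 x hx, hB3.2 y hy⟩, by simp [smul_sub]⟩
        have hDuniv : D = Set.univ := by
          refine eq_univ_of_acc_zero hps hqs hI hDc hDinv (fun δ hδ => ?_)
          obtain ⟨r, hr⟩ := acc_nonempty hinf
          have hrB : r ∈ B := acc_subset hB1 hr
          obtain ⟨x, hx, hxr, hxn⟩ := hr δ hδ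
          exact ⟨x - r, ⟨(x, r), ⟨hx, hrB⟩, rfl⟩, sub_ne_zero.2 hxr, hxn⟩
        obtain ⟨⟨x, y⟩, ⟨hx, hy⟩, hxy⟩ : t ∈ D := by rw [hDuniv]; trivial
        simp only at hxy
        refine ⟨B ∩ (fun z => z + t) ⁻¹' B, hB1.inter (hB1.preimage (by fun_prop)), ⟨y, hy, ?_⟩,
          ⟨?_, ?_⟩, ?_⟩
        · simp only [Set.mem_preimage]
          rw [← hxy]
          simpa using hx
        · rintro z ⟨hz1, hz2⟩
          refine ⟨hB3.1 z hz1, ?_⟩
          have := hB3.1 _ hz2
          simp only [smul_add, hPt] at this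
          exact this
        · rintro z ⟨hz1, hz2⟩
          refine ⟨hB3.2 z hz1, ?_⟩
          have := hB3.2 _ hz2
          simp only [smul_add, hQt] at this
          exact this
        · rintro z ⟨hz1, hz2⟩ i hi
          rcases Nat.eq_zero_or_pos i with rfl | hipos
          · exact hB4 z hz1 0 (by omega)
          · have := hB4 _ hz2 (i - 1) (by omega)
            have e : z + t + (i - 1) • t = z + i • t := by
              have : i = (i - 1) + 1 := by omega
              conv_rhs => rw [this, add_smul, one_smul]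
              abel
            rwa [e] at this
    obtain ⟨B, -, ⟨x, hx⟩, -, hB⟩ := key N
    -- find i with x + i/N close to y
    obtain ⟨w, hw, hw1⟩ := (AddCircle.coe_image_Icc_eq (1:ℝ) 0).symm ▸ Set.mem_univ (y - x)
    have hw0 : 0 ≤ w := hw.1
    have hw1' : w ≤ 1 := by simpa using hw.2
    set i : ℕ := ⌊w * N⌋₊ with hi
    have hi1 : (i:ℝ) ≤ w * N := Nat.floor_le (by positivity)
    have hi2 : w * N < i + 1 := Nat.lt_floor_add_one _
    have hiN : i ≤ N := by
      have : (i:ℝ) ≤ N := le_trans hi1 (by nlinarith)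
      exact_mod_cast this
    refine ⟨x + i • t, hB x hx i hiN, ?_⟩
    have e1 : y - (x + i • t) = ((w - i / N : ℝ) : UnitAddCircle) := by
      rw [AddCircle.coe_sub, hw1, ht, ← AddCircle.coe_nsmul, nsmul_eq_mul, mul_one_div]
      abel
    rw [dist_eq_norm, e1, UnitAddCircle.norm_eq]
    refine lt_of_le_of_lt (round_le _ 0) ?_
    have : |w - i / N - ((0:ℤ):ℝ)| = w - i / N := by
      rw [Int.cast_zero, sub_zero, abs_of_nonneg]
      rw [sub_nonneg, div_le_iff₀ hN0]
      exact hi1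
    rw [this]
    have : w < i / N + 1 / N := by
      rw [← add_div, lt_div_iff₀ hN0]; exact hi2
    linarith
  have h0 : (0 : UnitAddCircle) ∈ A := by rw [hdense]; trivial
  exact htf 0 h0 1 one_pos (by simp)

/-- **Furstenberg's theorem.** A closed infinite subset of the circle invariant under
multiplication by two multiplicatively independent integers is the whole circle. -/
theorem furstenberg {p q : ℕ} (hp : 2 ≤ p) (hq : 2 ≤ q) (h : MulIndep p q)
    {S : Set UnitAddCircle} (hS : IsClosed S) (hinv : Inv p q S) (hinf : S.Infinite) :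
    S = Set.univ := by
  have hA1 := isClosed_acc S
  have hA2 := acc_nonempty hinf
  have hA3 : Inv p q (acc S) :=
    ⟨fun x hx => acc_smul (by omega) hinv.1 hx, fun x hx => acc_smul (by omega) hinv.2 hx⟩
  by_contra hcon
  refine no_torsionfree hp hq h hA1 hA3 hA2 (fun x hx n hn hnx => hcon ?_)
  obtain ⟨r, hr, s, hs, h1, h2⟩ := exists_fixed hA3 hx hn hnx
  exact eq_univ_of_acc_fixed (le_trans hp (Nat.le_self_pow hs.ne' p))
    (le_trans hq (Nat.le_self_pow hs.ne' q)) (h.pow hs hs) hS (hinv.pow s) h1 h2 hr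

end H76.Furst
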