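import Mathlib
import Pool.Agent.H76.Furst

/-!
# The `×2, ×3` shift of finite type

`B` is the space of all `z : ℤ → ℤ → Fin 6` such that (base `6` digits) the first index is
multiplication by two and the second one multiplication by three.
-/

namespace H76.TT

open Filter Topology H76.Furst

/-- The local rule of the `×2, ×3` shift. -/
def Rule (z : ℤ → ℤ → Fin 6) (m n : ℤ) : Prop :=
  (z (m + 1) n : ℕ) = 2 * ((z m n : ℕ) % 3) + (z (m + 1) (n + 1) : ℕ) / 3 ∧
  (z m (n + 1) : ℕ) = 3 * ((z m n : ℕ) % 2) + (z (m + 1) (n + 1) : ℕ) / 2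

/-- The `×2, ×3` shift of finite type. -/
def XX : Set (ℤ → ℤ → Fin 6) := {z | ∀ m n, Rule z m n}

/-- The space as a type. -/
abbrev B : Type := XX

lemma continuous_eval (m n : ℤ) : Continuous (fun z : B => z.1 m n) :=
  (continuous_apply n).comp ((continuous_apply m).comp continuous_subtype_val)

lemma isClosed_XX : IsClosed XX := by
  have : XX = ⋂ m : ℤ, ⋂ n : ℤ, {z | Rule z m n} := by
    ext z; simp [XX]
  rw [this]
  refine isClosed_iInter fun m => isClosed_iInter fun n => ?_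
  have hc : ∀ a b : ℤ, Continuous (fun z : ℤ → ℤ → Fin 6 => z a b) := fun a b =>
    (continuous_apply b).comp (continuous_apply a)
  have hcont : Continuous (fun z : ℤ → ℤ → Fin 6 =>
      (z m n, z (m + 1) n, z m (n + 1), z (m + 1) (n + 1))) :=
    (hc _ _).prodMk ((hc _ _).prodMk ((hc _ _).prodMk (hc _ _)))
  exact (isClosed_discrete {t : Fin 6 × Fin 6 × Fin 6 × Fin 6 |
    (t.2.1 : ℕ) = 2 * ((t.1 : ℕ) % 3) + (t.2.2.2 : ℕ) / 3 ∧
    (t.2.2.1 : ℕ) = 3 * ((t.1 : ℕ) % 2) + (t.2.2.2 : ℕ) / 2}).preimage hcont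

instance : CompactSpace B := isCompact_iff_compactSpace.1 isClosed_XX.isCompact

/-- The shift by `(a, b)`. -/
def sh (a b : ℤ) (z : B) : B :=
  ⟨fun m n => z.1 (m + a) (n + b), fun m n => by
    have := z.2 (m + a) (n + b)
    unfold Rule at *
    beta_reduce
    rw [add_right_comm m 1 a, add_right_comm n 1 b]
    exact this⟩

@[simp] lemma sh_apply (a b : ℤ) (z : B) (m n : ℤ) : (sh a b z).1 m n = z.1 (m + a) (n + b) := rfl

lemma B_ext {y z : B} (h : ∀ m n, y.1 m n = z.1 m n) : y = z :=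
  Subtype.ext (funext fun m => funext fun n => h m n)

@[simp] lemma sh_zero (z : B) : sh 0 0 z = z := B_ext fun m n => by simp

lemma sh_sh (a b c d : ℤ) (z : B) : sh a b (sh c d z) = sh (a + c) (b + d) z :=
  B_ext fun m n => by simp [add_assoc]

lemma continuous_sh (a b : ℤ) : Continuous (sh a b) := by
  refine Continuous.subtype_mk ?_ _
  exact continuous_pi fun m => continuous_pi fun n => continuous_eval _ _

lemma sh_injective (a b : ℤ) : Function.Injective (sh a b) := by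
  intro y z h
  have := congrArg (sh (-a) (-b)) h
  simpa [sh_sh] using this

/-! ### The real number of a point -/

/-- the real number in `[0,1]` with base six digits read off along the diagonal. -/
noncomputable def th (z : B) (m n : ℤ) : ℝ := ∑' i : ℕ, ((z.1 (m + i) (n + i) : ℕ) : ℝ) / 6 ^ (i + 1)

lemma digit_le (a : Fin 6) : ((a : ℕ) : ℝ) ≤ 5 := by exact_mod_cast Nat.lt_succ_iff.1 a.2

lemma summable_bound : Summable (fun i : ℕ => (5:ℝ) / 6 ^ (i + 1)) := by
  have : (fun i : ℕ => (5:ℝ) / 6 ^ (i + 1)) = fun i : ℕ => (5/6) * (1/6:ℝ) ^ i := by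
    funext i; rw [pow_succ, one_div, inv_pow]; field_simp
  rw [this]
  exact (summable_geometric_of_lt_one (by norm_num) (by norm_num)).mul_left _

lemma tsum_bound : ∑' i : ℕ, (5:ℝ) / 6 ^ (i + 1) = 1 := by
  have : (fun i : ℕ => (5:ℝ) / 6 ^ (i + 1)) = fun i : ℕ => (5/6) * (1/6:ℝ) ^ i := by
    funext i; rw [pow_succ, one_div, inv_pow]; field_simp
  rw [this, tsum_mul_left, tsum_geometric_of_lt_one (by norm_num) (by norm_num)]
  norm_num

lemma term_nonneg (z : B) (m n : ℤ) (i : ℕ) :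
    0 ≤ ((z.1 (m + i) (n + i) : ℕ) : ℝ) / 6 ^ (i + 1) := by positivity

lemma term_le (z : B) (m n : ℤ) (i : ℕ) :
    ((z.1 (m + i) (n + i) : ℕ) : ℝ) / 6 ^ (i + 1) ≤ 5 / 6 ^ (i + 1) := by
  gcongr; exact digit_le _

lemma summable_th (z : B) (m n : ℤ) :
    Summable (fun i : ℕ => ((z.1 (m + i) (n + i) : ℕ) : ℝ) / 6 ^ (i + 1)) :=
  Summable.of_nonneg_of_le (term_nonneg z m n) (term_le z m n) summable_bound

lemma th_nonneg (z : B) (m n : ℤ) : 0 ≤ th z m n := tsum_nonneg (term_nonneg z m n)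

lemma th_le_one (z : B) (m n : ℤ) : th z m n ≤ 1 := by
  rw [← tsum_bound]
  exact (summable_th z m n).tsum_le_tsum (term_le z m n) summable_bound

lemma th_sh (a b : ℤ) (z : B) (m n : ℤ) : th (sh a b z) m n = th z (m + a) (n + b) := by
  unfold th
  refine tsum_congr fun i => ?_
  rw [sh_apply, add_right_comm m, add_right_comm n]

lemma continuous_th (m n : ℤ) : Continuous (fun z : B => th z m n) := by
  refine continuous_tsum (u := fun i : ℕ => (5:ℝ) / 6 ^ (i + 1)) (fun i => ?_) summable_bound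
    (fun i z => ?_)
  · refine Continuous.div_const ?_ _
    exact (continuous_of_discreteTopology (f := fun a : Fin 6 => ((a : ℕ) : ℝ))).comp
      (continuous_eval _ _)
  · rw [Real.norm_of_nonneg (term_nonneg z m n i)]
    exact term_le z m n i

lemma six_th (z : B) (m n : ℤ) : 6 * th z m n = (z.1 m n : ℕ) + th z (m + 1) (n + 1) := by
  unfold th
  rw [(summable_th z m n).tsum_eq_zero_add]
  rw [mul_add, ← tsum_mul_left]
  congr 1
  · simp; ring
  · refine tsum_congr fun i => ?_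
    have e1 : m + ((i + 1 : ℕ) : ℤ) = m + 1 + i := by push_cast; ring
    have e2 : n + ((i + 1 : ℕ) : ℤ) = n + 1 + i := by push_cast; ring
    rw [e1, e2, pow_succ (6:ℝ) (i + 1)]
    field_simp

/-- A bounded function on `ℕ` with `D (k+1) = c * D k`, `c > 1`, vanishes. -/
lemma zero_of_bounded {D : ℕ → ℝ} {c C : ℝ} (hc : 1 < c) (hD : ∀ k, D (k + 1) = c * D k)
    (hC : ∀ k, |D k| ≤ C) : D 0 = 0 := by
  have h1 : ∀ k, D k = c ^ k * D 0 := by
    intro k
    induction k with
    | zero => simp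
    | succ k ih => rw [hD, ih, pow_succ]; ring
  by_contra hne
  have hpos : 0 < |D 0| := abs_pos.2 hne
  obtain ⟨k, hk⟩ := pow_unbounded_of_one_lt (C / |D 0|) hc
  have := hC k
  rw [h1, abs_mul, abs_of_pos (by positivity : (0:ℝ) < c ^ k)] at this
  rw [div_lt_iff₀ hpos] at hk
  linarith

lemma two_th (z : B) (m n : ℤ) : 2 * th z m n = ((z.1 m n : ℕ) / 3 : ℕ) + th z (m + 1) n := by
  set D : ℕ → ℝ := fun k => 2 * th z (m + k) (n + k) - (((z.1 (m + k) (n + k) : ℕ) / 3 : ℕ) : ℝ)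
    - th z (m + k + 1) (n + k) with hD
  have hstep : ∀ k, D (k + 1) = 6 * D k := by
    intro k
    simp only [hD]
    have a1 := six_th z (m + k) (n + k)
    have a2 := six_th z (m + k + 1) (n + k)
    have e1 : m + ((k + 1 : ℕ) : ℤ) = m + k + 1 := by push_cast; ring
    have e2 : n + ((k + 1 : ℕ) : ℤ) = n + k + 1 := by push_cast; ring
    rw [e1, e2]
    have r := (z.2 (m + k) (n + k)).1
    have hdm : ((z.1 (m + k) (n + k) : ℕ) : ℝ)
        = 3 * (((z.1 (m + k) (n + k) : ℕ) / 3 : ℕ) : ℝ)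
          + (((z.1 (m + k) (n + k) : ℕ) % 3 : ℕ) : ℝ) := by
      exact_mod_cast (Nat.div_add_mod _ 3).symm
    have hr : ((z.1 (m + k + 1) (n + k) : ℕ) : ℝ)
        = 2 * (((z.1 (m + k) (n + k) : ℕ) % 3 : ℕ) : ℝ)
          + (((z.1 (m + k + 1) (n + k + 1) : ℕ) / 3 : ℕ) : ℝ) := by
      exact_mod_cast r
    linarith
  have hb : ∀ k, |D k| ≤ 10 := by
    intro k
    simp only [hD]
    have a1 := th_nonneg z (m + k) (n + k)
    have a2 := th_le_one z (m + k) (n + k)
    have a3 := th_nonneg z (m + k + 1) (n + k)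
    have a4 := th_le_one z (m + k + 1) (n + k)
    have a5 : ((((z.1 (m + k) (n + k) : ℕ) / 3 : ℕ)) : ℝ) ≤ 5 := by
      refine le_trans ?_ (digit_le (z.1 (m + k) (n + k)))
      exact_mod_cast Nat.div_le_self _ _
    have a6 : (0:ℝ) ≤ ((((z.1 (m + k) (n + k) : ℕ) / 3 : ℕ)) : ℝ) := by positivity
    rw [abs_le]; constructor <;> linarith
  have := zero_of_bounded (by norm_num) hstep hb
  simp only [hD, Nat.cast_zero, add_zero] at this
  linarith

lemma three_th (z : B) (m n : ℤ) : 3 * th z m n = ((z.1 m n : ℕ) / 2 : ℕ) + th z m (n + 1) := by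
  set D : ℕ → ℝ := fun k => 3 * th z (m + k) (n + k) - (((z.1 (m + k) (n + k) : ℕ) / 2 : ℕ) : ℝ)
    - th z (m + k) (n + k + 1) with hD
  have hstep : ∀ k, D (k + 1) = 6 * D k := by
    intro k
    simp only [hD]
    have a1 := six_th z (m + k) (n + k)
    have a2 := six_th z (m + k) (n + k + 1)
    have e1 : m + ((k + 1 : ℕ) : ℤ) = m + k + 1 := by push_cast; ring
    have e2 : n + ((k + 1 : ℕ) : ℤ) = n + k + 1 := by push_cast; ring
    rw [e1, e2]
    have r := (z.2 (m + k) (n + k)).2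
    have hdm : ((z.1 (m + k) (n + k) : ℕ) : ℝ)
        = 2 * (((z.1 (m + k) (n + k) : ℕ) / 2 : ℕ) : ℝ)
          + (((z.1 (m + k) (n + k) : ℕ) % 2 : ℕ) : ℝ) := by
      exact_mod_cast (Nat.div_add_mod _ 2).symm
    have hr : ((z.1 (m + k) (n + k + 1) : ℕ) : ℝ)
        = 3 * (((z.1 (m + k) (n + k) : ℕ) % 2 : ℕ) : ℝ)
          + (((z.1 (m + k + 1) (n + k + 1) : ℕ) / 2 : ℕ) : ℝ) := by
      exact_mod_cast r
    linarith
  have hb : ∀ k, |D k| ≤ 10 := by
    intro k
    simp only [hD]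
    have a1 := th_nonneg z (m + k) (n + k)
    have a2 := th_le_one z (m + k) (n + k)
    have a3 := th_nonneg z (m + k) (n + k + 1)
    have a4 := th_le_one z (m + k) (n + k + 1)
    have a5 : ((((z.1 (m + k) (n + k) : ℕ) / 2 : ℕ)) : ℝ) ≤ 5 := by
      refine le_trans ?_ (digit_le (z.1 (m + k) (n + k)))
      exact_mod_cast Nat.div_le_self _ _
    have a6 : (0:ℝ) ≤ ((((z.1 (m + k) (n + k) : ℕ) / 2 : ℕ)) : ℝ) := by positivity
    rw [abs_le]; constructor <;> linarith
  have := zero_of_bounded (by norm_num) hstep hb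
  simp only [hD, Nat.cast_zero, add_zero] at this
  linarith

/-! ### The projection to the circle -/

/-- The projection to the circle. -/
noncomputable def pr (z : B) (m n : ℤ) : UnitAddCircle := ((th z m n : ℝ) : UnitAddCircle)

lemma natCast_circle (k : ℕ) : (((k : ℕ) : ℝ) : UnitAddCircle) = 0 := by
  rw [AddCircle.coe_eq_zero_iff]
  exact ⟨k, by simp⟩

lemma two_pr (z : B) (m n : ℤ) : 2 • pr z m n = pr z (m + 1) n := by
  unfold pr
  rw [← AddCircle.coe_nsmul, nsmul_eq_mul]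
  push_cast
  rw [two_th, AddCircle.coe_add, natCast_circle, zero_add]

lemma three_pr (z : B) (m n : ℤ) : 3 • pr z m n = pr z m (n + 1) := by
  unfold pr
  rw [← AddCircle.coe_nsmul, nsmul_eq_mul]
  push_cast
  rw [three_th, AddCircle.coe_add, natCast_circle, zero_add]

lemma pow_pr (z : B) (m n : ℤ) (i j : ℕ) : (2 ^ i * 3 ^ j) • pr z m n = pr z (m + i) (n + j) := by
  induction i with
  | zero =>
    induction j with
    | zero => simp
    | succ j ih =>
      have : (2 ^ 0 * 3 ^ (j + 1)) = 3 * (2 ^ 0 * 3 ^ j) := by ring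
      rw [this, mul_smul, ih, three_pr]
      push_cast
      rw [add_assoc n]
  | succ i ih =>
    have : (2 ^ (i + 1) * 3 ^ j) = 2 * (2 ^ i * 3 ^ j) := by ring
    rw [this, mul_smul, ih, two_pr]
    push_cast
    rw [add_assoc m]

lemma continuous_pr (m n : ℤ) : Continuous (fun z : B => pr z m n) :=
  (AddCircle.continuous_mk' 1).comp (continuous_th m n)

lemma pr_sh (a b : ℤ) (z : B) (m n : ℤ) : pr (sh a b z) m n = pr z (m + a) (n + b) := by
  unfold pr; rw [th_sh]

lemma digit_bounds (z : B) (m n : ℤ) :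
    ((z.1 m n : ℕ) : ℝ) ≤ 6 * th z m n ∧ 6 * th z m n ≤ (z.1 m n : ℕ) + 1 := by
  rw [six_th]
  have h1 := th_nonneg z (m + 1) (n + 1)
  have h2 := th_le_one z (m + 1) (n + 1)
  constructor <;> linarith

end H76.TT
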