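import Mathlib
import Pool.Agent.H76.Furst
import Pool.Agent.H76.TT

/-!
# Closed invariant subsets of the `×2, ×3` shift of finite type

Main results: `finite_or_univ` (a closed subset invariant under the shifts in `pℤ × pℤ` is finite
or everything), `row_up` (a point which agrees with a periodic point in a row agrees with it above
this row), `transitive` (the horizontal shift is topologically transitive).
-/

namespace H76.TT

open Filter Topology H76.Furst

/-- agreement on the window of radius `R` -/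
def agree (R : ℕ) (y z : B) : Prop := ∀ m n : ℤ, |m| ≤ R → |n| ≤ R → y.1 m n = z.1 m n

lemma agree.symm {R : ℕ} {y z : B} (h : agree R y z) : agree R z y :=
  fun m n hm hn => (h m n hm hn).symm

lemma agree.trans {R : ℕ} {x y z : B} (h : agree R x y) (h' : agree R y z) : agree R x z :=
  fun m n hm hn => (h m n hm hn).trans (h' m n hm hn)

lemma agree_refl (R : ℕ) (z : B) : agree R z z := fun _ _ _ _ => rfl

lemma agree.mono {R R' : ℕ} (hR : R' ≤ R) {y z : B} (h : agree R y z) : agree R' y z :=
  fun m n hm hn => h m n (hm.trans (by exact_mod_cast hR)) (hn.trans (by exact_mod_cast hR))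

lemma isOpen_agree (R : ℕ) (z : B) : IsOpen {y : B | agree R y z} := by
  have : {y : B | agree R y z} = ⋂ m ∈ Finset.Icc (-(R:ℤ)) R, ⋂ n ∈ Finset.Icc (-(R:ℤ)) R,
      {y : B | y.1 m n = z.1 m n} := by
    ext y
    simp only [agree, Set.mem_ofPred_eq, Set.mem_iInter, Finset.mem_Icc, abs_le]
    constructor
    · intro h m hm n hn; exact h m n hm hn
    · intro h m n hm hn; exact h m hm n hn
  rw [this]
  refine isOpen_biInter_finset fun m _ => isOpen_biInter_finset fun n _ => ?_
  exact (isOpen_discrete ({z.1 m n} : Set (Fin 6))).preimage (continuous_eval m n)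

lemma isClosed_agree (R : ℕ) (z : B) : IsClosed {y : B | agree R y z} := by
  have : {y : B | agree R y z} = ⋂ m : ℤ, ⋂ n : ℤ, ⋂ _ : |m| ≤ R, ⋂ _ : |n| ≤ R,
      {y : B | y.1 m n = z.1 m n} := by
    ext y
    simp [agree]
  rw [this]
  refine isClosed_iInter fun m => isClosed_iInter fun n => isClosed_iInter fun _ =>
    isClosed_iInter fun _ => ?_
  exact (isClosed_discrete ({z.1 m n} : Set (Fin 6))).preimage (continuous_eval m n)

/-- the windows form a neighbourhood basis -/
lemma exists_agree_subset {U : Set B} (hU : IsOpen U) {z : B} (hz : z ∈ U) :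
    ∃ R : ℕ, ∀ y : B, agree R y z → y ∈ U := by
  -- use compactness of the complement
  by_contra hcon
  push Not at hcon
  have hcl : ∀ R : ℕ, IsClosed ({y : B | agree R y z} ∩ Uᶜ) := fun R =>
    (isClosed_agree R z).inter hU.isClosed_compl
  have hne : ∀ R : ℕ, ({y : B | agree R y z} ∩ Uᶜ).Nonempty := fun R => by
    obtain ⟨y, hy1, hy2⟩ := hcon R
    exact ⟨y, hy1, hy2⟩
  have hanti : ∀ R : ℕ, ({y : B | agree (R + 1) y z} ∩ Uᶜ) ⊆ ({y : B | agree R y z} ∩ Uᶜ) :=
    fun R y hy => ⟨hy.1.mono (Nat.le_succ R), hy.2⟩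
  obtain ⟨y, hy⟩ := IsCompact.nonempty_iInter_of_sequence_nonempty_isCompact_isClosed
    (fun R : ℕ => {y : B | agree R y z} ∩ Uᶜ) hanti hne (hcl 0).isCompact hcl
  rw [Set.mem_iInter] at hy
  have : y = z := by
    refine B_ext fun m n => ?_
    have h1 := (hy (max m.natAbs n.natAbs)).1 m n ?_ ?_
    · exact h1
    · rw [Int.abs_eq_natAbs]; exact_mod_cast le_max_left _ _
    · rw [Int.abs_eq_natAbs]; exact_mod_cast le_max_right _ _
  rw [this] at hy
  exact (hy 0).2 hz

lemma mem_of_forall_agree {Y : Set B} (hY : IsClosed Y) {z : B}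
    (h : ∀ R : ℕ, ∃ y ∈ Y, agree R y z) : z ∈ Y := by
  by_contra hz
  obtain ⟨R, hR⟩ := exists_agree_subset hY.isOpen_compl hz
  obtain ⟨y, hy, hag⟩ := h R
  exact hR y hag hy

/-! ### Diagonal determination -/

/-- Agreement on the diagonal of `[-3R,3R]` implies agreement on the window of radius `R`. -/
lemma agree_of_diag {y z : B} {R : ℕ}
    (h : ∀ i : ℤ, |i| ≤ 3 * R → y.1 i i = z.1 i i) : agree R y z := by
  -- upper and lower diagonals
  have right : ∀ k : ℕ, ∀ n : ℤ, -(3 * (R:ℤ)) ≤ n → n + k ≤ 3 * R →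
      y.1 (n + k) n = z.1 (n + k) n := by
    intro k
    induction k with
    | zero =>
      intro n h1 h2
      simpa using h n (abs_le.2 ⟨h1, by simpa using h2⟩)
    | succ k ih =>
      intro n h1 h2
      push_cast at h2 ⊢
      have a1 := ih n h1 (by omega)
      have a2 := ih (n + 1) (by omega) (by omega)
      have r1 := (y.2 (n + k) n).1
      have r2 := (z.2 (n + k) n).1
      have e : n + 1 + (k:ℤ) = n + k + 1 := by ring
      rw [e] at a2
      rw [a1, a2, ← r2] at r1
      rw [← add_assoc]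
      exact Fin.ext r1
  have up : ∀ k : ℕ, ∀ m : ℤ, -(3 * (R:ℤ)) ≤ m → m + k ≤ 3 * R →
      y.1 m (m + k) = z.1 m (m + k) := by
    intro k
    induction k with
    | zero =>
      intro m h1 h2
      simpa using h m (abs_le.2 ⟨h1, by simpa using h2⟩)
    | succ k ih =>
      intro m h1 h2
      push_cast at h2 ⊢
      have a1 := ih m h1 (by omega)
      have a2 := ih (m + 1) (by omega) (by omega)
      have r1 := (y.2 m (m + k)).2
      have r2 := (z.2 m (m + k)).2
      have e : m + 1 + (k:ℤ) = m + k + 1 := by ring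
      rw [e] at a2
      rw [a1, a2, ← r2] at r1
      rw [← add_assoc]
      exact Fin.ext r1
  intro m n hm hn
  rw [abs_le] at hm hn
  rcases le_total n m with hle | hle
  · obtain ⟨k, hk⟩ := Int.eq_ofNat_of_zero_le (sub_nonneg.2 hle)
    have e : m = n + k := by omega
    rw [e]
    exact right k n (by omega) (by omega)
  · obtain ⟨k, hk⟩ := Int.eq_ofNat_of_zero_le (sub_nonneg.2 hle)
    have e : n = m + k := by omega
    rw [e]
    exact up k m (by omega) (by omega)

/-- a real number with prescribed digits, in a robust way -/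
lemma exists_digits (M : ℕ) : ∀ d : ℕ → Fin 6, ∃ θ : ℝ, 0 < θ ∧ θ < 1 ∧
    ∀ (e : ℕ → ℤ) (t : ℕ → ℝ), t 0 = θ → (∀ i, 0 ≤ t i ∧ t i ≤ 1) →
      (∀ i, 6 * t i = e i + t (i + 1)) → ∀ i < M, e i = (d i : ℕ) := by
  induction M with
  | zero => intro d; exact ⟨1 / 2, by norm_num, by norm_num, fun e t _ _ _ i hi => absurd hi (by omega)⟩
  | succ M ih =>
    intro d
    obtain ⟨θ', h0, h1, h2⟩ := ih (fun i => d (i + 1))
    have hd := digit_le (d 0)
    have hd0 : (0:ℝ) ≤ ((d 0 : ℕ) : ℝ) := by positivity
    refine ⟨((d 0 : ℕ) + θ') / 6, by positivity, by linarith, fun e t ht hb hs => ?_⟩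
    have s0 := hs 0
    rw [ht] at s0
    have b1 := hb 1
    have hE : (e 0 : ℝ) - ((d 0 : ℕ) : ℝ) = θ' - t 1 := by
      have : 6 * ((((d 0 : ℕ) : ℝ) + θ') / 6) = ((d 0 : ℕ) : ℝ) + θ' := by ring
      rw [this] at s0
      simp only [zero_add] at s0
      linarith
    have he0 : e 0 = (d 0 : ℕ) := by
      have l1 : (e 0 : ℝ) - ((d 0 : ℕ) : ℝ) < 1 := by linarith [b1.1]
      have l2 : -1 < (e 0 : ℝ) - ((d 0 : ℕ) : ℝ) := by linarith [b1.2]
      have l1' : e 0 - ((d 0 : ℕ) : ℤ) < 1 := by
        have : ((e 0 - ((d 0 : ℕ) : ℤ) : ℤ) : ℝ) < ((1:ℤ) : ℝ) := by push_cast; exact l1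
        exact_mod_cast this
      have l2' : -1 < e 0 - ((d 0 : ℕ) : ℤ) := by
        have : ((-1 : ℤ) : ℝ) < ((e 0 - ((d 0 : ℕ) : ℤ) : ℤ) : ℝ) := by push_cast; exact l2
        exact_mod_cast this
      omega
    have ht1 : t 1 = θ' := by
      have : (e 0 : ℝ) = ((d 0 : ℕ) : ℝ) := by rw [he0]; push_cast; rfl
      linarith
    intro i hi
    rcases i with _ | i
    · exact he0
    · exact h2 (fun i => e (i + 1)) (fun i => t (i + 1)) ht1 (fun i => hb (i + 1))
        (fun i => hs (i + 1)) i (by omega)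

/-! ### Invariance under a finite index group of shifts -/

/-- invariance under the shifts in `pℤ × pℤ`. -/
def InvP (p : ℕ) (Y : Set B) : Prop := ∀ y ∈ Y, ∀ i j : ℤ, sh (p * i) (p * j) y ∈ Y

lemma eq_of_pr_eq_of_ne {y z : B} {m n : ℤ} (h : pr y m n = pr z m n) (hne : 6 • pr y m n ≠ 0) :
    y.1 m n = z.1 m n := by
  unfold pr at h hne
  rw [← AddCircle.coe_nsmul, nsmul_eq_mul, ne_eq, AddCircle.coe_eq_zero_iff] at hne
  push_cast at hne
  rw [← sub_eq_zero, ← AddCircle.coe_sub, AddCircle.coe_eq_zero_iff] at h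
  obtain ⟨k, hk⟩ := h
  rw [zsmul_eq_mul, mul_one] at hk
  have a1 := th_nonneg y m n
  have a2 := th_le_one y m n
  have a3 := th_nonneg z m n
  have a4 := th_le_one z m n
  have hk0 : k = 0 := by
    by_contra hk0
    have : 1 ≤ k ∨ k ≤ -1 := by omega
    apply hne
    rcases this with h1 | h1
    · have h1' : (1:ℝ) ≤ k := by exact_mod_cast h1
      have : th y m n = 1 := by linarith
      exact ⟨6, by rw [this]; norm_num⟩
    · have h1' : (k:ℝ) ≤ -1 := by exact_mod_cast h1
      have : th y m n = 0 := by linarith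
      exact ⟨0, by rw [this]; norm_num⟩
  have heq : th y m n = th z m n := by rw [hk0, Int.cast_zero] at hk; linarith
  have b1 := digit_bounds y m n
  have b2 := digit_bounds z m n
  rw [← heq] at b2
  have c1 : ((y.1 m n : ℕ) : ℝ) ≠ 6 * th y m n := fun e =>
    hne ⟨(y.1 m n : ℕ), by rw [← e]; simp⟩
  have c2 : ((z.1 m n : ℕ) : ℝ) ≠ 6 * th y m n := fun e =>
    hne ⟨(z.1 m n : ℕ), by rw [← e]; simp⟩
  have d1 : ((y.1 m n : ℕ) : ℝ) < (z.1 m n : ℕ) + 1 := by
    linarith [lt_of_le_of_ne b1.1 c1, b2.2]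
  have d2 : ((z.1 m n : ℕ) : ℝ) < (y.1 m n : ℕ) + 1 := by
    linarith [lt_of_le_of_ne b2.1 c2, b1.2]
  have d1' : (y.1 m n : ℕ) < (z.1 m n : ℕ) + 1 := by exact_mod_cast d1
  have d2' : (z.1 m n : ℕ) < (y.1 m n : ℕ) + 1 := by exact_mod_cast d2
  exact Fin.ext (by omega)

/-- the two constant points -/
def c0 : B := ⟨fun _ _ => 0, fun m n => by simp [Rule]⟩
def c5 : B := ⟨fun _ _ => 5, fun m n => by
  unfold Rule
  beta_reduce
  constructor <;> decide⟩

@[simp] lemma sh_c0 (a b : ℤ) : sh a b c0 = c0 := B_ext fun _ _ => rfl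
@[simp] lemma sh_c5 (a b : ℤ) : sh a b c5 = c5 := B_ext fun _ _ => rfl

/-- if all projections vanish then the point is constant -/
lemma const_of_pr_eq_zero {y : B} (h : ∀ m n, pr y m n = 0) : y = c0 ∨ y = c5 := by
  have h01 : ∀ m n, th y m n = 0 ∨ th y m n = 1 := by
    intro m n
    have := h m n
    unfold pr at this
    rw [AddCircle.coe_eq_zero_iff] at this
    obtain ⟨k, hk⟩ := this
    rw [zsmul_eq_mul, mul_one] at hk
    have a1 := th_nonneg y m n
    have a2 := th_le_one y m n
    rw [← hk] at a1 a2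
    have a1' : 0 ≤ k := by exact_mod_cast a1
    have a2' : k ≤ 1 := by exact_mod_cast a2
    have : k = 0 ∨ k = 1 := by omega
    rcases this with rfl | rfl
    · left; rw [← hk]; simp
    · right; rw [← hk]; simp
  have hright : ∀ m n, th y (m + 1) n = th y m n := by
    intro m n
    have e := two_th y m n
    have hd : (((y.1 m n : ℕ) / 3 : ℕ) : ℝ) ≤ 1 := by
      have : (y.1 m n : ℕ) / 3 ≤ 1 := by have := (y.1 m n).2; omega
      exact_mod_cast this
    have hd0 : (0:ℝ) ≤ (((y.1 m n : ℕ) / 3 : ℕ) : ℝ) := by positivity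
    rcases h01 m n with h1 | h1 <;> rcases h01 (m + 1) n with h2 | h2
    · rw [h1, h2]
    · rw [h1, h2] at e; linarith
    · rw [h1, h2] at e; linarith
    · rw [h1, h2]
  have hup : ∀ m n, th y m (n + 1) = th y m n := by
    intro m n
    have e := three_th y m n
    have hd : (((y.1 m n : ℕ) / 2 : ℕ) : ℝ) ≤ 2 := by
      have : (y.1 m n : ℕ) / 2 ≤ 2 := by have := (y.1 m n).2; omega
      exact_mod_cast this
    have hd0 : (0:ℝ) ≤ (((y.1 m n : ℕ) / 2 : ℕ) : ℝ) := by positivity
    rcases h01 m n with h1 | h1 <;> rcases h01 m (n + 1) with h2 | h2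
    · rw [h1, h2]
    · rw [h1, h2] at e; linarith
    · rw [h1, h2] at e; linarith
    · rw [h1, h2]
  have hconst : ∀ m n, th y m n = th y 0 0 := by
    have h1 : ∀ (m : ℤ), ∀ n, th y m n = th y 0 n := by
      intro m
      induction m using Int.induction_on with
      | zero => intro n; rfl
      | succ i ih => intro n; rw [hright, ih]
      | pred i ih => intro n; rw [← ih n, ← hright (-(i:ℤ) - 1) n, sub_add_cancel]
    have h2 : ∀ (n : ℤ), th y 0 n = th y 0 0 := by
      intro n
      induction n using Int.induction_on with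
      | zero => rfl
      | succ i ih => rw [hup, ih]
      | pred i ih => rw [← ih, ← hup 0 (-(i:ℤ) - 1), sub_add_cancel]
    intro m n; rw [h1, h2]
  rcases h01 0 0 with h1 | h1
  · left
    refine B_ext fun m n => ?_
    have := (digit_bounds y m n).1
    rw [hconst, h1, mul_zero] at this
    have h3 : (y.1 m n : ℕ) ≤ 0 := by exact_mod_cast this
    exact Fin.ext (by simpa [c0] using h3)
  · right
    refine B_ext fun m n => ?_
    have := (digit_bounds y m n).2
    rw [hconst, h1, mul_one] at this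
    have h3 : (5:ℝ) ≤ (y.1 m n : ℕ) := by linarith
    have h4 : 5 ≤ (y.1 m n : ℕ) := by exact_mod_cast h3
    have h5 := (y.1 m n).2
    exact Fin.ext (by simp only [c5]; show (y.1 m n : ℕ) = 5; omega)

lemma injOn_of_surj {α : Type*} {S : Set α} (hS : S.Finite) {f : α → α} (hm : Set.MapsTo f S S)
    (hs : ∀ s ∈ S, ∃ s' ∈ S, f s' = s) : Set.InjOn f S := by
  have : Finite S := hS
  have hsurj : Function.Surjective (hm.restrict f S S) := by
    rintro ⟨s, hs'⟩
    obtain ⟨t, ht, e⟩ := hs s hs'
    exact ⟨⟨t, ht⟩, Subtype.ext e⟩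
  have hinj := Finite.injective_iff_surjective.2 hsurj
  intro a ha b hb hab
  have := @hinj ⟨a, ha⟩ ⟨b, hb⟩ (Subtype.ext hab)
  exact congrArg Subtype.val this

/-- **Property (P).** A closed subset invariant under the shifts in `pℤ × pℤ` is finite or
everything. -/
theorem finite_or_univ {p : ℕ} (hp : 1 ≤ p) {Y : Set B} (hY : IsClosed Y) (hinv : InvP p Y) :
    Y.Finite ∨ Y = Set.univ := by
  set S : Set UnitAddCircle := (fun z : B => pr z 0 0) '' Y with hS
  have hSc : IsClosed S := ((hY.isCompact).image (continuous_pr 0 0)).isClosed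
  have hmem : ∀ y ∈ Y, ∀ i j : ℤ, pr y (p * i) (p * j) ∈ S := by
    intro y hy i j
    exact ⟨sh (p * i) (p * j) y, hinv y hy i j, by simp [pr_sh]⟩
  have hSinv : Inv (2 ^ p) (3 ^ p) S := by
    constructor
    · rintro _ ⟨y, hy, rfl⟩
      have := hmem y hy 1 0
      have e := pow_pr y 0 0 p 0
      simp only [pow_zero, mul_one, zero_add, Nat.cast_zero] at e
      simp only
      rw [e]
      simpa using this
    · rintro _ ⟨y, hy, rfl⟩
      have := hmem y hy 0 1
      have e := pow_pr y 0 0 0 p
      simp only [pow_zero, one_mul, zero_add, Nat.cast_zero] at e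
      simp only
      rw [e]
      simpa using this
  by_cases hfin : S.Finite
  · left
    -- injectivity of the multiplications on S
    have hsurj2 : ∀ s ∈ S, ∃ s' ∈ S, (2 ^ p) • s' = s := by
      rintro _ ⟨y, hy, rfl⟩
      refine ⟨pr y (p * (-1)) (p * 0), hmem y hy (-1) 0, ?_⟩
      have e := pow_pr y (p * (-1)) (p * 0) p 0
      simp only [pow_zero, mul_one] at e
      rw [e]
      simp
    have hsurj3 : ∀ s ∈ S, ∃ s' ∈ S, (3 ^ p) • s' = s := by
      rintro _ ⟨y, hy, rfl⟩
      refine ⟨pr y (p * 0) (p * (-1)), hmem y hy 0 (-1), ?_⟩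
      have e := pow_pr y (p * 0) (p * (-1)) 0 p
      simp only [pow_zero, one_mul] at e
      rw [e]
      simp
    have hinj2 : Set.InjOn (fun s : UnitAddCircle => (2 ^ p) • s) S := by
      have hmaps : Set.MapsTo (fun s : UnitAddCircle => (2 ^ p) • s) S S := hSinv.1
      exact injOn_of_surj hfin hmaps hsurj2
    have hinj3 : Set.InjOn (fun s : UnitAddCircle => (3 ^ p) • s) S := by
      have hmaps : Set.MapsTo (fun s : UnitAddCircle => (3 ^ p) • s) S S := hSinv.2
      exact injOn_of_surj hfin hmaps hsurj3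
    -- all projections along pℤ² are determined by one of them
    have hdet : ∀ y ∈ Y, ∀ z ∈ Y, ∀ i j : ℤ, pr y (p * i) (p * j) = pr z (p * i) (p * j) →
        ∀ a b : ℕ, pr y (p * (i - a)) (p * (j - b)) = pr z (p * (i - a)) (p * (j - b)) := by
      intro y hy z hz i j h a b
      induction a with
      | zero =>
        induction b with
        | zero => simpa using h
        | succ b ih =>
          apply hinj3 (hmem y hy _ _) (hmem z hz _ _)
          simp only
          have e1 := pow_pr y (p * (i - (0:ℕ))) (p * (j - ((b + 1 : ℕ) : ℤ))) 0 p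
          have e2 := pow_pr z (p * (i - (0:ℕ))) (p * (j - ((b + 1 : ℕ) : ℤ))) 0 p
          simp only [pow_zero, one_mul] at e1 e2
          rw [e1, e2]
          have e3 : (p:ℤ) * (j - ((b + 1 : ℕ) : ℤ)) + p = p * (j - b) := by push_cast; ring
          rw [e3]
          simpa using ih
      | succ a ih =>
        apply hinj2 (hmem y hy _ _) (hmem z hz _ _)
        simp only
        have e1 := pow_pr y (p * (i - ((a + 1 : ℕ) : ℤ))) (p * (j - b)) p 0
        have e2 := pow_pr z (p * (i - ((a + 1 : ℕ) : ℤ))) (p * (j - b)) p 0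
        simp only [pow_zero, mul_one] at e1 e2
        rw [e1, e2]
        have e3 : (p:ℤ) * (i - ((a + 1 : ℕ) : ℤ)) + p = p * (i - a) := by push_cast; ring
        rw [e3]
        simpa using ih
    -- agreement of the projection at one point of `pℤ²` implies agreement everywhere
    have hall : ∀ y ∈ Y, ∀ z ∈ Y, ∀ i j : ℤ, pr y (p * i) (p * j) = pr z (p * i) (p * j) →
        ∀ m n : ℤ, pr y m n = pr z m n := by
      intro y hy z hz i j h m n
      -- go far down
      set a : ℕ := (i - m).natAbs + i.natAbs + m.natAbs with ha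
      set b : ℕ := (j - n).natAbs + j.natAbs + n.natAbs with hb
      have h1 := hdet y hy z hz i j h a b
      have hp' : (1:ℤ) ≤ p := by exact_mod_cast hp
      have hm : (p:ℤ) * (i - a) ≤ m := by
        have h2 : i - a ≤ 0 := by omega
        have h3 : (p:ℤ) * (i - a) ≤ 1 * (i - a) := by nlinarith
        omega
      have hn : (p:ℤ) * (j - b) ≤ n := by
        have h2 : j - b ≤ 0 := by omega
        have h3 : (p:ℤ) * (j - b) ≤ 1 * (j - b) := by nlinarith
        omega
      obtain ⟨u, hu⟩ := Int.eq_ofNat_of_zero_le (sub_nonneg.2 hm)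
      obtain ⟨v, hv⟩ := Int.eq_ofNat_of_zero_le (sub_nonneg.2 hn)
      have e1 := pow_pr y (p * (i - a)) (p * (j - b)) u v
      have e2 := pow_pr z (p * (i - a)) (p * (j - b)) u v
      have em : (p:ℤ) * (i - a) + u = m := by rw [← hu]; ring
      have en : (p:ℤ) * (j - b) + v = n := by rw [← hv]; ring
      rw [em, en] at e1 e2
      rw [← e1, ← e2, h1]
    set Y1 : Set B := {y ∈ Y | ∀ m n, 6 • pr y m n ≠ 0} with hY1
    have hY1fin : Y1.Finite := by
      refine Set.Finite.of_finite_image (f := fun z : B => pr z 0 0)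
        (hfin.subset (Set.image_mono (fun y hy => hy.1))) ?_
      intro y hy z hz h
      simp only at h
      have h' := hall y hy.1 z hz.1 0 0 (by simpa using h)
      exact B_ext fun m n => eq_of_pr_eq_of_ne (h' m n) (hy.2 m n)
    refine (hY1fin.union (Set.toFinite ({c0, c5} : Set B))).subset (fun y hy => ?_)
    by_cases h6 : ∀ m n, 6 • pr y m n ≠ 0
    · exact Or.inl ⟨hy, h6⟩
    · right
      push Not at h6
      obtain ⟨m, n, h6⟩ := h6
      -- all projections vanish
      have h7 : pr y (m + 1) (n + 1) = 0 := by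
        have e := pow_pr y m n 1 1
        norm_num at e
        rw [← e]; exact h6
      set a : ℕ := (m + 1).natAbs with ha
      set b : ℕ := (n + 1).natAbs with hb
      have hp' : (1:ℤ) ≤ p := by exact_mod_cast hp
      have h8 : pr y (p * a) (p * b) = 0 := by
        have hm : m + 1 ≤ (p:ℤ) * a := by
          have : (1:ℤ) * a ≤ p * a := by nlinarith
          omega
        have hn : n + 1 ≤ (p:ℤ) * b := by
          have : (1:ℤ) * b ≤ p * b := by nlinarith
          omega
        obtain ⟨u, hu⟩ := Int.eq_ofNat_of_zero_le (sub_nonneg.2 hm)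
        obtain ⟨v, hv⟩ := Int.eq_ofNat_of_zero_le (sub_nonneg.2 hn)
        have e1 := pow_pr y (m + 1) (n + 1) u v
        have em : m + 1 + (u:ℤ) = p * a := by rw [← hu]; ring
        have en : n + 1 + (v:ℤ) = p * b := by rw [← hv]; ring
        rw [em, en, h7, smul_zero] at e1
        exact e1.symm
      have hzS : (0 : UnitAddCircle) ∈ S := h8 ▸ hmem y hy a b
      -- zero is only reached from zero
      have hz2 : ∀ s ∈ S, (2 ^ p) • s = 0 → s = 0 := fun s hs h => hinj2 hs hzS (by simpa using h)
      have hz3 : ∀ s ∈ S, (3 ^ p) • s = 0 → s = 0 := fun s hs h => hinj3 hs hzS (by simpa using h)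
      have h9 : ∀ u v : ℕ, pr y (p * (a - u)) (p * (b - v)) = 0 := by
        intro u v
        induction u with
        | zero =>
          induction v with
          | zero => simpa using h8
          | succ v ih =>
            apply hz3 _ (hmem y hy _ _)
            have e1 := pow_pr y (p * (a - (0:ℕ))) (p * (b - ((v + 1 : ℕ) : ℤ))) 0 p
            simp only [pow_zero, one_mul] at e1
            rw [e1]
            have e3 : (p:ℤ) * (b - ((v + 1 : ℕ) : ℤ)) + p = p * (b - v) := by push_cast; ring
            rw [e3]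
            simpa using ih
        | succ u ih =>
          apply hz2 _ (hmem y hy _ _)
          have e1 := pow_pr y (p * (a - ((u + 1 : ℕ) : ℤ))) (p * (b - v)) p 0
          simp only [pow_zero, mul_one] at e1
          rw [e1]
          have e3 : (p:ℤ) * (a - ((u + 1 : ℕ) : ℤ)) + p = p * (a - u) := by push_cast; ring
          rw [e3]
          simpa using ih
      refine const_of_pr_eq_zero (fun m' n' => ?_)
      set u : ℕ := a + m'.natAbs with hu'
      set v : ℕ := b + n'.natAbs with hv'
      have hm : (p:ℤ) * (a - u) ≤ m' := by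
        have h2 : (a:ℤ) - u ≤ 0 := by omega
        have h3 : (p:ℤ) * (a - u) ≤ 1 * (a - u) := by nlinarith
        omega
      have hn : (p:ℤ) * (b - v) ≤ n' := by
        have h2 : (b:ℤ) - v ≤ 0 := by omega
        have h3 : (p:ℤ) * (b - v) ≤ 1 * (b - v) := by nlinarith
        omega
      obtain ⟨s, hs⟩ := Int.eq_ofNat_of_zero_le (sub_nonneg.2 hm)
      obtain ⟨t, ht⟩ := Int.eq_ofNat_of_zero_le (sub_nonneg.2 hn)
      have e1 := pow_pr y (p * (a - u)) (p * (b - v)) s t
      have em : (p:ℤ) * (a - u) + s = m' := by rw [← hs]; ring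
      have en : (p:ℤ) * (b - v) + t = n' := by rw [← ht]; ring
      rw [em, en, h9, smul_zero] at e1
      exact e1.symm
  · right
    have hSuniv : S = Set.univ := furstenberg (le_trans (le_refl 2) (Nat.le_self_pow (by omega) 2))
      (le_trans (by norm_num) (Nat.le_self_pow (by omega) 3))
      (mulIndep_two_three.pow (by omega) (by omega)) hSc hSinv hfin
    rw [Set.eq_univ_iff_forall]
    intro z
    refine mem_of_forall_agree hY (fun R => ?_)
    -- shift down by p * L with L = 3 R
    set L : ℕ := 3 * R with hL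
    have hp' : (1:ℤ) ≤ p := by exact_mod_cast hp
    obtain ⟨θ, h0, h1, h2⟩ := exists_digits (2 * (p * L) + 1)
      (fun i => z.1 ((i:ℤ) - p * L) ((i:ℤ) - p * L))
    obtain ⟨y, hy, hyθ⟩ : (θ : UnitAddCircle) ∈ S := by rw [hSuniv]; trivial
    have hth : th y 0 0 = θ := by
      simp only [pr] at hyθ
      rw [← sub_eq_zero, ← AddCircle.coe_sub, AddCircle.coe_eq_zero_iff] at hyθ
      obtain ⟨k, hk⟩ := hyθ
      rw [zsmul_eq_mul, mul_one] at hk
      have a1 := th_nonneg y 0 0
      have a2 := th_le_one y 0 0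
      have k1 : (k:ℝ) < 1 := by linarith
      have k2 : (-1:ℝ) < k := by linarith
      have k1' : k < 1 := by exact_mod_cast k1
      have k2' : -1 < k := by
        have : ((-1:ℤ):ℝ) < k := by push_cast; exact k2
        exact_mod_cast this
      have : k = 0 := by omega
      rw [this, Int.cast_zero] at hk
      linarith
    have h3 := h2 (fun i => ((y.1 i i : ℕ) : ℤ)) (fun i => th y i i) (by simpa using hth)
      (fun i => ⟨th_nonneg y _ _, th_le_one y _ _⟩) (fun i => by
        have := six_th y i i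
        push_cast
        exact this)
    refine ⟨sh (p * L) (p * L) y, hinv y hy L L, agree_of_diag (fun i hi => ?_)⟩
    rw [sh_apply]
    rw [abs_le] at hi
    have hi1 : 0 ≤ i + p * L := by
      have : (1:ℤ) * L ≤ p * L := by nlinarith
      have hLR : (L:ℤ) = 3 * R := by rw [hL]; push_cast; ring
      omega
    have hi2 : i + p * L < 2 * (p * L) + 1 := by
      have : (1:ℤ) * L ≤ p * L := by nlinarith
      have hLR : (L:ℤ) = 3 * R := by rw [hL]; push_cast; ring
      omega
    obtain ⟨k, hk⟩ := Int.eq_ofNat_of_zero_le hi1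
    have hk2 : k < 2 * (p * L) + 1 := by
      have : (k:ℤ) < 2 * (p * L) + 1 := by rw [← hk]; exact hi2
      exact_mod_cast this
    have h4 := h3 k hk2
    rw [hk]
    have e : ((k:ℤ)) - (p:ℤ) * L = i := by
      have : ((k : ℕ) : ℤ) = i + p * L := hk.symm
      omega
    rw [e] at h4
    refine Fin.ext ?_
    exact_mod_cast h4

end H76.TT
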