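import Mathlib
import Pool.Agent.H76.Furst
import Pool.Agent.H76.TT
import Pool.Agent.H76.TT2

/-!
# More on the `×2, ×3` shift: upward determinism, transitivity, periodic points
-/

namespace H76.TT

open Filter Topology H76.Furst

/-! ### Rows determine the rows above -/

/-- `f` is fixed by the shifts `(p,0)` and `(0,p)` -/
def PerP (p : ℕ) (f : B) : Prop := sh p 0 f = f ∧ sh 0 p f = f

/-- rows with the same digits have the same real numbers -/
lemma th_eq_of_row {y z : B} {n : ℤ} (h : ∀ m, y.1 m n = z.1 m n) (m : ℤ) :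
    th y m n = th z m n := by
  set D : ℕ → ℝ := fun k => th y (m + k) n - th z (m + k) n with hD
  have hstep : ∀ k, D (k + 1) = 2 * D k := by
    intro k
    simp only [hD]
    have a1 := two_th y (m + k) n
    have a2 := two_th z (m + k) n
    have e1 : m + ((k + 1 : ℕ) : ℤ) = m + k + 1 := by push_cast; ring
    rw [e1]
    rw [h (m + k)] at a1
    linarith
  have hb : ∀ k, |D k| ≤ 1 := by
    intro k
    simp only [hD]
    have a1 := th_nonneg y (m + k) n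
    have a2 := th_le_one y (m + k) n
    have a3 := th_nonneg z (m + k) n
    have a4 := th_le_one z (m + k) n
    rw [abs_le]; constructor <;> linarith
  have := zero_of_bounded (by norm_num) hstep hb
  simp only [hD, Nat.cast_zero, add_zero] at this
  linarith

lemma pr_periodic {p : ℕ} {f : B} (hf : PerP p f) (m n : ℤ) (i j : ℕ) :
    pr f (m + p * i) (n + p * j) = pr f m n := by
  have h1 : ∀ m n, pr f (m + p) n = pr f m n := by
    intro m n
    conv_rhs => rw [← hf.1, pr_sh, add_zero]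
  have h2 : ∀ m n, pr f m (n + p) = pr f m n := by
    intro m n
    conv_rhs => rw [← hf.2, pr_sh, add_zero]
  induction i with
  | zero =>
    induction j with
    | zero => simp
    | succ j ih =>
      have : n + (p:ℤ) * ((j + 1 : ℕ) : ℤ) = (n + p * j) + p := by push_cast; ring
      rw [this, h2, ih]
  | succ i ih =>
    have : m + (p:ℤ) * ((i + 1 : ℕ) : ℤ) = (m + p * i) + p := by push_cast; ring
    rw [this, h1, ih]

/-- if a periodic point has a projection killed by `6`, it is constant -/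
lemma const_of_six {p : ℕ} (hp : 1 ≤ p) {f : B} (hf : PerP p f) {m n : ℤ}
    (h : 6 • pr f m n = 0) : f = c0 ∨ f = c5 := by
  have h7 : pr f (m + 1) (n + 1) = 0 := by
    have e := pow_pr f m n 1 1
    norm_num at e
    rw [← e]; exact h
  refine const_of_pr_eq_zero (fun m' n' => ?_)
  -- shift (m', n') up by multiples of p
  have hp' : (1:ℤ) ≤ p := by exact_mod_cast hp
  have e0 := pr_periodic hf m' n' ((m + 1) - m').natAbs ((n + 1) - n').natAbs
  rw [← e0]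
  have hm : m + 1 ≤ m' + p * ((((m + 1) - m').natAbs : ℕ) : ℤ) := by
    have : (1:ℤ) * ((((m + 1) - m').natAbs : ℕ) : ℤ) ≤ p * ((((m + 1) - m').natAbs : ℕ) : ℤ) := by
      nlinarith
    omega
  have hn : n + 1 ≤ n' + p * ((((n + 1) - n').natAbs : ℕ) : ℤ) := by
    have : (1:ℤ) * ((((n + 1) - n').natAbs : ℕ) : ℤ) ≤ p * ((((n + 1) - n').natAbs : ℕ) : ℤ) := by
      nlinarith
    omega
  obtain ⟨u, hu⟩ := Int.eq_ofNat_of_zero_le (sub_nonneg.2 hm)
  obtain ⟨v, hv⟩ := Int.eq_ofNat_of_zero_le (sub_nonneg.2 hn)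
  have e1 := pow_pr f (m + 1) (n + 1) u v
  have em : m + 1 + (u:ℤ) = m' + p * ((((m + 1) - m').natAbs : ℕ) : ℤ) := by rw [← hu]; ring
  have en : n + 1 + (v:ℤ) = n' + p * ((((n + 1) - n').natAbs : ℕ) : ℤ) := by rw [← hv]; ring
  rw [em, en, h7, smul_zero] at e1
  exact e1.symm

/-- **Upward determinism.** -/
lemma row_up {p : ℕ} (hp : 1 ≤ p) {z f : B} (hf : PerP p f) {n : ℤ}
    (h : ∀ m, z.1 m n = f.1 m n) (m : ℤ) : z.1 m (n + 1) = f.1 m (n + 1) := by
  have h1 : th z m (n + 1) = th f m (n + 1) := by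
    have e1 := three_th z m n
    have e2 := three_th f m n
    rw [h m, th_eq_of_row h m] at e1
    linarith
  by_cases h6 : 6 • pr f m (n + 1) = 0
  · rcases const_of_six hp hf h6 with rfl | rfl
    · -- th = 0
      have h0 : th c0 m (n + 1) = 0 := by
        unfold th c0; simp
      rw [h0] at h1
      have := (digit_bounds z m (n + 1)).1
      rw [h1, mul_zero] at this
      have h3 : (z.1 m (n + 1) : ℕ) ≤ 0 := by exact_mod_cast this
      exact Fin.ext (by simpa [c0] using h3)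
    · have h0 : th c5 m (n + 1) = 1 := by
        unfold th c5
        rw [← tsum_bound]
        refine tsum_congr fun i => ?_
        norm_num
      rw [h0] at h1
      have := (digit_bounds z m (n + 1)).2
      rw [h1, mul_one] at this
      have h3 : (5:ℝ) ≤ (z.1 m (n + 1) : ℕ) := by linarith
      have h4 : 5 ≤ (z.1 m (n + 1) : ℕ) := by exact_mod_cast h3
      have h5 := (z.1 m (n + 1)).2
      exact Fin.ext (by simp only [c5]; show (z.1 m (n + 1) : ℕ) = 5; omega)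
  · exact (eq_of_pr_eq_of_ne (y := f) (z := z) (by unfold pr; rw [h1]) h6).symm

lemma rows_up {p : ℕ} (hp : 1 ≤ p) {z f : B} (hf : PerP p f) {n : ℤ}
    (h : ∀ m, z.1 m n = f.1 m n) : ∀ n' : ℤ, n ≤ n' → ∀ m, z.1 m n' = f.1 m n' := by
  intro n' hn'
  obtain ⟨k, hk⟩ := Int.eq_ofNat_of_zero_le (sub_nonneg.2 hn')
  have : n' = n + k := by omega
  subst this
  clear hn' hk
  induction k with
  | zero => simpa using h
  | succ k ih =>
    intro m
    push_cast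
    rw [← add_assoc]
    exact row_up hp hf ih m

/-! ### Points from real orbits -/

/-- floor identities used for the rule -/
lemma rule_of_real {θ : ℝ} (a b c d : ℤ)
    (ha : a = ⌊6 * θ⌋) (hb : b = ⌊6 * Int.fract (2 * θ)⌋) (hc : c = ⌊6 * Int.fract (3 * θ)⌋)
    (hd : d = ⌊6 * Int.fract (6 * θ)⌋) :
    b = 2 * (a % 3) + d / 3 ∧ c = 3 * (a % 2) + d / 2 := by
  have h36 : d = ⌊36 * θ⌋ - 6 * a := by
    rw [hd, Int.fract, ← ha]
    have : 6 * (6 * θ - (a:ℝ)) = 36 * θ - ((6 * a : ℤ) : ℝ) := by push_cast; ring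
    rw [this, Int.floor_sub_intCast]
  have h12 : b = ⌊12 * θ⌋ - 6 * ⌊2 * θ⌋ := by
    rw [hb, Int.fract]
    have : 6 * (2 * θ - (⌊2 * θ⌋:ℝ)) = 12 * θ - ((6 * ⌊2 * θ⌋ : ℤ) : ℝ) := by push_cast; ring
    rw [this, Int.floor_sub_intCast]
  have h18 : c = ⌊18 * θ⌋ - 6 * ⌊3 * θ⌋ := by
    rw [hc, Int.fract]
    have : 6 * (3 * θ - (⌊3 * θ⌋:ℝ)) = 18 * θ - ((6 * ⌊3 * θ⌋ : ℤ) : ℝ) := by push_cast; ring
    rw [this, Int.floor_sub_intCast]
  have f1 : ⌊12 * θ⌋ = ⌊36 * θ⌋ / 3 := by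
    have : (12 * θ) = (36 * θ) / ((3:ℕ) : ℝ) := by push_cast; ring
    rw [this, Int.floor_div_natCast]; rfl
  have f2 : ⌊18 * θ⌋ = ⌊36 * θ⌋ / 2 := by
    have : (18 * θ) = (36 * θ) / ((2:ℕ) : ℝ) := by push_cast; ring
    rw [this, Int.floor_div_natCast]; rfl
  have f3 : ⌊2 * θ⌋ = a / 3 := by
    have : (2 * θ) = (6 * θ) / ((3:ℕ) : ℝ) := by push_cast; ring
    rw [this, Int.floor_div_natCast, ha]; rfl
  have f4 : ⌊3 * θ⌋ = a / 2 := by
    have : (3 * θ) = (6 * θ) / ((2:ℕ) : ℝ) := by push_cast; ring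
    rw [this, Int.floor_div_natCast, ha]; rfl
  rw [f1, f3] at h12
  rw [f2, f4] at h18
  constructor <;> omega

lemma floor_lt_six {θ : ℝ} (h0 : 0 ≤ θ) (h1 : θ < 1) : (⌊6 * θ⌋).toNat < 6 := by
  have h2 : 0 ≤ ⌊6 * θ⌋ := Int.floor_nonneg.2 (by linarith)
  have h3 : ⌊6 * θ⌋ < 6 := Int.floor_lt.2 (by push_cast; linarith)
  omega

/-- The point of the shift attached to a two sided orbit of real numbers. -/
noncomputable def ofOrbit (θ : ℤ → ℤ → ℝ) (h0 : ∀ m n, 0 ≤ θ m n) (h1 : ∀ m n, θ m n < 1)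
    (h2 : ∀ m n, θ (m + 1) n = Int.fract (2 * θ m n))
    (h3 : ∀ m n, θ m (n + 1) = Int.fract (3 * θ m n)) : B :=
  ⟨fun m n => ⟨(⌊6 * θ m n⌋).toNat, floor_lt_six (h0 m n) (h1 m n)⟩, fun m n => by
    have h6 : θ (m + 1) (n + 1) = Int.fract (6 * θ m n) := by
      rw [h3, h2]
      have : 3 * Int.fract (2 * θ m n) = 6 * θ m n - ((3 * ⌊2 * θ m n⌋ : ℤ) : ℝ) := by
        rw [Int.fract]; push_cast; ring
      rw [this, Int.fract_sub_intCast]
    have hnn : ∀ m n, 0 ≤ ⌊6 * θ m n⌋ := fun m n => Int.floor_nonneg.2 (by linarith [h0 m n])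
    obtain ⟨r1, r2⟩ := rule_of_real (θ := θ m n) ⌊6 * θ m n⌋ ⌊6 * θ (m + 1) n⌋ ⌊6 * θ m (n + 1)⌋
      ⌊6 * θ (m + 1) (n + 1)⌋ rfl (by rw [h2]) (by rw [h3]) (by rw [h6])
    have a1 := hnn m n
    have a2 := hnn (m + 1) n
    have a3 := hnn m (n + 1)
    have a4 := hnn (m + 1) (n + 1)
    unfold Rule
    simp only
    constructor
    · omega
    · omega⟩

lemma ofOrbit_apply (θ : ℤ → ℤ → ℝ) (h0 : ∀ m n, 0 ≤ θ m n) (h1 : ∀ m n, θ m n < 1)
    (h2 : ∀ m n, θ (m + 1) n = Int.fract (2 * θ m n))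
    (h3 : ∀ m n, θ m (n + 1) = Int.fract (3 * θ m n)) (m n : ℤ) :
    (((ofOrbit θ h0 h1 h2 h3).1 m n : ℕ) : ℤ) = ⌊6 * θ m n⌋ := by
  have : 0 ≤ ⌊6 * θ m n⌋ := Int.floor_nonneg.2 (by linarith [h0 m n])
  unfold ofOrbit
  simp only
  omega

lemma th_ofOrbit (θ : ℤ → ℤ → ℝ) (h0 : ∀ m n, 0 ≤ θ m n) (h1 : ∀ m n, θ m n < 1)
    (h2 : ∀ m n, θ (m + 1) n = Int.fract (2 * θ m n))
    (h3 : ∀ m n, θ m (n + 1) = Int.fract (3 * θ m n)) (m n : ℤ) :
    th (ofOrbit θ h0 h1 h2 h3) m n = θ m n := by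
  set z := ofOrbit θ h0 h1 h2 h3 with hz
  have h6 : ∀ m n, θ (m + 1) (n + 1) = Int.fract (6 * θ m n) := by
    intro m n
    rw [h3, h2]
    have : 3 * Int.fract (2 * θ m n) = 6 * θ m n - ((3 * ⌊2 * θ m n⌋ : ℤ) : ℝ) := by
      rw [Int.fract]; push_cast; ring
    rw [this, Int.fract_sub_intCast]
  set D : ℕ → ℝ := fun k => th z (m + k) (n + k) - θ (m + k) (n + k) with hD
  have hstep : ∀ k, D (k + 1) = 6 * D k := by
    intro k
    simp only [hD]
    have a1 := six_th z (m + k) (n + k)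
    have a2 := h6 (m + k) (n + k)
    have e1 : m + ((k + 1 : ℕ) : ℤ) = m + k + 1 := by push_cast; ring
    have e2 : n + ((k + 1 : ℕ) : ℤ) = n + k + 1 := by push_cast; ring
    rw [e1, e2, a2, Int.fract]
    have a3 := ofOrbit_apply θ h0 h1 h2 h3 (m + k) (n + k)
    rw [← hz] at a3
    have a4 : ((z.1 (m + k) (n + k) : ℕ) : ℝ) = (⌊6 * θ (m + k) (n + k)⌋ : ℝ) := by
      rw [← a3]; push_cast; rfl
    rw [← a4]
    linarith
  have hb : ∀ k, |D k| ≤ 1 := by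
    intro k
    simp only [hD]
    have a1 := th_nonneg z (m + k) (n + k)
    have a2 := th_le_one z (m + k) (n + k)
    have a3 := h0 (m + k) (n + k)
    have a4 := h1 (m + k) (n + k)
    rw [abs_le]; constructor <;> linarith
  have := zero_of_bounded (by norm_num) hstep hb
  simp only [hD, Nat.cast_zero, add_zero] at this
  linarith

lemma fract_two_fract (x : ℝ) : Int.fract (2 * Int.fract x) = Int.fract (2 * x) := by
  have : 2 * Int.fract x = 2 * x - ((2 * ⌊x⌋ : ℤ) : ℝ) := by rw [Int.fract]; push_cast; ring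
  rw [this, Int.fract_sub_intCast]

lemma fract_three_fract (x : ℝ) : Int.fract (3 * Int.fract x) = Int.fract (3 * x) := by
  have : 3 * Int.fract x = 3 * x - ((3 * ⌊x⌋ : ℤ) : ℝ) := by rw [Int.fract]; push_cast; ring
  rw [this, Int.fract_sub_intCast]

/-- The point on the real leaf through the origin. -/
noncomputable def leaf (t : ℝ) : B :=
  ofOrbit (fun m n => Int.fract ((2:ℝ) ^ m * (3:ℝ) ^ n * t)) (fun _ _ => Int.fract_nonneg _)
    (fun _ _ => Int.fract_lt_one _)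
    (fun m n => by rw [fract_two_fract, zpow_add_one₀ (by norm_num)]; congr 1; ring)
    (fun m n => by rw [fract_three_fract, zpow_add_one₀ (by norm_num)]; congr 1; ring)

lemma leaf_apply (t : ℝ) (m n : ℤ) :
    (((leaf t).1 m n : ℕ) : ℤ) = ⌊6 * Int.fract ((2:ℝ) ^ m * (3:ℝ) ^ n * t)⌋ :=
  ofOrbit_apply _ _ _ _ _ m n

lemma th_leaf (t : ℝ) (m n : ℤ) : th (leaf t) m n = Int.fract ((2:ℝ) ^ m * (3:ℝ) ^ n * t) :=
  th_ofOrbit _ _ _ _ _ m n

lemma leaf_ext {y : B} {t : ℝ} {m n : ℤ}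
    (h : ((y.1 m n : ℕ) : ℤ) = ⌊6 * Int.fract ((2:ℝ) ^ m * (3:ℝ) ^ n * t)⌋) :
    y.1 m n = (leaf t).1 m n := by
  rw [← leaf_apply] at h
  exact Fin.ext (by exact_mod_cast h)

lemma sh_leaf (a b : ℤ) (t : ℝ) : sh a b (leaf t) = leaf ((2:ℝ) ^ a * (3:ℝ) ^ b * t) := by
  refine B_ext fun m n => leaf_ext ?_
  rw [sh_apply, leaf_apply, zpow_add₀ (by norm_num), zpow_add₀ (by norm_num)]
  congr 3
  ring

/-- a translate of the leaf parameter by a highly divisible integer does not change the window -/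
lemma leaf_add (t : ℝ) (R : ℕ) (j : ℤ) : agree R (leaf (t + 6 ^ R * j)) (leaf t) := by
  intro m n hm hn
  refine leaf_ext ?_
  rw [leaf_apply]
  congr 2
  rw [abs_le] at hm hn
  obtain ⟨u, hu⟩ := Int.eq_ofNat_of_zero_le (a := m + R) (by omega)
  obtain ⟨v, hv⟩ := Int.eq_ofNat_of_zero_le (a := n + R) (by omega)
  have e : (2:ℝ) ^ m * (3:ℝ) ^ n * (t + 6 ^ R * j)
      = (2:ℝ) ^ m * (3:ℝ) ^ n * t + ((2 ^ u * 3 ^ v * j : ℤ) : ℝ) := by
    push_cast
    have h6 : (6:ℝ) ^ R = (2:ℝ) ^ R * (3:ℝ) ^ R := by rw [← mul_pow]; norm_num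
    have e1 : (2:ℝ) ^ m * (2:ℝ) ^ R = (2:ℝ) ^ u := by
      rw [← zpow_natCast (2:ℝ) R, ← zpow_add₀ (by norm_num), hu, zpow_natCast]
    have e2 : (3:ℝ) ^ n * (3:ℝ) ^ R = (3:ℝ) ^ v := by
      rw [← zpow_natCast (3:ℝ) R, ← zpow_add₀ (by norm_num), hv, zpow_natCast]
    rw [h6, ← e1, ← e2]
    ring
  rw [e, Int.fract_add_intCast]

/-- right continuity of the leaf -/
lemma leaf_right (t : ℝ) (R : ℕ) : ∃ ε : ℝ, 0 < ε ∧ ∀ s, t ≤ s → s < t + ε →
    agree R (leaf s) (leaf t) := by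
  -- one position at a time
  have one : ∀ m n : ℤ, ∃ ε : ℝ, 0 < ε ∧ ∀ s, t ≤ s → s < t + ε →
      (leaf s).1 m n = (leaf t).1 m n := by
    intro m n
    set c : ℝ := (2:ℝ) ^ m * (3:ℝ) ^ n with hc
    have hcpos : 0 < c := by positivity
    set x : ℝ := 6 * (c * t) with hx
    refine ⟨(⌊x⌋ + 1 - x) / (6 * c), ?_, fun s hs1 hs2 => ?_⟩
    · have := Int.lt_floor_add_one x
      apply div_pos (by linarith) (by positivity)
    · refine leaf_ext ?_
      rw [leaf_apply]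
      -- ⌊6 fract (c s)⌋ = ⌊6 c s⌋ - 6 ⌊c s⌋
      have key : ∀ r : ℝ, ⌊6 * Int.fract (c * r)⌋ = ⌊6 * (c * r)⌋ - 6 * (⌊6 * (c * r)⌋ / 6) := by
        intro r
        have e1 : 6 * Int.fract (c * r) = 6 * (c * r) - ((6 * ⌊c * r⌋ : ℤ) : ℝ) := by
          rw [Int.fract]; push_cast; ring
        rw [e1, Int.floor_sub_intCast]
        have e2 : ⌊c * r⌋ = ⌊6 * (c * r)⌋ / 6 := by
          have : c * r = (6 * (c * r)) / ((6:ℕ) : ℝ) := by push_cast; ring
          conv_lhs => rw [this, Int.floor_div_natCast]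
          rfl
        rw [e2]
      rw [key s, key t]
      have e3 : ⌊6 * (c * s)⌋ = ⌊6 * (c * t)⌋ := by
        rw [Int.floor_eq_iff]
        constructor
        · have := Int.floor_le (6 * (c * t))
          have h : c * t ≤ c * s := by gcongr
          linarith
        · rw [← hx]
          have h : s - t < (⌊x⌋ + 1 - x) / (6 * c) := by linarith
          rw [lt_div_iff₀ (by positivity)] at h
          have : 6 * (c * s) = x + (s - t) * (6 * c) := by rw [hx]; ring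
          linarith
      rw [e3]
  choose ε hε1 hε2 using one
  -- minimum over the window
  have hfin : (Finset.Icc (-(R:ℤ)) R ×ˢ Finset.Icc (-(R:ℤ)) R).Nonempty :=
    ⟨(0, 0), by simp⟩
  obtain ⟨⟨a, b⟩, hab, hmin⟩ := Finset.exists_min_image
    (Finset.Icc (-(R:ℤ)) R ×ˢ Finset.Icc (-(R:ℤ)) R) (fun x => ε x.1 x.2) hfin
  refine ⟨ε a b, hε1 a b, fun s hs1 hs2 m n hm hn => hε2 m n s hs1 ?_⟩
  rw [abs_le] at hm hn
  have := hmin (m, n) (by simp; omega)
  simp only at this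
  linarith

/-- the leaf is dense -/
lemma leaf_dense (z : B) (R : ℕ) : ∃ t : ℝ, agree R (leaf t) z := by
  set L : ℕ := 3 * R with hL
  obtain ⟨θ, h0, h1, h2⟩ := exists_digits (2 * L + 1) (fun i => z.1 ((i:ℤ) - L) ((i:ℤ) - L))
  have h3 := h2 (fun i => (((leaf θ).1 i i : ℕ) : ℤ)) (fun i => th (leaf θ) i i)
    (by
      simp only [Nat.cast_zero]
      rw [th_leaf]; simp [Int.fract_eq_self.2 ⟨h0.le, h1⟩])
    (fun i => ⟨th_nonneg _ _ _, th_le_one _ _ _⟩) (fun i => by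
      have := six_th (leaf θ) i i
      push_cast
      exact this)
  refine ⟨(2:ℝ) ^ (L:ℤ) * (3:ℝ) ^ (L:ℤ) * θ, ?_⟩
  rw [← sh_leaf]
  refine agree_of_diag (fun i hi => ?_)
  rw [sh_apply]
  rw [abs_le] at hi
  have hLR : (L:ℤ) = 3 * R := by rw [hL]; push_cast; ring
  obtain ⟨k, hk⟩ := Int.eq_ofNat_of_zero_le (a := i + L) (by omega)
  have h4 := h3 k (by omega)
  rw [hk]
  have e : ((k:ℤ)) - (L:ℤ) = i := by
    have : ((k : ℕ) : ℤ) = i + L := hk.symm
    omega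
  rw [e] at h4
  refine Fin.ext ?_
  exact_mod_cast h4

/-- **Transitivity** of the powers of the horizontal shift. -/
lemma transitive {p : ℕ} (hp : 1 ≤ p) {U V : Set B} (hU : IsOpen U) (hV : IsOpen V)
    (hUn : U.Nonempty) (hVn : V.Nonempty) : ∃ z ∈ U, ∃ k : ℕ, sh (p * k) 0 z ∈ V := by
  obtain ⟨u, hu⟩ := hUn
  obtain ⟨v, hv⟩ := hVn
  obtain ⟨R1, hR1⟩ := exists_agree_subset hU hu
  obtain ⟨R2, hR2⟩ := exists_agree_subset hV hv
  obtain ⟨t1, ht1⟩ := leaf_dense u R1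
  obtain ⟨t2, ht2⟩ := leaf_dense v R2
  obtain ⟨ε1, hε1, h1⟩ := leaf_right t1 R1
  -- choose k with 2^(pk) ε1 > 6^R2
  obtain ⟨k, hk⟩ := pow_unbounded_of_one_lt ((6:ℝ) ^ R2 / ε1) (by norm_num : (1:ℝ) < 2)
  have hk' : (6:ℝ) ^ R2 < (2:ℝ) ^ (p * k) * ε1 := by
    rw [div_lt_iff₀ hε1] at hk
    refine lt_of_lt_of_le hk ?_
    gcongr
    · norm_num
    · nlinarith
  set c : ℝ := (2:ℝ) ^ (p * k) with hc
  have hcpos : 0 < c := by positivity
  -- s ∈ [c t1, c t1 + 6^R2) with s ∈ t2 + 6^R2 ℤ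
  set j : ℤ := ⌈(c * t1 - t2) / 6 ^ R2⌉ with hj
  have hj1 : c * t1 ≤ t2 + 6 ^ R2 * j := by
    have := Int.le_ceil ((c * t1 - t2) / 6 ^ R2)
    rw [div_le_iff₀ (by positivity)] at this
    linarith
  have hj2 : t2 + 6 ^ R2 * j < c * t1 + 6 ^ R2 := by
    have := Int.ceil_lt_add_one ((c * t1 - t2) / 6 ^ R2)
    rw [← hj] at this
    have h' : (j:ℝ) * 6 ^ R2 < ((c * t1 - t2) / 6 ^ R2 + 1) * 6 ^ R2 := by gcongr
    rw [add_mul, div_mul_cancel₀ _ (by positivity : (6:ℝ) ^ R2 ≠ 0)] at h'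
    linarith
  set s : ℝ := (t2 + 6 ^ R2 * j) / c with hs
  have hs1 : t1 ≤ s := by rw [hs, le_div_iff₀ hcpos]; linarith
  have hs2 : s < t1 + ε1 := by
    rw [hs, div_lt_iff₀ hcpos]
    nlinarith
  refine ⟨leaf s, hR1 _ ((h1 s hs1 hs2).trans ht1), k, hR2 _ ?_⟩
  have e : sh (p * k) 0 (leaf s) = leaf (t2 + 6 ^ R2 * j) := by
    rw [sh_leaf]
    congr 1
    rw [hs, zpow_zero, mul_one]
    have : (2:ℝ) ^ ((p:ℤ) * (k:ℤ)) = c := by rw [hc, ← zpow_natCast]; push_cast; rfl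
    rw [this]
    field_simp
  rw [e]
  exact (leaf_add t2 R2 j).trans ht2

end H76.TT
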