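import Mathlib
import Pool.Agent.H76.TT3

/-!
# Periodic points and half-plane rigidity for the `×2, ×3` shift
-/

namespace H76.TT

open Filter Topology H76.Furst

lemma sh_comm (a b c d : ℤ) (z : B) : sh a b (sh c d z) = sh c d (sh a b z) := by
  rw [sh_sh, sh_sh, add_comm a, add_comm b]

/-- The points of period `p` form a finite set. -/
lemma perP_finite {p : ℕ} (hp : 1 ≤ p) : {f : B | PerP p f}.Finite := by
  have hc : IsClosed {f : B | PerP p f} :=
    (isClosed_eq (continuous_sh _ _) continuous_id).inter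
      (isClosed_eq (continuous_sh _ _) continuous_id)
  have hi : InvP 1 {f : B | PerP p f} := by
    intro f hf i j
    exact ⟨by rw [sh_comm, hf.1], by rw [sh_comm, hf.2]⟩
  rcases finite_or_univ le_rfl hc hi with h | h
  · exact h
  · exfalso
    have h1 : PerP p (leaf (1 / 2)) := by
      have : leaf (1 / 2) ∈ {f : B | PerP p f} := by rw [h]; trivial
      exact this
    have h2 : th (sh p 0 (leaf (1 / 2))) 0 0 = th (leaf (1 / 2)) 0 0 := by rw [h1.1]
    rw [th_sh, th_leaf, th_leaf] at h2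
    simp only [zero_add, zpow_zero, one_mul, mul_one] at h2
    have h3 : Int.fract ((1:ℝ) / 2) = 1 / 2 := Int.fract_eq_self.2 ⟨by norm_num, by norm_num⟩
    obtain ⟨k, rfl⟩ : ∃ k, p = k + 1 := ⟨p - 1, by omega⟩
    have h4 : (2:ℝ) ^ ((k + 1 : ℕ) : ℤ) * (1 / 2) = ((2 ^ k : ℤ) : ℝ) := by
      rw [zpow_natCast]; push_cast; ring
    rw [h4, Int.fract_intCast, h3] at h2
    norm_num at h2

lemma perP_mul {p : ℕ} {f : B} (hf : PerP p f) (k : ℕ) : PerP (p * k) f := by
  induction k with
  | zero => constructor <;> simp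
  | succ k ih =>
    constructor
    · have : ((p * (k + 1) : ℕ) : ℤ) = (p:ℤ) + ((p * k : ℕ) : ℤ) := by push_cast; ring
      have h0 : (0:ℤ) = 0 + 0 := by ring
      rw [this, h0, ← sh_sh, ih.1, hf.1]
    · have : ((p * (k + 1) : ℕ) : ℤ) = (p:ℤ) + ((p * k : ℕ) : ℤ) := by push_cast; ring
      have h0 : (0:ℤ) = 0 + 0 := by ring
      rw [this, h0, ← sh_sh, ih.2, hf.2]

lemma perP_int {p : ℕ} {f : B} (hf : PerP p f) (i j : ℤ) : sh (p * i) (p * j) f = f := by
  have h1 : ∀ i : ℤ, sh (p * i) 0 f = f := by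
    intro i
    obtain ⟨k, rfl | rfl⟩ := Int.eq_nat_or_neg i
    · simpa using (perP_mul hf k).1
    · have := (perP_mul hf k).1
      conv_lhs => rw [← this]
      rw [sh_sh]
      push_cast
      simp
  have h2 : ∀ j : ℤ, sh 0 (p * j) f = f := by
    intro i
    obtain ⟨k, rfl | rfl⟩ := Int.eq_nat_or_neg i
    · simpa using (perP_mul hf k).2
    · have := (perP_mul hf k).2
      conv_lhs => rw [← this]
      rw [sh_sh]
      push_cast
      simp
  have : sh (p * i) (p * j) f = sh (p * i) 0 (sh 0 (p * j) f) := by rw [sh_sh]; simp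
  rw [this, h2, h1]

/-- finite invariant sets consist of points with a common period -/
lemma exists_period {F : Set B} (hF : F.Finite) {p : ℕ} (hinv : InvP p F) :
    ∃ k, 1 ≤ k ∧ ∀ f ∈ F, PerP (p * k) f := by
  have : Finite F := hF
  obtain ⟨i, j, hne, hij⟩ := Finite.exists_ne_map_eq_of_infinite
    (fun i : ℕ => (fun f : F => (⟨sh (p * i) (p * 0) f, hinv f f.2 i 0⟩ : F)))
  obtain ⟨i', j', hne', hij'⟩ := Finite.exists_ne_map_eq_of_infinite
    (fun i : ℕ => (fun f : F => (⟨sh (p * 0) (p * i) f, hinv f f.2 0 i⟩ : F)))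
  have h1 : ∃ a, 1 ≤ a ∧ ∀ f ∈ F, sh ((p * a : ℕ) : ℤ) 0 f = f := by
    wlog hlt : i < j generalizing i j
    · exact this j i hne.symm hij.symm (by omega)
    refine ⟨j - i, by omega, fun f hf => ?_⟩
    have e := congrArg Subtype.val (congrFun hij ⟨f, hf⟩)
    simp only [mul_zero] at e
    apply sh_injective (p * i) 0
    rw [sh_sh, e]
    congr 1
    have : ((j - i : ℕ) : ℤ) = j - i := by omega
    push_cast
    rw [this]; ring
  have h2 : ∃ a, 1 ≤ a ∧ ∀ f ∈ F, sh 0 ((p * a : ℕ) : ℤ) f = f := by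
    wlog hlt : i' < j' generalizing i' j'
    · exact this j' i' hne'.symm hij'.symm (by omega)
    refine ⟨j' - i', by omega, fun f hf => ?_⟩
    have e := congrArg Subtype.val (congrFun hij' ⟨f, hf⟩)
    simp only [mul_zero] at e
    apply sh_injective 0 (p * i')
    rw [sh_sh, e]
    congr 1
    have : ((j' - i' : ℕ) : ℤ) = j' - i' := by omega
    push_cast
    rw [this]; ring
  obtain ⟨a, ha, h1⟩ := h1
  obtain ⟨b, hb, h2⟩ := h2
  refine ⟨a * b, Nat.mul_pos ha hb, fun f hf => ?_⟩
  have key1 : ∀ k : ℕ, sh ((p * a * k : ℕ) : ℤ) 0 f = f := by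
    intro k
    induction k with
    | zero => simp
    | succ k ih =>
      have : ((p * a * (k + 1) : ℕ) : ℤ) = ((p * a : ℕ) : ℤ) + ((p * a * k : ℕ) : ℤ) := by
        push_cast; ring
      have h0 : (0:ℤ) = 0 + 0 := by ring
      rw [this, h0, ← sh_sh, ih, h1 f hf]
  have key2 : ∀ k : ℕ, sh 0 ((p * b * k : ℕ) : ℤ) f = f := by
    intro k
    induction k with
    | zero => simp
    | succ k ih =>
      have : ((p * b * (k + 1) : ℕ) : ℤ) = ((p * b : ℕ) : ℤ) + ((p * b * k : ℕ) : ℤ) := by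
        push_cast; ring
      have h0 : (0:ℤ) = 0 + 0 := by ring
      rw [this, h0, ← sh_sh, ih, h2 f hf]
  constructor
  · have := key1 b
    rwa [mul_assoc] at this
  · have := key2 a
    rwa [mul_assoc, mul_comm b a] at this

/-- separation radius of a finite set -/
lemma exists_sep {F : Set B} (hF : F.Finite) : ∃ R : ℕ, ∀ f ∈ F, ∀ g ∈ F, agree R f g → f = g := by
  have h1 : ∀ f g : B, ∃ R : ℕ, agree R f g → f = g := by
    intro f g
    by_cases hfg : f = g
    · exact ⟨0, fun _ => hfg⟩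
    · have : ∃ m n : ℤ, f.1 m n ≠ g.1 m n := by
        by_contra hcon
        push Not at hcon
        exact hfg (B_ext hcon)
      obtain ⟨m, n, hmn⟩ := this
      refine ⟨max m.natAbs n.natAbs, fun h => absurd (h m n ?_ ?_) hmn⟩
      · rw [Int.abs_eq_natAbs]; exact_mod_cast le_max_left _ _
      · rw [Int.abs_eq_natAbs]; exact_mod_cast le_max_right _ _
  choose r hr using h1
  refine ⟨hF.toFinset.sup (fun f => hF.toFinset.sup (fun g => r f g)), fun f hf g hg h => ?_⟩
  apply hr f g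
  refine h.mono ?_
  refine le_trans ?_ (Finset.le_sup (f := fun f => hF.toFinset.sup (fun g => r f g))
    (hF.mem_toFinset.2 hf))
  exact Finset.le_sup (f := fun g => r f g) (hF.mem_toFinset.2 hg)

/-- If all horizontal translates (by multiples of `p`) of `z` are close to the finite invariant
set `F`, then `z` coincides with an element of `F` on an upper half-plane. -/
lemma strip {F : Set B} (hF : F.Finite) {p : ℕ} (hp : 1 ≤ p) (hinv : InvP p F) :
    ∃ R : ℕ, (∀ f ∈ F, ∀ g ∈ F, agree R f g → f = g) ∧ ∀ z : B,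
      (∀ m : ℤ, ∃ f ∈ F, agree R (sh (p * m) 0 z) f) →
        ∃ g ∈ F, ∀ n : ℤ, -(R:ℤ) ≤ n → ∀ m, z.1 m n = g.1 m n := by
  obtain ⟨R0, hR0⟩ := exists_sep hF
  obtain ⟨k, hk, hper⟩ := exists_period hF hinv
  refine ⟨R0 + p, fun f hf g hg h => hR0 f hf g hg (h.mono (by omega)), fun z hz => ?_⟩
  choose f hf hag using hz
  have hp' : (1:ℤ) ≤ p := by exact_mod_cast hp
  -- the translates back
  set g : ℤ → B := fun m => sh (p * (-m)) (p * 0) (f m) with hg
  have hgF : ∀ m, g m ∈ F := fun m => hinv _ (hf m) _ _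
  have hgf : ∀ m, sh (p * m) (p * 0) (g m) = f m := by
    intro m
    rw [hg]
    simp only
    rw [sh_sh]
    simp
  have hagz : ∀ m, ∀ a b : ℤ, |a - p * m| ≤ R0 + p → |b| ≤ R0 + p → z.1 a b = (g m).1 a b := by
    intro m a b ha hb
    have h1 := hag m (a - p * m) b (by push_cast; exact ha) (by push_cast; exact hb)
    rw [sh_apply, ← hgf m, sh_apply] at h1
    simpa using h1
  have hstep : ∀ m, g m = g (m + 1) := by
    intro m
    apply sh_injective (p * m) (p * 0)
    refine hR0 _ (hinv _ (hgF m) _ _) _ (hinv _ (hgF (m + 1)) _ _) ?_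
    intro a b ha hb
    change (g m).1 (a + p * m) (b + p * 0) = (g (m + 1)).1 (a + p * m) (b + p * 0)
    rw [abs_le] at ha hb
    rw [← hagz m (a + p * m) (b + p * 0) (by rw [abs_le]; constructor <;> linarith)
        (by rw [abs_le]; constructor <;> linarith),
      ← hagz (m + 1) (a + p * m) (b + p * 0) (by rw [abs_le]; constructor <;> linarith)
        (by rw [abs_le]; constructor <;> linarith)]
  have hconst : ∀ m : ℤ, g m = g 0 := by
    intro m
    induction m using Int.induction_on with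
    | zero => rfl
    | succ i ih => rw [← hstep, ih]
    | pred i ih => rw [hstep, sub_add_cancel, ih]
  refine ⟨g 0, hgF 0, ?_⟩
  have hrow : ∀ m : ℤ, ∀ n : ℤ, |n| ≤ R0 + p → z.1 m n = (g 0).1 m n := by
    intro m n hn
    rw [← hconst (m / p)]
    refine hagz (m / p) m n ?_ hn
    have h1 := Int.emod_nonneg m (by omega : (p:ℤ) ≠ 0)
    have h2 := Int.emod_lt_of_pos m (by omega : (0:ℤ) < p)
    have h3 := Int.emod_add_mul_ediv m p
    rw [abs_le]
    constructor <;> linarith
  intro n hn m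
  have hb : ∀ m, z.1 m (-((R0 + p : ℕ) : ℤ)) = (g 0).1 m (-((R0 + p : ℕ) : ℤ)) := by
    intro m
    refine hrow m _ ?_
    rw [abs_neg, abs_of_nonneg (by positivity)]
    push_cast
    exact le_rfl
  exact rows_up (p := p * k) (Nat.mul_pos hp hk) (hper _ (hgF 0)) hb n hn m

/-- **Rigidity of backward invariant sets.** -/
lemma backward {T : Set B} (hT : IsClosed T) {p : ℕ} (hp : 1 ≤ p)
    (h1 : ∀ z ∈ T, ∀ i : ℤ, sh (p * i) 0 z ∈ T) (h2 : ∀ z ∈ T, sh 0 (-p) z ∈ T)
    (hne : T ≠ Set.univ) : ∃ Q : Set B, Q.Finite ∧ InvP p Q ∧ T ⊆ Q := by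
  set Tn : ℕ → Set B := fun n => {z | sh 0 (p * n) z ∈ T} with hTn
  have hclosed : ∀ n, IsClosed (Tn n) := fun n => hT.preimage (continuous_sh _ _)
  have hanti : ∀ n, Tn (n + 1) ⊆ Tn n := by
    intro n z hz
    have := h2 _ hz
    rw [sh_sh] at this
    show sh 0 (p * n) z ∈ T
    have e : (p:ℤ) * n = -p + p * ((n + 1 : ℕ) : ℤ) := by push_cast; ring
    rw [e]
    simpa using this
  have hdown : ∀ z ∈ T, ∀ k : ℕ, sh 0 (-(p * k)) z ∈ T := by
    intro z hz k
    induction k with
    | zero => simpa using hz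
    | succ k ih =>
      have := h2 _ ih
      rw [sh_sh] at this
      have e : -((p:ℤ) * ((k + 1 : ℕ) : ℤ)) = -p + -(p * k) := by push_cast; ring
      rw [e]
      simpa using this
  have hTinv : InvP p (⋂ n, Tn n) := by
    intro z hz i j
    rw [Set.mem_iInter] at hz ⊢
    intro n
    show sh 0 (p * n) (sh (p * i) (p * j) z) ∈ T
    have e : sh 0 (p * n) (sh (p * i) (p * j) z) = sh (p * i) 0 (sh 0 (p * (n + j)) z) := by
      rw [sh_sh, sh_sh]
      congr 1 <;> ring
    rw [e]
    apply h1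
    rcases le_or_gt 0 ((n:ℤ) + j) with h0 | h0
    · obtain ⟨k, hk⟩ := Int.eq_ofNat_of_zero_le h0
      rw [hk]
      exact hz k
    · obtain ⟨k, hk⟩ := Int.eq_ofNat_of_zero_le (a := -((n:ℤ) + j)) (by omega)
      have h3 : sh 0 (p * (0:ℕ)) z ∈ T := hz 0
      have h4 : z ∈ T := by simpa using h3
      have h5 := hdown z h4 k
      have : ((n:ℤ) + j) = -k := by omega
      rw [this]
      convert h5 using 2
      ring
  have hTc : IsClosed (⋂ n, Tn n) := isClosed_iInter hclosed
  rcases finite_or_univ hp hTc hTinv with hfin | huniv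
  swap
  · exfalso
    apply hne
    rw [Set.eq_univ_iff_forall] at huniv ⊢
    intro z
    have := huniv z
    rw [Set.mem_iInter] at this
    have h3 : sh 0 (p * (0:ℕ)) z ∈ T := this 0
    simpa using h3
  set Q := ⋂ n, Tn n with hQ
  obtain ⟨R, hsep, hstrip⟩ := strip hfin hp hTinv
  set N : Set B := ⋃ f ∈ Q, {y | agree R y f} with hN
  have hNo : IsOpen N := isOpen_biUnion fun f _ => isOpen_agree R f
  have hn0 : ∃ n0, Tn n0 ⊆ N := by
    by_contra hcon
    push Not at hcon
    have hne' : ∀ n, (Tn n ∩ Nᶜ).Nonempty := fun n => by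
      obtain ⟨y, hy1, hy2⟩ := Set.not_subset.1 (hcon n)
      exact ⟨y, hy1, hy2⟩
    obtain ⟨y, hy⟩ := IsCompact.nonempty_iInter_of_sequence_nonempty_isCompact_isClosed
      (fun n : ℕ => Tn n ∩ Nᶜ) (fun n => Set.inter_subset_inter_left _ (hanti n)) hne'
      ((hclosed 0).inter hNo.isClosed_compl).isCompact
      (fun n => (hclosed n).inter hNo.isClosed_compl)
    rw [Set.mem_iInter] at hy
    have hyQ : y ∈ Q := Set.mem_iInter.2 fun n => (hy n).1
    exact (hy 0).2 (Set.mem_biUnion hyQ (agree_refl R y))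
  obtain ⟨n0, hn0⟩ := hn0
  have hsub : Tn n0 ⊆ Q := by
    intro z hz
    have hall : ∀ n : ℕ, ∃ h ∈ Q, ∀ b : ℤ, -(R:ℤ) - p * n ≤ b → ∀ a, z.1 a b = h.1 a b := by
      intro n
      have hz' : ∀ m : ℤ, ∃ f ∈ Q, agree R (sh (p * m) 0 (sh 0 (-(p * n)) z)) f := by
        intro m
        have : sh (p * m) 0 (sh 0 (-(p * n)) z) ∈ Tn n0 := by
          show sh 0 (p * n0) (sh (p * m) 0 (sh 0 (-(p * n)) z)) ∈ T
          have e : sh 0 (p * n0) (sh (p * m) 0 (sh 0 (-(p * n)) z))
              = sh (p * m) 0 (sh 0 (-(p * n)) (sh 0 (p * n0) z)) := by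
            simp only [sh_sh]
            congr 1 <;> ring
          rw [e]
          exact h1 _ (hdown _ hz n) m
        have := hn0 this
        rw [hN, Set.mem_iUnion₂] at this
        obtain ⟨f, hf, hfa⟩ := this
        exact ⟨f, hf, hfa⟩
      obtain ⟨g, hg, hgz⟩ := hstrip _ hz'
      refine ⟨sh (p * 0) (p * n) g, hTinv g hg 0 n, fun b hb a => ?_⟩
      have := hgz (b + p * n) (by omega) a
      rw [sh_apply] at this ⊢
      simpa using this
    choose h hhQ hh using hall
    have heq : ∀ n, h n = h 0 := by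
      intro n
      apply hsep _ (hhQ n) _ (hhQ 0)
      intro a b ha hb
      rw [abs_le] at hb
      have hpn : (0:ℤ) ≤ p * n := by positivity
      rw [← hh n b (by omega) a, ← hh 0 b (by simpa using hb.1) a]
    have : z = h 0 := by
      refine B_ext fun a b => ?_
      have hp' : (1:ℤ) ≤ p := by exact_mod_cast hp
      rw [← heq b.natAbs]
      refine hh b.natAbs b ?_ a
      have : (1:ℤ) * (b.natAbs : ℤ) ≤ p * (b.natAbs : ℤ) := by nlinarith
      omega
    rw [this]
    exact hhQ 0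
  refine ⟨Q, hfin, hTinv, fun z hz => ?_⟩
  have hw : sh 0 (-(p * n0)) z ∈ Tn n0 := by
    show sh 0 (p * n0) (sh 0 (-(p * n0)) z) ∈ T
    rw [sh_sh]
    simpa using hz
  have := hTinv _ (hsub hw) 0 n0
  rw [sh_sh] at this
  simpa using this

end H76.TT
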