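import Mathlib
import Pool.Agent.H76.TT4

/-!
# Closed invariant subsets of the powers of the `×2, ×3` shift

The group `ℤ^ι × ℤ` acts on `ι → B` by `×2` on each coordinate separately and by `×3` on all
coordinates at once.  Closed invariant subsets are either everything or contained in finitely many
hyperplanes `{x i = f}` with `f` periodic; in particular there are only countably many of them.
-/

namespace H76.TT

open Filter Topology H76.Furst

variable {ι : Type*} [Fintype ι] [DecidableEq ι]

/-- The action of `ℤ^ι × ℤ`. -/
def act (a : ι → ℤ) (b : ℤ) (x : ι → B) : ι → B := fun i => sh (a i) b (x i)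

/-- invariance under the subgroup of multiples of `p` -/
def Inv (p : ℕ) (Y : Set (ι → B)) : Prop :=
  ∀ x ∈ Y, ∀ (a : ι → ℤ) (b : ℤ), act (fun i => p * a i) (p * b) x ∈ Y

/-- The set of points whose coordinates outside `J` are those of `q`. -/
def E (J : Finset ι) (q : ι → B) : Set (ι → B) := {x | ∀ i, i ∉ J → x i = q i}

omit [Fintype ι] [DecidableEq ι] in
lemma isClosed_E (J : Finset ι) (q : ι → B) : IsClosed (E J q) := by
  have : E J q = ⋂ i : ι, ⋂ _ : i ∉ J, {x : ι → B | x i = q i} := by
    ext x; simp [E]
  rw [this]
  exact isClosed_iInter fun i => isClosed_iInter fun _ =>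
    isClosed_eq (continuous_apply i) continuous_const

omit [Fintype ι] [DecidableEq ι] in
lemma act_act (a c : ι → ℤ) (b d : ℤ) (x : ι → B) :
    act a b (act c d x) = act (fun i => a i + c i) (b + d) x := by
  funext i; simp [act, sh_sh]

/-- **Structure theorem** for closed invariant sets. -/
theorem structure_thm {p : ℕ} (hp : 1 ≤ p) (J : Finset ι) :
    ∀ (q : ι → B) (Y : Set (ι → B)), IsClosed Y → Inv p Y → Y ⊆ E J q →
      Y = E J q ∨ ∃ F : Set B, F.Finite ∧ InvP p F ∧ ∀ x ∈ Y, ∃ i ∈ J, x i ∈ F := by
  induction J using Finset.induction_on with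
  | empty =>
    intro q Y hYc hYi hYE
    rcases Y.eq_empty_or_nonempty with h | ⟨y, hy⟩
    · right
      exact ⟨∅, Set.finite_empty, fun y hy => absurd hy (Set.notMem_empty _),
        fun x hx => by rw [h] at hx; exact absurd hx (Set.notMem_empty _)⟩
    · left
      apply Set.Subset.antisymm hYE
      intro x hx
      have : x = y := funext fun i => by
        rw [hx i (by simp), hYE hy i (by simp)]
      rw [this]; exact hy
  | insert j J hj ih =>
    intro q Y hYc hYi hYE
    set q' : ι → B := Function.update q j c0 with hq'
    -- the set of points over which the whole fibre is in `Y`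
    set I : Set (ι → B) := {w | w ∈ E J q' ∧ ∀ z : B, Function.update w j z ∈ Y} with hI
    have hupd : ∀ z : B, Continuous (fun w : ι → B => Function.update w j z) := fun z =>
      continuous_id.update j continuous_const
    have hIc : IsClosed I := by
      have : I = E J q' ∩ ⋂ z : B, (fun w : ι → B => Function.update w j z) ⁻¹' Y := by
        ext w; simp [hI]
      rw [this]
      exact (isClosed_E J q').inter (isClosed_iInter fun z => hYc.preimage (hupd z))
    have hact_upd : ∀ (a : ι → ℤ) (b : ℤ) (w : ι → B) (z : B),
        Function.update (act a b w) j z = act a b (Function.update w j (sh (-a j) (-b) z)) := by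
      intro a b w z
      funext i
      by_cases hij : i = j
      · subst hij
        simp [act, sh_sh]
      · simp [act, hij]
    have hIi : Inv p I := by
      intro w hw a b
      have hmem : ∀ z : B, Function.update (act (fun i => p * a i) (p * b) w) j z ∈ Y := by
        intro z
        rw [hact_upd]
        exact hYi _ (hw.2 _) a b
      refine ⟨?_, hmem⟩
      intro i hi
      by_cases hij : i = j
      · subst hij
        have h1 : w i = c0 := by rw [hw.1 i hi, hq']; simp
        simp [act, h1, hq']
      · have := hYE (hmem c0) i (by simp [hij, hi])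
        rw [Function.update_of_ne hij] at this
        rw [this, hq', Function.update_of_ne hij]
    rcases ih q' I hIc hIi (fun w hw => hw.1) with hIE | ⟨F, hF, hFi, hIF⟩
    · -- the whole space
      left
      apply Set.Subset.antisymm hYE
      intro x hx
      have hw : Function.update x j c0 ∈ E J q' := by
        intro i hi
        by_cases hij : i = j
        · subst hij; simp [hq']
        · rw [Function.update_of_ne hij, hq', Function.update_of_ne hij]
          exact hx i (by simp [hij, hi])
      rw [← hIE] at hw
      have := hw.2 (x j)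
      simpa using this
    · right
      obtain ⟨R, hsep, hstrip⟩ := strip hF hp hFi
      set N : Set B := {y | ∃ f ∈ F, agree R y f} with hN
      have hNo : IsOpen N := by
        have : N = ⋃ f ∈ F, {y | agree R y f} := by ext y; simp [hN]
        rw [this]
        exact isOpen_biUnion fun f _ => isOpen_agree R f
      have hNc : IsClosed Nᶜ := hNo.isClosed_compl
      have hFN : F ⊆ N := fun f hf => ⟨f, hf, agree_refl R f⟩
      -- the bad set
      set K : Set (ι → B) := Y ∩ {x | ∀ i ∈ J, x i ∉ N} with hK
      have hKc : IsClosed K := by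
        have : {x : ι → B | ∀ i ∈ J, x i ∉ N} = ⋂ i ∈ J, (fun x : ι → B => x i) ⁻¹' Nᶜ := by
          ext x; simp
        rw [hK, this]
        exact hYc.inter (isClosed_biInter fun i _ => hNc.preimage (continuous_apply i))
      set T : Set B := (fun x : ι → B => x j) '' K with hT
      have hTc : IsClosed T := (hKc.isCompact.image (continuous_apply j)).isClosed
      -- single coordinate moves
      have hmove : ∀ x ∈ Y, ∀ c : ι → ℤ, act (fun i => p * c i) 0 x ∈ Y := by
        intro x hx c
        have := hYi x hx c 0
        simpa using this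
      -- choose good horizontal translates
      have hchoose : ∀ x ∈ Y, (∀ i ∈ J, ∃ m : ℤ, sh (p * m) 0 (x i) ∉ N) → x j ∈ T := by
        intro x hx h
        choose! m hm using h
        refine ⟨act (fun i => p * (if i = j then 0 else m i)) 0 x,
          ⟨hmove x hx _, fun i hi => ?_⟩, ?_⟩
        · have hij : i ≠ j := fun e => hj (e ▸ hi)
          simp only [act, hij, if_false]
          exact hm i hi
        · simp [act]
      have hT1 : ∀ z ∈ T, ∀ i : ℤ, sh (p * i) 0 z ∈ T := by
        rintro _ ⟨x, hx, rfl⟩ i
        refine ⟨act (fun k => p * (if k = j then i else 0)) 0 x,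
          ⟨hmove x hx.1 _, fun k hk => ?_⟩, ?_⟩
        · have hkj : k ≠ j := fun e => hj (e ▸ hk)
          simp only [act, hkj, if_false, mul_zero, sh_zero]
          exact hx.2 k hk
        · simp [act]
      have hT2 : ∀ z ∈ T, sh 0 (-p) z ∈ T := by
        rintro _ ⟨x, hx, rfl⟩
        have hx' : act (fun _ => p * 0) (p * (-1)) x ∈ Y := hYi x hx.1 (fun _ => 0) (-1)
        have := hchoose _ hx' (fun i hi => ?_)
        · simpa [act] using this
        · by_contra hcon
          push Not at hcon
          obtain ⟨g, hg, hgx⟩ := hstrip _ hcon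
          apply hx.2 i hi
          refine ⟨sh (p * 0) (p * 1) g, hFi g hg 0 1, fun a b ha hb => ?_⟩
          rw [abs_le] at hb
          have h1 := hgx (b + p) (by have : (0:ℤ) ≤ p := by positivity
                                     omega) a
          simp only [act, sh_apply] at h1
          rw [sh_apply]
          simpa using h1
      have hTne : T ≠ Set.univ := by
        intro hTu
        -- compact set of directions
        set C : Set (ι → B) := E J q' ∩ {w | ∀ i ∈ J, w i ∉ N} with hC
        have hCc : IsCompact C := by
          have : {x : ι → B | ∀ i ∈ J, x i ∉ N} = ⋂ i ∈ J, (fun x : ι → B => x i) ⁻¹' Nᶜ := by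
            ext x; simp
          rw [hC, this]
          exact ((isClosed_E J q').inter
            (isClosed_biInter fun i _ => hNc.preimage (continuous_apply i))).isCompact
        have hex : ∀ w ∈ C, ∃ U : Set B, ∃ V : Set (ι → B), IsOpen U ∧ IsOpen V ∧ U.Nonempty ∧
            w ∈ V ∧ ∀ z ∈ U, ∀ w' ∈ V, Function.update w' j z ∉ Y := by
          intro w hw
          have hwI : w ∉ I := by
            intro hwI
            obtain ⟨i, hi, hiF⟩ := hIF w hwI
            exact hw.2 i hi (hFN hiF)
          have : ∃ z : B, Function.update w j z ∉ Y := by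
            by_contra hcon
            push Not at hcon
            exact hwI ⟨hw.1, hcon⟩
          obtain ⟨z, hz⟩ := this
          have hcont : Continuous (fun t : B × (ι → B) => Function.update t.2 j t.1) :=
            continuous_snd.update j continuous_fst
          have hopen : IsOpen ((fun t : B × (ι → B) => Function.update t.2 j t.1) ⁻¹' Yᶜ) :=
            hYc.isOpen_compl.preimage hcont
          rw [isOpen_prod_iff] at hopen
          obtain ⟨U, V, hU, hV, hzU, hwV, hUV⟩ := hopen z w hz
          exact ⟨U, V, hU, hV, ⟨z, hzU⟩, hwV, fun z' hz' w' hw' => hUV (Set.mk_mem_prod hz' hw')⟩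
        choose! U V hU hV hUn hwV hUV using hex
        obtain ⟨t, htC, htcov⟩ := hCc.elim_nhds_subcover V (fun w hw => (hV w hw).mem_nhds (hwV w hw))
        -- a point whose horizontal orbit meets all the sets `U w`
        have hgen : ∀ s : Finset (ι → B), (∀ w ∈ s, w ∈ C) →
            ∃ O : Set B, IsOpen O ∧ O.Nonempty ∧ ∀ z ∈ O, ∀ w ∈ s, ∃ m : ℤ, sh (p * m) 0 z ∈ U w := by
          classical
          intro s
          induction s using Finset.induction_on with
          | empty => exact fun _ => ⟨Set.univ, isOpen_univ, ⟨c0, trivial⟩, fun z _ w hw => by simp at hw⟩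
          | insert w s hws ihs =>
            intro hs
            obtain ⟨O, hO, hOn, hOs⟩ := ihs (fun w' hw' => hs w' (Finset.mem_insert_of_mem hw'))
            have hwC := hs w (Finset.mem_insert_self w s)
            obtain ⟨z, hz, k, hk⟩ := transitive hp hO (hU w hwC) hOn (hUn w hwC)
            refine ⟨O ∩ (sh (p * k) 0) ⁻¹' (U w), hO.inter ((hU w hwC).preimage (continuous_sh _ _)),
              ⟨z, hz, hk⟩, fun z' hz' w' hw' => ?_⟩
            rcases Finset.mem_insert.1 hw' with rfl | hw'
            · exact ⟨k, hz'.2⟩
            · exact hOs z' hz'.1 w' hw'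
        obtain ⟨O, -, ⟨z, hzO⟩, hOt⟩ := hgen t htC
        have hzT : z ∈ T := by rw [hTu]; trivial
        obtain ⟨x, hxK, hxz⟩ := hzT
        simp only at hxz
        have hwC : Function.update x j c0 ∈ C := by
          refine ⟨?_, fun i hi => ?_⟩
          · intro i hi
            by_cases hij : i = j
            · subst hij; simp [hq']
            · rw [Function.update_of_ne hij, hq', Function.update_of_ne hij]
              exact hYE hxK.1 i (by simp [hij, hi])
          · have hij : i ≠ j := fun e => hj (e ▸ hi)
            rw [Function.update_of_ne hij]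
            exact hxK.2 i hi
        obtain ⟨w, hwt, hwV'⟩ := Set.mem_iUnion₂.1 (htcov hwC)
        obtain ⟨m, hm⟩ := hOt z hzO w hwt
        apply hUV w (htC w hwt) _ hm _ hwV'
        have := hmove x hxK.1 (fun k => if k = j then m else 0)
        convert this using 1
        funext k
        by_cases hkj : k = j
        · subst hkj
          simp [act, hxz]
        · simp [act, hkj]
      obtain ⟨Q, hQ, hQi, hTQ⟩ := backward hTc hp hT1 hT2 hTne
      refine ⟨F ∪ Q, hF.union hQ, ?_, fun x hx => ?_⟩
      · rintro f (hf | hf) a b
        · exact Or.inl (hFi f hf a b)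
        · exact Or.inr (hQi f hf a b)
      by_cases hxQ : x j ∈ Q
      · exact ⟨j, Finset.mem_insert_self j J, Or.inr hxQ⟩
      -- the coordinates in `J`
      have hrow : ∀ n : ℤ, ∃ i ∈ J, ∃ g ∈ F, ∀ b : ℤ, -(R:ℤ) + p * n ≤ b → ∀ a,
          (x i).1 a b = g.1 a b := by
        intro n
        have hxn : act (fun _ => p * 0) (p * n) x ∈ Y := hYi x hx (fun _ => 0) n
        have hnT : (act (fun _ => (p:ℤ) * 0) (p * n) x) j ∉ T := by
          intro hmem
          apply hxQ
          have h1 := hQi _ (hTQ hmem) 0 (-n)
          simp only [act, sh_sh] at h1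
          simpa using h1
        have := mt (hchoose _ hxn) hnT
        push Not at this
        obtain ⟨i, hi, hall⟩ := this
        obtain ⟨g, hg, hgx⟩ := hstrip _ (fun m => by
          have := hall m
          exact this)
        refine ⟨i, hi, sh (p * 0) (p * (-n)) g, hFi g hg 0 (-n), fun b hb a => ?_⟩
        have h1 := hgx (b - p * n) (by omega) a
        simp only [act, sh_apply] at h1
        rw [sh_apply]
        simp only [mul_zero, add_zero] at h1 ⊢
        rw [sub_add_cancel] at h1
        rw [h1]
        have e : b - (p:ℤ) * n = b + p * -n := by ring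
        rw [e]
      have hex : ∃ i ∈ J, ∀ n : ℤ, ∃ g ∈ F, ∀ b : ℤ, -(R:ℤ) + p * n ≤ b → ∀ a,
          (x i).1 a b = g.1 a b := by
        by_contra hcon
        push Not at hcon
        choose! n hn using hcon
        -- take the minimum of the n i
        obtain ⟨i0, hi0, -⟩ := hrow 0
        obtain ⟨i1, hi1, hmin⟩ := Finset.exists_min_image J n ⟨i0, hi0⟩
        obtain ⟨i, hi, g, hg, hgx⟩ := hrow (n i1)
        obtain ⟨b, hb, a, hab⟩ := hn i hi g hg
        apply hab
        refine hgx b (le_trans ?_ hb) a
        have := hmin i hi
        have hp0 : (0:ℤ) ≤ p := by positivity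
        nlinarith
      obtain ⟨i, hi, hall⟩ := hex
      refine ⟨i, Finset.mem_insert_of_mem hi, Or.inl ?_⟩
      choose g hg hgx using hall
      have hp' : (1:ℤ) ≤ p := by exact_mod_cast hp
      have hgc : ∀ n : ℕ, g (-n) = g 0 := by
        intro n
        -- both agree with `x i` on the upper half plane
        apply sh_injective (p * 0) (p * R)
        apply hsep _ (hFi _ (hg _) 0 R) _ (hFi _ (hg _) 0 R)
        intro a b ha hb
        rw [abs_le] at hb
        rw [sh_apply, sh_apply]
        have hR : (1:ℤ) * R ≤ p * R := by nlinarith
        have hn : (0:ℤ) ≤ p * n := by positivity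
        rw [← hgx (-n) (b + p * R) (by linarith), ← hgx 0 (b + p * R) (by linarith)]
      have : x i = g 0 := by
        refine B_ext fun a b => ?_
        rw [← hgc b.natAbs]
        refine hgx (-(b.natAbs : ℤ)) b ?_ a
        have : (1:ℤ) * (b.natAbs : ℤ) ≤ p * (b.natAbs : ℤ) := by nlinarith
        have hR : (0:ℤ) ≤ R := by positivity
        have e : (p:ℤ) * (-(b.natAbs : ℤ)) = -(p * (b.natAbs : ℤ)) := by ring
        rw [e]
        omega
      rw [this]
      exact hg 0

/-- The set of periodic points. -/
def Per : Set B := {f | ∃ p : ℕ, 1 ≤ p ∧ PerP p f}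

lemma countable_Per : Per.Countable := by
  have : Per = ⋃ p : ℕ, {f | 1 ≤ p ∧ PerP p f} := by ext f; simp [Per]
  rw [this]
  refine Set.countable_iUnion fun p => ?_
  by_cases hp : 1 ≤ p
  · exact (perP_finite hp).countable.mono (fun f hf => hf.2)
  · exact (Set.countable_empty).mono (fun f hf => absurd hf.1 hp)

/-- **Countability.** There are only countably many closed invariant sets. -/
theorem countable_inv (J : Finset ι) : ∀ (q : ι → B) (p : ℕ), 1 ≤ p →
    {Y : Set (ι → B) | IsClosed Y ∧ Inv p Y ∧ Y ⊆ E J q}.Countable := by
  induction J using Finset.strongInduction with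
  | H J ih =>
    intro q p hp
    set G : Set (Set (ι → B)) := ⋃ i ∈ J, ⋃ f ∈ Per, ⋃ k : ℕ,
      {Y : Set (ι → B) | 1 ≤ k ∧ IsClosed Y ∧ Inv k Y ∧
        Y ⊆ E (J.erase i) (Function.update q i f)} with hG
    have hGc : G.Countable := by
      rw [hG]
      refine (Finset.countable_toSet J).biUnion fun i hi => ?_
      refine countable_Per.biUnion fun f _ => Set.countable_iUnion fun k => ?_
      by_cases hk : 1 ≤ k
      · exact (ih (J.erase i) (Finset.erase_ssubset hi) (Function.update q i f) k hk).mono
          (fun Y hY => hY.2)
      · exact (Set.countable_empty).mono (fun f hf => absurd hf.1 hk)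
    have hfin : {S : Set (Set (ι → B)) | S.Finite ∧ S ⊆ G}.Countable :=
      Set.countable_ofPred_finite_subset hGc
    refine ((hfin.image (fun S => ⋃₀ S)).union (Set.countable_singleton (E J q))).mono ?_
    rintro Y ⟨hYc, hYi, hYE⟩
    rcases structure_thm hp J q Y hYc hYi hYE with h | ⟨F, hF, hFi, hYF⟩
    · right; exact h
    · left
      obtain ⟨k, hk, hper⟩ := exists_period hF hFi
      -- the pieces
      set S : Set (Set (ι → B)) := (fun t : ι × B => Y ∩ {x | x t.1 = t.2}) '' ((J : Set ι) ×ˢ F)
        with hS
      refine ⟨S, ⟨?_, ?_⟩, ?_⟩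
      · exact ((Finset.finite_toSet J).prod hF).image _
      · rintro _ ⟨⟨i, f⟩, ⟨hi, hf⟩, rfl⟩
        simp only at hi hf ⊢
        have hpk : 1 ≤ p * k := Nat.mul_pos hp hk
        refine Set.mem_biUnion hi (Set.mem_biUnion (show f ∈ Per from ⟨p * k, hpk, hper f hf⟩)
          (Set.mem_iUnion.2 ⟨p * k, hpk, ?_, ?_, ?_⟩))
        · exact hYc.inter (isClosed_eq (continuous_apply i) continuous_const)
        · rintro x ⟨hx, hxf⟩ a b
          refine ⟨?_, ?_⟩
          · have := hYi x hx (fun i => k * a i) (k * b)
            convert this using 1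
            push_cast
            simp only [mul_assoc]
          · show sh _ _ (x i) = f
            have hxf' : x i = f := hxf
            rw [hxf']
            exact perP_int (hper f hf) _ _
        · rintro x ⟨hx, hxf⟩ l hl
          by_cases hli : l = i
          · subst hli
            rw [Function.update_self]; exact hxf
          · rw [Function.update_of_ne hli]
            exact hYE hx l (fun h => hl (Finset.mem_erase.2 ⟨hli, h⟩))
      · ext x
        simp only [hS, Set.sUnion_image, Set.mem_iUnion]
        constructor
        · rintro ⟨t, -, hx⟩; exact hx.1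
        · intro hx
          obtain ⟨i, hi, hiF⟩ := hYF x hx
          exact ⟨(i, x i), ⟨hi, hiF⟩, hx, rfl⟩

end H76.TT
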