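import Mathlib
import Pool.Agent.H76.TT5

/-!
# Density of periodic points of the `×2, ×3` shift
-/

namespace H76.TT

open Topology Filter

section
variable (N : ℕ) [NeZero N] (h2 : Nat.Coprime 2 N) (h3 : Nat.Coprime 3 N)

/-- the orbit of `1/N` under the invertible action -/
noncomputable def thN (m n : ℤ) : ℝ :=
  (((((ZMod.unitOfCoprime 2 h2) ^ m * (ZMod.unitOfCoprime 3 h3) ^ n :
      (ZMod N)ˣ) : ZMod N).val : ℕ) : ℝ) / N

lemma val_mul_div (c : ℕ) [c.AtLeastTwo] (a : ZMod N) :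
    (((OfNat.ofNat c * a : ZMod N).val : ℕ) : ℝ) / N
      = Int.fract ((OfNat.ofNat c : ℝ) * (((a.val : ℕ) : ℝ) / N)) := by
  have hN : (0:ℝ) < N := by exact_mod_cast Nat.pos_of_ne_zero (NeZero.ne N)
  have hc : (OfNat.ofNat c : ZMod N) = ((c : ℕ) : ZMod N) := rfl
  have hc' : (OfNat.ofNat c : ℝ) = ((c : ℕ) : ℝ) := rfl
  have h1 : (OfNat.ofNat c * a : ZMod N) = ((c * a.val : ℕ) : ZMod N) := by
    rw [hc]; push_cast; rw [ZMod.natCast_zmod_val]
  rw [h1, ZMod.val_natCast, hc']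
  have h2 : (c:ℝ) * (((a.val : ℕ) : ℝ) / N)
      = (((c * a.val / N : ℕ) : ℤ) : ℝ) + (((c * a.val % N : ℕ) : ℝ)) / N := by
    have := Nat.div_add_mod (c * a.val) N
    have h3 : ((c * a.val : ℕ) : ℝ) = (N:ℝ) * ((c * a.val / N : ℕ) : ℝ)
      + ((c * a.val % N : ℕ) : ℝ) := by exact_mod_cast this.symm
    rw [← mul_div_assoc]
    have h4 : (c:ℝ) * ((a.val : ℕ) : ℝ) = ((c * a.val : ℕ) : ℝ) := by push_cast; ring
    rw [h4, h3, Int.cast_natCast]
    field_simp
  rw [h2, Int.fract_intCast_add]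
  symm
  rw [Int.fract_eq_self]
  constructor
  · positivity
  · rw [div_lt_one hN]
    exact_mod_cast Nat.mod_lt _ (Nat.pos_of_ne_zero (NeZero.ne N))

lemma thN_nonneg (m n : ℤ) : 0 ≤ thN N h2 h3 m n := by unfold thN; positivity

lemma thN_lt_one (m n : ℤ) : thN N h2 h3 m n < 1 := by
  have hN : (0:ℝ) < N := by exact_mod_cast Nat.pos_of_ne_zero (NeZero.ne N)
  unfold thN
  rw [div_lt_one hN]
  exact_mod_cast ZMod.val_lt _

lemma thN_two (m n : ℤ) : thN N h2 h3 (m + 1) n = Int.fract (2 * thN N h2 h3 m n) := by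
  unfold thN
  set a : ZMod N := (((ZMod.unitOfCoprime 2 h2) ^ m * (ZMod.unitOfCoprime 3 h3) ^ n :
    (ZMod N)ˣ) : ZMod N) with ha
  have e : ((((ZMod.unitOfCoprime 2 h2) ^ (m + 1) * (ZMod.unitOfCoprime 3 h3) ^ n :
    (ZMod N)ˣ) : ZMod N)) = 2 * a := by
    rw [ha, zpow_add_one]
    push_cast
    rw [ZMod.coe_unitOfCoprime]
    push_cast
    ring
  rw [e]
  exact val_mul_div N 2 a

lemma thN_three (m n : ℤ) : thN N h2 h3 m (n + 1) = Int.fract (3 * thN N h2 h3 m n) := by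
  unfold thN
  set a : ZMod N := (((ZMod.unitOfCoprime 2 h2) ^ m * (ZMod.unitOfCoprime 3 h3) ^ n :
    (ZMod N)ˣ) : ZMod N) with ha
  have e : ((((ZMod.unitOfCoprime 2 h2) ^ m * (ZMod.unitOfCoprime 3 h3) ^ (n + 1) :
    (ZMod N)ˣ) : ZMod N)) = 3 * a := by
    rw [ha, zpow_add_one]
    push_cast
    rw [ZMod.coe_unitOfCoprime 3]
    push_cast
    ring
  rw [e]
  exact val_mul_div N 3 a

/-- a periodic point -/
noncomputable def perPt : B :=
  ofOrbit (thN N h2 h3) (thN_nonneg N h2 h3) (thN_lt_one N h2 h3) (thN_two N h2 h3)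
    (thN_three N h2 h3)

lemma perPt_apply (m n : ℤ) :
    (((perPt N h2 h3).1 m n : ℕ) : ℤ) = ⌊6 * thN N h2 h3 m n⌋ := ofOrbit_apply _ _ _ _ _ m n

lemma th_perPt (hN : 1 < N) : th (perPt N h2 h3) 0 0 = 1 / N := by
  unfold perPt
  rw [th_ofOrbit]
  unfold thN
  simp only [zpow_zero, mul_one, Units.val_one]
  have : Fact (1 < N) := ⟨hN⟩
  rw [ZMod.val_one]
  simp

lemma perPt_per : perPt N h2 h3 ∈ Per := by
  refine ⟨Nat.totient N, Nat.totient_pos.2 (Nat.pos_of_ne_zero (NeZero.ne N)), ?_, ?_⟩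
  · refine B_ext fun m n => Fin.ext ?_
    have e : thN N h2 h3 (m + (Nat.totient N : ℕ)) n = thN N h2 h3 m n := by
      unfold thN
      rw [zpow_add, zpow_natCast, ZMod.pow_totient, mul_one]
    have h : (((perPt N h2 h3).1 (m + (Nat.totient N : ℕ)) n : ℕ) : ℤ)
        = (((perPt N h2 h3).1 m n : ℕ) : ℤ) := by
      rw [perPt_apply, perPt_apply, e]
    rw [sh_apply, add_zero]
    exact_mod_cast h
  · refine B_ext fun m n => Fin.ext ?_
    have e : thN N h2 h3 m (n + (Nat.totient N : ℕ)) = thN N h2 h3 m n := by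
      unfold thN
      rw [zpow_add _ n, zpow_natCast, ZMod.pow_totient, mul_one]
    have h : (((perPt N h2 h3).1 m (n + (Nat.totient N : ℕ)) : ℕ) : ℤ)
        = (((perPt N h2 h3).1 m n : ℕ) : ℤ) := by
      rw [perPt_apply, perPt_apply, e]
    rw [sh_apply, add_zero]
    exact_mod_cast h

end

/-- There are infinitely many periodic points. -/
lemma infinite_Per : Per.Infinite := by
  have h2 : ∀ k : ℕ, Nat.Coprime 2 (6 * (k + 1) + 1) := by
    intro k
    rw [show 6 * (k + 1) + 1 = 2 * (3 * (k + 1)) + 1 by ring]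
    simp
  have h3 : ∀ k : ℕ, Nat.Coprime 3 (6 * (k + 1) + 1) := by
    intro k
    rw [show 6 * (k + 1) + 1 = 3 * (2 * (k + 1)) + 1 by ring]
    simp
  refine Set.infinite_of_injective_forall_mem
    (f := fun k : ℕ => perPt (6 * (k + 1) + 1) (h2 k) (h3 k)) ?_ (fun k => perPt_per _ _ _)
  intro k l hkl
  have e := congrArg (fun z : B => th z 0 0) hkl
  simp only at e
  rw [th_perPt _ _ _ (by omega), th_perPt _ _ _ (by omega)] at e
  have : ((6 * (k + 1) + 1 : ℕ) : ℝ) = ((6 * (l + 1) + 1 : ℕ) : ℝ) := by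
    have h1 : (0:ℝ) < ((6 * (k + 1) + 1 : ℕ) : ℝ) := by positivity
    have h1' : (0:ℝ) < ((6 * (l + 1) + 1 : ℕ) : ℝ) := by positivity
    field_simp at e
    linarith
  have : 6 * (k + 1) + 1 = 6 * (l + 1) + 1 := by exact_mod_cast this
  omega

lemma infinite_B : (Set.univ : Set B).Infinite := infinite_Per.mono (Set.subset_univ _)

/-- Periodic points are dense. -/
lemma dense_Per (z : B) (R : ℕ) : ∃ f ∈ Per, agree R f z := by
  have hinv : InvP 1 (closure Per) := by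
    intro y hy i j
    have hmaps : Set.MapsTo (sh (((1:ℕ):ℤ) * i) (((1:ℕ):ℤ) * j)) Per Per := by
      rintro f ⟨p, hp, hf⟩
      exact ⟨p, hp, by rw [PerP, sh_comm, hf.1, sh_comm, hf.2]; exact ⟨rfl, rfl⟩⟩
    exact hmaps.closure (continuous_sh _ _) hy
  have huniv : closure Per = Set.univ := by
    rcases finite_or_univ le_rfl isClosed_closure hinv with h | h
    · exact absurd (h.subset subset_closure) infinite_Per
    · exact h
  have hz : z ∈ closure Per := by rw [huniv]; trivial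
  rw [mem_closure_iff] at hz
  obtain ⟨f, hf, hfP⟩ := hz _ (isOpen_agree R z) (agree_refl R z)
  exact ⟨f, hfP, hf⟩

/-- the orbit of a point -/
def orb (f : B) : Set B := {g | ∃ a b : ℤ, g = sh a b f}

lemma orb_inv (f : B) : InvP 1 (orb f) := by
  rintro _ ⟨a, b, rfl⟩ i j
  exact ⟨_, _, sh_sh _ _ _ _ _⟩

lemma self_mem_orb (f : B) : f ∈ orb f := ⟨0, 0, by simp⟩

lemma orb_finite {f : B} (hf : f ∈ Per) : (orb f).Finite := by
  obtain ⟨p, hp, hf⟩ := hf
  refine (perP_finite hp).subset ?_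
  rintro _ ⟨a, b, rfl⟩
  exact ⟨by rw [sh_comm, hf.1], by rw [sh_comm, hf.2]⟩

lemma InvP.union {p : ℕ} {F G : Set B} (hF : InvP p F) (hG : InvP p G) : InvP p (F ∪ G) := by
  rintro f (hf | hf) a b
  · exact Or.inl (hF f hf a b)
  · exact Or.inr (hG f hf a b)

/-- For every radius there is a finite invariant set which is dense at this scale. -/
lemma exists_finite_dense (R : ℕ) :
    ∃ D : Set B, D.Finite ∧ InvP 1 D ∧ ∀ z : B, ∃ f ∈ D, agree R f z := by
  have hcov : (Set.univ : Set B) ⊆ ⋃ f ∈ Per, {y | agree R y f} := by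
    intro z _
    obtain ⟨f, hf, hfz⟩ := dense_Per z R
    exact Set.mem_biUnion hf hfz.symm
  obtain ⟨t, ht, htf, htc⟩ := isCompact_univ.elim_finite_subcover_image
    (b := Per) (c := fun f => {y | agree R y f}) (fun f _ => isOpen_agree R f) hcov
  refine ⟨⋃ f ∈ t, orb f, htf.biUnion (fun f hf => orb_finite (ht hf)), ?_, fun z => ?_⟩
  · intro g hg i j
    obtain ⟨f, hf, hgf⟩ := Set.mem_iUnion₂.1 hg
    exact Set.mem_biUnion hf (orb_inv f g hgf i j)
  · obtain ⟨f, hf, hfz⟩ := Set.mem_iUnion₂.1 (htc (Set.mem_univ z))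
    exact ⟨f, Set.mem_biUnion hf (self_mem_orb f), agree.symm hfz⟩

end H76.TT
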