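import Mathlib
import Pool.Agent.H76.CBShift
import Pool.Agent.H76.TT6

/-!
# Lower bound for the Cantor-Bendixson rank of the space of shifts

`(Fin k → B) × Fin n₀` is encoded as a shift of finite type in dimension `k + 1`.
-/

namespace H76.CB

open Topology Filter TopologicalSpace CantorBendixson H76.TT Ordinal

variable {k n₀ : ℕ}

/-- the space to be encoded -/
abbrev W (k n₀ : ℕ) : Type := (Fin k → B) × Fin n₀

/-- an injective code for the alphabet -/
noncomputable def code (k n₀ : ℕ) (t : (Fin k → Fin 6) × Fin n₀) : ℤ :=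
  ((Fintype.equivFin ((Fin k → Fin 6) × Fin n₀) t : ℕ) : ℤ)

lemma code_injective : Function.Injective (code k n₀) := by
  intro s t h
  unfold code at h
  have h1 : (Fintype.equivFin ((Fin k → Fin 6) × Fin n₀) s : ℕ)
      = (Fintype.equivFin ((Fin k → Fin 6) × Fin n₀) t : ℕ) := by exact_mod_cast h
  exact (Fintype.equivFin _).injective (Fin.ext h1)

/-- the symbol at a position -/
def symb (w : W k n₀) (u : Fin (k + 1) → ℤ) : (Fin k → Fin 6) × Fin n₀ :=
  (fun i => (w.1 i).1 (u i.castSucc) (u (Fin.last k)), w.2)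

/-- the encoding -/
noncomputable def Psi (w : W k n₀) : Config (k + 1) :=
  ((fun u => code k n₀ (symb w u)) : (Fin (k + 1) → ℤ) → ℤ)

lemma Psi_apply (w : W k n₀) (u : Fin (k + 1) → ℤ) : Psi w u = code k n₀ (symb w u) := rfl

/-- the action on `W` -/
def actW (a : Fin k → ℤ) (b : ℤ) (w : W k n₀) : W k n₀ := (act a b w.1, w.2)

lemma shift_Psi (u : Fin (k + 1) → ℤ) (w : W k n₀) :
    shift u (Psi w) = Psi (actW (fun i => u i.castSucc) (u (Fin.last k)) w) := by
  refine Config.ext fun v => ?_
  show code k n₀ (symb w (u + v)) = code k n₀ (symb _ v)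
  congr 1
  unfold symb actW act
  simp only [Pi.add_apply, sh_apply]
  congr 1
  funext i
  rw [add_comm (u i.castSucc), add_comm (u (Fin.last k))]

lemma Psi_injective : Function.Injective (Psi (k := k) (n₀ := n₀)) := by
  intro w w' h
  have h1 : ∀ u, symb w u = symb w' u := by
    intro u
    apply code_injective
    rw [← Psi_apply, ← Psi_apply, h]
  have h2 : w.2 = w'.2 := by
    have := congrArg Prod.snd (h1 0)
    exact this
  have h3 : w.1 = w'.1 := by
    funext i
    refine B_ext fun m n => ?_
    have := congrFun (congrArg Prod.fst (h1 (fun j => if j = i.castSucc then m else n))) i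
    unfold symb at this
    simp only [if_true] at this
    have hne : Fin.last k ≠ i.castSucc := (Fin.castSucc_lt_last i).ne'
    simpa [hne] using this
  exact Prod.ext h3 h2

lemma agreeC_Psi {R : ℕ} {w w' : W k n₀} (h : ∀ i, agree R (w.1 i) (w'.1 i)) (h2 : w.2 = w'.2) :
    agreeC R (Psi w) (Psi w') := by
  intro u hu
  rw [Psi_apply, Psi_apply]
  congr 1
  unfold symb
  rw [h2]
  congr 1
  funext i
  have hb : ∀ j, |u j| ≤ R := by
    intro j
    have : (u j).natAbs ≤ supNorm u := Finset.le_sup (f := fun k => (u k).natAbs) (Finset.mem_univ j)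
    rw [Int.abs_eq_natAbs]
    exact_mod_cast this.trans hu
  exact h i _ _ (hb _) (hb _)

lemma continuous_Psi : Continuous (Psi (k := k) (n₀ := n₀)) := by
  rw [continuous_iff_continuousAt]
  intro w
  refine Metric.tendsto_nhds.2 (fun ε hε => ?_)
  obtain ⟨R, hR⟩ := exists_pow_lt_of_lt_one hε (by norm_num : (1 / 2 : ℝ) < 1)
  have hopen : IsOpen {w' : W k n₀ | (∀ i, agree R (w'.1 i) (w.1 i)) ∧ w'.2 = w.2} := by
    have h1 : IsOpen (⋂ i : Fin k, (fun w' : W k n₀ => w'.1 i) ⁻¹' {y | agree R y (w.1 i)}) :=
      isOpen_iInter_of_finite fun i =>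
        (isOpen_agree R (w.1 i)).preimage ((continuous_apply i).comp continuous_fst)
    have h2 : IsOpen ((fun w' : W k n₀ => w'.2) ⁻¹' ({w.2} : Set (Fin n₀))) :=
      (isOpen_discrete ({w.2} : Set (Fin n₀))).preimage continuous_snd
    have e : {w' : W k n₀ | (∀ i, agree R (w'.1 i) (w.1 i)) ∧ w'.2 = w.2}
        = (⋂ i : Fin k, (fun w' : W k n₀ => w'.1 i) ⁻¹' {y | agree R y (w.1 i)}) ∩
          ((fun w' : W k n₀ => w'.2) ⁻¹' ({w.2} : Set (Fin n₀))) := by
      ext w'; simp
    rw [e]
    exact h1.inter h2
  filter_upwards [hopen.mem_nhds ⟨fun i => agree_refl R _, rfl⟩] with w' hw'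
  exact lt_trans ((dist_lt_iff R _ _).2 (agreeC_Psi hw'.1 hw'.2)) hR

/-- invariance of subsets of `W` -/
def InvW (A : Set (W k n₀)) : Prop := ∀ w ∈ A, ∀ a b, actW a b w ∈ A

/-- a closed nonempty invariant set gives a shift -/
lemma inCB_zero {A : Set (W k n₀)} (hc : IsClosed A) (hn : A.Nonempty) (hi : InvW A) :
    InCB 0 (Psi '' A) := by
  have hcomp : IsCompact (Psi '' A) := hc.isCompact.image continuous_Psi
  let K : NonemptyCompacts (Config (k + 1)) := ⟨⟨Psi '' A, hcomp⟩, hn.image _⟩
  have hK : IsShift K := by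
    constructor
    · refine ⟨Finset.univ.image (code k n₀), ?_⟩
      rintro _ ⟨w, -, rfl⟩ u
      exact Finset.mem_image_of_mem _ (Finset.mem_univ _)
    · rintro u _ ⟨w, hw, rfl⟩
      rw [shift_Psi]
      exact ⟨_, hi w hw _ _, rfl⟩
  refine ⟨⟨K, hK⟩, rfl, ?_⟩
  show _ ∈ iteratedDerivedSet (Set.univ : Set (ShiftSpace (k + 1))) 0
  rw [iteratedDerivedSet_zero]
  trivial

lemma InCB.of_limit {d : ℕ} {α : Ordinal.{0}} {X : Set (Config d)} (hX : InCB 0 X)
    (h : ∀ R : ℕ, ∃ X', InCB α X' ∧ X' ≠ X ∧ agreeS R X' X) : InCB (α + 1) X := by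
  obtain ⟨S, rfl, -⟩ := hX
  refine InCB.succ ⟨S, rfl, ?_⟩ h
  have hc : IsClosed (D d α) := isClosed_iteratedDerivedSet isClosed_univ α
  rw [← hc.closure_eq, Metric.mem_closure_iff]
  intro ε hε
  obtain ⟨R, hR⟩ := exists_pow_lt_of_lt_one hε (by norm_num : (1 / 2 : ℝ) < 1)
  obtain ⟨_, ⟨S', rfl, hS'⟩, -, hag⟩ := h R
  refine ⟨S', hS', ?_⟩
  rw [dist_comm]
  exact lt_trans ((space_dist_lt_iff R _ _).2 hag) hR

/-- product sets with a label -/
def Box (C : Fin k → Set B) (l : Fin n₀) : Set (W k n₀) := {w | (∀ i, w.1 i ∈ C i) ∧ w.2 = l}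

/-- the conditions on the factors -/
def Good (C : Fin k → Set B) : Prop := ∀ i, IsClosed (C i) ∧ (C i).Nonempty ∧ InvP 1 (C i)

lemma isClosed_Box {C : Fin k → Set B} (hC : Good C) (l : Fin n₀) : IsClosed (Box C l) := by
  have : Box C l = (⋂ i : Fin k, (fun w : W k n₀ => w.1 i) ⁻¹' (C i)) ∩
      (fun w : W k n₀ => w.2) ⁻¹' {l} := by
    ext w; simp [Box]
  rw [this]
  exact (isClosed_iInter fun i => (hC i).1.preimage ((continuous_apply i).comp continuous_fst)).inter
    ((isClosed_discrete _).preimage continuous_snd)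

lemma Box_nonempty {C : Fin k → Set B} (hC : Good C) (l : Fin n₀) : (Box C l).Nonempty := by
  choose f hf using fun i => (hC i).2.1
  exact ⟨(f, l), hf, rfl⟩

lemma Box_inv {C : Fin k → Set B} (hC : Good C) (l : Fin n₀) : InvW (Box C l) := by
  rintro w ⟨hw, hl⟩ a b
  refine ⟨fun i => ?_, hl⟩
  have := (hC i).2.2 (w.1 i) (hw i) (a i) b
  simpa [actW, act] using this

lemma Box_zero {C : Fin k → Set B} (hC : Good C) (l : Fin n₀) : InCB 0 (Psi '' Box C l) :=
  inCB_zero (isClosed_Box hC l) (Box_nonempty hC l) (Box_inv hC l)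

lemma Good.update {C : Fin k → Set B} (hC : Good C) (i : Fin k) {F : Set B} (hF : F.Finite)
    (hFn : F.Nonempty) (hFi : InvP 1 F) : Good (Function.update C i F) := by
  intro j
  by_cases hij : j = i
  · subst hij
    rw [Function.update_self]
    exact ⟨hF.isClosed, hFn, hFi⟩
  · rw [Function.update_of_ne hij]
    exact hC j

/-- splitting a box -/
lemma Box_split {C : Fin k → Set B} (i : Fin k) (F G : Set B) (l : Fin n₀) :
    Box (Function.update C i (F ∪ G)) l
      = Box (Function.update C i F) l ∪ Box (Function.update C i G) l := by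
  ext w
  constructor
  · rintro ⟨hw, hl⟩
    have hi := hw i
    rw [Function.update_self] at hi
    rcases hi with hi | hi
    · left
      refine ⟨fun j => ?_, hl⟩
      by_cases hij : j = i
      · subst hij; rw [Function.update_self]; exact hi
      · have := hw j
        rw [Function.update_of_ne hij] at this ⊢
        exact this
    · right
      refine ⟨fun j => ?_, hl⟩
      by_cases hij : j = i
      · subst hij; rw [Function.update_self]; exact hi
      · have := hw j
        rw [Function.update_of_ne hij] at this ⊢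
        exact this
  · rintro (⟨hw, hl⟩ | ⟨hw, hl⟩)
    · refine ⟨fun j => ?_, hl⟩
      have := hw j
      by_cases hij : j = i
      · subst hij; rw [Function.update_self] at this ⊢; exact Or.inl this
      · rw [Function.update_of_ne hij] at this ⊢
        exact this
    · refine ⟨fun j => ?_, hl⟩
      have := hw j
      by_cases hij : j = i
      · subst hij; rw [Function.update_self] at this ⊢; exact Or.inr this
      · rw [Function.update_of_ne hij] at this ⊢
        exact this

lemma Box_disjoint {C : Fin k → Set B} (i : Fin k) {F G : Set B} (h : Disjoint F G)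
    (l : Fin n₀) : Disjoint (Psi '' Box (Function.update C i F) l)
      (Psi '' Box (Function.update C i G) l) := by
  refine (Set.disjoint_image_iff Psi_injective).2 ?_
  rw [Set.disjoint_left] at h ⊢
  rintro w ⟨hw, -⟩ ⟨hw', -⟩
  have h1 := hw i
  have h2 := hw' i
  rw [Function.update_self] at h1 h2
  exact h h1 h2

/-- One more free coordinate. -/
lemma step {C : Fin k → Set B} (hC : Good C) (l : Fin n₀) (i : Fin k) (hi : C i = Set.univ)
    {α : Ordinal.{0}}
    (h : ∀ F : Set B, F.Finite → F.Nonempty → InvP 1 F →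
      InCB α (Psi '' Box (Function.update C i F) l)) (n : ℕ) :
    InCB (α * n + 1) (Psi '' Box C l) := by
  -- finite invariant sets with many orbits
  have good : ∀ n : ℕ, ∀ D0 : Set B, D0.Finite → InvP 1 D0 →
      ∃ D1 : Set B, D0 ⊆ D1 ∧ D1.Finite ∧ D1.Nonempty ∧ InvP 1 D1 ∧
        InCB (α * n) (Psi '' Box (Function.update C i D1) l) := by
    intro n
    induction n with
    | zero =>
      intro D0 h0 h1
      have hf : (D0 ∪ {c0}).Finite := h0.union (Set.finite_singleton _)
      have hinv : InvP 1 (D0 ∪ {c0}) := h1.union (by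
        intro f hf a b
        rw [Set.mem_singleton_iff] at hf
        rw [hf, sh_c0]; rfl)
      refine ⟨D0 ∪ {c0}, Set.subset_union_left, hf, ⟨c0, Or.inr rfl⟩, hinv, ?_⟩
      simp only [Nat.cast_zero, mul_zero]
      exact Box_zero (hC.update i hf ⟨c0, Or.inr rfl⟩ hinv) l
    | succ n ih =>
      intro D0 h0 h1
      obtain ⟨D1, hsub, hf, hn, hinv, hcb⟩ := ih D0 h0 h1
      obtain ⟨f, hfP, hfD⟩ := infinite_Per.exists_notMem_finite hf
      have hof := orb_finite hfP
      have hoi := orb_inv f
      have hdis : Disjoint D1 (orb f) := by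
        rw [Set.disjoint_left]
        rintro _ hg ⟨a, b, rfl⟩
        apply hfD
        have := hinv _ hg (-a) (-b)
        rw [sh_sh] at this
        simpa using this
      refine ⟨D1 ∪ orb f, hsub.trans Set.subset_union_left, hf.union hof,
        hn.mono Set.subset_union_left, hinv.union hoi, ?_⟩
      rw [Box_split, Set.image_union]
      have := hcb.union (h (orb f) hof ⟨f, self_mem_orb f⟩ hoi) (Box_disjoint i hdis l)
      have e : α * ((n + 1 : ℕ) : Ordinal.{0}) = α * n + α := by
        rw [Nat.cast_succ, mul_add_one]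
      rw [e]
      exact this
  refine InCB.of_limit (Box_zero hC l) (fun R => ?_)
  obtain ⟨D0, h0, h1, hdense⟩ := exists_finite_dense R
  obtain ⟨D1, hsub, hf, hn, hinv, hcb⟩ := good n D0 h0 h1
  refine ⟨_, hcb, ?_, ?_, ?_⟩
  · -- different
    intro e
    obtain ⟨z, -, hz⟩ := infinite_B.exists_notMem_finite hf
    obtain ⟨w, hw, hl⟩ := Box_nonempty hC l
    have hmem : Psi (Function.update w.1 i z, w.2) ∈ Psi '' Box C l := by
      refine ⟨(Function.update w.1 i z, w.2), ⟨fun j => ?_, hl⟩, rfl⟩
      by_cases hij : j = i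
      · subst hij; rw [hi]; trivial
      · simp only
        rw [Function.update_of_ne hij]
        exact hw j
    rw [← e] at hmem
    obtain ⟨w', ⟨hw', -⟩, he⟩ := hmem
    have := Psi_injective he
    have h2 := hw' i
    rw [Function.update_self, this] at h2
    simp only [Function.update_self] at h2
    exact hz h2
  · -- X' ⊆ X
    rintro _ ⟨w, ⟨hw, hl⟩, rfl⟩
    refine ⟨Psi w, ⟨w, ⟨fun j => ?_, hl⟩, rfl⟩, fun u _ => rfl⟩
    by_cases hij : j = i
    · subst hij; rw [hi]; trivial
    · have := hw j
      rwa [Function.update_of_ne hij] at this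
  · rintro _ ⟨w, ⟨hw, hl⟩, rfl⟩
    obtain ⟨f, hf', hfz⟩ := hdense (w.1 i)
    refine ⟨Psi (Function.update w.1 i f, w.2),
      ⟨(Function.update w.1 i f, w.2), ⟨fun j => ?_, hl⟩, rfl⟩, ?_⟩
    · by_cases hij : j = i
      · subst hij
        simp only [Function.update_self]
        exact hsub hf'
      · simp only
        rw [Function.update_of_ne hij, Function.update_of_ne hij]
        exact hw j
    · refine agreeC_Psi (fun j => ?_) rfl
      by_cases hij : j = i
      · subst hij
        simp only [Function.update_self]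
        exact hfz
      · simp only
        rw [Function.update_of_ne hij]
        exact agree_refl R _

/-- The product of `j + 1` free coordinates has order at least `ω ^ j`. -/
lemma box_rank (j : ℕ) : ∀ (C : Fin k → Set B) (l : Fin n₀) (J : Finset (Fin k)), Good C →
    J.card = j + 1 → (∀ i ∈ J, C i = Set.univ) → InCB (ω ^ j) (Psi '' Box C l) := by
  induction j with
  | zero =>
    intro C l J hC hJ hJu
    obtain ⟨i, hi⟩ : J.Nonempty := by rw [← Finset.card_pos]; omega
    have := step hC l i (hJu i hi) (α := 0) (fun F hF hFn hFi =>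
      Box_zero (hC.update i hF hFn hFi) l) 0
    simpa using this
  | succ j ih =>
    intro C l J hC hJ hJu
    obtain ⟨i, hi⟩ : J.Nonempty := by rw [← Finset.card_pos]; omega
    have hstep := step hC l i (hJu i hi) (α := ω ^ j) (fun F hF hFn hFi =>
      ih (Function.update C i F) l (J.erase i) (hC.update i hF hFn hFi)
        (by rw [Finset.card_erase_of_mem hi, hJ]; rfl) (fun i' hi' => by
          rw [Function.update_of_ne (Finset.ne_of_mem_erase hi')]
          exact hJu i' (Finset.mem_of_mem_erase hi')))
    obtain ⟨S, hS, -⟩ := Box_zero hC l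
    rw [← hS] at hstep ⊢
    refine InCB.of_forall_lt (fun γ hγ => ?_)
    rw [pow_succ] at hγ
    obtain ⟨c', hc', hlt⟩ := (Ordinal.lt_mul_iff_of_isSuccLimit Ordinal.isSuccLimit_omega0).1 hγ
    obtain ⟨n, rfl⟩ := Ordinal.lt_omega0.1 hc'
    exact (hstep n).mono (add_le_add_left hlt.le 1)

/-- all points with label in `Λ` -/
def Lab (k : ℕ) {n₀ : ℕ} (Λ : Finset (Fin n₀)) : Set (W k n₀) := {w | w.2 ∈ Λ}

lemma good_univ : Good (fun _ : Fin k => (Set.univ : Set B)) :=
  fun _ => ⟨isClosed_univ, ⟨c0, trivial⟩, fun _ _ _ _ => trivial⟩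

lemma lab_rank (Λ : Finset (Fin n₀)) (hΛ : Λ.Nonempty) :
    InCB (ω ^ k * Λ.card) (Psi '' Lab (k + 1) Λ) := by
  induction Λ using Finset.induction_on with
  | empty => exact absurd hΛ Finset.not_nonempty_empty
  | insert l Λ hl ih =>
    have hbox : InCB (ω ^ k) (Psi '' Box (fun _ : Fin (k + 1) => (Set.univ : Set B)) l) :=
      box_rank k _ l Finset.univ good_univ (by simp) (fun _ _ => rfl)
    rcases Λ.eq_empty_or_nonempty with rfl | hne
    · have e : Lab (k + 1) (insert l ∅) = Box (fun _ : Fin (k + 1) => (Set.univ : Set B)) l := by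
        ext w; simp [Lab, Box]
      rw [e]
      simpa using hbox
    · have e : Lab (k + 1) (insert l Λ) = Lab (k + 1) Λ ∪
          Box (fun _ : Fin (k + 1) => (Set.univ : Set B)) l := by
        ext w; simp [Lab, Box, or_comm]
      rw [e, Set.image_union, Finset.card_insert_of_notMem hl]
      have hd : Disjoint (Psi '' Lab (k + 1) Λ)
          (Psi '' Box (fun _ : Fin (k + 1) => (Set.univ : Set B)) l) := by
        refine (Set.disjoint_image_iff Psi_injective).2 ?_
        rw [Set.disjoint_left]
        rintro w hw ⟨-, hw'⟩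
        exact hl (hw' ▸ hw)
      have := (ih hne).union hbox hd
      have e2 : (ω ^ k : Ordinal.{0}) * ((Λ.card + 1 : ℕ) : Ordinal.{0}) = ω ^ k * Λ.card + ω ^ k := by
        rw [Nat.cast_succ, mul_add_one]
      rw [e2]
      exact this

/-! ### The subsystems form a clopen countable set -/

/-- the shifts contained in the image of the encoding -/
def LL (k n₀ : ℕ) : Set (ShiftSpace (k + 1)) :=
  {S | carrier S ⊆ Set.range (Psi (k := k) (n₀ := n₀))}

lemma isClosed_range_Psi : IsClosed (Set.range (Psi (k := k) (n₀ := n₀))) :=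
  (isCompact_range continuous_Psi).isClosed

lemma isClosed_LL : IsClosed (LL k n₀) := by
  rw [← closure_subset_iff_isClosed]
  intro S hS x hx
  rw [Metric.mem_closure_iff] at hS
  apply mem_of_closed_agree isClosed_range_Psi
  intro R
  obtain ⟨T, hT, hd⟩ := hS ((1 / 2 : ℝ) ^ R) (by positivity)
  rw [space_dist_lt_iff] at hd
  obtain ⟨y, hy, hxy⟩ := hd.1 x hx
  exact ⟨y, hT hy, hxy⟩

lemma countable_LL : (LL k n₀).Countable := by
  -- the fibres over the labels
  let Φ : ShiftSpace (k + 1) → (Fin n₀ → Set (Fin k → B)) :=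
    fun S l => {x | Psi (x, l) ∈ carrier S}
  have hinj : Set.InjOn Φ (LL k n₀) := by
    intro S hS T hT h
    apply carrier_injective
    ext x
    constructor
    · intro hx
      obtain ⟨w, rfl⟩ := hS hx
      have : w.1 ∈ Φ S w.2 := hx
      rw [h] at this
      exact this
    · intro hx
      obtain ⟨w, rfl⟩ := hT hx
      have : w.1 ∈ Φ T w.2 := hx
      rw [← h] at this
      exact this
  have hc : {Y : Set (Fin k → B) | IsClosed Y ∧ Inv 1 Y ∧ Y ⊆ E Finset.univ (fun _ => c0)}.Countable :=
    countable_inv Finset.univ (fun _ => c0) 1 le_rfl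
  have himg : (Φ '' (LL k n₀)).Countable := by
    refine (Set.countable_pi (fun _ : Fin n₀ => hc)).mono ?_
    rintro _ ⟨S, hS, rfl⟩ l
    refine ⟨?_, ?_, ?_⟩
    · exact (isCompact_carrier S).isClosed.preimage
        (continuous_Psi.comp (continuous_id.prodMk continuous_const))
    · intro x hx a b
      have h1 := carrier_shift S (Fin.lastCases (((1:ℕ):ℤ) * b) (fun i => ((1:ℕ):ℤ) * a i)) hx
      rw [shift_Psi] at h1
      have h2 : Psi (actW (fun i => ((1:ℕ):ℤ) * a i) (((1:ℕ):ℤ) * b) (x, l)) ∈ carrier S := by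
        simpa using h1
      exact h2
    · intro x _ i hi
      exact absurd (Finset.mem_univ i) hi
  exact Set.countable_of_injective_of_countable_image hinj himg

/-- a function which does not change in the directions of `s` -/
lemma indep {d : ℕ} {α : Type*} (f : (Fin d → ℤ) → α) (s : Finset (Fin d))
    (h : ∀ j ∈ s, ∀ u : Fin d → ℤ, f (Function.update u j (u j + 1)) = f u) :
    ∀ u v : Fin d → ℤ, (∀ j, j ∉ s → u j = v j) → f u = f v := by
  -- one coordinate
  have one : ∀ j ∈ s, ∀ (u : Fin d → ℤ) (c : ℤ), f (Function.update u j c) = f u := by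
    intro j hj u c
    have key : ∀ t : ℤ, f (Function.update u j (u j + t)) = f u := by
      intro t
      induction t using Int.induction_on with
      | zero => simp
      | succ i ih =>
        have := h j hj (Function.update u j (u j + i))
        simp only [Function.update_self, Function.update_idem] at this
        rw [← ih, ← this, add_assoc]
      | pred i ih =>
        have := h j hj (Function.update u j (u j + (-(i:ℤ) - 1)))
        simp only [Function.update_self, Function.update_idem] at this
        rw [← this]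
        have e : u j + (-(i:ℤ) - 1) + 1 = u j + -(i:ℤ) := by ring
        rw [e, ih]
    have := key (c - u j)
    have e : u j + (c - u j) = c := by ring
    rwa [e] at this
  induction s using Finset.induction_on with
  | empty =>
    intro u v huv
    congr 1
    funext j
    exact huv j (by simp)
  | insert j s hj ih =>
    intro u v huv
    have h1 := one j (Finset.mem_insert_self j s) u (v j)
    rw [← h1]
    refine ih (fun i hi => h i (Finset.mem_insert_of_mem hi))
      (fun i hi => one i (Finset.mem_insert_of_mem hi)) _ _ (fun i hi => ?_)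
    by_cases hij : i = j
    · subst hij; rw [Function.update_self]
    · rw [Function.update_of_ne hij]
      exact huv i (by simp [hij, hi])

lemma mem_range_of_local {c : Config (k + 1)}
    (h : ∀ u, ∃ w : W k n₀, agreeC 1 (shift u c) (Psi w)) :
    c ∈ Set.range (Psi (k := k) (n₀ := n₀)) := by
  choose w hw using h
  -- the decoded symbol
  have hval : ∀ u v, supNorm v ≤ 1 → c (u + v) = code k n₀ (symb (w u) v) := by
    intro u v hv
    have := hw u v hv
    rw [Psi_apply] at this
    exact this
  have hzero : supNorm (0 : Fin (k + 1) → ℤ) ≤ 1 := by simp [supNorm]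
  have hdec : ∀ u, c u = code k n₀ (symb (w u) 0) := by
    intro u
    have := hval u 0 hzero
    rwa [add_zero] at this
  -- comparison of neighbouring symbols
  have hcomp : ∀ u v, supNorm v ≤ 1 → symb (w (u + v)) 0 = symb (w u) v := by
    intro u v hv
    apply code_injective
    rw [← hval u v hv, ← hdec]
  set s : (Fin (k + 1) → ℤ) → (Fin k → Fin 6) × Fin n₀ := fun u => symb (w u) 0 with hs
  have hupd : ∀ (u : Fin (k + 1) → ℤ) (j : Fin (k + 1)),
      Function.update u j (u j + 1) = u + Function.update (0 : Fin (k + 1) → ℤ) j 1 := by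
    intro u j
    funext i
    by_cases hij : i = j
    · subst hij; simp
    · simp [hij]
  have hnorm : ∀ j : Fin (k + 1), supNorm (Function.update (0 : Fin (k + 1) → ℤ) j 1) ≤ 1 := by
    intro j
    refine Finset.sup_le fun i _ => ?_
    by_cases hij : i = j
    · subst hij; simp
    · simp [hij]
  -- labels are constant
  have hlab : ∀ u v, (s u).2 = (s v).2 := by
    intro u v
    refine indep (fun u => (s u).2) Finset.univ (fun j _ u => ?_) u v (fun j hj => by simp at hj)
    show (symb (w (Function.update u j (u j + 1))) 0).2 = (symb (w u) 0).2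
    rw [hupd, hcomp u _ (hnorm j)]
    rfl
  -- the `i`-th digit depends only on the coordinates `i` and `last`
  have hdig : ∀ i : Fin k, ∀ u v : Fin (k + 1) → ℤ, u i.castSucc = v i.castSucc →
      u (Fin.last k) = v (Fin.last k) → (s u).1 i = (s v).1 i := by
    intro i u v h1 h2
    refine indep (fun u => (s u).1 i) (Finset.univ \ {i.castSucc, Fin.last k}) (fun j hj u => ?_)
      u v (fun j hj => ?_)
    · simp only [Finset.mem_sdiff, Finset.mem_univ, Finset.mem_insert, Finset.mem_singleton,
        true_and, not_or] at hj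
      show (symb (w (Function.update u j (u j + 1))) 0).1 i = (symb (w u) 0).1 i
      rw [hupd, hcomp u _ (hnorm j)]
      simp only [symb]
      rw [Function.update_of_ne (Ne.symm hj.1), Function.update_of_ne (Ne.symm hj.2)]
    · simp only [Finset.mem_sdiff, Finset.mem_univ, Finset.mem_insert, Finset.mem_singleton,
        true_and, not_not] at hj
      rcases hj with rfl | rfl
      · exact h1
      · exact h2
  have hlast : ∀ i : Fin k, Fin.last k ≠ i.castSucc := fun i => (Fin.castSucc_lt_last i).ne'
  -- the position with coordinates `m` and `n`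
  set pos : Fin k → ℤ → ℤ → (Fin (k + 1) → ℤ) := fun i m n =>
    Function.update (Function.update 0 i.castSucc m) (Fin.last k) n with hpos
  have hpos1 : ∀ i m n, pos i m n i.castSucc = m := by
    intro i m n
    simp only [hpos]
    rw [Function.update_of_ne (hlast i).symm, Function.update_self]
  have hpos2 : ∀ i m n, pos i m n (Fin.last k) = n := by
    intro i m n
    simp only [hpos]
    rw [Function.update_self]
  have hrule : ∀ i : Fin k, (fun m n => (s (pos i m n)).1 i) ∈ XX := by
    intro i m n
    set u := pos i m n with hu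
    have hv : ∀ a b : ℤ, |a| ≤ 1 → |b| ≤ 1 →
        (s (pos i (m + a) (n + b))).1 i = ((w u).1 i).1 a b := by
      intro a b ha hb
      have e1 : (s (pos i (m + a) (n + b))).1 i = (s (u + pos i a b)).1 i := by
        apply hdig
        · rw [hpos1, Pi.add_apply, hpos1, hu, hpos1]
        · rw [hpos2, Pi.add_apply, hpos2, hu, hpos2]
      have hn : supNorm (pos i a b) ≤ 1 := by
        refine Finset.sup_le fun j _ => ?_
        simp only [hpos]
        by_cases h1 : j = Fin.last k
        · subst h1
          rw [Function.update_self]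
          rw [Int.abs_eq_natAbs] at hb
          exact_mod_cast hb
        · rw [Function.update_of_ne h1]
          by_cases h2 : j = i.castSucc
          · subst h2
            rw [Function.update_self]
            rw [Int.abs_eq_natAbs] at ha
            exact_mod_cast ha
          · rw [Function.update_of_ne h2]; simp
      rw [e1]
      show (symb (w (u + pos i a b)) 0).1 i = _
      rw [hcomp u _ hn]
      simp only [symb]
      rw [hpos1, hpos2]
    have h00 := hv 0 0 (by simp) (by simp)
    have h10 := hv 1 0 (by simp) (by simp)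
    have h01 := hv 0 1 (by simp) (by simp)
    have h11 := hv 1 1 (by simp) (by simp)
    simp only [add_zero] at h00 h10 h01
    have r := ((w u).1 i).2 0 0
    unfold Rule at r ⊢
    simp only [zero_add] at r
    simp only
    rw [h00, h10, h01, h11]
    exact r
  refine ⟨(fun i => ⟨fun m n => (s (pos i m n)).1 i, hrule i⟩, (s 0).2), ?_⟩
  refine Config.ext fun u => ?_
  rw [Psi_apply, hdec u]
  congr 1
  unfold symb
  simp only
  refine Prod.ext ?_ ?_
  · funext i
    simp only
    have := hdig i (pos i (u i.castSucc) (u (Fin.last k))) u (hpos1 _ _ _) (hpos2 _ _ _)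
    rw [this]
    rfl
  · exact hlab 0 u

lemma isOpen_LL : IsOpen (LL k n₀) := by
  rw [Metric.isOpen_iff]
  intro S hS
  refine ⟨(1 / 2 : ℝ) ^ 1, by positivity, fun T hT => ?_⟩
  rw [Metric.mem_ball, space_dist_lt_iff] at hT
  intro c hc
  apply mem_range_of_local
  intro u
  obtain ⟨y, hy, hyc⟩ := hT.1 _ (carrier_shift T u hc)
  obtain ⟨w, rfl⟩ := hS hy
  exact ⟨w, hyc⟩

/-- For every `n`, the rank of the space of shifts in dimension `k + 2` is larger than
`ω ^ k * n`. -/
lemma lt_rank (k n : ℕ) (hn : 0 < n) : (ω ^ k * n : Ordinal.{0}) < cbRank (ShiftSpace (k + 1 + 1)) := by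
  have h := lab_rank (k := k) (n₀ := n) Finset.univ ⟨⟨0, hn⟩, Finset.mem_univ _⟩
  rw [Finset.card_univ, Fintype.card_fin] at h
  obtain ⟨S, hS, hSD⟩ := h
  refine lt_cbRank (L := LL (k + 1) n) isOpen_LL isClosed_LL countable_LL (x := S) ?_ hSD
  show carrier S ⊆ _
  rw [hS]
  exact Set.image_subset_range _ _

/-- **Main theorem.** -/
theorem rank_lower_bound (d : ℕ) (hd : 2 ≤ d) : ω ^ (d - 1) ≤ cbRank (ShiftSpace d) := by
  obtain ⟨k, rfl⟩ : ∃ k, d = k + 1 + 1 := ⟨d - 2, by omega⟩
  have e : k + 1 + 1 - 1 = k + 1 := by omega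
  rw [e, pow_succ]
  rw [Ordinal.mul_le_iff_of_isSuccLimit Ordinal.isSuccLimit_omega0]
  intro b hb
  obtain ⟨n, rfl⟩ := Ordinal.lt_omega0.1 hb
  refine le_trans ?_ (lt_rank k (n + 1) (Nat.succ_pos n)).le
  gcongr
  exact Nat.le_succ n

end H76.CB
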