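import Pool.Agent.H76.NumSums

/-!
# `h(-p) = (p-1)/2 mod 4` for `p = 1 mod 4`
-/

set_option autoImplicit false

open NumberField Finset

namespace Pool.Agent.H76

noncomputable section

variable (p : ℕ) [hp : Fact p.Prime]

lemma leg_sum_zero (hp2 : p ≠ 2) : ∑ k ∈ range p, leg p k = 0 := by
  have h5 := sum_range_zmod p (fun x => qchi p x)
  have h6 : ∑ x : ZMod p, qchi p x = 0 := by
    apply MulChar.sum_eq_zero_of_ne_one
    exact qchi_ne_one p hp2
  rw [h6] at h5
  have h7 : ∑ k ∈ range p, qchi p (k : ZMod p) = ((∑ k ∈ range p, leg p k : ℤ) : ℂ) := by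
    push_cast
    refine sum_congr rfl fun k _ => ?_
    rw [qchi_nat]; rfl
  rw [h7] at h5
  exact_mod_cast h5

/-- the coefficients -/
def ff (j : ℕ) : ℤ := ZMod.χ₄ (j : ZMod 4) * leg p j

lemma chi4_two_add : ∀ x : ZMod 4, ZMod.χ₄ (2 + x) = -ZMod.χ₄ x := by decide
lemma chi4_two_sub : ∀ x y : ZMod 4, x + y = 2 → ZMod.χ₄ x = ZMod.χ₄ y := by decide

lemma ff_add (h4 : p % 4 = 1) (j : ℕ) : ff p (2 * p + j) = -ff p j := by
  unfold ff
  have h1 : ((2 * p + j : ℕ) : ZMod 4) = 2 + (j : ZMod 4) := by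
    have : (p : ZMod 4) = ((1 : ℕ) : ZMod 4) := by
      rw [ZMod.natCast_eq_natCast_iff]; exact h4
    push_cast
    rw [this]; norm_num
  rw [h1, chi4_two_add, leg_congr p (a := 2 * p + j) (b := j)]
  · ring
  · simp [Nat.ModEq]

lemma leg_sub_two (h4 : p % 4 = 1) {a b : ℕ} (hab : a + b = 2 * p) : leg p a = leg p b := by
  have hp2 : p ≠ 2 := by rintro rfl; omega
  unfold leg legendreSym
  rw [Int.cast_natCast, Int.cast_natCast]
  have h1 : (a : ZMod p) = (-1) * (b : ZMod p) := by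
    have : ((a + b : ℕ) : ZMod p) = 0 := by rw [hab]; simp
    push_cast at this
    linear_combination this
  rw [h1, map_mul, quadraticChar_neg_one (ringChar_ne p hp2), ZMod.card,
    ZMod.χ₄_nat_one_mod_four h4, one_mul]

lemma ff_sub (h4 : p % 4 = 1) {a b : ℕ} (hab : a + b = 2 * p) : ff p a = ff p b := by
  unfold ff
  rw [leg_sub_two p h4 hab]
  have h1 : (a : ZMod 4) + (b : ZMod 4) = 2 := by
    have : (p : ZMod 4) = ((1 : ℕ) : ZMod 4) := by
      rw [ZMod.natCast_eq_natCast_iff]; exact h4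
    have h2 := congrArg (Nat.cast : ℕ → ZMod 4) hab
    push_cast at h2
    rw [h2, this]; norm_num
  rw [chi4_two_sub _ _ h1]

lemma ff_zero : ff p 0 = 0 := by unfold ff; rw [leg_zero, mul_zero]
lemma ff_self : ff p p = 0 := by unfold ff; rw [leg_self, mul_zero]

lemma stepB (h4 : p % 4 = 1) :
    ∑ j ∈ range (4 * p), (j : ℤ) * ff p j = -(2 * p) * ∑ j ∈ range (2 * p), ff p j := by
  rw [show 4 * p = 2 * p + 2 * p by ring, sum_range_add, mul_sum, ← sum_add_distrib]
  refine sum_congr rfl fun j _ => ?_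
  rw [ff_add p h4]
  push_cast
  ring

lemma stepC (h4 : p % 4 = 1) :
    ∑ j ∈ range (2 * p), ff p j = 2 * ∑ j ∈ range p, ff p j := by
  rw [show 2 * p = p + p by ring, sum_range_add, two_mul]
  congr 1
  have h1 : ∑ j ∈ range p, ff p (p + j) = ∑ j ∈ range p, ff p (p + (p - 1 - j)) :=
    (sum_range_reflect (fun j => ff p (p + j)) p).symm
  rw [h1]
  have h2 : ∀ j ∈ range p, ff p (p + (p - 1 - j)) = ff p (j + 1) := by
    intro j hj
    have hj := mem_range.mp hj
    exact ff_sub p h4 (by omega)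
  rw [sum_congr rfl h2]
  have h3 := sum_range_succ' (fun j => ff p j) p
  have h4 := sum_range_succ (fun j => ff p j) p
  rw [ff_zero] at h3
  rw [ff_self] at h4
  linarith

lemma chi4_one_sub : ∀ x y : ZMod 4, x + y = 1 → ZMod.χ₄ x = ZMod.χ₄ (1 - y) := by decide

lemma sum_even_odd (G : ℕ → ℤ) (n : ℕ) :
    ∑ i ∈ range (2 * n), G i = ∑ d ∈ range n, (G (2 * d) + G (2 * d + 1)) := by
  induction n with
  | zero => simp
  | succ n ih =>
    rw [show 2 * (n + 1) = 2 * n + 1 + 1 by ring, sum_range_succ, sum_range_succ, ih,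
      sum_range_succ]
    ring

lemma stepD (m : ℕ) (hm : p = 4 * m + 1) :
    ∑ j ∈ range p, ff p j = leg p 2 * ∑ d ∈ range (2 * m + 1), (-1) ^ d * leg p d := by
  have h4 : p % 4 = 1 := by omega
  have h1 : ∑ j ∈ range p, ff p j = ∑ j ∈ range p, ff p (p - 1 - j) :=
    (sum_range_reflect (fun j => ff p j) p).symm
  rw [h1]
  set G : ℕ → ℤ := fun i => ZMod.χ₄ (1 - (i : ZMod 4)) * leg p i with hG
  have h2 : ∀ j ∈ range p, ff p (p - 1 - j) = G (j + 1) := by
    intro j hj
    have hj := mem_range.mp hj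
    have hab : (p - 1 - j) + (j + 1) = p := by omega
    rw [hG]
    unfold ff
    rw [leg_sub p h4 hab]
    have h3 : ((p - 1 - j : ℕ) : ZMod 4) + ((j + 1 : ℕ) : ZMod 4) = 1 := by
      have : (p : ZMod 4) = ((1 : ℕ) : ZMod 4) := by
        rw [ZMod.natCast_eq_natCast_iff]; exact h4
      rw [← Nat.cast_add, hab, this]; simp
    rw [chi4_one_sub _ _ h3]
  rw [sum_congr rfl h2]
  have hG0 : G 0 = 0 := by rw [hG]; simp [leg_zero]
  have hGp : G p = 0 := by rw [hG]; simp [leg_self]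
  have h3 : ∑ j ∈ range p, G (j + 1) = ∑ j ∈ range p, G j := by
    have e1 := sum_range_succ' G p
    have e2 := sum_range_succ G p
    rw [hG0] at e1
    rw [hGp] at e2
    linarith
  rw [h3]
  have h5 : ∑ j ∈ range p, G j = ∑ j ∈ range (2 * (2 * m)), G j + G (2 * (2 * m)) := by
    rw [← sum_range_succ, show 2 * (2 * m) + 1 = p by omega]
  have hGodd : ∀ d : ℕ, G (2 * d + 1) = 0 := by
    intro d
    rw [hG]
    have : ZMod.χ₄ (1 - ((2 * d + 1 : ℕ) : ZMod 4)) = 0 := by
      have e : (1 : ZMod 4) - ((2 * d + 1 : ℕ) : ZMod 4) = -2 * (d : ZMod 4) := by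
        push_cast; ring
      rw [e]
      generalize (d : ZMod 4) = x
      revert x
      decide
    simp only [this, zero_mul]
  have hGeven : ∀ d : ℕ, G (2 * d) = leg p 2 * ((-1) ^ d * leg p d) := by
    intro d
    rw [hG]
    have : ZMod.χ₄ (1 - ((2 * d : ℕ) : ZMod 4)) = (-1) ^ d := by
      rcases Nat.even_or_odd' d with ⟨e, rfl | rfl⟩
      · have h6 : (1 : ZMod 4) - ((2 * (2 * e) : ℕ) : ZMod 4) = 1 := by
          push_cast
          have : (4 : ZMod 4) = 0 := by decide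
          linear_combination (-(e : ZMod 4)) * this
        rw [h6, pow_mul]; simp
      · have h6 : (1 : ZMod 4) - ((2 * (2 * e + 1) : ℕ) : ZMod 4) = 3 := by
          push_cast
          have : (4 : ZMod 4) = 0 := by decide
          linear_combination (-(e : ZMod 4) - 1) * this
        rw [h6, pow_succ, pow_mul]
        have : ZMod.χ₄ (3 : ZMod 4) = -1 := by decide
        rw [this]; simp
    simp only [this, leg_mul]
    ring
  rw [h5, sum_even_odd]
  have h6 : ∀ d ∈ range (2 * m), G (2 * d) + G (2 * d + 1) = leg p 2 * ((-1) ^ d * leg p d) := by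
    intro d _
    rw [hGodd, hGeven, add_zero]
  rw [sum_congr rfl h6, hGeven (2 * m), ← mul_sum, ← mul_add, sum_range_succ]

lemma stepE (m : ℕ) (hm : p = 4 * m + 1) : ∑ d ∈ range (2 * m + 1), leg p d = 0 := by
  have h4 : p % 4 = 1 := by omega
  have hp2 : p ≠ 2 := by rintro rfl; omega
  have h1 := leg_sum_zero p hp2
  have h2 : ∑ k ∈ range p, leg p k = ∑ k ∈ range (2 * m + 1 + 2 * m), leg p k := by
    rw [show 2 * m + 1 + 2 * m = p by omega]
  rw [h2, sum_range_add] at h1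
  have h3 : ∑ j ∈ range (2 * m), leg p (2 * m + 1 + j) =
      ∑ j ∈ range (2 * m), leg p (2 * m + 1 + (2 * m - 1 - j)) :=
    (sum_range_reflect (fun j => leg p (2 * m + 1 + j)) (2 * m)).symm
  have h5 : ∀ j ∈ range (2 * m), leg p (2 * m + 1 + (2 * m - 1 - j)) = leg p (j + 1) := by
    intro j hj
    have hj := mem_range.mp hj
    exact leg_sub p h4 (by omega)
  rw [h3, sum_congr rfl h5] at h1
  have h6 := sum_range_succ' (fun j => leg p j) (2 * m)
  rw [leg_zero, add_zero] at h6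
  linarith

lemma stepF (m : ℕ) (hm : p = 4 * m + 1) : ∑ d ∈ range (2 * m + 1), (-1) ^ d * leg p d =
    2 * ∑ e ∈ range m, leg p (2 * (e + 1)) := by
  have h1 := stepE p m hm
  have h2 : ∑ d ∈ range (2 * m + 1), (-1) ^ d * leg p d =
      ∑ d ∈ range (2 * m + 1), ((-1) ^ d + 1) * leg p d := by
    simp_rw [add_mul, one_mul]
    rw [sum_add_distrib, h1, add_zero]
  rw [h2, sum_range_succ, sum_even_odd]
  have h3 : ∀ d ∈ range m, ((-1 : ℤ) ^ (2 * d) + 1) * leg p (2 * d) +
      ((-1) ^ (2 * d + 1) + 1) * leg p (2 * d + 1) = 2 * leg p (2 * d) := by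
    intro d _
    rw [pow_succ, pow_mul]; simp
  rw [sum_congr rfl h3, pow_mul, ← mul_sum]
  have h4 := sum_range_succ' (fun d => leg p (2 * d)) m
  rw [mul_zero, leg_zero, add_zero, sum_range_succ] at h4
  rw [← h4]; simp; ring

lemma stepG (m : ℕ) (hm : p = 4 * m + 1) :
    ∃ c : ℤ, ∑ e ∈ range m, leg p (2 * (e + 1)) = m + 2 * c := by
  have key : ∀ n ≤ m, ∃ c : ℤ, ∑ e ∈ range n, leg p (2 * (e + 1)) = n + 2 * c := by
    intro n
    induction n with
    | zero => intro _; exact ⟨0, by simp⟩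
    | succ n ih =>
      intro hn
      obtain ⟨c, hc⟩ := ih (by omega)
      rw [sum_range_succ, hc]
      rcases leg_pm p (a := 2 * (n + 1)) (by omega) (by omega) with h | h
      · exact ⟨c, by rw [h]; push_cast; ring⟩
      · exact ⟨c - 1, by rw [h]; push_cast; ring⟩
  exact key m le_rfl

section

variable {K : Type*} [Field K] [NumberField K] (hK : Module.finrank ℚ K = 2)
  {α : K} (hα : α ^ 2 = -(p : K))

include hK hα

/-- `h(-p) = (p-1)/2 mod 4` for `p = 1 mod 4`, in the form `h = 2 m + 4 c`. -/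
theorem classNumber_mod_four (m : ℕ) (hm : p = 4 * m + 1) :
    ∃ c : ℤ, (classNumber K : ℤ) = 2 * m + 4 * c := by
  have h4 : p % 4 = 1 := by omega
  have hp2 : p ≠ 2 := by rintro rfl; omega
  have h1 := classNumber_one hK p hα h4
  rw [sum_zmod_eq (fun k => (k : ℂ)) (fun j => chiP p j)] at h1
  have h2 : ∑ k ∈ range (4 * p), (k : ℂ) * chiP p (k : ZMod (4 * p)) =
      ((∑ k ∈ range (4 * p), (k : ℤ) * ff p k : ℤ) : ℂ) := by
    push_cast
    refine sum_congr rfl fun k _ => ?_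
    have h3 := chiP_int p hp2 k
    rw [Int.cast_natCast, Int.cast_natCast, Int.cast_natCast, qchi_nat, chiFourC_apply] at h3
    rw [h3]
    unfold ff leg
    push_cast; ring
  rw [h2, stepB p h4, stepC p h4, stepD p m hm, stepF p m hm] at h1
  obtain ⟨c, hc⟩ := stepG p m hm
  rw [hc] at h1
  have hl2 : leg p 2 = 1 ∨ leg p 2 = -1 := by
    apply leg_pm p (by norm_num)
    have := hp.out.two_le
    omega
  have h5 : ((-(2 * p) * (2 * (leg p 2 * (2 * (m + 2 * c))))) ^ 2 : ℤ) =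
      (4 * p * classNumber K) ^ 2 := by exact_mod_cast h1
  have h6 : ((p : ℤ) * 4) ^ 2 * (leg p 2 * (2 * m + 4 * c)) ^ 2 =
      ((p : ℤ) * 4) ^ 2 * (classNumber K : ℤ) ^ 2 := by linear_combination h5
  have hp0 : ((p : ℤ) * 4) ^ 2 ≠ 0 := by
    have := hp.out.pos
    positivity
  have h7 := mul_left_cancel₀ hp0 h6
  rcases sq_eq_sq_iff_eq_or_eq_neg.mp h7 with h8 | h8
  · rcases hl2 with h9 | h9
    · exact ⟨c, by rw [h9] at h8; linarith⟩
    · exact ⟨-m - c, by rw [h9] at h8; linarith⟩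
  · rcases hl2 with h9 | h9
    · exact ⟨-m - c, by rw [h9] at h8; linarith⟩
    · exact ⟨c, by rw [h9] at h8; linarith⟩

end

end

end Pool.Agent.H76
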