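import Mathlib

/-!
# Counting ideals of given norm in rings of integers
-/

set_option autoImplicit false

open NumberField Ideal

namespace Pool.Agent.H76

noncomputable section

variable (K : Type*) [Field K] [NumberField K]

/-- the number of ideals of norm `n` -/
def idealCount (n : ℕ) : ℕ := Nat.card {I : Ideal (𝓞 K) // absNorm I = n}

variable {K}

lemma mem_of_absNorm {I : Ideal (𝓞 K)} {n : ℕ} (h : absNorm I = n) : (n : 𝓞 K) ∈ I := by
  rw [← h]; exact absNorm_mem I

lemma span_le_of_absNorm {I : Ideal (𝓞 K)} {n : ℕ} (h : absNorm I = n) :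
    span {(n : 𝓞 K)} ≤ I := by
  rw [span_singleton_le_iff_mem]; exact mem_of_absNorm h

lemma absNorm_span_natCast (n : ℕ) :
    absNorm (span {(n : 𝓞 K)}) = n ^ Module.finrank ℚ K := by
  rw [absNorm_span_singleton]
  have h : Algebra.norm ℤ (n : 𝓞 K) = (n : ℤ) ^ Module.finrank ℚ K := by
    have := Algebra.norm_algebraMap (R := ℤ) (S := 𝓞 K) (n : ℤ)
    rw [RingOfIntegers.rank] at this
    simpa using this
  rw [h, Int.natAbs_pow, Int.natAbs_natCast]

lemma sup_span_eq_top {m n : ℕ} (h : Nat.Coprime m n) :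
    span {(m : 𝓞 K)} ⊔ span {(n : 𝓞 K)} = ⊤ := by
  rw [eq_top_iff_one, Submodule.mem_sup]
  have h1 : IsCoprime (m : ℤ) (n : ℤ) := Nat.isCoprime_iff_coprime.mpr h
  obtain ⟨a, b, hab⟩ := h1
  refine ⟨(a : 𝓞 K) * m, ?_, (b : 𝓞 K) * n, ?_, ?_⟩
  · exact mul_mem_left _ _ (mem_span_singleton_self _)
  · exact mul_mem_left _ _ (mem_span_singleton_self _)
  · have := congrArg (Int.cast : ℤ → 𝓞 K) hab
    push_cast at this
    exact this

lemma mul_sup_span {I J : Ideal (𝓞 K)} {m n : ℕ} (hI : absNorm I = m) (hJ : absNorm J = n)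
    (h : Nat.Coprime m n) : I * J ⊔ span {(m : 𝓞 K)} = I := by
  apply le_antisymm
  · exact sup_le mul_le_left (span_le_of_absNorm hI)
  · have h1 : J ⊔ span {(m : 𝓞 K)} = ⊤ := by
      rw [eq_top_iff, ← sup_span_eq_top (K := K) h, sup_comm]
      exact sup_le_sup_right (span_le_of_absNorm hJ) _
    calc I = I * (J ⊔ span {(m : 𝓞 K)}) := by rw [h1, mul_top]
      _ = I * J ⊔ I * span {(m : 𝓞 K)} := by rw [Ideal.mul_sup]
      _ ≤ I * J ⊔ span {(m : 𝓞 K)} := sup_le_sup_left mul_le_right _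

lemma exists_factor {A : Ideal (𝓞 K)} {m n : ℕ} (hm : 0 < m) (hn : 0 < n)
    (hA : absNorm A = m * n) (h : Nat.Coprime m n) :
    ∃ I J : Ideal (𝓞 K), absNorm I = m ∧ absNorm J = n ∧ I * J = A := by
  set I := A ⊔ span {(m : 𝓞 K)} with hI
  set J := A ⊔ span {(n : 𝓞 K)} with hJ
  have hIJ : I * J = A := by
    apply le_antisymm
    · rw [hI, hJ, Ideal.sup_mul, Ideal.mul_sup, Ideal.mul_sup]
      refine sup_le (sup_le mul_le_left mul_le_left) (sup_le mul_le_right ?_)
      rw [span_singleton_mul_span_singleton, ← Nat.cast_mul]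
      exact span_le_of_absNorm hA
    · calc A = A * (span {(m : 𝓞 K)} ⊔ span {(n : 𝓞 K)}) := by
            rw [sup_span_eq_top h, mul_top]
        _ = A * span {(m : 𝓞 K)} ⊔ A * span {(n : 𝓞 K)} := by rw [Ideal.mul_sup]
        _ ≤ I * J := by
          refine sup_le ?_ ?_
          · rw [mul_comm]
            exact Ideal.mul_mono le_sup_right le_sup_left
          · exact Ideal.mul_mono le_sup_left le_sup_right
  have h1 : absNorm I ∣ m * n := by
    rw [← hA]; exact absNorm_dvd_absNorm_of_le le_sup_left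
  have h2 : absNorm I ∣ m ^ Module.finrank ℚ K := by
    rw [← absNorm_span_natCast]; exact absNorm_dvd_absNorm_of_le le_sup_right
  have h3 : absNorm I ∣ m := by
    refine Nat.Coprime.dvd_of_dvd_mul_right ?_ h1
    exact Nat.Coprime.coprime_dvd_left h2 (Nat.Coprime.pow_left _ h)
  have h1' : absNorm J ∣ m * n := by
    rw [← hA]; exact absNorm_dvd_absNorm_of_le le_sup_left
  have h2' : absNorm J ∣ n ^ Module.finrank ℚ K := by
    rw [← absNorm_span_natCast]; exact absNorm_dvd_absNorm_of_le le_sup_right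
  have h3' : absNorm J ∣ n := by
    refine Nat.Coprime.dvd_of_dvd_mul_left ?_ h1'
    exact Nat.Coprime.coprime_dvd_left h2' (Nat.Coprime.pow_left _ h.symm)
  have h4 : absNorm I * absNorm J = m * n := by rw [← map_mul, hIJ, hA]
  have h5 := Nat.le_of_dvd hm h3
  have h6 := Nat.le_of_dvd hn h3'
  refine ⟨I, J, ?_, ?_, hIJ⟩
  · nlinarith
  · nlinarith

theorem idealCount_mul {m n : ℕ} (hm : 0 < m) (hn : 0 < n) (h : Nat.Coprime m n) :
    idealCount K (m * n) = idealCount K m * idealCount K n := by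
  unfold idealCount
  rw [← Nat.card_prod]
  symm
  refine Nat.card_congr (Equiv.ofBijective
    (fun x => ⟨x.1.1 * x.2.1, by rw [map_mul, x.1.2, x.2.2]⟩) ⟨?_, ?_⟩)
  · rintro ⟨⟨I, hI⟩, ⟨J, hJ⟩⟩ ⟨⟨I', hI'⟩, ⟨J', hJ'⟩⟩ hx
    simp only [Subtype.mk.injEq] at hx
    simp only [Prod.mk.injEq, Subtype.mk.injEq]
    constructor
    · rw [← mul_sup_span hI hJ h, hx, mul_sup_span hI' hJ' h]
    · rw [← mul_sup_span hJ hI h.symm, mul_comm, hx, mul_comm, mul_sup_span hJ' hI' h.symm]
  · rintro ⟨A, hA⟩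
    obtain ⟨I, J, hI, hJ, hIJ⟩ := exists_factor hm hn hA h
    exact ⟨⟨⟨I, hI⟩, ⟨J, hJ⟩⟩, by simp [hIJ]⟩

lemma idealCount_one : idealCount K 1 = 1 := by
  unfold idealCount
  rw [Nat.card_eq_one_iff_exists]
  refine ⟨⟨⊤, absNorm_top⟩, ?_⟩
  rintro ⟨I, hI⟩
  rw [Subtype.mk.injEq]
  exact absNorm_eq_one_iff.mp hI

/-- every nontrivial ideal of `q`-power norm has a maximal factor dividing `q` -/
lemma exists_prime_factor {q : ℕ} (hq : q.Prime) {I : Ideal (𝓞 K)} {k : ℕ}
    (hI : absNorm I = q ^ (k + 1)) :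
    ∃ P J C : Ideal (𝓞 K), P.IsMaximal ∧ I = P * J ∧ span {(q : 𝓞 K)} = P * C := by
  have hne : I ≠ ⊤ := by
    rintro rfl
    rw [absNorm_top] at hI
    have := Nat.one_lt_pow (n := k + 1) (by omega) hq.one_lt
    omega
  obtain ⟨P, hP, hIP⟩ := exists_le_maximal I hne
  have hqP : (q : 𝓞 K) ∈ P := by
    have h1 : ((q ^ (k + 1) : ℕ) : 𝓞 K) ∈ P := hIP (mem_of_absNorm hI)
    push_cast at h1
    exact hP.isPrime.mem_of_pow_mem _ h1
  obtain ⟨J, hJ⟩ := Ideal.dvd_iff_le.mpr hIP
  obtain ⟨C, hC⟩ := Ideal.dvd_iff_le.mpr ((span_singleton_le_iff_mem P).mpr hqP)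
  exact ⟨P, J, C, hP, hJ, hC⟩

lemma absNorm_eq_one' {I : Ideal (𝓞 K)} (h : absNorm I = 1) : I = 1 := by
  rw [one_eq_top]; exact absNorm_eq_one_iff.mp h

section quadratic

variable (hK : Module.finrank ℚ K = 2) {q : ℕ} (hq : q.Prime)

include hK hq

lemma norm_q : absNorm (span {(q : 𝓞 K)}) = q ^ 2 := by
  rw [absNorm_span_natCast, hK]

/-- split case -/
lemma span_eq_mul {P Q : Ideal (𝓞 K)} (hP : absNorm P = q) (hQ : absNorm Q = q)
    (hne : P ≠ Q) : span {(q : 𝓞 K)} = P * Q := by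
  have hPp : P.IsPrime := isPrime_of_irreducible_absNorm (by rw [hP]; exact hq.prime.irreducible)
  have hQp : Q.IsPrime := isPrime_of_irreducible_absNorm (by rw [hQ]; exact hq.prime.irreducible)
  have hP0 : P ≠ ⊥ := by
    rintro rfl
    rw [absNorm_bot] at hP
    exact hq.ne_zero hP.symm
  have hQ0 : Q ≠ ⊥ := by
    rintro rfl
    rw [absNorm_bot] at hQ
    exact hq.ne_zero hQ.symm
  have hPm : P.IsMaximal := hPp.isMaximal hP0
  have hQm : Q.IsMaximal := hQp.isMaximal hQ0
  have h1 : P * Q ∣ span {(q : 𝓞 K)} := by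
    rw [Ideal.dvd_iff_le]
    have h2 : P ⊔ Q = ⊤ := hPm.coprime_of_ne hQm hne
    rw [Ideal.mul_eq_inf_of_isCoprime (Ideal.isCoprime_iff_sup_eq.mpr h2)]
    exact le_inf (span_le_of_absNorm hP) (span_le_of_absNorm hQ)
  obtain ⟨C, hC⟩ := h1
  have h3 := congrArg absNorm hC
  rw [norm_q hK hq, map_mul, map_mul, hP, hQ] at h3
  have h4 : absNorm C = 1 := by
    have : 0 < q * q := Nat.mul_pos hq.pos hq.pos
    nlinarith
  rw [hC, absNorm_eq_one' h4, mul_one]

lemma split_exists {P Q : Ideal (𝓞 K)} (hP : absNorm P = q) (hQ : absNorm Q = q)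
    (hne : P ≠ Q) : ∀ (k : ℕ) (I : Ideal (𝓞 K)), absNorm I = q ^ k →
      ∃ i ≤ k, I = P ^ i * Q ^ (k - i) := by
  intro k
  induction k with
  | zero =>
    intro I hI
    rw [pow_zero] at hI
    exact ⟨0, le_rfl, by rw [absNorm_eq_one' hI]; simp⟩
  | succ k ih =>
    intro I hI
    obtain ⟨M, J, C, hM, hJ, hC⟩ := exists_prime_factor hq hI
    rw [span_eq_mul hK hq hP hQ hne] at hC
    have hMp : M.IsPrime := hM.isPrime
    have hMdvd : M ∣ P * Q := ⟨C, hC⟩
    have hPp : P.IsPrime :=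
      isPrime_of_irreducible_absNorm (by rw [hP]; exact hq.prime.irreducible)
    have hQp : Q.IsPrime :=
      isPrime_of_irreducible_absNorm (by rw [hQ]; exact hq.prime.irreducible)
    have hP0 : P ≠ ⊥ := by
      rintro rfl
      rw [absNorm_bot] at hP
      exact hq.ne_zero hP.symm
    have hQ0 : Q ≠ ⊥ := by
      rintro rfl
      rw [absNorm_bot] at hQ
      exact hq.ne_zero hQ.symm
    have hPm : P.IsMaximal := hPp.isMaximal hP0
    have hQm : Q.IsMaximal := hQp.isMaximal hQ0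
    rw [Ideal.dvd_iff_le] at hMdvd
    rcases (hMp.mul_le).mp hMdvd with h | h
    · have hPM : P = M := hPm.eq_of_le hM.ne_top h
      subst hPM
      have hJn : absNorm J = q ^ k := by
        rw [hJ, map_mul, hP, pow_succ, mul_comm] at hI
        exact Nat.eq_of_mul_eq_mul_right hq.pos hI
      obtain ⟨i, hi, hi2⟩ := ih J hJn
      refine ⟨i + 1, by omega, ?_⟩
      rw [hJ, hi2, show k + 1 - (i + 1) = k - i by omega]
      ring
    · have hQM : Q = M := hQm.eq_of_le hM.ne_top h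
      subst hQM
      have hJn : absNorm J = q ^ k := by
        rw [hJ, map_mul, hQ, pow_succ, mul_comm] at hI
        exact Nat.eq_of_mul_eq_mul_right hq.pos hI
      obtain ⟨i, hi, hi2⟩ := ih J hJn
      refine ⟨i, by omega, ?_⟩
      rw [hJ, hi2, show k + 1 - i = k - i + 1 by omega]
      ring

lemma split_inj {P Q : Ideal (𝓞 K)} (hP : absNorm P = q) (hQ : absNorm Q = q)
    (hne : P ≠ Q) {k i j : ℕ} (hi : i ≤ k) (hj : j ≤ k)
    (h : P ^ i * Q ^ (k - i) = P ^ j * Q ^ (k - j)) : i = j := by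
  have key : ∀ i j : ℕ, i ≤ k → j ≤ k → i < j →
      P ^ i * Q ^ (k - i) = P ^ j * Q ^ (k - j) → False := by
    intro i j hi hj hij h
    have hPp : P.IsPrime :=
      isPrime_of_irreducible_absNorm (by rw [hP]; exact hq.prime.irreducible)
    have hQp : Q.IsPrime :=
      isPrime_of_irreducible_absNorm (by rw [hQ]; exact hq.prime.irreducible)
    have hP0 : P ≠ ⊥ := by
      rintro rfl
      rw [absNorm_bot] at hP
      exact hq.ne_zero hP.symm
    have hQ0 : Q ≠ ⊥ := by
      rintro rfl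
      rw [absNorm_bot] at hQ
      exact hq.ne_zero hQ.symm
    have hQm : Q.IsMaximal := hQp.isMaximal hQ0
    have h1 : P ^ i * Q ^ (k - i) = P ^ i * (P ^ (j - i) * Q ^ (k - j)) := by
      rw [h, ← mul_assoc, ← pow_add, show i + (j - i) = j by omega]
    have hPi : P ^ i ≠ 0 := pow_ne_zero _ hP0
    have h2 := mul_left_cancel₀ hPi h1
    have h3 : Q ^ (k - i) ≤ P := by
      rw [h2]
      refine le_trans mul_le_left ?_
      exact pow_le_self (by omega)
    have h4 : Q ≤ P := hPp.le_of_pow_le h3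
    exact hne (hQm.eq_of_le hPp.ne_top h4).symm
  rcases lt_trichotomy i j with hij | hij | hij
  · exact (key i j hi hj hij h).elim
  · exact hij
  · exact (key j i hj hi hij h.symm).elim

lemma idealCount_split {P Q : Ideal (𝓞 K)} (hP : absNorm P = q) (hQ : absNorm Q = q)
    (hne : P ≠ Q) (k : ℕ) : idealCount K (q ^ k) = k + 1 := by
  unfold idealCount
  rw [← Nat.card_fin (k + 1)]
  symm
  refine Nat.card_congr (Equiv.ofBijective
    (fun i : Fin (k + 1) => ⟨P ^ (i : ℕ) * Q ^ (k - (i : ℕ)), ?_⟩) ⟨?_, ?_⟩)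
  · rw [map_mul, map_pow, map_pow, hP, hQ, ← pow_add]
    congr 1
    have := i.2
    omega
  · intro i j hij
    rw [Subtype.mk.injEq] at hij
    exact Fin.ext (split_inj hK hq hP hQ hne (by omega) (by omega) hij)
  · rintro ⟨I, hI⟩
    obtain ⟨i, hi, hi2⟩ := split_exists hK hq hP hQ hne k I hI
    exact ⟨⟨i, by omega⟩, by simp [hi2]⟩

/-- ramified case -/
lemma idealCount_ram {P : Ideal (𝓞 K)} (hP : absNorm P = q)
    (huniq : ∀ Q : Ideal (𝓞 K), absNorm Q = q → Q = P) (k : ℕ) :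
    idealCount K (q ^ k) = 1 := by
  have hPp : P.IsPrime :=
    isPrime_of_irreducible_absNorm (by rw [hP]; exact hq.prime.irreducible)
  have hP0 : P ≠ ⊥ := by
    rintro rfl
    rw [absNorm_bot] at hP
    exact hq.ne_zero hP.symm
  have hPm : P.IsMaximal := hPp.isMaximal hP0
  have hsq : span {(q : 𝓞 K)} = P * P := by
    obtain ⟨C, hC⟩ := Ideal.dvd_iff_le.mpr (span_le_of_absNorm hP)
    have h3 := congrArg absNorm hC
    rw [norm_q hK hq, map_mul, hP, sq] at h3
    have h4 := Nat.eq_of_mul_eq_mul_left hq.pos h3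
    rw [hC, huniq C h4.symm]
  have key : ∀ (k : ℕ) (I : Ideal (𝓞 K)), absNorm I = q ^ k → I = P ^ k := by
    intro k
    induction k with
    | zero =>
      intro I hI
      rw [pow_zero] at hI
      rw [absNorm_eq_one' hI, pow_zero]
    | succ k ih =>
      intro I hI
      obtain ⟨M, J, C, hM, hJ, hC⟩ := exists_prime_factor hq hI
      rw [hsq] at hC
      have hMp : M.IsPrime := hM.isPrime
      have hMdvd : M ∣ P * P := ⟨C, hC⟩
      rw [Ideal.dvd_iff_le] at hMdvd
      have h : P ≤ M := by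
        rcases (hMp.mul_le).mp hMdvd with h | h <;> exact h
      have hPM : P = M := hPm.eq_of_le hM.ne_top h
      subst hPM
      have hJn : absNorm J = q ^ k := by
        rw [hJ, map_mul, hP, pow_succ, mul_comm] at hI
        exact Nat.eq_of_mul_eq_mul_right hq.pos hI
      rw [hJ, ih J hJn]
      ring
  unfold idealCount
  rw [Nat.card_eq_one_iff_exists]
  refine ⟨⟨P ^ k, by rw [map_pow, hP]⟩, ?_⟩
  rintro ⟨I, hI⟩
  rw [Subtype.mk.injEq]
  exact key k I hI

/-- inert case -/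
lemma idealCount_inert (hno : ∀ Q : Ideal (𝓞 K), absNorm Q ≠ q) (k : ℕ) :
    idealCount K (q ^ k) = if Even k then 1 else 0 := by
  have hstep : ∀ (k : ℕ) (I : Ideal (𝓞 K)), absNorm I = q ^ (k + 1) →
      ∃ J : Ideal (𝓞 K), I = span {(q : 𝓞 K)} * J := by
    intro k I hI
    obtain ⟨M, J, C, hM, hJ, hC⟩ := exists_prime_factor hq hI
    have h3 := congrArg absNorm hC
    rw [norm_q hK hq, map_mul] at h3
    have h4 : absNorm M ∣ q ^ 2 := ⟨_, h3⟩
    obtain ⟨e, he, he2⟩ := (Nat.dvd_prime_pow hq).mp h4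
    have h5 : absNorm C = 1 := by
      interval_cases e
      · rw [pow_zero] at he2
        exact absurd (absNorm_eq_one_iff.mp he2) hM.ne_top
      · rw [pow_one] at he2
        exact absurd he2 (hno M)
      · rw [he2] at h3
        have : 0 < q ^ 2 := by have := hq.pos; positivity
        nlinarith
    rw [absNorm_eq_one' h5, mul_one] at hC
    exact ⟨J, by rw [hC, hJ]⟩
  have hrec : ∀ k : ℕ, idealCount K (q ^ (k + 2)) = idealCount K (q ^ k) := by
    intro k
    unfold idealCount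
    symm
    refine Nat.card_congr (Equiv.ofBijective
      (fun J => ⟨span {(q : 𝓞 K)} * J.1, ?_⟩) ⟨?_, ?_⟩)
    · rw [map_mul, norm_q hK hq, J.2, ← pow_add, add_comm]
    · rintro ⟨I, hI⟩ ⟨J, hJ⟩ hIJ
      rw [Subtype.mk.injEq] at hIJ
      rw [Subtype.mk.injEq]
      have hne : span {(q : 𝓞 K)} ≠ 0 := by
        intro h
        have := norm_q hK hq (K := K)
        rw [h, map_zero] at this
        have : 0 < q ^ 2 := by have := hq.pos; positivity
        omega
      exact mul_left_cancel₀ hne hIJ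
    · rintro ⟨I, hI⟩
      obtain ⟨J, hJ⟩ := hstep (k + 1) I hI
      have hJn : absNorm J = q ^ k := by
        rw [hJ, map_mul, norm_q hK hq, add_comm k 2, pow_add] at hI
        have : 0 < q ^ 2 := by have := hq.pos; positivity
        exact Nat.eq_of_mul_eq_mul_left this hI
      exact ⟨⟨J, hJn⟩, by simp [hJ]⟩
  have h1 : idealCount K (q ^ 1) = 0 := by
    unfold idealCount
    have : IsEmpty {I : Ideal (𝓞 K) // absNorm I = q ^ 1} := by
      constructor
      rintro ⟨I, hI⟩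
      rw [pow_one] at hI
      exact hno I hI
    exact Nat.card_of_isEmpty
  have key : ∀ m : ℕ, idealCount K (q ^ (2 * m)) = 1 ∧ idealCount K (q ^ (2 * m + 1)) = 0 := by
    intro m
    induction m with
    | zero => exact ⟨by simpa using idealCount_one, by simpa using h1⟩
    | succ m ih =>
      refine ⟨?_, ?_⟩
      · rw [show 2 * (m + 1) = 2 * m + 2 by ring, hrec, ih.1]
      · rw [show 2 * (m + 1) + 1 = (2 * m + 1) + 2 by ring, hrec, ih.2]
  rcases Nat.even_or_odd' k with ⟨m, rfl | rfl⟩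
  · rw [if_pos (even_two_mul m)]; exact (key m).1
  · rw [if_neg (by simp)]; exact (key m).2

end quadratic

end

end Pool.Agent.H76
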