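import Pool.Agent.H76.QuadCharFour

/-!
# Arithmetic of the class number and sums over quadratic residues
-/

set_option autoImplicit false

open NumberField Finset

namespace Pool.Agent.H76

noncomputable section

lemma sum_zmod_eq {n : ℕ} [NeZero n] (F : ℕ → ℂ) (c : ZMod n → ℂ) :
    ∑ j : ZMod n, F j.val * c j = ∑ k ∈ range n, F k * c (k : ZMod n) := by
  symm
  refine sum_bij (fun k _ => (k : ZMod n)) (fun _ _ => mem_univ _) ?_ ?_ ?_
  · intro a ha b hb hab
    have ha := mem_range.mp ha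
    have hb := mem_range.mp hb
    have h2 := congrArg ZMod.val hab
    rwa [ZMod.val_cast_of_lt ha, ZMod.val_cast_of_lt hb] at h2
  · intro x _
    exact ⟨x.val, mem_range.mpr (ZMod.val_lt x), ZMod.natCast_zmod_val x⟩
  · intro a ha
    rw [ZMod.val_cast_of_lt (mem_range.mp ha)]

lemma sum_shift (F : ℕ → ℤ) (h0 : F 0 = 0) {n : ℕ} (hn : 0 < n) :
    ∑ j ∈ range n, F j = ∑ j ∈ range (n - 1), F (j + 1) := by
  obtain ⟨m, rfl⟩ : ∃ m, n = m + 1 := ⟨n - 1, by omega⟩
  rw [sum_range_succ', h0, add_zero, Nat.add_sub_cancel]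

variable (p : ℕ) [hp : Fact p.Prime]

/-- the Legendre symbol on naturals -/
def leg (n : ℕ) : ℤ := legendreSym p n

lemma leg_zero : leg p 0 = 0 := by unfold leg; simp

lemma leg_mul (a b : ℕ) : leg p (a * b) = leg p a * leg p b := by
  unfold leg; push_cast; exact legendreSym.mul p _ _

lemma leg_congr {a b : ℕ} (h : a ≡ b [MOD p]) : leg p a = leg p b := by
  unfold leg legendreSym
  rw [Int.cast_natCast, Int.cast_natCast, (ZMod.natCast_eq_natCast_iff a b p).mpr h]

lemma leg_self : leg p p = 0 := by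
  rw [leg_congr p (b := 0) (by simp [Nat.ModEq]), leg_zero]

lemma leg_sub (h4 : p % 4 = 1) {a b : ℕ} (hab : a + b = p) : leg p a = leg p b := by
  have hp2 : p ≠ 2 := by rintro rfl; omega
  unfold leg legendreSym
  rw [Int.cast_natCast, Int.cast_natCast]
  have h1 : (a : ZMod p) = (-1) * (b : ZMod p) := by
    have : ((a + b : ℕ) : ZMod p) = 0 := by rw [hab]; simp
    push_cast at this
    linear_combination this
  rw [h1, map_mul, quadraticChar_neg_one (ringChar_ne p hp2), ZMod.card,
    ZMod.χ₄_nat_one_mod_four h4, one_mul]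

lemma leg_sub_three (h4 : p % 4 = 3) {a b : ℕ} (hab : a + b = p) : leg p a = -leg p b := by
  have hp2 : p ≠ 2 := by rintro rfl; omega
  unfold leg legendreSym
  rw [Int.cast_natCast, Int.cast_natCast]
  have h1 : (a : ZMod p) = (-1) * (b : ZMod p) := by
    have : ((a + b : ℕ) : ZMod p) = 0 := by rw [hab]; simp
    push_cast at this
    linear_combination this
  rw [h1, map_mul, quadraticChar_neg_one (ringChar_ne p hp2), ZMod.card,
    ZMod.χ₄_nat_three_mod_four h4]
  ring

lemma leg_pm {a : ℕ} (h0 : 0 < a) (h1 : a < p) : leg p a = 1 ∨ leg p a = -1 := by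
  unfold leg
  apply legendreSym.eq_one_or_neg_one
  rw [Int.cast_natCast, Ne, ZMod.natCast_eq_zero_iff]
  intro h
  exact absurd (Nat.le_of_dvd h0 h) (by omega)

/-- the set of residues -/
def resid : Finset ℕ := (range p).filter (fun r => leg p r = 1)

lemma two_sum_resid : 2 * (∑ r ∈ resid p, (r : ℤ)) =
    ∑ j ∈ range p, (j : ℤ) + ∑ j ∈ range p, (j : ℤ) * leg p j := by
  unfold resid
  rw [mul_sum, sum_filter, ← sum_add_distrib]
  refine sum_congr rfl fun j hj => ?_
  rcases Nat.eq_zero_or_pos j with rfl | h0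
  · simp
  · rcases leg_pm p h0 (mem_range.mp hj) with h | h
    · rw [h, if_pos rfl]; ring
    · rw [h, if_neg (by norm_num)]; ring

lemma sum_range_id_int : 2 * ∑ j ∈ range p, (j : ℤ) = p * (p - 1) := by
  have := hp.out.pos
  have h := Finset.sum_range_id_mul_two p
  have h2 : ((∑ j ∈ range p, j) * 2 : ℤ) = (p : ℤ) * ((p - 1 : ℕ) : ℤ) := by
    have := congrArg (Nat.cast : ℕ → ℤ) h
    rw [Nat.cast_mul, Nat.cast_mul] at this
    exact this
  rw [Nat.cast_sub (by omega), Nat.cast_sum] at h2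
  push_cast at h2
  linear_combination h2

/-- symmetric sum -/
lemma sum_resid_one (h4 : p % 4 = 1) : 4 * (∑ r ∈ resid p, (r : ℤ)) = p * (p - 1) := by
  have h1 := two_sum_resid p
  have h2 := sum_range_id_int p
  have h3 : ∑ j ∈ range p, (j : ℤ) * leg p j = 0 := by
    have e1 : ∑ j ∈ range p, (j : ℤ) * leg p j = ∑ j ∈ range (p - 1), ((j + 1 : ℕ) : ℤ) *
        leg p (j + 1) := sum_shift (fun j => (j : ℤ) * leg p j) (by simp) hp.out.pos
    have e2 : ∑ j ∈ range (p - 1), ((j + 1 : ℕ) : ℤ) * leg p (j + 1) =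
        ∑ j ∈ range (p - 1), ((p - 1 - 1 - j + 1 : ℕ) : ℤ) * leg p (p - 1 - 1 - j + 1) :=
      (sum_range_reflect (fun j => ((j + 1 : ℕ) : ℤ) * leg p (j + 1)) (p - 1)).symm
    have e3 : ∀ j ∈ range (p - 1), ((p - 1 - 1 - j + 1 : ℕ) : ℤ) * leg p (p - 1 - 1 - j + 1) =
        p * leg p (j + 1) - ((j + 1 : ℕ) : ℤ) * leg p (j + 1) := by
      intro j hj
      have hj := mem_range.mp hj
      rw [leg_sub p h4 (a := p - 1 - 1 - j + 1) (b := j + 1) (by omega)]
      have : ((p - 1 - 1 - j + 1 : ℕ) : ℤ) = p - ((j + 1 : ℕ) : ℤ) := by omega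
      rw [this]; ring
    have e4 : ∑ j ∈ range (p - 1), leg p (j + 1) = 0 := by
      have h5 := sum_range_zmod p (fun x => qchi p x)
      have h6 : ∑ x : ZMod p, qchi p x = 0 := by
        apply MulChar.sum_eq_zero_of_ne_one
        apply qchi_ne_one
        rintro rfl; omega
      rw [h6] at h5
      have h7 : ∑ k ∈ range p, qchi p (k : ZMod p) = ((∑ k ∈ range p, leg p k : ℤ) : ℂ) := by
        push_cast
        refine sum_congr rfl fun k _ => ?_
        rw [qchi_nat]; rfl
      rw [h7] at h5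
      have h8 : ∑ k ∈ range p, leg p k = 0 := by exact_mod_cast h5
      rw [← sum_shift (fun k => leg p k) (leg_zero p) hp.out.pos]
      exact h8
    have e5 := e2
    rw [sum_congr rfl e3, sum_sub_distrib, ← mul_sum, e4, mul_zero, zero_sub] at e5
    rw [e1]
    linarith
  rw [h3] at h1
  linear_combination 2 * h1 + h2

section

variable {K : Type*} [Field K] [NumberField K] (hK : Module.finrank ℚ K = 2)
  {α : K} (hα : α ^ 2 = -(p : K))

include hK hα

lemma sum_resid_three (h4 : p % 4 = 3) (h3 : p ≠ 3) :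
    4 * (∑ r ∈ resid p, (r : ℤ)) = p * (p - 1) - 2 * (p * classNumber K) := by
  have h1 := two_sum_resid p
  have h2 := sum_range_id_int p
  have h5 := classNumber_three hK p hα h4 h3
  rw [sum_zmod_eq (fun k => (k : ℂ)) (fun j => qchi p j)] at h5
  have h7 : ∑ k ∈ range p, (k : ℂ) * qchi p (k : ZMod p) =
      ((∑ k ∈ range p, (k : ℤ) * leg p k : ℤ) : ℂ) := by
    push_cast
    refine sum_congr rfl fun k _ => ?_
    rw [qchi_nat]; rfl
  rw [h7] at h5
  have h8 : ∑ k ∈ range p, (k : ℤ) * leg p k = -(p * classNumber K : ℤ) := by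
    exact_mod_cast h5
  rw [h8] at h1
  linear_combination 2 * h1 + h2

end

end

end Pool.Agent.H76
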