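import Pool.Agent.H76.ClassModFour

/-!
# Phases of the products over quadratic residues
-/

set_option autoImplicit false

open Finset

namespace Pool.Agent.H76

noncomputable section

/-- `S_p(x) = ∏_{k=1}^{(p-1)/2} (x - e^{2πi k²/p})` -/
def Sp (p : ℕ) (x : ℂ) : ℂ :=
  ∏ k ∈ Finset.Icc 1 ((p - 1) / 2),
    (x - Complex.exp (2 * Real.pi * Complex.I * (k : ℂ) ^ 2 / p))

/-- `N_p`: the number of `1 ≤ k < p/12` with `(k/p) = 1` -/
def Np (p : ℕ) [Fact p.Prime] : ℕ :=
  ((Finset.range p).filter (fun k => 1 ≤ k ∧ 12 * k < p ∧ legendreSym p k = 1)).card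

/-- `T_s(p)`, written with the class number `h` as an argument -/
def Ts (p : ℕ) [Fact p.Prime] (h : ℕ) (s : ℤ) : ℂ :=
  (-1) ^ (h / 2 + Np p) *
    Complex.exp (2 * Real.pi * Complex.I * s * (5 * ((p : ℂ) - 1) / 48)) *
    Sp p (Complex.exp (2 * Real.pi * Complex.I * s / 12))

variable (p : ℕ) [hp : Fact p.Prime]

lemma exp_sq (k : ℕ) : Complex.exp (2 * Real.pi * Complex.I * (k : ℂ) ^ 2 / p) =
    Complex.exp (2 * Real.pi * Complex.I * ((k ^ 2 % p : ℕ) : ℂ) / p) := by
  rw [Complex.exp_eq_exp_iff_exists_int]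
  refine ⟨((k ^ 2 / p : ℕ) : ℤ), ?_⟩
  have hpc : (p : ℂ) ≠ 0 := by exact_mod_cast hp.out.ne_zero
  have h := congrArg (Nat.cast : ℕ → ℂ) (Nat.mod_add_div (k ^ 2) p)
  rw [Nat.cast_add, Nat.cast_mul, Nat.cast_pow] at h
  rw [Int.cast_natCast, ← h]
  field_simp

lemma Sp_eq (hp2 : p ≠ 2) (x : ℂ) :
    Sp p x = ∏ r ∈ resid p, (x - Complex.exp (2 * Real.pi * Complex.I * (r : ℂ) / p)) := by
  have hodd : p % 2 = 1 := (Nat.Prime.eq_two_or_odd hp.out).resolve_left hp2
  unfold Sp
  have h1 : ∀ k ∈ Finset.Icc 1 ((p - 1) / 2),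
      (x - Complex.exp (2 * Real.pi * Complex.I * (k : ℂ) ^ 2 / p)) =
      (x - Complex.exp (2 * Real.pi * Complex.I * ((k ^ 2 % p : ℕ) : ℂ) / p)) := by
    intro k _
    rw [exp_sq]
  rw [prod_congr rfl h1]
  refine prod_bij (fun k _ => k ^ 2 % p) ?_ ?_ ?_ (fun _ _ => rfl)
  · intro k hk
    rw [mem_Icc] at hk
    unfold resid
    rw [mem_filter, mem_range]
    refine ⟨Nat.mod_lt _ hp.out.pos, ?_⟩
    rw [leg_congr p (Nat.mod_modEq (k ^ 2) p), sq, leg_mul]
    rcases leg_pm p (a := k) (by omega) (by omega) with h | h <;> rw [h] <;> norm_num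
  · intro a ha b hb hab
    rw [mem_Icc] at ha hb
    have h2 : (a : ZMod p) ^ 2 = (b : ZMod p) ^ 2 := by
      have := (ZMod.natCast_eq_natCast_iff (a ^ 2) (b ^ 2) p).mpr hab
      push_cast at this
      exact this
    rcases sq_eq_sq_iff_eq_or_eq_neg.mp h2 with h3 | h3
    · rw [ZMod.natCast_eq_natCast_iff', Nat.mod_eq_of_lt (by omega), Nat.mod_eq_of_lt (by omega)]
        at h3
      exact h3
    · exfalso
      have h4 : ((a + b : ℕ) : ZMod p) = 0 := by
        push_cast
        rw [h3]; ring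
      rw [ZMod.natCast_eq_zero_iff] at h4
      exact absurd (Nat.le_of_dvd (by omega) h4) (by omega)
  · intro r hr
    unfold resid at hr
    rw [mem_filter, mem_range] at hr
    obtain ⟨hr1, hr2⟩ := hr
    have hr0 : (r : ZMod p) ≠ 0 := by
      intro h
      unfold leg legendreSym at hr2
      rw [Int.cast_natCast, h] at hr2
      simp at hr2
    have h3 : IsSquare (r : ZMod p) := by
      have := (legendreSym.eq_one_iff' p (a := r) hr0).mp hr2
      exact this
    obtain ⟨y, hy⟩ := h3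
    set k := y.valMinAbs.natAbs with hk
    have hk2 : ((k ^ 2 : ℕ) : ZMod p) = r := by
      have e1 : (((k ^ 2 : ℕ) : ℤ) : ZMod p) = ((y.valMinAbs ^ 2 : ℤ) : ZMod p) := by
        congr 1
        rw [hk]; push_cast; exact sq_abs _
      rw [Int.cast_natCast] at e1
      rw [e1, Int.cast_pow, ZMod.coe_valMinAbs, hy, sq]
    have hkle : k ≤ p / 2 := ZMod.natAbs_valMinAbs_le y
    have hk0 : k ≠ 0 := by
      intro h
      rw [h] at hk2
      apply hr0
      rw [← hk2]; simp
    refine ⟨k, ?_, ?_⟩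
    · rw [mem_Icc]; omega
    · have := (ZMod.natCast_eq_natCast_iff (k ^ 2) r p).mp hk2
      have h5 : k ^ 2 % p = r % p := this
      rw [h5, Nat.mod_eq_of_lt hr1]

lemma card_resid (hp2 : p ≠ 2) : 2 * (resid p).card = p - 1 := by
  have h1 := leg_sum_zero p hp2
  rw [sum_shift (fun k => leg p k) (leg_zero p) hp.out.pos] at h1
  have h2 : ((resid p).card : ℤ) = ∑ j ∈ range p, if leg p j = 1 then 1 else 0 := by
    unfold resid
    rw [card_filter]; push_cast; rfl
  rw [sum_shift (fun j => if leg p j = 1 then (1 : ℤ) else 0) (by simp [leg_zero])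
    hp.out.pos] at h2
  have h3 : ∀ j ∈ range (p - 1), 2 * (if leg p (j + 1) = 1 then (1 : ℤ) else 0) =
      1 + leg p (j + 1) := by
    intro j hj
    have hj := mem_range.mp hj
    rcases leg_pm p (a := j + 1) (by omega) (by omega) with h | h
    · rw [h]; norm_num
    · rw [h]; norm_num
  have h4 : 2 * ((resid p).card : ℤ) = ((p - 1 : ℕ) : ℤ) := by
    rw [h2, mul_sum, sum_congr rfl h3, sum_add_distrib, h1]
    simp
  exact_mod_cast h4

lemma factor (θ : ℝ) (r : ℕ) :
    Complex.exp (Complex.I * θ) - Complex.exp (2 * Real.pi * Complex.I * (r : ℂ) / p) =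
      Complex.exp (Complex.I * (θ / 2 + Real.pi * r / p)) *
        (Complex.I * ((2 * Real.sin (θ / 2 - Real.pi * r / p) : ℝ) : ℂ)) := by
  rw [Complex.ofReal_mul, Complex.ofReal_sin, Complex.sin]
  push_cast
  have e1 : Complex.exp (Complex.I * θ) = Complex.exp (Complex.I * (θ / 2 + Real.pi * r / p)) *
      Complex.exp ((θ / 2 - Real.pi * r / p) * Complex.I) := by
    rw [← Complex.exp_add]; congr 1; ring
  have e2 : Complex.exp (2 * Real.pi * Complex.I * (r : ℂ) / p) =
      Complex.exp (Complex.I * (θ / 2 + Real.pi * r / p)) *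
      Complex.exp (-(θ / 2 - Real.pi * r / p) * Complex.I) := by
    rw [← Complex.exp_add]; congr 1; ring
  rw [e1, e2]
  linear_combination (Complex.exp (Complex.I * (θ / 2 + Real.pi * r / p)) *
    (Complex.exp ((θ / 2 - Real.pi * r / p) * Complex.I) -
      Complex.exp (-(θ / 2 - Real.pi * r / p) * Complex.I))) * Complex.I_sq

lemma prod_factor (θ : ℝ) (R : Finset ℕ) :
    ∏ r ∈ R, (Complex.exp (Complex.I * θ) -
      Complex.exp (2 * Real.pi * Complex.I * (r : ℂ) / p)) =
      Complex.exp (Complex.I * (R.card * θ / 2 + Real.pi * (∑ r ∈ R, (r : ℂ)) / p)) *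
        Complex.I ^ R.card *
        ((∏ r ∈ R, (2 * Real.sin (θ / 2 - Real.pi * r / p)) : ℝ) : ℂ) := by
  simp_rw [factor]
  rw [prod_mul_distrib, prod_mul_distrib, prod_const, ← Complex.exp_sum, Complex.ofReal_prod,
    mul_assoc]
  congr 2
  rw [← mul_sum, sum_add_distrib, sum_const, nsmul_eq_mul, ← sum_div, ← mul_sum]
  ring

lemma sign_prod (R : Finset ℕ) (g : ℕ → ℝ) (P : ℕ → Prop) [DecidablePred P]
    (h1 : ∀ r ∈ R, P r → g r < 0) (h2 : ∀ r ∈ R, ¬ P r → 0 < g r) :
    0 < (-1) ^ (R.filter P).card * ∏ r ∈ R, g r := by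
  have h3 : (-1 : ℝ) ^ (R.filter P).card = ∏ r ∈ R, if P r then (-1 : ℝ) else 1 := by
    rw [prod_ite, prod_const, prod_const_one, mul_one]
  rw [h3, ← prod_mul_distrib]
  apply prod_pos
  intro r hr
  by_cases h : P r
  · rw [if_pos h]
    have := h1 r hr h
    linarith
  · rw [if_neg h]
    have := h2 r hr h
    linarith

lemma resid_bounds {r : ℕ} (hr : r ∈ resid p) : 0 < r ∧ r < p := by
  unfold resid at hr
  rw [mem_filter, mem_range] at hr
  refine ⟨?_, hr.1⟩
  rcases Nat.eq_zero_or_pos r with h | h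
  · rw [h, leg_zero] at hr
    exact absurd hr.2 (by norm_num)
  · exact h

lemma sign_plus (hp3 : 3 < p) :
    0 < (-1) ^ ((resid p).filter (fun r => p < 12 * r)).card *
      ∏ r ∈ resid p, (2 * Real.sin ((Real.pi / 6) / 2 - Real.pi * r / p)) := by
  have hp0 : (0 : ℝ) < p := by exact_mod_cast hp.out.pos
  have hpi := Real.pi_pos
  apply sign_prod
  · intro r hr hP
    obtain ⟨h0, h1⟩ := resid_bounds p hr
    have e1 : (p : ℝ) < 12 * r := by exact_mod_cast hP
    have e2 : (r : ℝ) < p := by exact_mod_cast h1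
    have e3 : Real.pi / 12 < Real.pi * r / p := by
      rw [div_lt_div_iff₀ (by norm_num) hp0]; nlinarith
    have e4 : Real.pi * r / p < Real.pi := by
      rw [div_lt_iff₀ hp0]; nlinarith
    have : Real.sin ((Real.pi / 6) / 2 - Real.pi * r / p) < 0 := by
      apply Real.sin_neg_of_neg_of_neg_pi_lt <;> linarith
    linarith
  · intro r hr hP
    obtain ⟨h0, h1⟩ := resid_bounds p hr
    have hne : 12 * r ≠ p := by
      intro h
      have h2 : 2 ∣ p := ⟨6 * r, by rw [← h]; ring⟩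
      have := (Nat.prime_dvd_prime_iff_eq Nat.prime_two hp.out).mp h2
      omega
    have e1 : 12 * (r : ℝ) < p := by
      have : 12 * r < p := by omega
      exact_mod_cast this
    have e0 : (0 : ℝ) < r := by exact_mod_cast h0
    have e3 : Real.pi * r / p < Real.pi / 12 := by
      rw [div_lt_div_iff₀ hp0 (by norm_num)]; nlinarith
    have e4 : 0 < Real.pi * r / p := by positivity
    have : 0 < Real.sin ((Real.pi / 6) / 2 - Real.pi * r / p) := by
      apply Real.sin_pos_of_pos_of_lt_pi <;> linarith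
    linarith

lemma sign_minus (hp3 : 3 < p) :
    0 < (-1) ^ ((resid p).filter (fun r => 12 * r < 11 * p)).card *
      ∏ r ∈ resid p, (2 * Real.sin ((-(Real.pi / 6)) / 2 - Real.pi * r / p)) := by
  have hp0 : (0 : ℝ) < p := by exact_mod_cast hp.out.pos
  have hpi := Real.pi_pos
  apply sign_prod
  · intro r hr hP
    obtain ⟨h0, h1⟩ := resid_bounds p hr
    have e1 : 12 * (r : ℝ) < 11 * p := by exact_mod_cast hP
    have e0 : (0 : ℝ) < r := by exact_mod_cast h0
    have e3 : Real.pi * r / p < 11 * Real.pi / 12 := by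
      rw [div_lt_div_iff₀ hp0 (by norm_num)]; nlinarith
    have e4 : 0 < Real.pi * r / p := by positivity
    have : Real.sin ((-(Real.pi / 6)) / 2 - Real.pi * r / p) < 0 := by
      apply Real.sin_neg_of_neg_of_neg_pi_lt <;> linarith
    linarith
  · intro r hr hP
    obtain ⟨h0, h1⟩ := resid_bounds p hr
    have hne : 12 * r ≠ 11 * p := by
      intro h
      have h2 : 2 ∣ 11 * p := ⟨6 * r, by rw [← h]; ring⟩
      rcases (Nat.Prime.dvd_mul Nat.prime_two).mp h2 with h3 | h3
      · omega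
      · have := (Nat.prime_dvd_prime_iff_eq Nat.prime_two hp.out).mp h3
        omega
    have e1 : 11 * (p : ℝ) < 12 * r := by
      have : 11 * p < 12 * r := by omega
      exact_mod_cast this
    have e2 : (r : ℝ) < p := by exact_mod_cast h1
    have e3 : 11 * Real.pi / 12 < Real.pi * r / p := by
      rw [div_lt_div_iff₀ (by norm_num) hp0]; nlinarith
    have e4 : Real.pi * r / p < Real.pi := by
      rw [div_lt_iff₀ hp0]; nlinarith
    have h5 : Real.sin ((-(Real.pi / 6)) / 2 - Real.pi * r / p) =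
        Real.sin ((-(Real.pi / 6)) / 2 - Real.pi * r / p + 2 * Real.pi) := by
      rw [Real.sin_add_two_pi]
    have : 0 < Real.sin ((-(Real.pi / 6)) / 2 - Real.pi * r / p) := by
      rw [h5]
      apply Real.sin_pos_of_pos_of_lt_pi <;> linarith
    linarith

lemma I_pow_eq (n : ℕ) : Complex.I ^ n = Complex.exp (Complex.I * (Real.pi * n / 2)) := by
  have h := Complex.exp_pi_div_two_mul_I
  conv_lhs => rw [← h, ← Complex.exp_nat_mul]
  congr 1
  ring

lemma exp_int_pi (k : ℤ) : Complex.exp (Complex.I * (Real.pi * k)) = (-1) ^ k := by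
  have h := Complex.exp_pi_mul_I
  rw [← h, ← Complex.exp_int_mul]
  congr 1
  ring

/-- the value of `T_{+1}` -/
lemma Ts_plus (hp3 : 3 < p) (h : ℕ) (w : ℕ) (hw : ∑ r ∈ resid p, r = p * w) :
    ∃ Q : ℝ, 0 < Q ∧ Ts p h 1 = (((-1) ^ (h / 2 + w) * Q : ℝ) : ℂ) := by
  have hp2 : p ≠ 2 := by omega
  have hpc : (p : ℂ) ≠ 0 := by exact_mod_cast hp.out.ne_zero
  set n := (resid p).card with hn
  have hn2 : 2 * n = p - 1 := card_resid p hp2
  have hnC : (p : ℂ) - 1 = 2 * n := by
    have : p = 2 * n + 1 := by omega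
    conv_lhs => rw [this]
    push_cast; ring
  set A := ((resid p).filter (fun r => p < 12 * r)).card with hA
  -- `A + N = n`
  have hAN : A + Np p = n := by
    have h1 := card_filter_add_card_filter_not (s := resid p) (fun r => p < 12 * r)
    have h2 : ((resid p).filter (fun r => ¬ p < 12 * r)).card = Np p := by
      unfold Np resid
      rw [filter_filter]
      congr 1
      apply filter_congr
      intro r hr
      have hr := mem_range.mp hr
      constructor
      · rintro ⟨h3, h4⟩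
        have h5 : 1 ≤ r := by
          rcases Nat.eq_zero_or_pos r with h | h
          · rw [h, leg_zero] at h3; norm_num at h3
          · exact h
        have hne : 12 * r ≠ p := by
          intro h
          have h2 : 2 ∣ p := ⟨6 * r, by rw [← h]; ring⟩
          have := (Nat.prime_dvd_prime_iff_eq Nat.prime_two hp.out).mp h2
          omega
        exact ⟨h5, by omega, h3⟩
      · rintro ⟨h3, h4, h5⟩
        exact ⟨h5, by omega⟩
    omega
  have hQ := sign_plus p hp3
  rw [← hA] at hQ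
  set P := ∏ r ∈ resid p, (2 * Real.sin ((Real.pi / 6) / 2 - Real.pi * r / p)) with hP
  refine ⟨(-1) ^ A * P, hQ, ?_⟩
  unfold Ts
  rw [Sp_eq p hp2]
  have hx : Complex.exp (2 * Real.pi * Complex.I * ((1 : ℤ) : ℂ) / 12) =
      Complex.exp (Complex.I * ((Real.pi / 6 : ℝ) : ℂ)) := by
    congr 1; push_cast; ring
  rw [hx, prod_factor, ← hP, ← hn, I_pow_eq, hnC]
  have hσ : (∑ r ∈ resid p, (r : ℂ)) = p * w := by
    have := congrArg (Nat.cast : ℕ → ℂ) hw
    push_cast at this
    exact this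
  rw [hσ]
  have key : Complex.exp (2 * Real.pi * Complex.I * ((1 : ℤ) : ℂ) * (5 * (2 * n) / 48)) *
      (Complex.exp (Complex.I * (n * ((Real.pi / 6 : ℝ) : ℂ) / 2 + Real.pi * (p * w) / p)) *
      Complex.exp (Complex.I * (Real.pi * n / 2))) = (-1) ^ (n + w) := by
    rw [← Complex.exp_add, ← Complex.exp_add]
    have : (2 * Real.pi * Complex.I * ((1 : ℤ) : ℂ) * (5 * (2 * n) / 48) +
        (Complex.I * (n * ((Real.pi / 6 : ℝ) : ℂ) / 2 + Real.pi * (p * w) / p) +
        Complex.I * (Real.pi * n / 2))) = Complex.I * (Real.pi * ((n + w : ℕ) : ℤ)) := by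
      push_cast
      field_simp
      ring
    rw [this, exp_int_pi, zpow_natCast]
  calc (-1) ^ (h / 2 + Np p) *
      Complex.exp (2 * Real.pi * Complex.I * ((1 : ℤ) : ℂ) * (5 * (2 * n) / 48)) *
      (Complex.exp (Complex.I * (n * ((Real.pi / 6 : ℝ) : ℂ) / 2 + Real.pi * (p * w) / p)) *
      Complex.exp (Complex.I * (Real.pi * n / 2)) * (P : ℂ))
      = (-1) ^ (h / 2 + Np p) *
      (Complex.exp (2 * Real.pi * Complex.I * ((1 : ℤ) : ℂ) * (5 * (2 * n) / 48)) *
      (Complex.exp (Complex.I * (n * ((Real.pi / 6 : ℝ) : ℂ) / 2 + Real.pi * (p * w) / p)) *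
      Complex.exp (Complex.I * (Real.pi * n / 2)))) * (P : ℂ) := by ring
    _ = (-1) ^ (h / 2 + Np p) * (-1) ^ (n + w) * (P : ℂ) := by rw [key]
    _ = (((-1) ^ (h / 2 + w) * ((-1) ^ A * P) : ℝ) : ℂ) := by
      push_cast
      rw [← mul_assoc]
      congr 1
      rw [← pow_add, ← pow_add]
      have : h / 2 + Np p + (n + w) = h / 2 + w + A + 2 * Np p := by omega
      rw [this, pow_add _ _ (2 * Np p), pow_mul]
      simp

/-- the value of `T_{-1}` -/
lemma Ts_minus (hp3 : 3 < p) (h : ℕ) (w : ℕ) (hw : ∑ r ∈ resid p, r = p * w) :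
    ∃ Q : ℝ, 0 < Q ∧ Ts p h (-1) = (((-1) ^ (h / 2 + w + Np p +
      ((resid p).filter (fun r => 12 * r < 11 * p)).card) * Q : ℝ) : ℂ) := by
  have hp2 : p ≠ 2 := by omega
  have hpc : (p : ℂ) ≠ 0 := by exact_mod_cast hp.out.ne_zero
  set n := (resid p).card with hn
  have hn2 : 2 * n = p - 1 := card_resid p hp2
  have hnC : (p : ℂ) - 1 = 2 * n := by
    have : p = 2 * n + 1 := by omega
    conv_lhs => rw [this]
    push_cast; ring
  set A := ((resid p).filter (fun r => 12 * r < 11 * p)).card with hA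
  have hQ := sign_minus p hp3
  rw [← hA] at hQ
  set P := ∏ r ∈ resid p, (2 * Real.sin ((-(Real.pi / 6)) / 2 - Real.pi * r / p)) with hP
  refine ⟨(-1) ^ A * P, hQ, ?_⟩
  unfold Ts
  rw [Sp_eq p hp2]
  have hx : Complex.exp (2 * Real.pi * Complex.I * ((-1 : ℤ) : ℂ) / 12) =
      Complex.exp (Complex.I * ((-(Real.pi / 6) : ℝ) : ℂ)) := by
    congr 1; push_cast; ring
  rw [hx, prod_factor, ← hP, ← hn, I_pow_eq, hnC]
  have hσ : (∑ r ∈ resid p, (r : ℂ)) = p * w := by
    have := congrArg (Nat.cast : ℕ → ℂ) hw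
    push_cast at this
    exact this
  rw [hσ]
  have key : Complex.exp (2 * Real.pi * Complex.I * ((-1 : ℤ) : ℂ) * (5 * (2 * n) / 48)) *
      (Complex.exp (Complex.I * (n * ((-(Real.pi / 6) : ℝ) : ℂ) / 2 + Real.pi * (p * w) / p)) *
      Complex.exp (Complex.I * (Real.pi * n / 2))) = (-1) ^ w := by
    rw [← Complex.exp_add, ← Complex.exp_add]
    have : (2 * Real.pi * Complex.I * ((-1 : ℤ) : ℂ) * (5 * (2 * n) / 48) +
        (Complex.I * (n * ((-(Real.pi / 6) : ℝ) : ℂ) / 2 + Real.pi * (p * w) / p) +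
        Complex.I * (Real.pi * n / 2))) = Complex.I * (Real.pi * (w : ℤ)) := by
      push_cast
      field_simp
      ring
    rw [this, exp_int_pi, zpow_natCast]
  calc (-1) ^ (h / 2 + Np p) *
      Complex.exp (2 * Real.pi * Complex.I * ((-1 : ℤ) : ℂ) * (5 * (2 * n) / 48)) *
      (Complex.exp (Complex.I * (n * ((-(Real.pi / 6) : ℝ) : ℂ) / 2 + Real.pi * (p * w) / p)) *
      Complex.exp (Complex.I * (Real.pi * n / 2)) * (P : ℂ))
      = (-1) ^ (h / 2 + Np p) *
      (Complex.exp (2 * Real.pi * Complex.I * ((-1 : ℤ) : ℂ) * (5 * (2 * n) / 48)) *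
      (Complex.exp (Complex.I * (n * ((-(Real.pi / 6) : ℝ) : ℂ) / 2 + Real.pi * (p * w) / p)) *
      Complex.exp (Complex.I * (Real.pi * n / 2)))) * (P : ℂ) := by ring
    _ = (-1) ^ (h / 2 + Np p) * (-1) ^ w * (P : ℂ) := by rw [key]
    _ = (((-1) ^ (h / 2 + w + Np p + A) * ((-1) ^ A * P) : ℝ) : ℂ) := by
      push_cast
      rw [← mul_assoc]
      congr 1
      rw [← pow_add, ← pow_add]
      have : h / 2 + w + Np p + A + A = h / 2 + Np p + w + 2 * A := by omega
      rw [this, pow_add _ _ (2 * A), pow_mul]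
      simp

end

end Pool.Agent.H76
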