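import Pool.Agent.H76.ZetaL
import Pool.Agent.H76.LOne

/-!
# The class number of `ℚ(√-p)` for `p = 3 mod 4`
-/

set_option autoImplicit false

open NumberField

namespace Pool.Agent.H76

noncomputable section

section roots

/-- counting roots of `y² - y + c` for odd `q` -/
lemma card_roots_one {q : ℕ} [Fact q.Prime] (hq : q ≠ 2) (c : ℤ) :
    (Nat.card {y : ZMod q // y ^ 2 - ((1 : ℤ) : ZMod q) * y + (c : ZMod q) = 0} : ℤ) =
      1 + legendreSym q (1 - 4 * c) := by
  classical
  have h2 : (2 : ZMod q) ≠ 0 := two_ne q hq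
  have h4 : (4 : ZMod q) ≠ 0 := by
    rw [show (4 : ZMod q) = 2 * 2 by norm_num]; exact mul_ne_zero h2 h2
  rw [add_comm, ← legendreSym.card_sqrts q hq (1 - 4 * c)]
  congr 1
  rw [Set.toFinset_card, ← Nat.card_eq_fintype_card]
  refine Nat.card_congr (Equiv.ofBijective
    (fun y => ⟨2 * y.1 - 1, ?_⟩) ⟨?_, ?_⟩)
  · have h := y.2
    push_cast at h ⊢
    simp only [Set.mem_ofPred_eq]
    push_cast
    linear_combination 4 * h
  · rintro ⟨y, hy⟩ ⟨z, hz⟩ h
    rw [Subtype.mk.injEq] at h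
    rw [Subtype.mk.injEq]
    have : 2 * y = 2 * z := by linear_combination h
    exact mul_left_cancel₀ h2 this
  · rintro ⟨z, hz⟩
    simp only [Set.mem_ofPred_eq] at hz
    push_cast at hz
    refine ⟨⟨(z + 1) / 2, ?_⟩, ?_⟩
    · push_cast
      field_simp
      linear_combination hz
    · rw [Subtype.mk.injEq]
      field_simp
      ring

/-- counting roots of `y² + c` for odd `q` -/
lemma card_roots_zero {q : ℕ} [Fact q.Prime] (hq : q ≠ 2) (c : ℤ) :
    (Nat.card {y : ZMod q // y ^ 2 - ((0 : ℤ) : ZMod q) * y + (c : ZMod q) = 0} : ℤ) =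
      1 + legendreSym q (-c) := by
  classical
  rw [add_comm, ← legendreSym.card_sqrts q hq (-c)]
  congr 1
  rw [Set.toFinset_card, ← Nat.card_eq_fintype_card]
  apply Nat.card_congr
  apply Equiv.subtypeEquivRight
  intro y
  simp only [Set.mem_ofPred_eq]
  push_cast
  constructor
  · intro h; linear_combination h
  · intro h; linear_combination h

lemma card_two_a : Nat.card {y : ZMod 2 // y ^ 2 - ((1 : ℤ) : ZMod 2) * y + 1 = 0} = 0 := by
  rw [Nat.card_eq_fintype_card]; decide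

lemma card_two_b : Nat.card {y : ZMod 2 // y ^ 2 - ((1 : ℤ) : ZMod 2) * y + 0 = 0} = 2 := by
  rw [Nat.card_eq_fintype_card]; decide

lemma card_two_c : Nat.card {y : ZMod 2 // y ^ 2 - ((0 : ℤ) : ZMod 2) * y + 1 = 0} = 1 := by
  rw [Nat.card_eq_fintype_card]; decide

end roots

section three

variable (p : ℕ) [hp : Fact p.Prime]

lemma qchi_nat (n : ℕ) : qchi p n = ((legendreSym p n : ℤ) : ℂ) := by
  rw [qchi_apply, legendreSym]; simp

lemma recip_three (h4 : p % 4 = 3) {q : ℕ} [Fact q.Prime] (hq : q ≠ 2) :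
    legendreSym q (-p) = legendreSym p q := by
  have hp2 : p ≠ 2 := by rintro rfl; omega
  have h1 := legendreSym.quadratic_reciprocity' (p := p) (q := q) hp2 hq
  have h2 : (-(p : ℤ)) = (-1) * (p : ℤ) := by ring
  rw [h2, legendreSym.mul, h1, legendreSym.at_neg_one hq, ZMod.χ₄_eq_neg_one_pow
    ((Nat.Prime.eq_two_or_odd (Fact.out : q.Prime)).resolve_left hq)]
  have hodd : Odd (p / 2) := by
    rw [Nat.odd_iff]; omega
  rw [pow_mul, hodd.neg_one_pow, ← mul_assoc, ← pow_add, ← two_mul, pow_mul]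
  simp

lemma roots_three (h4 : p % 4 = 3) (q : ℕ) (hq : q.Prime) :
    ((Nat.card {y : ZMod q // y ^ 2 - ((1 : ℤ) : ZMod q) * y +
      ((((p + 1) / 4 : ℕ) : ℤ) : ZMod q) = 0} : ℕ) : ℂ) = 1 + qchi p q := by
  have hp2 : p ≠ 2 := by rintro rfl; omega
  have : Fact q.Prime := ⟨hq⟩
  rw [qchi_nat]
  by_cases hq2 : q = 2
  · subst hq2
    have h8 : legendreSym p ((2 : ℕ) : ℤ) = ZMod.χ₈ p := legendreSym.at_two hp2
    rw [h8]
    have h5 : p % 8 = 3 ∨ p % 8 = 7 := by omega
    rcases h5 with h5 | h5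
    · have e1 : ZMod.χ₈ (p : ZMod 8) = -1 := by
        have : (p : ZMod 8) = ((3 : ℕ) : ZMod 8) := by
          rw [ZMod.natCast_eq_natCast_iff]; exact h5
        rw [this]; decide
      have e2 : ((((p + 1) / 4 : ℕ) : ℤ) : ZMod 2) = 1 := by
        have : ((((p + 1) / 4 : ℕ) : ℤ) : ZMod 2) = (((p + 1) / 4 : ℕ) : ZMod 2) :=
          Int.cast_natCast _
        rw [this]
        have h6 : ((p + 1) / 4) % 2 = 1 := by omega
        have : (((p + 1) / 4 : ℕ) : ZMod 2) = ((1 : ℕ) : ZMod 2) := by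
          rw [ZMod.natCast_eq_natCast_iff]; exact h6
        rw [this]; simp
      rw [e1, e2]
      rw [card_two_a]; simp
    · have e1 : ZMod.χ₈ (p : ZMod 8) = 1 := by
        have : (p : ZMod 8) = ((7 : ℕ) : ZMod 8) := by
          rw [ZMod.natCast_eq_natCast_iff]; exact h5
        rw [this]; decide
      have e2 : ((((p + 1) / 4 : ℕ) : ℤ) : ZMod 2) = 0 := by
        have : ((((p + 1) / 4 : ℕ) : ℤ) : ZMod 2) = (((p + 1) / 4 : ℕ) : ZMod 2) :=
          Int.cast_natCast _
        rw [this]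
        have h6 : ((p + 1) / 4) % 2 = 0 := by omega
        have : (((p + 1) / 4 : ℕ) : ZMod 2) = ((0 : ℕ) : ZMod 2) := by
          rw [ZMod.natCast_eq_natCast_iff]; exact h6
        rw [this]; simp
      rw [e1, e2]
      rw [card_two_b]; norm_num
  · have h1 := card_roots_one hq2 (((p + 1) / 4 : ℕ) : ℤ)
    have h2 : (1 : ℤ) - 4 * (((p + 1) / 4 : ℕ) : ℤ) = -p := by
      obtain ⟨m, hm⟩ : ∃ m, p = 4 * m + 3 := ⟨p / 4, by omega⟩
      have hm1 : (p + 1) / 4 = m + 1 := by omega
      rw [hm1, hm]; push_cast; ring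
    rw [h2, recip_three p h4 hq2] at h1
    have h3 := congrArg (Int.cast : ℤ → ℂ) h1
    rw [Int.cast_natCast, Int.cast_add] at h3
    rw [h3]
    congr 1
    exact Int.cast_one

lemma qchi_odd (h4 : p % 4 = 3) : (qchi p).Odd := by
  have hp2 : p ≠ 2 := by rintro rfl; omega
  unfold DirichletCharacter.Odd
  rw [qchi_apply, quadraticChar_neg_one (ringChar_ne p hp2), ZMod.card]
  rw [ZMod.χ₄_nat_three_mod_four h4]
  simp

lemma qchi_primitive (hp2 : p ≠ 2) : (qchi p).IsPrimitive := by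
  rw [DirichletCharacter.isPrimitive_def]
  have h1 := (qchi p).conductor_dvd_level
  rcases (Nat.dvd_prime hp.out).mp h1 with h | h
  · exact absurd (DirichletCharacter.eq_one_iff_conductor_eq_one.mpr h) (qchi_ne_one p hp2)
  · exact h

end three

section classnumber

variable {K : Type*} [Field K] [NumberField K] (hK : Module.finrank ℚ K = 2)
  (p : ℕ) [hp : Fact p.Prime] {α : K} (hα : α ^ 2 = -(p : K))

include hK hα

/-- Dirichlet's formula for `p = 3 mod 4`. -/
theorem classNumber_three (h4 : p % 4 = 3) (h3 : p ≠ 3) :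
    ∑ j : ZMod p, (j.val : ℂ) * qchi p j = -(p * classNumber K : ℂ) := by
  have hp2 : p ≠ 2 := by rintro rfl; omega
  have hp0 : (0 : ℝ) < p := by exact_mod_cast hp.out.pos
  obtain ⟨θ, b, hb0, hb1, hθ⟩ := quadGen_three hK hp.out hα h4
  obtain ⟨m, hm⟩ : ∃ m, p = 4 * m + 3 := ⟨p / 4, by omega⟩
  have hm1 : (p + 1) / 4 = m + 1 := by omega
  have hd : discr K = -(p : ℤ) := by
    rw [discr_gen hb0 hb1 hθ, hm1, hm]; push_cast; ring
  have hD : (4 : ℤ) < 4 * (((p + 1) / 4 : ℕ) : ℤ) - 1 ^ 2 := by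
    rw [hm1]; push_cast; omega
  have htor := torsionOrder_gen hb0 hb1 hθ hD
  have hres := residue_eq hK hp.out hα htor
  have hL := L_one_eq_residue hK (qchi p) (qchi_quadratic p) (qchi_ne_one p hp2)
    (fun q hq => by rw [idealCount_prime hb0 hb1 hθ hq]; exact roots_three p h4 q hq)
  rw [hres, hd] at hL
  have habs : |((-(p : ℤ) : ℤ) : ℝ)| = p := by
    push_cast; rw [abs_neg, abs_of_pos hp0]
  rw [habs] at hL
  have hG := L_one_quadratic (qchi p) (qchi_odd p h4) (qchi_primitive p hp2) (qchi_quadratic p)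
  rw [gaussSum_three_mod_four p h4, hL] at hG
  have hs : Real.sqrt p * (Real.pi * (classNumber K) / Real.sqrt p) =
      Real.pi * classNumber K := by
    have : Real.sqrt p ≠ 0 := (Real.sqrt_pos.mpr hp0).ne'
    field_simp
  have h5 : Complex.I * ((Real.sqrt p : ℝ) : ℂ) *
      ((Real.pi * (classNumber K) / Real.sqrt p : ℝ) : ℂ) =
      Complex.I * (Real.pi * classNumber K) := by
    rw [mul_assoc, ← Complex.ofReal_mul, hs]; push_cast; ring
  rw [h5] at hG
  have hI : Complex.I ≠ 0 := Complex.I_ne_zero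
  have hpi : (Real.pi : ℂ) ≠ 0 := by exact_mod_cast Real.pi_ne_zero
  have hpc : (p : ℂ) ≠ 0 := by exact_mod_cast hp.out.ne_zero
  have h6 : Complex.I * Real.pi * (∑ j : ZMod p, (j.val : ℂ) * qchi p j) =
      Complex.I * Real.pi * (-(p * classNumber K : ℂ)) := by
    field_simp at hG
    linear_combination (Complex.I * Real.pi) * hG
  exact mul_left_cancel₀ (mul_ne_zero hI hpi) h6

end classnumber

end

end Pool.Agent.H76
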