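import Pool.Agent.H76.QuadChar

/-!
# The class number of `ℚ(√-p)` for `p = 1 mod 4`
-/

set_option autoImplicit false

open NumberField

namespace Pool.Agent.H76

noncomputable section

section char

variable (p : ℕ) [hp : Fact p.Prime]

instance : NeZero (4 * p) := ⟨Nat.mul_ne_zero (by norm_num) hp.out.ne_zero⟩

/-- `χ₄` with complex values -/
def chiFourC : DirichletCharacter ℂ 4 := ZMod.χ₄.ringHomComp (Int.castRingHom ℂ)

lemma chiFourC_apply (a : ZMod 4) : chiFourC a = ((ZMod.χ₄ a : ℤ) : ℂ) := rfl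

/-- the character of `ℚ(√-p)` for `p = 1 mod 4` -/
def chiP : DirichletCharacter ℂ (4 * p) :=
  DirichletCharacter.changeLevel (dvd_mul_right 4 p) chiFourC *
    DirichletCharacter.changeLevel (dvd_mul_left p 4) (qchi p)

lemma chiFour_zero_of_even {a : ℤ} (h : (2 : ℤ) ∣ a) : ZMod.χ₄ (a : ZMod 4) = 0 := by
  rw [ZMod.χ₄_int_eq_if_mod_four, if_pos (Int.emod_eq_zero_of_dvd h)]

lemma chiP_int (hp2 : p ≠ 2) (a : ℤ) :
    chiP p (a : ZMod (4 * p)) = chiFourC (a : ZMod 4) * qchi p (a : ZMod p) := by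
  by_cases ha : IsCoprime a ((4 * p : ℕ) : ℤ)
  · unfold chiP
    rw [MulChar.coeToFun_mul, Pi.mul_apply, DirichletCharacter.changeLevel_eq_cast_of_dvd' _ _ ha,
      DirichletCharacter.changeLevel_eq_cast_of_dvd' _ _ ha]
  · have h1 : chiP p (a : ZMod (4 * p)) = 0 := by
      rw [DirichletCharacter.apply_eq_zero_iff]; exact ha
    rw [h1]
    have h2 : (2 : ℤ) ∣ a ∨ (p : ℤ) ∣ a := by
      by_contra hcon
      rw [not_or] at hcon
      apply ha
      push_cast
      apply IsCoprime.mul_right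
      · have : IsCoprime a 2 := by
          rw [isCoprime_comm, Prime.coprime_iff_not_dvd Int.prime_two]; exact hcon.1
        have h3 := this.pow_right (n := 2)
        norm_num at h3
        exact h3
      · rw [isCoprime_comm, Prime.coprime_iff_not_dvd (Nat.prime_iff_prime_int.mp hp.out)]
        exact hcon.2
    rcases h2 with h2 | h2
    · rw [chiFourC_apply, chiFour_zero_of_even h2]; simp
    · have : (a : ZMod p) = 0 := (ZMod.intCast_zmod_eq_zero_iff_dvd a p).mpr h2
      rw [this, qchi_apply]; simp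

lemma chiP_quadratic (hp2 : p ≠ 2) : (chiP p).IsQuadratic := by
  intro a
  obtain ⟨n, rfl⟩ := ZMod.intCast_surjective a
  rw [chiP_int p hp2]
  have h1 : chiFourC (n : ZMod 4) = 0 ∨ chiFourC (n : ZMod 4) = 1 ∨ chiFourC (n : ZMod 4) = -1 := by
    rw [chiFourC_apply]
    rcases ZMod.isQuadratic_χ₄ (n : ZMod 4) with h | h | h <;> rw [h] <;> simp
  rcases h1 with h1 | h1 | h1 <;> rcases qchi_quadratic p (n : ZMod p) with h2 | h2 | h2 <;>
    rw [h1, h2] <;> simp

lemma chiP_odd (hp1 : p % 4 = 1) : (chiP p).Odd := by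
  have hp2 : p ≠ 2 := by rintro rfl; omega
  have h := chiP_int p hp2 (-1)
  push_cast at h
  unfold DirichletCharacter.Odd
  rw [h, chiFourC_apply, qchi_apply, quadraticChar_neg_one (ringChar_ne p hp2), ZMod.card,
    ZMod.χ₄_nat_one_mod_four hp1]
  have : ZMod.χ₄ (-1 : ZMod 4) = -1 := by decide
  rw [this]; simp

lemma chiP_ne_one (hp1 : p % 4 = 1) : chiP p ≠ 1 := by
  intro h
  have h2 := chiP_odd p hp1
  unfold DirichletCharacter.Odd at h2
  rw [h, MulChar.one_apply (by simp)] at h2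
  norm_num at h2

lemma not_factors (d : ℕ) (hd : d ∣ 4 * p) (a : ℤ) (ha : IsCoprime a ((4 * p : ℕ) : ℤ))
    (had : (d : ℤ) ∣ a - 1) (hχ : chiP p (a : ZMod (4 * p)) = -1) :
    ¬ (chiP p).FactorsThrough d := by
  intro h
  have h1 := h.eq_changeLevel
  rw [h1, DirichletCharacter.changeLevel_eq_cast_of_dvd' _ _ ha] at hχ
  have h2 : (a : ZMod d) = 1 := by
    have := (ZMod.intCast_eq_intCast_iff_dvd_sub 1 a d).mpr had
    rw [← this]; simp
  rw [h2, map_one] at hχ
  norm_num at hχ

lemma chiP_primitive (hp1 : p % 4 = 1) : (chiP p).IsPrimitive := by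
  have hp2 : p ≠ 2 := by rintro rfl; omega
  rw [DirichletCharacter.isPrimitive_def]
  by_contra hne
  have hdvd := (chiP p).conductor_dvd_level
  -- the conductor divides `2p` or `4`
  have hcase : (chiP p).conductor ∣ 2 * p ∨ (chiP p).conductor ∣ 4 := by
    obtain ⟨e, he⟩ := hdvd
    have he1 : e ≠ 1 := by
      rintro rfl
      rw [mul_one] at he
      exact hne he.symm
    obtain ⟨l, hl, hle⟩ := Nat.exists_prime_and_dvd he1
    have hl2 : l ∣ 4 * p := by rw [he]; exact dvd_mul_of_dvd_right hle _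
    obtain ⟨f, hf⟩ := hle
    rcases (Nat.Prime.dvd_mul hl).mp hl2 with h | h
    · have hl2 : l = 2 := by
        have : l ∣ 2 ^ 2 := by norm_num; exact h
        exact (Nat.prime_dvd_prime_iff_eq hl Nat.prime_two).mp (hl.dvd_of_dvd_pow this)
      left
      refine ⟨f, ?_⟩
      rw [hf, hl2] at he
      have : 2 * (2 * p) = 2 * ((chiP p).conductor * f) := by
        calc 2 * (2 * p) = 4 * p := by ring
          _ = _ := he
          _ = _ := by ring
      exact Nat.eq_of_mul_eq_mul_left two_pos this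
    · have hlp : l = p := (Nat.prime_dvd_prime_iff_eq hl hp.out).mp h
      right
      refine ⟨f, ?_⟩
      rw [hf, hlp] at he
      have : p * 4 = p * ((chiP p).conductor * f) := by
        calc p * 4 = 4 * p := by ring
          _ = _ := he
          _ = _ := by ring
      exact Nat.eq_of_mul_eq_mul_left hp.out.pos this
  have hfac := (chiP p).factorsThrough_conductor
  obtain ⟨m, hm⟩ : ∃ m, p = 4 * m + 1 := ⟨p / 4, by omega⟩
  rcases hcase with h | h
  · -- `a = 1 + 2p`
    have ha : IsCoprime (1 + 2 * p : ℤ) ((4 * p : ℕ) : ℤ) := by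
      push_cast
      refine ⟨1 - 2 * p, p, ?_⟩
      ring
    have hχ : chiP p ((1 + 2 * p : ℤ) : ZMod (4 * p)) = -1 := by
      rw [chiP_int p hp2]
      have e1 : ((1 + 2 * p : ℤ) : ZMod p) = 1 := by push_cast; simp
      have e2 : ((1 + 2 * p : ℤ) : ZMod 4) = 3 := by
        rw [hm]; push_cast
        have : (4 : ZMod 4) = 0 := by decide
        linear_combination (2 * (m : ZMod 4)) * this
      rw [e1, e2, chiFourC_apply, map_one, mul_one]
      have : ZMod.χ₄ (3 : ZMod 4) = -1 := by decide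
      rw [this]; simp
    refine not_factors p _ ?_ (1 + 2 * p) ha ?_ hχ hfac
    · exact (chiP p).conductor_dvd_level
    · have : ((chiP p).conductor : ℤ) ∣ ((2 * p : ℕ) : ℤ) := Int.natCast_dvd_natCast.mpr h
      push_cast at this
      have e : (1 + 2 * p - 1 : ℤ) = 2 * p := by ring
      rw [e]; exact this
  · obtain ⟨x, hx⟩ := quadraticChar_exists_neg_one (ringChar_ne p hp2)
    have hcop : Nat.Coprime 4 p := by
      have : Nat.Coprime 2 p := by
        rw [Nat.coprime_primes Nat.prime_two hp.out]; exact fun h => hp2 h.symm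
      exact Nat.Coprime.pow_left 2 this
    obtain ⟨k, hk1, hk2⟩ := Nat.chineseRemainder hcop 1 x.val
    have e1 : ((k : ℤ) : ZMod p) = x := by
      have := (ZMod.natCast_eq_natCast_iff k x.val p).mpr hk2
      rw [Int.cast_natCast, this, ZMod.natCast_zmod_val]
    have e2 : ((k : ℤ) : ZMod 4) = 1 := by
      have := (ZMod.natCast_eq_natCast_iff k 1 4).mpr hk1
      rw [Int.cast_natCast, this]; simp
    have hχ : chiP p ((k : ℤ) : ZMod (4 * p)) = -1 := by
      rw [chiP_int p hp2, e1, e2, qchi_apply, hx, map_one]; simp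
    have ha : IsCoprime (k : ℤ) ((4 * p : ℕ) : ℤ) := by
      by_contra hcon
      have := (DirichletCharacter.apply_eq_zero_iff (chiP p) (k : ℤ)).mpr hcon
      rw [this] at hχ
      norm_num at hχ
    refine not_factors p _ ?_ k ha ?_ hχ hfac
    · exact (chiP p).conductor_dvd_level
    · have h1 : (4 : ℤ) ∣ (k : ℤ) - 1 := by
        have := (Nat.modEq_iff_dvd.mp hk1.symm)
        simpa using this
      have h2 : ((chiP p).conductor : ℤ) ∣ ((4 : ℕ) : ℤ) := Int.natCast_dvd_natCast.mpr h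
      exact dvd_trans h2 h1

lemma recip_one (h4 : p % 4 = 1) {q : ℕ} [Fact q.Prime] (hq : q ≠ 2) :
    legendreSym q (-p) = ZMod.χ₄ (q : ZMod 4) * legendreSym p q := by
  have hp2 : p ≠ 2 := by rintro rfl; omega
  have h1 := legendreSym.quadratic_reciprocity' (p := p) (q := q) hp2 hq
  have h2 : (-(p : ℤ)) = (-1) * (p : ℤ) := by ring
  rw [h2, legendreSym.mul, h1, legendreSym.at_neg_one hq]
  have heven : Even (p / 2) := by
    rw [Nat.even_iff]; omega
  rw [pow_mul, heven.neg_one_pow, one_pow, one_mul]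

lemma roots_one (h4 : p % 4 = 1) (q : ℕ) (hq : q.Prime) :
    ((Nat.card {y : ZMod q // y ^ 2 - ((0 : ℤ) : ZMod q) * y +
      (((p : ℕ) : ℤ) : ZMod q) = 0} : ℕ) : ℂ) = 1 + chiP p q := by
  have hp2 : p ≠ 2 := by rintro rfl; omega
  have : Fact q.Prime := ⟨hq⟩
  have e0 : chiP p (q : ZMod (4 * p)) = ((ZMod.χ₄ (q : ZMod 4) * legendreSym p q : ℤ) : ℂ) := by
    have := chiP_int p hp2 q
    rw [Int.cast_natCast, Int.cast_natCast, Int.cast_natCast, qchi_nat, chiFourC_apply] at this
    rw [this]; push_cast; ring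
  rw [e0]
  by_cases hq2 : q = 2
  · subst hq2
    have e1 : ZMod.χ₄ ((2 : ℕ) : ZMod 4) = 0 := by decide
    have e2 : ((((p : ℕ) : ℤ)) : ZMod 2) = 1 := by
      have : ((((p : ℕ) : ℤ)) : ZMod 2) = ((p : ℕ) : ZMod 2) := Int.cast_natCast _
      rw [this]
      have h6 : p % 2 = 1 := by omega
      have : ((p : ℕ) : ZMod 2) = ((1 : ℕ) : ZMod 2) := by
        rw [ZMod.natCast_eq_natCast_iff]; exact h6
      rw [this]; simp
    rw [e1, e2, card_two_c]; simp
  · have h1 := card_roots_zero hq2 (p : ℤ)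
    rw [recip_one p h4 hq2] at h1
    have h3 := congrArg (Int.cast : ℤ → ℂ) h1
    rw [Int.cast_natCast, Int.cast_add] at h3
    rw [h3]
    congr 1
    exact Int.cast_one

end char

section classnumber

variable {K : Type*} [Field K] [NumberField K] (hK : Module.finrank ℚ K = 2)
  (p : ℕ) [hp : Fact p.Prime] {α : K} (hα : α ^ 2 = -(p : K))

include hK hα

/-- Dirichlet's formula (up to sign) for `p = 1 mod 4`. -/
theorem classNumber_one (h4 : p % 4 = 1) :
    (∑ j : ZMod (4 * p), (j.val : ℂ) * chiP p j) ^ 2 = (4 * p * classNumber K : ℂ) ^ 2 := by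
  have hp2 : p ≠ 2 := by rintro rfl; omega
  have hp0 : (0 : ℝ) < p := by exact_mod_cast hp.out.pos
  obtain ⟨θ, b, hb0, hb1, hθ⟩ := quadGen_one hK hp.out hα h4
  have hd : discr K = -(4 * p : ℤ) := by
    rw [discr_gen hb0 hb1 hθ]; ring
  have hD : (4 : ℤ) < 4 * ((p : ℕ) : ℤ) - 0 ^ 2 := by
    have := hp.out.two_le
    omega
  have htor := torsionOrder_gen hb0 hb1 hθ hD
  have hres := residue_eq hK hp.out hα htor
  have hL := L_one_eq_residue hK (chiP p) (chiP_quadratic p hp2) (chiP_ne_one p h4)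
    (fun q hq => by rw [idealCount_prime hb0 hb1 hθ hq]; exact roots_one p h4 q hq)
  rw [hres, hd] at hL
  have habs : |((-(4 * p : ℤ) : ℤ) : ℝ)| = 4 * p := by
    push_cast; rw [abs_neg, abs_of_pos (by positivity)]
  rw [habs] at hL
  have hG := L_one_quadratic (chiP p) (chiP_odd p h4) (chiP_primitive p h4) (chiP_quadratic p hp2)
  have hG2 := gaussSum_sq_odd (chiP p) (chiP_odd p h4) (chiP_primitive p h4)
    (chiP_quadratic p hp2)
  have hG3 := congrArg (fun z => z ^ 2) hG
  beta_reduce at hG3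
  rw [mul_pow, hG2, hL] at hG3
  have hs : (Real.pi * (classNumber K) / Real.sqrt (4 * p)) ^ 2 =
      (Real.pi * classNumber K) ^ 2 / (4 * p) := by
    rw [div_pow, Real.sq_sqrt (by positivity)]
  rw [← Complex.ofReal_pow, hs] at hG3
  push_cast at hG3
  have hpi : (Real.pi : ℂ) ≠ 0 := by exact_mod_cast Real.pi_ne_zero
  have hpc : (p : ℂ) ≠ 0 := by exact_mod_cast hp.out.ne_zero
  have h6 : (Real.pi : ℂ) ^ 2 * (∑ j : ZMod (4 * p), (j.val : ℂ) * chiP p j) ^ 2 =
      (Real.pi : ℂ) ^ 2 * (4 * p * classNumber K : ℂ) ^ 2 := by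
    rw [mul_pow (-(Complex.I * Real.pi / (4 * p : ℂ)))] at hG3
    have e : (-(Complex.I * Real.pi / (4 * p : ℂ))) ^ 2 = - (Real.pi ^ 2 / (4 * p) ^ 2) := by
      rw [neg_sq, div_pow, mul_pow, Complex.I_sq]; ring
    rw [e] at hG3
    field_simp at hG3
    linear_combination (Real.pi : ℂ) ^ 2 * hG3
  exact mul_left_cancel₀ (pow_ne_zero 2 hpi) h6

end classnumber

end

end Pool.Agent.H76
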