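import Pool.Agent.H76.IdealCount

/-!
# Imaginary quadratic fields containing `√(-p)`
-/

set_option autoImplicit false

open NumberField Ideal

namespace Pool.Agent.H76

noncomputable section

variable {K : Type*} [Field K] [NumberField K]

section structure1

variable (hK : Module.finrank ℚ K = 2) {p : ℕ} (hp : p.Prime) {α : K} (hα : α ^ 2 = -(p : K))

include hp hα

lemma linInd : LinearIndependent ℚ ![(1 : K), α] := by
  rw [LinearIndependent.pair_iff]
  intro s t hst
  rw [Algebra.smul_def, Algebra.smul_def, mul_one] at hst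
  have hp0 : (0 : ℚ) < p := by exact_mod_cast hp.pos
  have ht : t = 0 := by
    by_contra ht
    have h1 : algebraMap ℚ K t * α = -algebraMap ℚ K s := by linear_combination hst
    have h2 : algebraMap ℚ K (t ^ 2 * (-p)) = algebraMap ℚ K (s ^ 2) := by
      rw [map_mul, map_pow, map_neg, map_natCast, ← hα, map_pow]
      linear_combination (algebraMap ℚ K t * α - algebraMap ℚ K s) * h1
    have h3 := (algebraMap ℚ K).injective h2
    have : 0 < t ^ 2 * p := by positivity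
    nlinarith [sq_nonneg s]
  subst ht
  simp at hst
  exact ⟨hst, rfl⟩

include hK

/-- the basis `1, √(-p)` -/
def baseQ : Module.Basis (Fin 2) ℚ K :=
  basisOfLinearIndependentOfCardEqFinrank (linInd hp hα) (by simp [hK])

lemma baseQ_zero : baseQ hK hp hα 0 = 1 := by simp [baseQ]
lemma baseQ_one : baseQ hK hp hα 1 = α := by simp [baseQ]

lemma exists_uv (x : K) : ∃ u v : ℚ, x = algebraMap ℚ K u + algebraMap ℚ K v * α := by
  refine ⟨(baseQ hK hp hα).repr x 0, (baseQ hK hp hα).repr x 1, ?_⟩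
  have h := (baseQ hK hp hα).sum_repr x
  rw [Fin.sum_univ_two, baseQ_zero, baseQ_one, Algebra.smul_def, Algebra.smul_def, mul_one] at h
  exact h.symm

lemma leftMul_uv (u v : ℚ) :
    Algebra.leftMulMatrix (baseQ hK hp hα) (algebraMap ℚ K u + algebraMap ℚ K v * α) =
      !![u, -p * v; v, u] := by
  have hr : ∀ a b : ℚ, (baseQ hK hp hα).repr (algebraMap ℚ K a + algebraMap ℚ K b * α) =
      Finsupp.single 0 a + Finsupp.single 1 b := by
    intro a b
    have : algebraMap ℚ K a + algebraMap ℚ K b * α =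
        a • baseQ hK hp hα 0 + b • baseQ hK hp hα 1 := by
      rw [baseQ_zero, baseQ_one, Algebra.smul_def, Algebra.smul_def, mul_one]
    rw [this, map_add, map_smul, map_smul, Module.Basis.repr_self, Module.Basis.repr_self]
    simp
  ext i j
  rw [Algebra.leftMulMatrix_eq_repr_mul]
  fin_cases j
  · have e : (algebraMap ℚ K u + algebraMap ℚ K v * α) * baseQ hK hp hα ⟨0, by norm_num⟩ =
        algebraMap ℚ K u + algebraMap ℚ K v * α := by
      have := baseQ_zero hK hp hα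
      rw [show (⟨0, by norm_num⟩ : Fin 2) = 0 from rfl, this, mul_one]
    rw [e, hr]
    fin_cases i <;> simp
  · have e : (algebraMap ℚ K u + algebraMap ℚ K v * α) * baseQ hK hp hα ⟨1, by norm_num⟩ =
        algebraMap ℚ K (-p * v) + algebraMap ℚ K u * α := by
      have := baseQ_one hK hp hα
      rw [show (⟨1, by norm_num⟩ : Fin 2) = 1 from rfl, this]
      push_cast [map_mul, map_neg, map_natCast]
      linear_combination (algebraMap ℚ K v) * hα
    rw [e, hr]
    fin_cases i <;> simp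

lemma trace_uv (u v : ℚ) :
    Algebra.trace ℚ K (algebraMap ℚ K u + algebraMap ℚ K v * α) = 2 * u := by
  rw [Algebra.trace_eq_matrix_trace (baseQ hK hp hα), leftMul_uv, Matrix.trace_fin_two]
  simp; ring

lemma norm_uv (u v : ℚ) :
    Algebra.norm ℚ (algebraMap ℚ K u + algebraMap ℚ K v * α) = u ^ 2 + p * v ^ 2 := by
  rw [Algebra.norm_eq_matrix_det (baseQ hK hp hα), leftMul_uv, Matrix.det_fin_two]
  simp; ring

/-- integral elements -/
lemma exists_TW (x : 𝓞 K) : ∃ T W N : ℤ, T ^ 2 + p * W ^ 2 = 4 * N ∧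
    2 * algebraMap (𝓞 K) K x = (T : K) + (W : K) * α := by
  obtain ⟨u, v, huv⟩ := exists_uv hK hp hα (algebraMap (𝓞 K) K x)
  have hT : ∃ T : ℤ, (T : ℚ) = 2 * u := by
    refine ⟨Algebra.trace ℤ (𝓞 K) x, ?_⟩
    rw [Algebra.coe_trace_int, ← trace_uv hK hp hα u v, ← huv]
  have hN : ∃ N : ℤ, (N : ℚ) = u ^ 2 + p * v ^ 2 := by
    refine ⟨Algebra.norm ℤ x, ?_⟩
    rw [Algebra.coe_norm_int, ← norm_uv hK hp hα u v, ← huv]
  obtain ⟨T, hT⟩ := hT
  obtain ⟨N, hN⟩ := hN
  have hp0 : (p : ℚ) ≠ 0 := by exact_mod_cast hp.ne_zero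
  have hz : ∃ z : ℤ, (z : ℚ) = p * (2 * v) := by
    have h1 : (p * (2 * v)) ^ 2 = algebraMap ℤ ℚ (p * (4 * N - T ^ 2)) := by
      push_cast [map_mul]
      simp
      rw [hT, hN]; ring
    have h2 : IsIntegral ℤ ((p * (2 * v)) ^ 2) := by rw [h1]; exact isIntegral_algebraMap
    obtain ⟨z, hz⟩ := IsIntegrallyClosed.exists_algebraMap_eq_of_isIntegral_pow
      (R := ℤ) (K := ℚ) (n := 2) (by norm_num) h2
    exact ⟨z, by simpa using hz⟩
  obtain ⟨z, hz⟩ := hz
  have hz2 : z ^ 2 = p * (4 * N - T ^ 2) := by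
    have : (z : ℚ) ^ 2 = p * (4 * N - T ^ 2) := by rw [hz, hT, hN]; ring
    exact_mod_cast this
  have hpz : (p : ℤ) ∣ z := by
    have h1 : (p : ℤ) ∣ z ^ 2 := ⟨_, hz2⟩
    exact (Nat.prime_iff_prime_int.mp hp).dvd_of_dvd_pow h1
  obtain ⟨W, hW⟩ := hpz
  have hW2 : (W : ℚ) = 2 * v := by
    rw [hW] at hz
    push_cast at hz
    exact mul_left_cancel₀ hp0 hz
  refine ⟨T, W, N, ?_, ?_⟩
  · have : (T : ℚ) ^ 2 + p * W ^ 2 = 4 * N := by rw [hT, hN, hW2]; ring
    exact_mod_cast this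
  · rw [huv]
    have e1 : (T : K) = algebraMap ℚ K (2 * u) := by rw [← hT]; simp
    have e2 : (W : K) = algebraMap ℚ K (2 * v) := by rw [← hW2]; simp
    rw [e1, e2]
    push_cast [map_mul]
    simp
    ring

omit hK in
lemma mk_basis (θ : 𝓞 K) (c d : ℤ) (hd : d ≠ 0) (h : (d : K) * algebraMap (𝓞 K) K θ = c + α)
    (hspan : ∀ x : 𝓞 K, ∃ a b : ℤ, x = a + b * θ) :
    ∃ b : Module.Basis (Fin 2) ℤ (𝓞 K), b 0 = 1 ∧ b 1 = θ := by
  have hli : LinearIndependent ℤ ![(1 : 𝓞 K), θ] := by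
    rw [LinearIndependent.pair_iff]
    intro s t hst
    rw [zsmul_eq_mul, zsmul_eq_mul, mul_one] at hst
    have h1 : (s : K) + (t : K) * algebraMap (𝓞 K) K θ = 0 := by
      have := congrArg (algebraMap (𝓞 K) K) hst
      simpa using this
    have h2 : ((s * d + t * c : ℤ) : ℚ) • (1 : K) + ((t : ℤ) : ℚ) • α = 0 := by
      rw [Algebra.smul_def, Algebra.smul_def, mul_one]
      rw [map_intCast, map_intCast]
      push_cast
      linear_combination (d : K) * h1 - (t : K) * h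
    have h3 := (LinearIndependent.pair_iff.mp (linInd hp hα)) ((s * d + t * c : ℤ) : ℚ)
      ((t : ℤ) : ℚ) h2
    have ht : t = 0 := Int.cast_eq_zero.mp h3.2
    have hs : s * d + t * c = 0 := Int.cast_eq_zero.mp h3.1
    subst ht
    simp [hd] at hs
    exact ⟨hs, rfl⟩
  have hsp : ⊤ ≤ Submodule.span ℤ (Set.range ![(1 : 𝓞 K), θ]) := by
    intro x _
    obtain ⟨a, b, hab⟩ := hspan x
    rw [Matrix.range_cons, Matrix.range_cons, Matrix.range_empty, Set.union_empty,
      Set.singleton_union, Submodule.mem_span_pair]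
    exact ⟨a, b, by rw [hab]; simp⟩
  exact ⟨Module.Basis.mk hli hsp, by simp, by simp⟩

/-- data of a generator -/
def QuadGen (K : Type*) [Field K] [NumberField K] (t n : ℤ) : Prop :=
  ∃ (θ : 𝓞 K) (b : Module.Basis (Fin 2) ℤ (𝓞 K)), b 0 = 1 ∧ b 1 = θ ∧ θ ^ 2 = t * θ - n

lemma quadGen_three (h4 : p % 4 = 3) : QuadGen K 1 (((p + 1) / 4 : ℕ) : ℤ) := by
  obtain ⟨m, hm⟩ : ∃ m, p = 4 * m + 3 := ⟨p / 4, by omega⟩
  have hm1 : (p + 1) / 4 = m + 1 := by omega
  have hpK : (p : K) = 4 * m + 3 := by rw [hm]; push_cast; ring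
  have hpZ : (p : ℤ) = 4 * m + 3 := by rw [hm]; push_cast; ring
  rw [hm1]
  have h2 : (2 : K) ≠ 0 := two_ne_zero
  have hθ2 : ((1 + α) / 2) ^ 2 - (1 + α) / 2 + (m + 1) = 0 := by
    linear_combination (1 / 4 : K) * hα - (1 / 4 : K) * hpK
  have hint : IsIntegral ℤ ((1 + α) / 2) := by
    refine ⟨Polynomial.X ^ 2 - Polynomial.X + Polynomial.C ((m : ℤ) + 1), ?_, ?_⟩
    · monicity!
    · simp
      linear_combination hθ2
  let θ : 𝓞 K := ⟨(1 + α) / 2, hint⟩
  have hθ : algebraMap (𝓞 K) K θ = (1 + α) / 2 := rfl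
  have hspan : ∀ x : 𝓞 K, ∃ a b : ℤ, x = a + b * θ := by
    intro x
    obtain ⟨T, W, N, h1, h3⟩ := exists_TW hK hp hα x
    have hpar : ∃ c : ℤ, T = W + 2 * c := by
      rw [hpZ] at h1
      have h5 : (T + W) * (T - W) = 4 * (N - (m + 1) * W ^ 2) := by linear_combination h1
      have h6 : (2 : ℤ) ∣ (T + W) * (T - W) := ⟨2 * (N - (m + 1) * W ^ 2), by rw [h5]; ring⟩
      rcases (Int.prime_two.dvd_or_dvd h6) with ⟨c, hc⟩ | ⟨c, hc⟩
      · exact ⟨c - W, by linear_combination hc⟩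
      · exact ⟨c, by linear_combination hc⟩
    obtain ⟨c, hc⟩ := hpar
    refine ⟨c, W, ?_⟩
    apply RingOfIntegers.coe_injective
    rw [hc] at h3
    push_cast at h3
    simp only [map_add, map_mul, map_intCast]
    rw [hθ]
    apply mul_left_cancel₀ h2
    rw [h3]
    field_simp
    ring
  obtain ⟨b, hb0, hb1⟩ := mk_basis hp hα θ 1 2 (by norm_num)
    (by rw [hθ]; push_cast; field_simp) hspan
  refine ⟨θ, b, hb0, hb1, ?_⟩
  apply RingOfIntegers.coe_injective
  simp only [map_sub, map_mul, map_pow, map_intCast]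
  rw [hθ]
  push_cast
  linear_combination hθ2

lemma quadGen_one (h4 : p % 4 = 1) : QuadGen K 0 (p : ℤ) := by
  obtain ⟨m, hm⟩ : ∃ m, p = 4 * m + 1 := ⟨p / 4, by omega⟩
  have hpZ : (p : ℤ) = 4 * m + 1 := by rw [hm]; push_cast; ring
  have hint : IsIntegral ℤ α := by
    refine ⟨Polynomial.X ^ 2 + Polynomial.C (p : ℤ), ?_, ?_⟩
    · monicity!
    · simp
      linear_combination hα
  let θ : 𝓞 K := ⟨α, hint⟩
  have hθ : algebraMap (𝓞 K) K θ = α := rfl
  have h2 : (2 : K) ≠ 0 := two_ne_zero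
  have hspan : ∀ x : 𝓞 K, ∃ a b : ℤ, x = a + b * θ := by
    intro x
    obtain ⟨T, W, N, h1, h3⟩ := exists_TW hK hp hα x
    have hpar : (∃ c : ℤ, T = 2 * c) ∧ ∃ d : ℤ, W = 2 * d := by
      rw [hpZ] at h1
      rcases Int.even_or_odd' T with ⟨c, hc | hc⟩ <;> rcases Int.even_or_odd' W with ⟨d, hd | hd⟩
      · exact ⟨⟨c, hc⟩, ⟨d, hd⟩⟩
      · exfalso
        rw [hc, hd] at h1
        ring_nf at h1
        omega
      · exfalso
        rw [hc, hd] at h1
        ring_nf at h1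
        omega
      · exfalso
        rw [hc, hd] at h1
        ring_nf at h1
        omega
    obtain ⟨⟨c, hc⟩, ⟨d, hd⟩⟩ := hpar
    refine ⟨c, d, ?_⟩
    apply RingOfIntegers.coe_injective
    rw [hc, hd] at h3
    push_cast at h3
    simp only [map_add, map_mul, map_intCast]
    rw [hθ]
    apply mul_left_cancel₀ h2
    rw [h3]
    ring
  obtain ⟨b, hb0, hb1⟩ := mk_basis hp hα θ 0 1 (by norm_num)
    (by rw [hθ]; push_cast; ring) hspan
  refine ⟨θ, b, hb0, hb1, ?_⟩
  apply RingOfIntegers.coe_injective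
  simp only [map_sub, map_mul, map_pow, map_intCast]
  rw [hθ]
  push_cast
  linear_combination hα

end structure1

end

end Pool.Agent.H76
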