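import Pool.Agent.H76.QuadField

/-!
# Discriminant, units and primes in imaginary quadratic fields
-/

set_option autoImplicit false

open NumberField Ideal

namespace Pool.Agent.H76

noncomputable section

variable {K : Type*} [Field K] [NumberField K]

section gen

variable {t n : ℤ} {θ : 𝓞 K} {b : Module.Basis (Fin 2) ℤ (𝓞 K)} (hb0 : b 0 = 1) (hb1 : b 1 = θ)
  (hθ : θ ^ 2 = t * θ - n)

include hb0 hb1

lemma exists_ab (x : 𝓞 K) : ∃ a c : ℤ, x = a + c * θ := by
  refine ⟨b.repr x 0, b.repr x 1, ?_⟩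
  have h := b.sum_repr x
  rw [Fin.sum_univ_two, hb0, hb1, zsmul_eq_mul, zsmul_eq_mul, mul_one] at h
  exact h.symm

include hθ

lemma leftMul_ab (a c : ℤ) :
    Algebra.leftMulMatrix b ((a : 𝓞 K) + c * θ) = !![a, -c * n; c, a + c * t] := by
  have hr : ∀ a c : ℤ, b.repr ((a : 𝓞 K) + c * θ) =
      Finsupp.single 0 a + Finsupp.single 1 c := by
    intro a c
    have : (a : 𝓞 K) + c * θ = a • b 0 + c • b 1 := by
      rw [hb0, hb1, zsmul_eq_mul, zsmul_eq_mul, mul_one]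
    rw [this, map_add, map_smul, map_smul, Module.Basis.repr_self, Module.Basis.repr_self]
    simp
  ext i j
  rw [Algebra.leftMulMatrix_eq_repr_mul]
  fin_cases j
  · have e : ((a : 𝓞 K) + c * θ) * b ⟨0, by norm_num⟩ = (a : 𝓞 K) + c * θ := by
      rw [show (⟨0, by norm_num⟩ : Fin 2) = 0 from rfl, hb0, mul_one]
    rw [e, hr]
    fin_cases i <;> simp
  · have e : ((a : 𝓞 K) + c * θ) * b ⟨1, by norm_num⟩ =
        ((-c * n : ℤ) : 𝓞 K) + ((a + c * t : ℤ) : 𝓞 K) * θ := by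
      rw [show (⟨1, by norm_num⟩ : Fin 2) = 1 from rfl, hb1]
      push_cast
      linear_combination (c : 𝓞 K) * hθ
    rw [e, hr]
    fin_cases i <;> simp

lemma trace_ab (a c : ℤ) : Algebra.trace ℤ (𝓞 K) ((a : 𝓞 K) + c * θ) = 2 * a + c * t := by
  rw [Algebra.trace_eq_matrix_trace b, leftMul_ab hb0 hb1 hθ, Matrix.trace_fin_two]
  simp; ring

lemma norm_ab (a c : ℤ) : Algebra.norm ℤ ((a : 𝓞 K) + c * θ) = a ^ 2 + a * c * t + c ^ 2 * n := by
  rw [Algebra.norm_eq_matrix_det b, leftMul_ab hb0 hb1 hθ, Matrix.det_fin_two]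
  simp; ring

lemma discr_gen : discr K = t ^ 2 - 4 * n := by
  rw [← NumberField.discr_eq_discr K b, Algebra.discr_def, Matrix.det_fin_two]
  simp only [Algebra.traceMatrix_apply, Algebra.traceForm_apply, hb0, hb1]
  have h1 : Algebra.trace ℤ (𝓞 K) (1 * 1) = 2 := by
    have := trace_ab hb0 hb1 hθ 1 0
    simpa using this
  have h2 : Algebra.trace ℤ (𝓞 K) (1 * θ) = t := by
    have := trace_ab hb0 hb1 hθ 0 1
    simpa using this
  have h3 : Algebra.trace ℤ (𝓞 K) (θ * 1) = t := by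
    have := trace_ab hb0 hb1 hθ 0 1
    simpa using this
  have h4 : Algebra.trace ℤ (𝓞 K) (θ * θ) = t * t - 2 * n := by
    have := trace_ab hb0 hb1 hθ (-n) t
    rw [show θ * θ = ((-n : ℤ) : 𝓞 K) + (t : 𝓞 K) * θ by push_cast; linear_combination hθ, this]
    ring
  rw [h1, h2, h3, h4]
  ring

lemma unit_eq (hD : 4 < 4 * n - t ^ 2) (u : (𝓞 K)ˣ) : u = 1 ∨ u = -1 := by
  obtain ⟨a, c, hac⟩ := exists_ab hb0 hb1 (u : 𝓞 K)
  have h1 : IsUnit (Algebra.norm ℤ (u : 𝓞 K)) := u.isUnit.map _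
  rw [hac, norm_ab hb0 hb1 hθ, Int.isUnit_iff] at h1
  have h2 : (2 * a + c * t) ^ 2 + (4 * n - t ^ 2) * c ^ 2 ≤ 4 := by
    rcases h1 with h1 | h1
    · nlinarith
    · nlinarith
  have hc : c = 0 := by
    by_contra hc
    have : 1 ≤ c ^ 2 := by
      have : 0 < c ^ 2 := by positivity
      omega
    nlinarith [sq_nonneg (2 * a + c * t)]
  subst hc
  have ha : a = 1 ∨ a = -1 := by
    have h3 : a ^ 2 ≤ 1 := by nlinarith
    have h4 : a ≠ 0 := by
      rintro rfl
      simp at h1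
    have h5 : a ≤ 1 := by nlinarith
    have h6 : -1 ≤ a := by nlinarith
    omega
  rcases ha with ha | ha
  · left; ext; rw [hac, ha]; simp
  · right; ext; rw [hac, ha]; simp

lemma torsionOrder_gen (hD : 4 < 4 * n - t ^ 2) : Units.torsionOrder K = 2 := by
  have h1 : ∀ x : Units.torsion K, x = 1 ∨ x = ⟨-1, neg_one_mem_torsion⟩ := by
    rintro ⟨x, hx⟩
    rcases unit_eq hb0 hb1 hθ hD x with h | h
    · left; exact Subtype.ext h
    · right; exact Subtype.ext h
  have hne : (1 : Units.torsion K) ≠ ⟨-1, neg_one_mem_torsion⟩ := by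
    intro h
    have h2 := congrArg (fun x : Units.torsion K => ((x : (𝓞 K)ˣ) : 𝓞 K)) h
    simp at h2
    have h3 : (2 : 𝓞 K) = 0 := by linear_combination h2
    exact two_ne_zero h3
  unfold Units.torsionOrder
  rw [Nat.card_eq_two_iff]
  refine ⟨1, ⟨-1, neg_one_mem_torsion⟩, hne, ?_⟩
  ext x
  simp only [Set.mem_insert_iff, Set.mem_singleton_iff, Set.mem_univ, iff_true]
  exact h1 x

omit hθ in
/-- the power basis -/
def pb (hb0 : b 0 = 1) (hb1 : b 1 = θ) : PowerBasis ℤ (𝓞 K) where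
  gen := θ
  dim := 2
  basis := b
  basis_eq_pow := by
    intro i
    fin_cases i
    · simp [hb0]
    · simp [hb1]

lemma minpoly_gen : minpoly ℤ θ =
    Polynomial.X ^ 2 - Polynomial.C t * Polynomial.X + Polynomial.C n := by
  have h1 : minpoly ℤ θ ∣ Polynomial.X ^ 2 - Polynomial.C t * Polynomial.X + Polynomial.C n := by
    apply minpoly.isIntegrallyClosed_dvd (RingOfIntegers.isIntegral θ)
    simp
    linear_combination hθ
  have h2 : (Polynomial.X ^ 2 - Polynomial.C t * Polynomial.X + Polynomial.C n).Monic := by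
    monicity!
  have h3 : (Polynomial.X ^ 2 - Polynomial.C t * Polynomial.X + Polynomial.C n).natDegree = 2 := by
    compute_degree!
  have h4 : (minpoly ℤ θ).natDegree = 2 := (pb hb0 hb1).natDegree_minpoly
  exact (Polynomial.eq_of_monic_of_dvd_of_natDegree_le
    (minpoly.monic (RingOfIntegers.isIntegral θ)) h2 h1 (by rw [h3, h4])).symm

lemma idealCount_prime {q : ℕ} (hq : q.Prime) :
    idealCount K q = Nat.card {y : ZMod q // y ^ 2 - t * y + n = 0} := by
  have : Fact q.Prime := ⟨hq⟩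
  have e1 : Nat.card {y : ZMod q // y ^ 2 - t * y + n = 0} =
      Nat.card {y : ZMod q // Polynomial.aeval y (minpoly ℤ (pb hb0 hb1).gen) = 0} := by
    apply Nat.card_congr
    apply Equiv.subtypeEquivRight
    intro y
    have : (pb hb0 hb1).gen = θ := rfl
    rw [this, minpoly_gen hb0 hb1 hθ]
    simp
  rw [e1, ← Nat.card_congr (pb hb0 hb1).liftEquiv]
  unfold idealCount
  symm
  refine Nat.card_congr (Equiv.ofBijective
    (fun φ : 𝓞 K →ₐ[ℤ] ZMod q => ⟨RingHom.ker φ, ?_⟩) ⟨?_, ?_⟩)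
  · have hs : Function.Surjective φ := fun y => ⟨((y.val : ℕ) : 𝓞 K), by
      rw [map_natCast, ZMod.natCast_zmod_val]⟩
    have e := RingHom.quotientKerEquivOfSurjective (f := (φ : 𝓞 K →+* ZMod q)) hs
    have : absNorm (RingHom.ker φ) = Nat.card (𝓞 K ⧸ RingHom.ker (φ : 𝓞 K →+* ZMod q)) := rfl
    rw [this, Nat.card_congr e.toEquiv, Nat.card_zmod]
  · intro φ ψ h
    rw [Subtype.mk.injEq] at h
    ext x
    have h1 : x - ((φ x).val : 𝓞 K) ∈ RingHom.ker φ := by
      rw [RingHom.mem_ker, map_sub, map_natCast, ZMod.natCast_zmod_val, sub_self]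
    rw [h, RingHom.mem_ker, map_sub, map_natCast, ZMod.natCast_zmod_val] at h1
    exact (sub_eq_zero.mp h1).symm
  · rintro ⟨I, hI⟩
    have hcard : Nat.card (𝓞 K ⧸ I) = q := hI
    have : Finite (𝓞 K ⧸ I) := Nat.finite_of_card_ne_zero (by rw [hcard]; exact hq.ne_zero)
    have : Fintype (𝓞 K ⧸ I) := Fintype.ofFinite _
    have hc2 : Fintype.card (𝓞 K ⧸ I) = q := by rw [← Nat.card_eq_fintype_card]; exact hcard
    let e := ZMod.ringEquivOfPrime (𝓞 K ⧸ I) hq hc2
    let f : 𝓞 K →+* ZMod q := (e.symm : (𝓞 K ⧸ I) →+* ZMod q).comp (Ideal.Quotient.mk I)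
    let φ : 𝓞 K →ₐ[ℤ] ZMod q := f.toIntAlgHom
    refine ⟨φ, ?_⟩
    rw [Subtype.mk.injEq]
    ext x
    rw [RingHom.mem_ker]
    change e.symm (Ideal.Quotient.mk I x) = 0 ↔ _
    rw [EmbeddingLike.map_eq_zero_iff, Ideal.Quotient.eq_zero_iff_mem]

end gen

end

end Pool.Agent.H76
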