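import Mathlib

/-!
# The value at `s = 1` of the sine zeta function

`sinZeta a 1 = π (1/2 - a)` for `0 < a < 1`.
-/

set_option autoImplicit false

open Filter Topology Finset

namespace Pool.Agent.H76

noncomputable section

/-- summation by parts -/
lemma sum_parts (b w : ℕ → ℝ) (N : ℕ) :
    ∑ n ∈ range N, b n * w n =
      ∑ n ∈ range N, (∑ k ∈ range (n + 1), b k) * (w n - w (n + 1)) +
        (∑ k ∈ range N, b k) * w N := by
  induction N with
  | zero => simp
  | succ N ih =>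
    rw [sum_range_succ, ih, sum_range_succ (fun n =>
      (∑ k ∈ range (n + 1), b k) * (w n - w (n + 1))), sum_range_succ b]
    ring

/-- the weights -/
def wt (s : ℝ) (n : ℕ) : ℝ := ((n : ℝ) + 1) ^ (-s)

lemma wt_nonneg (s : ℝ) (n : ℕ) : 0 ≤ wt s n := by
  unfold wt; positivity

lemma wt_one (n : ℕ) : wt 1 n = 1 / ((n : ℝ) + 1) := by
  unfold wt
  rw [Real.rpow_neg (by positivity), Real.rpow_one, one_div]

lemma wt_le {s : ℝ} (hs : 1 ≤ s) (n : ℕ) : wt s n ≤ 1 / ((n : ℝ) + 1) := by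
  rw [← wt_one]
  unfold wt
  apply Real.rpow_le_rpow_of_exponent_le
  · have : (0 : ℝ) ≤ n := Nat.cast_nonneg n
    linarith
  · linarith

lemma wt_tendsto {s : ℝ} (hs : 0 < s) : Tendsto (wt s) atTop (𝓝 0) := by
  unfold wt
  have h := (tendsto_rpow_neg_atTop hs).comp
    (tendsto_atTop_add_const_right atTop (1 : ℝ) tendsto_natCast_atTop_atTop)
  exact h

lemma wt_diff {s : ℝ} (hs : 1 ≤ s) (hs2 : s ≤ 2) (n : ℕ) :
    |wt s n - wt s (n + 1)| ≤ 2 * (1 / ((n : ℝ) + 1) ^ 2) := by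
  have hn : (0 : ℝ) < (n : ℝ) + 1 := by positivity
  obtain ⟨x, hx⟩ : ∃ x : ℝ, x = 1 / ((n : ℝ) + 1) := ⟨_, rfl⟩
  have hx0 : 0 < x := by rw [hx]; positivity
  have h1 : wt s (n + 1) = wt s n * (1 + x) ^ (-s) := by
    unfold wt
    rw [← Real.mul_rpow (by positivity) (by positivity)]
    congr 1
    rw [hx]; push_cast; field_simp
  have h2 : 1 - 2 * x ≤ (1 + x) ^ (-s) := by
    have h3 : (1 + x) ^ (-(2 : ℝ)) ≤ (1 + x) ^ (-s) :=
      Real.rpow_le_rpow_of_exponent_le (by linarith) (by linarith)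
    have h4 : (1 + x) ^ (-(2 : ℝ)) = ((1 + x) ^ 2)⁻¹ := by
      rw [Real.rpow_neg (by positivity)]
      norm_cast
    have h5 : 1 - 2 * x ≤ ((1 + x) ^ 2)⁻¹ := by
      have : (1 - 2 * x) * (1 + x) ^ 2 ≤ 1 := by nlinarith [pow_pos hx0 2, pow_pos hx0 3]
      rw [← one_div, le_div_iff₀ (by positivity)]
      exact this
    rw [h4] at h3
    linarith
  have h3 : (1 + x) ^ (-s) ≤ 1 := Real.rpow_le_one_of_one_le_of_nonpos (by linarith) (by linarith)
  have h4 : wt s n ≤ x := hx ▸ wt_le hs n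
  have h5 := wt_nonneg s n
  have h6 : 2 * (1 / ((n : ℝ) + 1) ^ 2) = 2 * x ^ 2 := by rw [hx]; field_simp
  rw [h6, h1, abs_of_nonneg (by nlinarith)]
  nlinarith

/-- The Abel-summed series. -/
def abelS (b : ℕ → ℝ) (s : ℝ) : ℝ :=
  ∑' n, (∑ k ∈ range (n + 1), b k) * (wt s n - wt s (n + 1))

lemma summable_inv_sq : Summable fun n : ℕ => 1 / ((n : ℝ) + 1) ^ 2 := by
  have h := (summable_nat_add_iff 1).mpr (Real.summable_one_div_nat_pow.mpr (one_lt_two))
  exact_mod_cast h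

lemma term_bound {b : ℕ → ℝ} {C : ℝ} (hb : ∀ n, |∑ k ∈ range n, b k| ≤ C) {s : ℝ} (hs : 1 ≤ s)
    (hs2 : s ≤ 2) (n : ℕ) :
    ‖(∑ k ∈ range (n + 1), b k) * (wt s n - wt s (n + 1))‖ ≤
      C * (2 * (1 / ((n : ℝ) + 1) ^ 2)) := by
  rw [norm_mul, Real.norm_eq_abs, Real.norm_eq_abs]
  have hC : 0 ≤ C := (abs_nonneg _).trans (hb 0)
  exact mul_le_mul (hb _) (wt_diff hs hs2 n) (abs_nonneg _) hC

lemma summable_term {b : ℕ → ℝ} {C : ℝ} (hb : ∀ n, |∑ k ∈ range n, b k| ≤ C) {s : ℝ} (hs : 1 ≤ s)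
    (hs2 : s ≤ 2) :
    Summable fun n => (∑ k ∈ range (n + 1), b k) * (wt s n - wt s (n + 1)) :=
  Summable.of_norm_bounded ((summable_inv_sq.mul_left 2).mul_left C) (term_bound hb hs hs2)

lemma abelS_continuous {b : ℕ → ℝ} {C : ℝ} (hb : ∀ n, |∑ k ∈ range n, b k| ≤ C) :
    Tendsto (abelS b) (𝓝[>] 1) (𝓝 (abelS b 1)) := by
  unfold abelS
  refine tendsto_tsum_of_dominated_convergence ((summable_inv_sq.mul_left 2).mul_left C) ?_ ?_
  · intro n
    have h : ∀ m : ℕ, Tendsto (fun s : ℝ => wt s m) (𝓝[>] 1) (𝓝 (wt 1 m)) := by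
      intro m
      unfold wt
      have : Continuous fun s : ℝ => ((m : ℝ) + 1) ^ (-s) :=
        Continuous.rpow continuous_const continuous_neg (fun s => Or.inl (by positivity))
      exact (this.tendsto 1).mono_left nhdsWithin_le_nhds
    exact tendsto_const_nhds.mul ((h n).sub (h (n + 1)))
  · have h2 : ∀ᶠ s : ℝ in 𝓝[>] 1, s ≤ 2 :=
      (eventually_le_nhds (by norm_num : (1 : ℝ) < 2)).filter_mono nhdsWithin_le_nhds
    filter_upwards [h2, self_mem_nhdsWithin] with s hs2 hs n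
    exact term_bound hb (le_of_lt hs) hs2 n

lemma partial_tendsto {b : ℕ → ℝ} {C : ℝ} (hb : ∀ n, |∑ k ∈ range n, b k| ≤ C) {s : ℝ}
    (hs : 1 ≤ s) (hs2 : s ≤ 2) :
    Tendsto (fun N => ∑ n ∈ range N, b n * wt s n) atTop (𝓝 (abelS b s)) := by
  have h1 := (summable_term hb hs hs2).hasSum.tendsto_sum_nat
  have h2 : Tendsto (fun N => (∑ k ∈ range N, b k) * wt s N) atTop (𝓝 0) := by
    have h3 : Tendsto (fun N => C * wt s N) atTop (𝓝 0) := by
      simpa using (wt_tendsto (by linarith : (0:ℝ) < s)).const_mul C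
    refine squeeze_zero_norm (fun N => ?_) h3
    rw [norm_mul, Real.norm_eq_abs, Real.norm_eq_abs, abs_of_nonneg (wt_nonneg s N)]
    exact mul_le_mul_of_nonneg_right (hb N) (wt_nonneg s N)
  have h3 := h1.add h2
  rw [add_zero] at h3
  refine h3.congr fun N => ?_
  exact (sum_parts b (wt s) N).symm

lemma geom_bound {z : ℂ} (hz : ‖z‖ = 1) (hz1 : z ≠ 1) (N : ℕ) :
    ‖∑ n ∈ range N, z ^ (n + 1)‖ ≤ 2 / ‖z - 1‖ := by
  have h : ∑ n ∈ range N, z ^ (n + 1) = z * ((z ^ N - 1) / (z - 1)) := by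
    rw [← geom_sum_eq hz1, mul_sum]
    exact sum_congr rfl fun n _ => by ring
  rw [h, norm_mul, hz, one_mul, norm_div]
  gcongr
  calc ‖z ^ N - 1‖ ≤ ‖z ^ N‖ + ‖(1 : ℂ)‖ := norm_sub_le _ _
    _ = 2 := by rw [norm_pow, hz]; norm_num

/-- `e(a) = exp(2 π i a)` -/
def ee (a : ℝ) : ℂ := Complex.exp (2 * Real.pi * a * Complex.I)

lemma ee_norm (a : ℝ) : ‖ee a‖ = 1 := by
  unfold ee
  rw [show (2 * Real.pi * a * Complex.I : ℂ) = ((2 * Real.pi * a : ℝ) : ℂ) * Complex.I by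
    push_cast; ring]
  exact Complex.norm_exp_ofReal_mul_I _

lemma one_sub_ee (a : ℝ) :
    1 - ee a = ((2 * Real.sin (Real.pi * a) : ℝ) : ℂ) *
      (Complex.cos ((Real.pi * a - Real.pi / 2 : ℝ)) +
        Complex.sin ((Real.pi * a - Real.pi / 2 : ℝ)) * Complex.I) := by
  have h1 : ee a = ((Real.cos (2 * (Real.pi * a)) : ℝ) : ℂ) +
      ((Real.sin (2 * (Real.pi * a)) : ℝ) : ℂ) * Complex.I := by
    unfold ee
    rw [show (2 * Real.pi * a * Complex.I : ℂ) = ((2 * (Real.pi * a) : ℝ) : ℂ) * Complex.I by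
      push_cast; ring, Complex.exp_mul_I, ← Complex.ofReal_cos, ← Complex.ofReal_sin]
  rw [h1, ← Complex.ofReal_cos, ← Complex.ofReal_sin, Real.cos_sub_pi_div_two,
    Real.sin_sub_pi_div_two, Real.cos_two_mul, Real.sin_two_mul]
  have h2 := Real.sin_sq_add_cos_sq (Real.pi * a)
  apply Complex.ext
  · simp only [Complex.sub_re, Complex.one_re, Complex.add_re, Complex.ofReal_re, Complex.mul_re,
      Complex.I_re, Complex.ofReal_im, Complex.I_im, Complex.mul_im, Complex.add_im]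
    nlinarith
  · simp only [Complex.sub_im, Complex.one_im, Complex.add_im, Complex.ofReal_re, Complex.mul_im,
      Complex.I_re, Complex.ofReal_im, Complex.I_im, Complex.mul_re, Complex.add_re]
    ring

lemma sin_pos_of {a : ℝ} (h0 : 0 < a) (h1 : a < 1) : 0 < Real.sin (Real.pi * a) := by
  apply Real.sin_pos_of_pos_of_lt_pi
  · exact mul_pos Real.pi_pos h0
  · nlinarith [Real.pi_pos]

lemma arg_one_sub_ee {a : ℝ} (h0 : 0 < a) (h1 : a < 1) :
    Complex.arg (1 - ee a) = Real.pi * a - Real.pi / 2 := by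
  rw [one_sub_ee]
  apply Complex.arg_mul_cos_add_sin_mul_I
  · exact mul_pos two_pos (sin_pos_of h0 h1)
  · constructor <;> nlinarith [Real.pi_pos]

lemma ee_ne_one {a : ℝ} (h0 : 0 < a) (h1 : a < 1) : ee a ≠ 1 := by
  intro h
  have h2 := arg_one_sub_ee h0 h1
  have h3 := one_sub_ee a
  rw [h, sub_self] at h3
  have h4 := congrArg (fun z => ‖z‖) h3
  simp only [norm_zero, norm_mul, Complex.norm_real, Real.norm_eq_abs, ← Complex.exp_mul_I,
    Complex.norm_exp_ofReal_mul_I, mul_one] at h4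
  have h5 := sin_pos_of h0 h1
  have h6 : 0 < |2 * Real.sin (Real.pi * a)| := abs_pos.mpr (by linarith [h5])
  rw [abs_mul, abs_two] at h6
  simp only [abs_mul, abs_two] at h4
  linarith

lemma im_ee_pow (a : ℝ) (n : ℕ) : ((ee a) ^ n).im = Real.sin (2 * Real.pi * a * n) := by
  unfold ee
  rw [← Complex.exp_nat_mul, show ((n : ℂ) * (2 * Real.pi * a * Complex.I)) =
    ((2 * Real.pi * a * n : ℝ) : ℂ) * Complex.I by push_cast; ring, Complex.exp_ofReal_mul_I_im]

theorem sinZeta_one {a : ℝ} (h0 : 0 < a) (h1 : a < 1) :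
    HurwitzZeta.sinZeta (a : UnitAddCircle) 1 = ((Real.pi * (1 / 2 - a) : ℝ) : ℂ) := by
  set b : ℕ → ℝ := fun n => Real.sin (2 * Real.pi * a * (n + 1 : ℕ)) with hb
  have hne := ee_ne_one h0 h1
  -- bounded partial sums
  have hbd : ∀ n, |∑ k ∈ range n, b k| ≤ 2 / ‖ee a - 1‖ := by
    intro n
    have h : ∑ k ∈ range n, b k = (∑ k ∈ range n, (ee a) ^ (k + 1)).im := by
      rw [Complex.im_sum]
      exact sum_congr rfl fun k _ => (im_ee_pow a (k + 1)).symm
    rw [h]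
    exact (Complex.abs_im_le_norm _).trans (geom_bound (ee_norm a) hne n)
  -- value for s > 1
  have hval : ∀ s : ℝ, 1 < s → s ≤ 2 →
      HurwitzZeta.sinZeta (a : UnitAddCircle) (s : ℂ) = ((abelS b s : ℝ) : ℂ) := by
    intro s hs hs2
    have h2 := HurwitzZeta.hasSum_nat_sinZeta a (s := (s : ℂ)) (by simpa using hs)
    have h3 := (hasSum_nat_add_iff' 1).mpr h2
    simp only [sum_range_one, Nat.cast_zero, mul_zero, Real.sin_zero, Complex.ofReal_zero,
      zero_div, sub_zero] at h3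
    have h4 := h3.tendsto_sum_nat
    have h5 := (Complex.continuous_ofReal.tendsto _).comp (partial_tendsto hbd hs.le hs2)
    refine tendsto_nhds_unique h4 (h5.congr fun N => ?_)
    simp only [Function.comp]
    rw [Complex.ofReal_sum]
    refine sum_congr rfl fun n _ => ?_
    rw [Complex.ofReal_mul, hb, wt, Complex.ofReal_cpow (by positivity), div_eq_mul_inv,
      ← Complex.cpow_neg]
    push_cast
    ring_nf
  -- limit s → 1+
  have hlim1 : Tendsto (fun s : ℝ => HurwitzZeta.sinZeta (a : UnitAddCircle) (s : ℂ)) (𝓝[>] 1)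
      (𝓝 (HurwitzZeta.sinZeta (a : UnitAddCircle) 1)) := by
    have hc : Continuous fun s : ℝ => HurwitzZeta.sinZeta (a : UnitAddCircle) (s : ℂ) :=
      (HurwitzZeta.differentiableAt_sinZeta _).continuous.comp Complex.continuous_ofReal
    have := (hc.tendsto 1).mono_left (nhdsWithin_le_nhds (s := Set.Ioi 1))
    simpa using this
  have hlim2 : Tendsto (fun s : ℝ => HurwitzZeta.sinZeta (a : UnitAddCircle) (s : ℂ)) (𝓝[>] 1)
      (𝓝 ((abelS b 1 : ℝ) : ℂ)) := by
    have h := (Complex.continuous_ofReal.tendsto _).comp (abelS_continuous hbd)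
    refine h.congr' ?_
    have h2 : ∀ᶠ s : ℝ in 𝓝[>] 1, s ≤ 2 :=
      (eventually_le_nhds (by norm_num : (1 : ℝ) < 2)).filter_mono nhdsWithin_le_nhds
    filter_upwards [h2, self_mem_nhdsWithin] with s hs2 hs
    exact (hval s hs hs2).symm
  rw [tendsto_nhds_unique hlim1 hlim2]
  congr 1
  -- Abel's limit theorem
  have hps : Tendsto (fun N => ∑ n ∈ range N, b n / ((n : ℝ) + 1)) atTop (𝓝 (abelS b 1)) := by
    refine (partial_tendsto hbd le_rfl one_le_two).congr fun N => ?_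
    refine sum_congr rfl fun n _ => ?_
    rw [wt_one, mul_one_div]
  have habel := Real.tendsto_tsum_powerSeries_nhdsWithin_lt hps
  have habel2 : Tendsto (fun x : ℝ => x * ∑' n, b n / ((n : ℝ) + 1) * x ^ n) (𝓝[<] 1)
      (𝓝 (abelS b 1)) := by
    have hx : Tendsto (fun x : ℝ => x) (𝓝[<] 1) (𝓝 1) := tendsto_id.mono_left nhdsWithin_le_nhds
    simpa using hx.mul habel
  have hlog : ∀ x : ℝ, 0 < x → x < 1 →
      x * ∑' n, b n / ((n : ℝ) + 1) * x ^ n = -(Complex.arg (1 - x * ee a)) := by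
    intro x hx0 hx1
    have hn : ‖(x : ℂ) * ee a‖ < 1 := by
      rw [norm_mul, ee_norm, mul_one, Complex.norm_real, Real.norm_eq_abs, abs_of_pos hx0]
      exact hx1
    have h2 := Complex.hasSum_taylorSeries_neg_log hn
    have h3 := (hasSum_nat_add_iff' 1).mpr h2
    simp only [sum_range_one, pow_zero, Nat.cast_zero, div_zero, sub_zero] at h3
    have h4 := Complex.hasSum_im h3
    rw [Complex.neg_im, Complex.log_im] at h4
    rw [← h4.tsum_eq, ← tsum_mul_left]
    refine tsum_congr fun n => ?_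
    rw [mul_pow, ← Complex.ofReal_pow, mul_div_assoc, Complex.im_ofReal_mul,
      show ((n + 1 : ℕ) : ℂ) = (((n + 1 : ℕ) : ℝ) : ℂ) by push_cast; rfl, Complex.div_ofReal_im,
      im_ee_pow, hb]
    push_cast
    ring
  have hlim3 : Tendsto (fun x : ℝ => -(Complex.arg (1 - (x : ℂ) * ee a))) (𝓝[<] 1)
      (𝓝 (-(Complex.arg (1 - ee a)))) := by
    have hslit : (1 - ee a) ∈ Complex.slitPlane := by
      rw [Complex.mem_slitPlane_iff_arg]
      constructor
      · rw [arg_one_sub_ee h0 h1]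
        nlinarith [Real.pi_pos]
      · exact sub_ne_zero.mpr hne.symm
    have hc : ContinuousAt (fun x : ℝ => -(Complex.arg (1 - (x : ℂ) * ee a))) 1 := by
      apply ContinuousAt.neg
      apply ContinuousAt.comp (g := Complex.arg)
      · simpa using Complex.continuousAt_arg hslit
      · fun_prop
    have := hc.tendsto.mono_left (nhdsWithin_le_nhds (s := Set.Iio 1))
    simpa using this
  have hlim4 : Tendsto (fun x : ℝ => x * ∑' n, b n / ((n : ℝ) + 1) * x ^ n) (𝓝[<] 1)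
      (𝓝 (-(Complex.arg (1 - ee a)))) := by
    refine hlim3.congr' ?_
    have h2 : ∀ᶠ x : ℝ in 𝓝[<] 1, 0 < x :=
      (eventually_gt_nhds (by norm_num : (0 : ℝ) < 1)).filter_mono nhdsWithin_le_nhds
    filter_upwards [h2, self_mem_nhdsWithin] with x hx0 hx1
    exact (hlog x hx0 hx1).symm
  rw [tendsto_nhds_unique habel2 hlim4, arg_one_sub_ee h0 h1]
  ring

end

end Pool.Agent.H76
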