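import Pool.Agent.H76.QuadZeta

/-!
# Class number formula for imaginary quadratic fields containing `√(-p)`
-/

set_option autoImplicit false

open NumberField Ideal

namespace Pool.Agent.H76

noncomputable section

variable {K : Type*} [Field K] [NumberField K]

/-- the count at prime powers -/
lemma idealCount_prime_pow (hK : Module.finrank ℚ K = 2) {q : ℕ} (hq : q.Prime) (c : ℂ)
    (hc : c = 0 ∨ c = 1 ∨ c = -1) (h : (idealCount K q : ℂ) = 1 + c) (k : ℕ) :
    (idealCount K (q ^ k) : ℂ) = ∑ i ∈ Finset.range (k + 1), c ^ i := by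
  rcases hc with rfl | rfl | rfl
  · have h1 : idealCount K q = 1 := by
      have : (idealCount K q : ℂ) = ((1 : ℕ) : ℂ) := by rw [h]; simp
      exact_mod_cast this
    unfold idealCount at h1
    rw [Nat.card_eq_one_iff_exists] at h1
    obtain ⟨⟨P, hP⟩, hu⟩ := h1
    rw [idealCount_ram hK hq hP (fun Q hQ => congrArg Subtype.val (hu ⟨Q, hQ⟩))]
    rw [Finset.sum_range_succ']
    simp
  · have h1 : idealCount K q = 2 := by
      have : (idealCount K q : ℂ) = ((2 : ℕ) : ℂ) := by rw [h]; norm_num
      exact_mod_cast this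
    unfold idealCount at h1
    rw [Nat.card_eq_two_iff] at h1
    obtain ⟨⟨P, hP⟩, ⟨Q, hQ⟩, hne, -⟩ := h1
    rw [idealCount_split hK hq hP hQ (fun h => hne (Subtype.ext h))]
    simp
  · have h1 : idealCount K q = 0 := by
      have : (idealCount K q : ℂ) = ((0 : ℕ) : ℂ) := by rw [h]; simp
      exact_mod_cast this
    have h2 : ∀ Q : Ideal (𝓞 K), absNorm Q ≠ q := by
      intro Q hQ
      unfold idealCount at h1
      rw [Nat.card_eq_zero] at h1
      rcases h1 with h1 | h1
      · exact h1.elim ⟨Q, hQ⟩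
      · exact (not_finite_iff_infinite.mpr h1) (Ideal.finite_setOfPred_absNorm_eq q).to_subtype
    rw [idealCount_inert hK hq h2, neg_one_geom_sum]
    by_cases hk : Even k
    · rw [if_pos hk, if_neg (by rw [Nat.not_even_iff_odd]; exact hk.add_one)]
      simp
    · rw [if_neg hk, if_pos (by rw [Nat.not_even_iff_odd] at hk; exact hk.add_one)]
      simp

variable {N : ℕ} [NeZero N]

theorem idealCount_eq_zetaMul (hK : Module.finrank ℚ K = 2) (χ : DirichletCharacter ℂ N)
    (hquad : χ.IsQuadratic)
    (hroots : ∀ q : ℕ, q.Prime → (idealCount K q : ℂ) = 1 + χ q) {n : ℕ} (hn : n ≠ 0) :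
    (idealCount K n : ℂ) = χ.zetaMul n := by
  let g : ArithmeticFunction ℂ := ⟨fun n => if n = 0 then 0 else (idealCount K n : ℂ), by simp⟩
  have hg : g.IsMultiplicative := by
    refine ArithmeticFunction.IsMultiplicative.iff_ne_zero.mpr ⟨?_, ?_⟩
    · change (if (1 : ℕ) = 0 then (0 : ℂ) else (idealCount K 1 : ℂ)) = 1
      rw [if_neg one_ne_zero, idealCount_one]; simp
    · intro m n hm hn hmn
      change (if m * n = 0 then (0 : ℂ) else (idealCount K (m * n) : ℂ)) =
        (if m = 0 then (0 : ℂ) else (idealCount K m : ℂ)) *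
        (if n = 0 then (0 : ℂ) else (idealCount K n : ℂ))
      rw [if_neg hm, if_neg hn, if_neg (Nat.mul_ne_zero hm hn),
        idealCount_mul (Nat.pos_of_ne_zero hm) (Nat.pos_of_ne_zero hn) hmn]
      push_cast; ring
  have h1 : g = χ.zetaMul := by
    rw [ArithmeticFunction.IsMultiplicative.eq_iff_eq_on_prime_powers g hg _
      χ.isMultiplicative_zetaMul]
    intro q k hq
    have e1 : g (q ^ k) = (idealCount K (q ^ k) : ℂ) := by
      change (if q ^ k = 0 then (0 : ℂ) else (idealCount K (q ^ k) : ℂ)) = _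
      rw [if_neg (pow_ne_zero _ hq.ne_zero)]
    rw [e1, idealCount_prime_pow hK hq (χ q) (hquad q) (hroots q hq) k]
    rw [DirichletCharacter.zetaMul, ArithmeticFunction.coe_zeta_mul_apply,
      Nat.sum_divisors_prime_pow hq]
    refine Finset.sum_congr rfl fun i _ => ?_
    change _ = if q ^ i = 0 then (0 : ℂ) else χ ((q ^ i : ℕ) : ZMod N)
    rw [if_neg (pow_ne_zero _ hq.ne_zero), Nat.cast_pow, map_pow]
  rw [← h1]
  change _ = (if n = 0 then (0 : ℂ) else (idealCount K n : ℂ))
  rw [if_neg hn]

theorem dedekindZeta_eq (hK : Module.finrank ℚ K = 2) (χ : DirichletCharacter ℂ N)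
    (hquad : χ.IsQuadratic)
    (hroots : ∀ q : ℕ, q.Prime → (idealCount K q : ℂ) = 1 + χ q) {s : ℂ} (hs : 1 < s.re) :
    dedekindZeta K s = riemannZeta s * χ.LFunction s := by
  have h1 : dedekindZeta K s = LSeries χ.zetaMul s := by
    unfold dedekindZeta
    refine LSeries_congr (fun {n} hn => ?_) s
    exact idealCount_eq_zetaMul hK χ hquad hroots hn
  rw [h1, DirichletCharacter.zetaMul, ← ArithmeticFunction.coe_mul, LSeries_convolution']
  · rw [χ.LFunction_eq_LSeries hs]
    congr 1
    · simp_rw [← ArithmeticFunction.LSeries_zeta_eq_riemannZeta hs, ← ArithmeticFunction.natCoe_apply]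
    · exact LSeries_congr (fun {n} hn => (χ.apply_eq_toArithmeticFunction_apply hn).symm) s
  · exact ArithmeticFunction.LSeriesSummable_zeta_iff.mpr hs
  · exact (LSeriesSummable_congr _ fun h ↦
      (χ.apply_eq_toArithmeticFunction_apply h).symm).mpr <|
      ZMod.LSeriesSummable_of_one_lt_re χ hs

open Filter Topology in
theorem L_one_eq_residue (hK : Module.finrank ℚ K = 2) (χ : DirichletCharacter ℂ N)
    (hquad : χ.IsQuadratic) (hne : χ ≠ 1)
    (hroots : ∀ q : ℕ, q.Prime → (idealCount K q : ℂ) = 1 + χ q) :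
    χ.LFunction 1 = (dedekindZeta_residue K : ℝ) := by
  have h1 := tendsto_sub_one_mul_dedekindZeta_nhdsGT K
  have h2 : Tendsto (fun s : ℝ => ((s : ℂ) - 1) * dedekindZeta K s) (𝓝[>] 1)
      (𝓝 (1 * χ.LFunction 1)) := by
    have h3 : Tendsto (fun s : ℝ => (((s : ℂ) - 1) * riemannZeta s) * χ.LFunction s) (𝓝[>] 1)
        (𝓝 (1 * χ.LFunction 1)) := by
      apply Tendsto.mul
      · have h4 := riemannZeta_residue_one
        refine h4.comp ?_
        rw [tendsto_nhdsWithin_iff]
        refine ⟨?_, ?_⟩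
        · have : Tendsto (fun s : ℝ => (s : ℂ)) (𝓝 1) (𝓝 ((1 : ℝ) : ℂ)) :=
            Complex.continuous_ofReal.tendsto 1
          rw [Complex.ofReal_one] at this
          exact this.mono_left nhdsWithin_le_nhds
        · filter_upwards [self_mem_nhdsWithin] with s hs
          have : (1 : ℝ) < s := hs
          simp only [Set.mem_compl_iff, Set.mem_singleton_iff]
          intro h
          have : s = 1 := by exact_mod_cast h
          linarith
      · have h5 : Tendsto χ.LFunction (𝓝 1) (𝓝 (χ.LFunction 1)) :=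
          (χ.differentiableAt_LFunction 1 (.inr hne)).continuousAt.tendsto
        have : Tendsto (fun s : ℝ => (s : ℂ)) (𝓝 1) (𝓝 ((1 : ℝ) : ℂ)) :=
          Complex.continuous_ofReal.tendsto 1
        rw [Complex.ofReal_one] at this
        exact h5.comp (this.mono_left nhdsWithin_le_nhds)
    refine h3.congr' ?_
    filter_upwards [self_mem_nhdsWithin] with s hs
    have hs' : (1 : ℝ) < s := hs
    rw [dedekindZeta_eq hK χ hquad hroots (s := (s : ℂ)) (by simpa using hs')]
    ring
  rw [one_mul] at h2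
  exact tendsto_nhds_unique h2 h1

/-- places -/
lemma totally_complex {p : ℕ} (hp : p.Prime) {α : K} (hα : α ^ 2 = -(p : K)) :
    IsTotallyComplex K := by
  refine ⟨fun v => ?_⟩
  rw [← InfinitePlace.not_isReal_iff_isComplex]
  intro hv
  have h1 : (InfinitePlace.embedding_of_isReal hv α) ^ 2 = -(p : ℝ) := by
    rw [← map_pow, hα, map_neg, map_natCast]
  have h2 : (0 : ℝ) < p := by exact_mod_cast hp.pos
  nlinarith [sq_nonneg (InfinitePlace.embedding_of_isReal hv α)]

lemma complexPlaces (hK : Module.finrank ℚ K = 2) {p : ℕ} (hp : p.Prime) {α : K}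
    (hα : α ^ 2 = -(p : K)) : InfinitePlace.nrComplexPlaces K = 1 := by
  have := totally_complex hp hα
  have h := IsTotallyComplex.finrank (K := K)
  omega

lemma card_places (hK : Module.finrank ℚ K = 2) {p : ℕ} (hp : p.Prime) {α : K}
    (hα : α ^ 2 = -(p : K)) : Fintype.card (InfinitePlace K) = 1 := by
  have := totally_complex hp hα
  rw [InfinitePlace.card_eq_nrRealPlaces_add_nrComplexPlaces, complexPlaces hK hp hα,
    IsTotallyComplex.nrRealPlaces_eq_zero]

lemma regulator_one (hK : Module.finrank ℚ K = 2) {p : ℕ} (hp : p.Prime) {α : K}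
    (hα : α ^ 2 = -(p : K)) : Units.regulator K = 1 := by
  classical
  have h1 := card_places hK hp hα
  have hr : Units.rank K = 0 := by
    unfold Units.rank
    rw [h1]
  rw [Units.regulator_eq_det']
  have : IsEmpty {w : InfinitePlace K // w ≠ Units.dirichletUnitTheorem.w₀} := by
    rw [Fintype.card_eq_one_iff] at h1
    obtain ⟨x, hx⟩ := h1
    exact ⟨fun w => w.2 (by rw [hx w.1, hx Units.dirichletUnitTheorem.w₀])⟩
  rw [Matrix.det_isEmpty, abs_one]

theorem residue_eq (hK : Module.finrank ℚ K = 2) {p : ℕ} (hp : p.Prime) {α : K}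
    (hα : α ^ 2 = -(p : K)) (htor : Units.torsionOrder K = 2) :
    dedekindZeta_residue K = Real.pi * classNumber K / Real.sqrt |(discr K : ℝ)| := by
  have := totally_complex hp hα
  rw [dedekindZeta_residue_def, htor, regulator_one hK hp hα, complexPlaces hK hp hα,
    IsTotallyComplex.nrRealPlaces_eq_zero]
  push_cast
  rw [pow_zero, pow_one, one_mul, mul_one]
  rw [mul_assoc, mul_div_mul_left _ _ two_ne_zero]

end

end Pool.Agent.H76
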